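import Pool.Agent.GOC.VecO

/-!
# Zero-cycles on the hypersurfaces `det (A(z) - B(z) diag (w_i ^ M_i)) = 0`: definitions

`A(z)`, `B(z)` are `m × m` matrices, `z` is a point of the product of `r` projective lines, and the
entries of the row `l` of the matrices are forms of degree `e l j` in the coordinate `z j`. The
hypersurface `X` lies in the product of `r + m` projective lines. A point of the projective line over
a field `K` is an element of `Option K`. No conditions on the matrices are assumed.

Most statements concern the columns `α_i`, `β_i` of the matrices at a point, so `Col K m` (`2 m`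
vectors over `K`) is used for them. The conditions for `w` are `det (γ_i) = 0`, where
`γ_i = α_i - w_i ^ M_i β_i`; the vectors `γ_i` are the ROWS of the matrix `Matrix.of (C.ga M w)`.
-/

set_option autoImplicit false

noncomputable section

namespace Pool.Agent.DTU

open Pool.Agent.ZCyc Pool.Agent.Dess Pool.Agent.GT Pool.Agent.TInc
open Pool.Agent.HGF (fst snd vlo)
open Pool.Agent.GOC (vo po)
open scoped Classical

/-- the value of the form of degree `e j` in the coordinates `j` with the coefficients `c a` of
`∏ j, S_j ^ (a j)` at the vectors `S j` -/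
def ev {k : Type} [Field k] {r : ℕ} (e : Fin r → ℕ) (c : (Fin r → ℕ) → k) {R : Type} [CommRing R]
    [Algebra k R] (S : Fin r → Fin 2 → R) : R :=
  ∑ a ∈ Fintype.piFinset fun j => Finset.range (e j + 1), algebraMap k R (c a) *
    ∏ j, (S j 0 ^ a j * S j 1 ^ (e j - a j))

/-- The data of a hypersurface: `A l i`, `B l i` are the coefficients of the entries of the matrices
in the row `l` and the column `i`, forms of degree `e l j` in the coordinate `j` of the product of `r`
projective lines; `M i` are the exponents. -/
structure Fam (k : Type) (r m : ℕ) where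
  /-- the degrees of the rows -/
  e : Fin m → Fin r → ℕ
  /-- the coefficients of the matrix `A` -/
  A : Fin m → Fin m → (Fin r → ℕ) → k
  /-- the coefficients of the matrix `B` -/
  B : Fin m → Fin m → (Fin r → ℕ) → k
  /-- the exponents -/
  M : Fin m → ℕ

/-- the columns `a i = α_i`, `b i = β_i` of two `m × m` matrices -/
structure Col (K : Type) (m : ℕ) where
  /-- the columns of the first matrix -/
  a : Fin m → Fin m → K
  /-- the columns of the second matrix -/
  b : Fin m → Fin m → K

/-- the matrix `N = ∑ (p_i β_i β'_i ^ t - q_i α_i α'_i ^ t)` for two families of columns -/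
def Col.N {R : Type} [CommRing R] {m : ℕ} (C C' : Col R m) (p q : Fin m → R) :
    Matrix (Fin m) (Fin m) R :=
  Matrix.of fun l l' => ∑ i, (p i * (C.b i l * C'.b i l') - q i * (C.a i l * C'.a i l'))

/-- the columns `C` over `k` are the values of the columns `D` over `K` at the place `v`, up to the
factors `lam l ≠ 0` of the rows -/
structure Col.Lm {k K : Type} [Field k] [Field K] [Algebra k K] {m : ℕ} (v : Place k K)
    (lam : Fin m → K) (D : Col K m) (C : Col k m) : Prop where
  ne : ∀ l, lam l ≠ 0
  a : ∀ i l, v.At (lam l * D.a i l) (C.a i l)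
  b : ∀ i l, v.At (lam l * D.b i l) (C.b i l)

section Columns

variable {k : Type} [Field k] {m : ℕ}

/-- the columns over an extension field -/
def Col.map (C : Col k m) (K : Type) [Field K] [Algebra k K] : Col K m :=
  ⟨fun i l => algebraMap k K (C.a i l), fun i l => algebraMap k K (C.b i l)⟩

/-- the vector `γ_i = α_i - w_i ^ M_i β_i` (in homogeneous coordinates for `w_i`) -/
def Col.ga (C : Col k m) (M : Fin m → ℕ) (w : Fin m → Option k) (i l : Fin m) : k :=
  C.a i l * snd (w i) ^ M i - C.b i l * fst (w i) ^ M i

/-- the points of the fibre: the vectors `γ_i` are linearly dependent -/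
def Col.On (C : Col k m) (M : Fin m → ℕ) (w : Fin m → Option k) : Prop :=
  (Matrix.of (C.ga M w)).det = 0

/-- a left null vector of `N` (a row of the adjugate matrix which is not zero, if there is one) -/
def nul (N : Matrix (Fin m) (Fin m) k) : Fin m → k :=
  if h : ∃ l, N.adjugate l ≠ 0 then N.adjugate h.choose else 0

end Columns

/-! ### Class functions of two points of two fixed fibres -/

section Fib

variable {k : Type} [Field k] {m : ℕ}

/-- `E` is a class function of a point of the fibre for `C` and a point of the fibre for `C'`, and an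
eigenfunction with the characters `χ` for the multiplication of the coordinates by roots of unity -/
structure FCls [IsAlgClosed k] [CharZero k] {R W : Type} [Field R] [AddCommGroup W] [Module R W]
    (C C' : Col k m) (M : Fin m → ℕ) (χ : Fin m → k → R)
    (E : (Fin m → Option k) → (Fin m → Option k) → W) : Prop where
  cf : ∀ (K : Type) [Field K] [Algebra k K] (hK : IsCurve k K) (w w' : Fin m → Option K) (f : K),
    f ≠ 0 → (C.map K).On M w → (C'.map K).On M w' →
    ((TInc.dv hK f).sum fun v a => a • E (fun i => vlo v (w i)) fun i => vlo v (w' i)) = 0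
  left : ∀ w w' i (u : k), u ^ M i = 1 → E (HYG.rot i u w) w' = χ i u • E w w'
  right : ∀ w w' i (u : k), u ^ M i = 1 → E w (HYG.rot i u w') = χ i u • E w w'

/-- The coordinates `w_i` with `b · α_i = w_i ^ M_i (b · β_i)`. -/
def Col.wb (C : Col k m) (M : Fin m → ℕ) (b : Fin m → k) (i : Fin m) : k :=
  HYG.rt (M i) (b ⬝ᵥ C.a i / b ⬝ᵥ C.b i)

/-- The value of `E` at the pair of the point `w` with `b · α_i = w_i ^ M_i (b · β_i)` and the point
`c / w`; zero if a coordinate `w_i` is `0` or `∞` or not determined. -/
def Eb (C : Col k m) (M : Fin m → ℕ) {W : Type} [AddCommGroup W]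
    (E : (Fin m → Option k) → (Fin m → Option k) → W) (c b : Fin m → k) : W :=
  if ∀ i, b ⬝ᵥ C.a i ≠ 0 ∧ b ⬝ᵥ C.b i ≠ 0 then
    E (fun i => some (C.wb M b i)) (fun i => some (c i / C.wb M b i)) else 0

end Fib

/-! ### The hypersurface -/

section Pt

variable {k : Type} [Field k] {r m : ℕ} (X : Fam k r m)

/-- the columns of the matrices at vectors `S j` -/
def Fam.cv {R : Type} [CommRing R] [Algebra k R] (S : Fin r → Fin 2 → R) : Col R m :=
  ⟨fun i l => ev (X.e l) (X.A l i) S, fun i l => ev (X.e l) (X.B l i) S⟩

variable {K : Type} [Field K] [Algebra k K]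

/-- the columns of the matrices at a point -/
def Fam.col (z : Fin r → Option K) : Col K m := X.cv fun j => vo (z j)

/-- the points of the hypersurface over an extension field -/
def On (z : Fin r → Option K) (w : Fin m → Option K) : Prop := (X.col z).On X.M w

/-- the matrix `N` for two points `z`, `z'`, the products `c_i = w_i w'_i` and the coefficients `θ`:
`N = ∑ θ_i (c_i ^ M_i β_i β'_i ^ t - α_i α'_i ^ t)` -/
def Fam.Nm (θ c : Fin m → K) (z z' : Fin r → Option K) : Matrix (Fin m) (Fin m) K :=
  (X.col z).N (X.col z') (fun i => θ i * c i ^ X.M i) θ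

end Pt

variable {k : Type} [Field k] {r m : ℕ}

/-- `E` is a class function of a point of the hypersurface -/
def IsCF₁ [IsAlgClosed k] [CharZero k] (X : Fam k r m) {W : Type} [AddCommGroup W]
    (E : (Fin r → Option k) → (Fin m → Option k) → W) : Prop :=
  ∀ (K : Type) [Field K] [Algebra k K] (hK : IsCurve k K) (z : Fin r → Option K)
    (w : Fin m → Option K) (f : K), f ≠ 0 → On X z w →
    ((TInc.dv hK f).sum fun v a => a • E (fun i => vlo v (z i)) fun i => vlo v (w i)) = 0

/-- `E` is a class function of two points of the hypersurface -/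
def IsCF₂ [IsAlgClosed k] [CharZero k] (X : Fam k r m) {W : Type} [AddCommGroup W]
    (E : (Fin r → Option k) → (Fin m → Option k) → (Fin r → Option k) → (Fin m → Option k) → W) :
    Prop :=
  ∀ (K : Type) [Field K] [Algebra k K] (hK : IsCurve k K) (z : Fin r → Option K)
    (w : Fin m → Option K) (z' : Fin r → Option K) (w' : Fin m → Option K) (f : K),
    f ≠ 0 → On X z w → On X z' w' →
    ((TInc.dv hK f).sum fun v a => a • E (fun i => vlo v (z i)) (fun i => vlo v (w i))
      (fun i => vlo v (z' i)) fun i => vlo v (w' i)) = 0

/-- `E` is a class function and an eigenfunction with the characters `χ` for the multiplication of the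
coordinates `w_i` by roots of unity -/
structure IsCls₁ [IsAlgClosed k] [CharZero k] {R W : Type} [Field R] [AddCommGroup W] [Module R W]
    (X : Fam k r m) (χ : Fin m → k → R) (E : (Fin r → Option k) → (Fin m → Option k) → W) :
    Prop where
  cf : IsCF₁ X E
  rot : ∀ z w i (u : k), u ^ X.M i = 1 → E z (HYG.rot i u w) = χ i u • E z w

/-- the same for functions of two points -/
structure IsCls₂ [IsAlgClosed k] [CharZero k] {R W : Type} [Field R] [AddCommGroup W] [Module R W]
    (X : Fam k r m) (χ : Fin m → k → R)
    (E : (Fin r → Option k) → (Fin m → Option k) → (Fin r → Option k) → (Fin m → Option k) → W) :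
    Prop where
  cf : IsCF₂ X E
  left : ∀ z w z' w' i (u : k), u ^ X.M i = 1 → E z (HYG.rot i u w) z' w' = χ i u • E z w z' w'
  right : ∀ z w z' w' i (u : k), u ^ X.M i = 1 → E z w z' (HYG.rot i u w') = χ i u • E z w z' w'

/-- the function with the two points exchanged -/
def til {W : Type}
    (E : (Fin r → Option k) → (Fin m → Option k) → (Fin r → Option k) → (Fin m → Option k) → W) :
    (Fin r → Option k) → (Fin m → Option k) → (Fin r → Option k) → (Fin m → Option k) → W :=
  fun z w z' w' => E z' w' z w

/-- The function on the hypersurface `det (X.Nm θ c z z') = 0`: the value `Eb` for the left null vector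
of the matrix; zero if a coordinate of `c` is `0` or `∞` or if the rank of the matrix is at most
`m - 2`. -/
def Ef (X : Fam k r m) {W : Type} [AddCommGroup W]
    (E : (Fin r → Option k) → (Fin m → Option k) → (Fin r → Option k) → (Fin m → Option k) → W)
    (θ : Fin m → k) (c : Fin m → Option k) (z z' : Fin r → Option k) : W :=
  if (∀ i, c i ≠ none ∧ c i ≠ some 0) ∧ (X.Nm θ (fun i => fst (c i)) z z').adjugate ≠ 0 then
    Eb (X.col z) X.M (fun w w' => E z w z' w') (fun i => fst (c i))
      (nul (X.Nm θ (fun i => fst (c i)) z z')) else 0

end Pool.Agent.DTU
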