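import Pool.Agent.DTU.Upd

/-!
# Independence
-/

set_option autoImplicit false

noncomputable section

namespace Pool.Agent.DTU

open Matrix
open Pool.Agent.ZCyc Pool.Agent.Dess Pool.Agent.GT Pool.Agent.TInc
open Pool.Agent.VFP (Om tt)
open Pool.Agent.HGF (fst snd vlo)
open Pool.Agent.GOC (vo po)
open scoped Classical

variable {k : Type} [Field k] [IsAlgClosed k] [CharZero k] {r m : ℕ} {X : Fam k r m}
  {R W : Type} [Field R] [AddCommGroup W] [Module R W] {χ : Fin m → k → R}
  {E : (Fin r → Option k) → (Fin m → Option k) → W}

/-- INDEPENDENCE: a class function which is invariant under the rotations of one coordinate `w i` is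
constant on `X`. PROOF. As `GOY.IsCls₁.ind`: it is enough to compare every point `(z, P)` with one fixed point
over `z₁ = (some 0, ..)`, `w_j = none` (`j ≠ i`); the fixed point is given by `exists_upd`. Path: `z_j(t) = some (GOY.pth (z j) 0)`,
`w_j(t) = GOY.pthN (P j)`, and `w_i(t) : Option (Om k)` with `On X` (`exists_upd`, the field `Om k` is algebraically
closed). At the places above `t = 0` the value of the point differs from `(z, P)` only in the coordinate
`i`, so it has the value `E z P` (`coord_eq`; the value lies on `X` by `onX_vlo`); at `t = 1` it differs from the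
fixed point only in the coordinate `i` (`coord_eq` again). `bridge₁`. (`GOY.pth_zero`, `pth_one`, `pthN_zero`, `pthN_one`
are in `GOY/Pla.lean`.) -/
theorem IsCls₁.ind [CharZero R] (hM : ∀ i, 0 < X.M i)
    (hE : IsCls₁ X χ E) {i : Fin m} (hi : ∀ u, u ^ X.M i = 1 → χ i u = 1)
    {z z' : Fin r → Option k} {P P' : Fin m → Option k} (hP : On X z P) (hP' : On X z' P') :
    E z P = E z' P' := by
  -- the target
  obtain ⟨y₀, hy₀⟩ := exists_upd (X := X) (K := k) (hM i) (fun _ => some 0) (fun _ => none)
  have key : ∀ {z : Fin r → Option k} {P : Fin m → Option k}, On X z P →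
      E z P = E (fun _ => some 0) (Function.update (fun _ => none) i y₀) := by
    intro z P hP
    obtain ⟨y, hy⟩ := exists_upd (X := X) (hM i) (fun j => some (GOY.pth (z j) 0))
      (fun l => GOY.pthN (P l))
    refine bridge₁ hE hy (c₀ := 0) (c₁ := 1) (fun v hv => ?_) (fun v hv => ?_)
    · have h1 := onX_vlo v hy
      have h2 : (fun l => vlo v (Function.update (fun l => GOY.pthN (P l)) i y l)) =
          Function.update P i (vlo v y) := by
        funext l
        by_cases hl : l = i
        · subst hl
          rw [Function.update_self, Function.update_self]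
        · rw [Function.update_of_ne hl, Function.update_of_ne hl]
          exact GOY.pthN_zero hv _
      have h3 : (fun j => vlo v (some (GOY.pth (z j) 0))) = z :=
        funext fun j => GOY.pth_zero hv _ _
      rw [h3, h2] at h1 ⊢
      exact coord_eq hE (hM i) hi hP h1
    · have h1 := onX_vlo v hy
      have h2 : (fun l => vlo v (Function.update (fun l => GOY.pthN (P l)) i y l)) =
          Function.update (fun _ => none) i (vlo v y) := by
        funext l
        by_cases hl : l = i
        · subst hl
          rw [Function.update_self, Function.update_self]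
        · rw [Function.update_of_ne hl, Function.update_of_ne hl]
          exact GOY.pthN_one hv _
      have h3 : (fun j => vlo v (some (GOY.pth (z j) 0))) = fun _ => some 0 :=
        funext fun j => HGF.vlo_at (GOY.pth_one hv _ _)
      rw [h3, h2] at h1 ⊢
      have h4 := coord_eq hE (hM i) hi h1 (y := y₀) (by rwa [Function.update_idem])
      rw [← h4, Function.update_idem]
  rw [key hP, key hP']

/-- MIXED LABELS: by `ind` the function `E` is constant, and `E (rot j u P) = χ j u • E P`. -/
theorem IsCls₁.mixed [CharZero R] (hM : ∀ i, 0 < X.M i)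
    (hE : IsCls₁ X χ E) {i j : Fin m} (hi : ∀ u, u ^ X.M i = 1 → χ i u = 1)
    (hj : ∃ u : k, u ^ X.M j = 1 ∧ χ j u ≠ 1) {z : Fin r → Option k} {P : Fin m → Option k}
    (hP : On X z P) : E z P = 0 := by
  obtain ⟨u, hu, hu1⟩ := hj
  have h1 := hE.ind hM hi (onX_rot hP hu) hP
  rw [hE.rot _ _ _ _ hu] at h1
  have h2 : (χ j u - 1) • E z P = 0 := by rw [sub_smul, one_smul, h1, sub_self]
  exact (smul_eq_zero.1 h2).resolve_left (sub_ne_zero.2 hu1)

end Pool.Agent.DTU
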