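import Pool.Agent.DTU.Base1P

/-!
# One base coordinate: lines on which the form vanishes
-/

set_option autoImplicit false

noncomputable section

namespace Pool.Agent.DTU

open Matrix Polynomial
open Pool.Agent.ZCyc Pool.Agent.Dess Pool.Agent.GT Pool.Agent.TInc
open Pool.Agent.VFP (Om tt)
open Pool.Agent.HGF (fst snd vlo)
open Pool.Agent.GOC (vo po mv es)
open scoped Classical

variable {k : Type} [Field k] [IsAlgClosed k] [CharZero k] {m : ℕ} {X : Fam k 1 m}
  {R W : Type} [Field R] [AddCommGroup W] [Module R W] {χ : Fin m → k → R}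
  {E : (Fin 1 → Option k) → (Fin m → Option k) → (Fin 1 → Option k) → (Fin m → Option k) → W}
  {θ c : Fin m → k} {i : Fin m} {D₀ D₁ : (Fin 1 → Fin 3) → (Fin 1 → Fin 3) → k}

omit [IsAlgClosed k] [CharZero k] in
/-- the determinant over the field of definition -/
private theorem det_below_Base1L {θ c : Fin m → k} {K : IntermediateField k (Om k)}
    {a a' : Option K} {z z' : Option (Om k)} (ha : a.map K.val = z) (ha' : a'.map K.val = z')
    (h : (X.Nm (fun i => algebraMap k (Om k) (θ i)) (fun i => algebraMap k (Om k) (c i))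
      (fun _ => z) fun _ => z').det = 0) :
    (X.Nm (fun i => algebraMap k K (θ i)) (fun i => algebraMap k K (c i))
      (fun _ => a) fun _ => a').det = 0 := by
  subst ha ha'
  apply (map_eq_zero_iff K.val (K.val : K →+* Om k).injective).1
  rw [AlgHom.map_det, ← h]
  congr 1
  ext l l'
  rw [AlgHom.mapMatrix_apply, Matrix.map_apply, ← Nm_map]
  rfl

omit [IsAlgClosed k] [CharZero k] in
/-- places over the given values of the parameter -/
private theorem line_at_Base1L {v : Place k (Om k)} {t : k} (hv : v.At (tt k) t) (x y : k) :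
    v.At ((1 - tt k) * algebraMap k (Om k) x + tt k * algebraMap k (Om k) y)
      ((1 - t) * x + t * y) := by
  have h1 : v.At (1 : Om k) 1 := by
    have h2 : v.At (algebraMap k (Om k) 1) 1 := Place.at_const 1
    rwa [map_one] at h2
  exact ((h1.sub hv).mul (Place.at_const x)).add (hv.mul (Place.at_const y))

/-- A LINE ON WHICH `Q` VANISHES. Let `e`, `h` be linearly independent and `Q(x e + y h) = 0` for all `x`, `y`. Then `Ze` has the same value at `e` and `h`.
PROOF. Over `Om k`, `t = tt k`: `e(t) = (1 - t) e + t h`, `es S S' = e(t)` (`GOC.exists_es`), `S`, `S' ≠ 0`. The determinants for the constants `c` at `(po S, po S')`, `(po S', po S)` are zero (`IsD.det` with `x = c i`;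
`Function.update_eq_self`). The sum of the two functions `Ef` at the values is a class function; comparison of `t = 0` and `t = 1`: as `Ef_bridge` for the sum of the two functions (`ARS.exists_fld` for the
field of definition of the coordinates of `S`, `S'`; `ARS.bridge_core`; `Ef_cf` twice), at the places above `t = 0` the sum of the values is `Ze` at `e`, above `t = 1` it is `Ze` at `h` (`Ze_vlo` with `a = 1`). -/
theorem Ze_line [CharZero R] (hM : ∀ i, 0 < X.M i) (hχ : HYG.Chars X.M χ) (hE : IsCls₂ X χ E)
    (hθ : ∀ i, θ i ≠ 0) (hc : ∀ i, c i ≠ 0) (hD : IsD X θ c i D₀ D₁) {e h : Fin 3 → k}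
    (hi : ∀ x y : k, (∀ i, x * e i + y * h i = 0) → x = 0 ∧ y = 0)
    (hQ : ∀ (R : Type) [CommRing R] [Algebra k R] (x y : R),
      qf D₀ (fun l => x * algebraMap k R (e l) + y * algebraMap k R (h l)) +
        algebraMap k R (θ i * c i ^ X.M i) *
          qf D₁ (fun l => x * algebraMap k R (e l) + y * algebraMap k R (h l)) = 0) :
    Ze X E θ (fun i => some (c i)) e = Ze X E θ (fun i => some (c i)) h := by
  have hm : 0 < m := i.pos
  have he : e ≠ 0 := by
    rintro rfl
    exact one_ne_zero (hi 1 0 fun i => by simp).1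
  have hh : h ≠ 0 := by
    rintro rfl
    exact one_ne_zero (hi 0 1 fun i => by simp).2
  obtain ⟨S, S', hS⟩ := GOC.exists_es (K := Om k)
    fun l => (1 - tt k) * algebraMap k (Om k) (e l) + tt k * algebraMap k (Om k) (h l)
  have hat0 : ∀ v : Place k (Om k), v.At (tt k) 0 → ∀ l, v.At (es S S' l) (e l) := by
    intro v hv l
    have h1 := line_at_Base1L hv (e l) (h l)
    rw [hS]
    have h2 : (1 - (0 : k)) * e l + 0 * h l = e l := by ring
    rw [h2] at h1
    exact h1
  have hat1 : ∀ v : Place k (Om k), v.At (tt k) 1 → ∀ l, v.At (es S S' l) (h l) := by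
    intro v hv l
    have h1 := line_at_Base1L hv (e l) (h l)
    rw [hS]
    have h2 : (1 - (1 : k)) * e l + 1 * h l = h l := by ring
    rw [h2] at h1
    exact h1
  have hne : es S S' ≠ 0 := by
    intro h0
    obtain ⟨v, hv⟩ := HYG.exists_place_tt (k := k) 0
    apply he
    funext l
    have h1 := hat0 v hv l
    rw [h0] at h1
    have h2 : v.At (0 : Om k) 0 := Place.at_zero_iff.2 v.vanishes_zero
    exact h1.unique h2
  have hS0 : S ≠ 0 := by
    rintro rfl
    apply hne
    funext l
    fin_cases l <;> simp [es]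
  have hS1 : S' ≠ 0 := by
    rintro rfl
    apply hne
    funext l
    fin_cases l <;> simp [es]
  have hq : qf D₀ (es S S') + algebraMap k (Om k) (θ i) * algebraMap k (Om k) (c i) ^ X.M i *
      qf D₁ (es S S') = 0 := by
    have h1 := hQ (Om k) (1 - tt k) (tt k)
    rw [map_mul, map_pow] at h1
    rw [hS]
    exact h1
  have hup : Function.update (fun l => algebraMap k (Om k) (c l)) i (algebraMap k (Om k) (c i)) =
      fun l => algebraMap k (Om k) (c l) := Function.update_eq_self _ _
  have hdet := hD.det hS0 hS1 (algebraMap k (Om k) (c i)) hq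
  have hdet' := hD.det hS1 hS0 (algebraMap k (Om k) (c i)) (by rw [GOC.es_swap]; exact hq)
  rw [hup] at hdet hdet'
  -- the field of definition
  obtain ⟨K, hK, hΓ, htt⟩ := ARS.exists_fld ((po S).toFinset ∪ (po S').toFinset)
  obtain ⟨a, ha⟩ := ARS.lift_opt (K := K) (po S) fun f hf => hΓ (by
    rw [Finset.mem_coe, Finset.mem_union]
    exact Or.inl (Option.mem_toFinset.2 hf))
  obtain ⟨a', ha'⟩ := ARS.lift_opt (K := K) (po S') fun f hf => hΓ (by
    rw [Finset.mem_coe, Finset.mem_union]
    exact Or.inr (Option.mem_toFinset.2 hf))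
  have hW : ∀ (n : ℕ) (x : W), n ≠ 0 → n • x = 0 → x = 0 := by
    intro n x hn hx
    rw [← Nat.cast_smul_eq_nsmul R] at hx
    exact (smul_eq_zero.1 hx).resolve_left (Nat.cast_ne_zero.2 hn)
  have hc' : ∀ i, algebraMap k K (c i) ≠ 0 := fun i =>
    (_root_.map_ne_zero _).2 (hc i)
  have hcc : ∀ v : Place k K, (fun i => vlo v (some (algebraMap k K (c i)))) =
      fun i => some (c i) := fun v => funext fun i => HGF.vlo_const v (some (c i))
  refine ARS.bridge_core hW hK htt (c₀ := 0) (c₁ := 1)
    (fun v => Ef X E θ (fun i => some (c i)) (fun _ => vlo v (po S)) (fun _ => vlo v (po S')) +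
      Ef X E θ (fun i => some (c i)) (fun _ => vlo v (po S')) (fun _ => vlo v (po S)))
    (fun v => Ef X E θ (fun i => some (c i)) (fun _ => vlo v a) (fun _ => vlo v a') +
      Ef X E θ (fun i => some (c i)) (fun _ => vlo v a') (fun _ => vlo v a))
    (fun V v hV => ?_) (fun f hf => ?_) (fun v hv => ?_) (fun v hv => ?_)
  · have e1 : vlo V (po S) = vlo v a := by rw [← ha, HGF.vlo_alg hV]
    have e2 : vlo V (po S') = vlo v a' := by rw [← ha', HGF.vlo_alg hV]
    rw [e1, e2]
  · have h1 := Ef_cf hm hM hχ hE hθ hK hc' (det_below_Base1L ha ha' hdet) hf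
    have h2 := Ef_cf hm hM hχ hE hθ hK hc' (det_below_Base1L ha' ha hdet') hf
    simp only [hcc] at h1 h2
    simp only [smul_add]
    rw [Finsupp.sum_add, h1, h2, add_zero]
  · exact (Ze_vlo hS0 hS1 (a := 1) he fun l => by rw [one_mul]; exact hat0 v hv l).symm
  · exact (Ze_vlo hS0 hS1 (a := 1) hh fun l => by rw [one_mul]; exact hat1 v hv l).symm

end Pool.Agent.DTU
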