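import Pool.Agent.DTU.Base1T
import Pool.Agent.DTU.Base1L

/-!
# One base coordinate: `Ef` is antisymmetric
-/

set_option autoImplicit false

noncomputable section

namespace Pool.Agent.DTU

open Matrix Polynomial
open Pool.Agent.ZCyc Pool.Agent.Dess Pool.Agent.GT Pool.Agent.TInc
open Pool.Agent.HGF (fst snd vlo)
open Pool.Agent.GOC (vo po mv es)
open scoped Classical

variable {k : Type} [Field k] [IsAlgClosed k] [CharZero k] {m : ℕ} {X : Fam k 1 m}
  {R W : Type} [Field R] [AddCommGroup W] [Module R W] {χ : Fin m → k → R}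
  {E : (Fin 1 → Option k) → (Fin m → Option k) → (Fin 1 → Option k) → (Fin m → Option k) → W}

/-- the form of the pencil -/
private theorem qf_add_Base1M {k : Type} [Field k]
    (D₀ D₁ : (Fin 1 → Fin 3) → (Fin 1 → Fin 3) → k) (p : k) {R : Type} [CommRing R]
    [Algebra k R] (e : Fin 3 → R) :
    qf (fun a b => D₀ a b + p * D₁ a b) e = qf D₀ e + algebraMap k R p * qf D₁ e := by
  unfold qf
  simp only [map_add, map_mul]
  ring

/-- `Ze` IS ZERO. PROOF. `Q = Q₀ + p Q₁` is `qf D` for `D a b = D₀ a b + p * D₁ a b`, `p = θ_i c_i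
^ M_i`. Take `h` from `exists_tan`. If `Q(h) ≠ 0`: `Ze_tan`. If `Q(h) = 0` then `Q` vanishes on
the line of `e` and `h`; take `x`, `y` from `exists_zero` for `Q₁`, `e' = x e + y h`, so `Q₁(e') =
0`, `Q(e') = 0`, `Q₀(e') = 0` and `Ze` is zero at `e'` (`Ze_mov`). If `y = 0` then `e' = x e`,
`Ze_smul`. If `y ≠ 0` then `e`, `e'` are linearly independent and `Ze_line` for `e`, `e'`. -/
theorem Ze_zero [CharZero R] (hM : ∀ i, 0 < X.M i) (hχ : HYG.Chars X.M χ) (hE : IsCls₂ X χ E)
    {θ c : Fin m → k} {i : Fin m} {D₀ D₁ : (Fin 1 → Fin 3) → (Fin 1 → Fin 3) → k}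
    (hθ : ∀ i, θ i ≠ 0) (hc : ∀ i, c i ≠ 0) (hD : IsD X θ c i D₀ D₁) {e : Fin 3 → k} (he : e ≠ 0)
    (h : qf D₀ e + θ i * c i ^ X.M i * qf D₁ e = 0) : Ze X E θ (fun i => some (c i)) e = 0 := by
  obtain ⟨p, hp⟩ : ∃ p, p = θ i * c i ^ X.M i := ⟨_, rfl⟩
  have h0 : qf (fun a b => D₀ a b + p * D₁ a b) e = 0 := by
    rw [qf_add_Base1M, hp]
    exact h
  obtain ⟨f, hf, hQ⟩ := exists_tan (fun a b => D₀ a b + p * D₁ a b) he h0
  by_cases hfz : qf (fun a b => D₀ a b + p * D₁ a b) f = 0
  · -- the form vanishes on the line of `e`, `f`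
    obtain ⟨x, y, hxy, h1⟩ := exists_zero D₁ e f
    have h2 : qf D₀ (fun l => x * e l + y * f l) = 0 := by
      have h3 := hQ k x y
      rw [hfz, map_zero, mul_zero, qf_add_Base1M] at h3
      have h4 : (fun l => x * algebraMap k k (e l) + y * algebraMap k k (f l)) =
          fun l => x * e l + y * f l := rfl
      rw [h4, h1, mul_zero, add_zero] at h3
      exact h3
    have h3 := Ze_mov hM hχ hE hθ hc hD h2 h1
    by_cases hy : y = 0
    · have hx : x ≠ 0 := hxy.resolve_right fun h => h hy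
      have h4 : (fun l => x * e l + y * f l) = fun l => x * e l := by
        funext l
        rw [hy, zero_mul, add_zero]
      rw [h4, Ze_smul hx] at h3
      exact h3
    · rw [← h3]
      refine Ze_line hM hχ hE hθ hc hD ?_ ?_
      · intro a b hab
        have h4 := hf (a + b * x) (b * y) fun l => by
          have h5 := hab l
          linear_combination h5
        have hb : b = 0 := (mul_eq_zero.1 h4.2).resolve_right hy
        refine ⟨?_, hb⟩
        have h5 := h4.1
        rw [hb, zero_mul, add_zero] at h5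
        exact h5
      · intro R _ _ a b
        rw [← hp, ← qf_add_Base1M]
        have h4 : (fun l => a * algebraMap k R (e l) + b * algebraMap k R (x * e l + y * f l)) =
            fun l => (a + b * algebraMap k R x) * algebraMap k R (e l) +
              b * algebraMap k R y * algebraMap k R (f l) := by
          funext l
          rw [map_add, map_mul, map_mul]
          ring
        rw [h4, hQ, hfz, map_zero, mul_zero]
  · refine Ze_tan hM hχ hE hθ hc hD hf ?_ ?_
    · intro R _ _ T
      have h1 := hQ R 1 T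
      rw [qf_add_Base1M, qf_add_Base1M] at h1
      rw [← hp]
      have h2 : (fun l => 1 * algebraMap k R (e l) + T * algebraMap k R (f l)) =
          fun l => algebraMap k R (e l) + T * algebraMap k R (f l) := by
        funext l
        rw [one_mul]
      rw [h2] at h1
      exact h1
    · rw [qf_add_Base1M] at hfz
      rw [← hp]
      exact hfz

/-- THE ANTISYMMETRY for one base coordinate. PROOF. `IsD` for the index `i` by `exists_Nm`. Let
`S = vo (z 0)`, `T = vo (z' 0)`, `e = es S T ≠ 0`. The determinant is `Q(e)` (`qf_es`,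
`Function.update_eq_self`), so `Ze_zero`, and `Ze_es` with `ρ = 1`, `po (vo x) = x`, `z = fun _ =>
z 0`. -/
theorem base1 [CharZero R] (he : ∀ j, ∑ l, X.e l j = 2) (hM : ∀ i, 0 < X.M i)
    (hχ : HYG.Chars X.M χ) (hE : IsCls₂ X χ E) {θ c : Fin m → k} (hθ : ∀ i, θ i ≠ 0)
    (hc : ∀ i, c i ≠ 0) (i : Fin m) {z z' : Fin 1 → Option k} (h : (X.Nm θ c z z').det = 0) :
    Ef X E θ (fun i => some (c i)) z z' + Ef X E θ (fun i => some (c i)) z' z = 0 := by
  obtain ⟨D₀, D₁, hs₀, hs₁, hN⟩ := exists_Nm X he θ c i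
  have hD : IsD X θ c i D₀ D₁ := ⟨hs₀, hs₁, hN⟩
  have hz : z = fun _ => po (vo (z 0)) := by
    funext j
    rw [GOC.po_vo, Subsingleton.elim j 0]
  have hz' : z' = fun _ => po (vo (z' 0)) := by
    funext j
    rw [GOC.po_vo, Subsingleton.elim j 0]
  have hv : (fun j => vo (z j)) = fun _ : Fin 1 => vo (z 0) := by
    funext j
    rw [Subsingleton.elim j 0]
  have hv' : (fun j => vo (z' j)) = fun _ : Fin 1 => vo (z' 0) := by
    funext j
    rw [Subsingleton.elim j 0]
  have hup : Function.update (fun i => algebraMap k k (c i)) i (c i) = c :=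
    Function.update_eq_self _ _
  have h1 := hN k z z' (c i)
  rw [hup, hv, hv', ← qf_es hs₀, ← qf_es hs₁] at h1
  have h2 : qf D₀ (es (vo (z 0)) (vo (z' 0))) +
      θ i * c i ^ X.M i * qf D₁ (es (vo (z 0)) (vo (z' 0))) = 0 := by
    have h3 : (X.Nm (fun i => algebraMap k k (θ i)) c z z').det = 0 := h
    rw [h3] at h1
    exact h1.symm
  have h4 := Ze_zero hM hχ hE hθ hc hD (GOC.es_ne (GOC.vo_ne _) (GOC.vo_ne _)) h2
  rw [Ze_es (GOC.vo_ne (z 0)) (GOC.vo_ne (z' 0)) one_ne_zero (by
    funext l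
    rw [one_mul]), ← hz, ← hz'] at h4
  exact h4

end Pool.Agent.DTU
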