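import Pool.Agent.DTU.FVEb

/-!
# The relation between the left and the right null vector for `m = 1`
-/

set_option autoImplicit false

noncomputable section

namespace Pool.Agent.DTU

open Matrix
open Pool.Agent.ZCyc Pool.Agent.Dess Pool.Agent.GT Pool.Agent.TInc
open Pool.Agent.HGF (fst snd vlo)
open scoped Classical

variable {k : Type} [Field k] [IsAlgClosed k] [CharZero k] {C C' : Col k 1}
  {M : Fin 1 → ℕ} {R W : Type} [Field R] [AddCommGroup W] [Module R W] {χ : Fin 1 → k → R}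
  {E : (Fin 1 → Option k) → (Fin 1 → Option k) → W}

/-! ### Auxiliary lemmas -/

omit [IsAlgClosed k] [CharZero k] in
private theorem dot_FOneC (v u : Fin 1 → k) (_ : Fin 1) : v ⬝ᵥ u = v 0 * u 0 := by
  rw [dotProduct, Fin.sum_univ_one]

omit [IsAlgClosed k] [CharZero k] in
private theorem ne_FOneC {b : Fin 1 → k} (hb : b ≠ 0) : b 0 ≠ 0 := by
  intro h
  apply hb
  funext i
  rw [Subsingleton.elim i 0, h]
  rfl

omit [IsAlgClosed k] [CharZero k] in
/-- the relation between the four numbers -/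
private theorem rel_FOneC {c q : Fin 1 → k} (hq : ∀ i, q i ≠ 0) {b : Fin 1 → k} (hb : b ≠ 0)
    (h : b ᵥ* C.N C' (fun i => q i * c i ^ M i) q = 0) :
    c 0 ^ M 0 * (C.b 0 0 * C'.b 0 0) = C.a 0 0 * C'.a 0 0 := by
  have h1 := congrFun h 0
  rw [Matrix.vecMul, dot_FOneC _ _ 0] at h1
  simp only [Col.N, Matrix.of_apply, Fin.sum_univ_one, Pi.zero_apply] at h1
  have h2 := (mul_eq_zero.1 h1).resolve_left (ne_FOneC hb)
  have h3 : q 0 * (c 0 ^ M 0 * (C.b 0 0 * C'.b 0 0) - C.a 0 0 * C'.a 0 0) = 0 := by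
    rw [← h2]
    ring
  exact sub_eq_zero.1 ((mul_eq_zero.1 h3).resolve_left (hq 0))

/-- one of the numbers of the first fibre is zero: the value for the second fibre is zero -/
private theorem zero_FOneC [CharZero R] (hM : ∀ i, 0 < M i) (hχ : HYG.Chars M χ)
    (hE : FCls C C' M χ E) {c : Fin 1 → k} {b : Fin 1 → k} (hb : b ≠ 0)
    (ha : C'.a 0 0 = 0) (hb' : C'.b 0 0 = 0) : Eb C M E c b = 0 := by
  by_contra hne
  have hab := fun j => Eb_ne hne j
  obtain ⟨w, hw, hwb⟩ := exists_w hM hab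
  apply hne
  rw [Eb_eq hM hχ hE hw hwb fun i => (hab i).2]
  refine FCls.free_right hM hχ hE (i := 0) (on_left hb hwb) ?_
  refine on_free hb ?_ ?_ ?_
  · rw [dot_FOneC _ _ 0, ha, mul_zero]
  · rw [dot_FOneC _ _ 0, hb', mul_zero]
  · intro j hj
    exact absurd (Subsingleton.elim j 0) hj

/-- `m = 1`. All vectors have one component; write `α = C.a 0 0`, `β = C.b 0 0`, `α'`, `β'`. `b N = 0` says `P β β' = α α'` with
`P = c_0 ^ M_0 ≠ 0` (`q_0 ≠ 0`, `b ≠ 0`). If all four numbers are different from zero choose `w ≠ 0` with `w ^ M_0 β = α`, `w' = c_0 / w`; then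
`w' ^ M_0 β' = α'`, and both sides are `E w w'` (`Eb_eq` for `E` and for the exchanged function, `hE.swap`, `c_0 / w' = w`). If one of them is zero then one of `α`, `α'` and one of
`β`, `β'` is zero. Case `α = 0`, `β' = 0` or `α' = 0`, `β = 0`: both sides are zero (`Eb_zero`). Case `α = β = 0`: the right side is zero. If the left side is
not zero then it is `E (c / w') w'` for the coordinate `w'` of a point of the second fibre (`exists_w`, `on_left`), and the first
point is arbitrary (the determinant of the `1 × 1` matrix `γ_0 = 0`), so it is zero by `free_left`. Case `α' = β' = 0`: similarly. -/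
theorem chain_one [CharZero R] (hM : ∀ i, 0 < M i) (hχ : HYG.Chars M χ) (hE : FCls C C' M χ E)
    {c q : Fin 1 → k} (hc : ∀ i, c i ≠ 0) (hq : ∀ i, q i ≠ 0) {b y : Fin 1 → k} (hb : b ≠ 0)
    (hy : y ≠ 0) (h : b ᵥ* C.N C' (fun i => q i * c i ^ M i) q = 0) :
    Eb C' M (fun w w' => E w' w) c y = Eb C M E c b := by
  have hb0 := ne_FOneC hb
  have hy0 := ne_FOneC hy
  have hrel := rel_FOneC hq hb h
  have hP : c 0 ^ M 0 ≠ 0 := pow_ne_zero _ (hc 0)
  have hai : ∀ i : Fin 1, i = 0 := fun i => Subsingleton.elim i 0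
  by_cases h1 : C.a 0 0 = 0 ∨ C.b 0 0 = 0
  · have hl : Eb C M E c b = 0 := by
      refine Eb_zero (i := 0) ?_
      rcases h1 with h1 | h1
      · exact Or.inl (by rw [dot_FOneC _ _ 0, h1, mul_zero])
      · exact Or.inr (by rw [dot_FOneC _ _ 0, h1, mul_zero])
    rw [hl]
    by_cases h2 : C'.a 0 0 = 0 ∨ C'.b 0 0 = 0
    · refine Eb_zero (i := 0) ?_
      rcases h2 with h2 | h2
      · exact Or.inl (by rw [dot_FOneC _ _ 0, h2, mul_zero])
      · exact Or.inr (by rw [dot_FOneC _ _ 0, h2, mul_zero])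
    · have h2a : C'.a 0 0 ≠ 0 := fun h3 => h2 (Or.inl h3)
      have h2b : C'.b 0 0 ≠ 0 := fun h3 => h2 (Or.inr h3)
      have h3 : C.a 0 0 = 0 ∧ C.b 0 0 = 0 := by
        rcases h1 with h1 | h1
        · refine ⟨h1, ?_⟩
          rw [h1, zero_mul] at hrel
          exact (mul_eq_zero.1 ((mul_eq_zero.1 hrel).resolve_left hP)).resolve_right h2b
        · refine ⟨?_, h1⟩
          rw [h1, zero_mul, mul_zero] at hrel
          exact (mul_eq_zero.1 hrel.symm).resolve_right h2a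
      exact zero_FOneC hM hχ hE.swap hy h3.1 h3.2
  · have h1a : C.a 0 0 ≠ 0 := fun h3 => h1 (Or.inl h3)
    have h1b : C.b 0 0 ≠ 0 := fun h3 => h1 (Or.inr h3)
    by_cases h2 : C'.a 0 0 = 0 ∨ C'.b 0 0 = 0
    · have h3 : C'.a 0 0 = 0 ∧ C'.b 0 0 = 0 := by
        rcases h2 with h2 | h2
        · refine ⟨h2, ?_⟩
          rw [h2, mul_zero] at hrel
          exact (mul_eq_zero.1 ((mul_eq_zero.1 hrel).resolve_left hP)).resolve_left h1b
        · refine ⟨?_, h2⟩
          rw [h2, mul_zero, mul_zero] at hrel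
          exact (mul_eq_zero.1 hrel.symm).resolve_left h1a
      rw [zero_FOneC hM hχ hE hb h3.1 h3.2]
      exact Eb_zero (i := 0) (Or.inl (by rw [dot_FOneC _ _ 0, h3.1, mul_zero]))
    · have h2a : C'.a 0 0 ≠ 0 := fun h3 => h2 (Or.inl h3)
      have h2b : C'.b 0 0 ≠ 0 := fun h3 => h2 (Or.inr h3)
      have hab : ∀ i, b ⬝ᵥ C.a i ≠ 0 ∧ b ⬝ᵥ C.b i ≠ 0 := by
        intro i
        rw [hai i, dot_FOneC _ _ 0, dot_FOneC _ _ 0]
        exact ⟨mul_ne_zero hb0 h1a, mul_ne_zero hb0 h1b⟩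
      have hab' : ∀ i, y ⬝ᵥ C'.a i ≠ 0 ∧ y ⬝ᵥ C'.b i ≠ 0 := by
        intro i
        rw [hai i, dot_FOneC _ _ 0, dot_FOneC _ _ 0]
        exact ⟨mul_ne_zero hy0 h2a, mul_ne_zero hy0 h2b⟩
      obtain ⟨w, hw, hwb⟩ := exists_w hM hab
      have hw1 : w 0 ^ M 0 * C.b 0 0 = C.a 0 0 := by
        have h3 := hwb 0
        rw [dot_FOneC _ _ 0, dot_FOneC _ _ 0] at h3
        refine mul_left_cancel₀ hb0 ?_
        linear_combination h3
      have hw' : ∀ i, c i / w i ≠ 0 := fun i => div_ne_zero (hc i) (hw i)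
      have hwM : w 0 ^ M 0 ≠ 0 := pow_ne_zero _ (hw 0)
      have hw2 : (c 0 / w 0) ^ M 0 * C'.b 0 0 = C'.a 0 0 := by
        rw [div_pow, div_mul_eq_mul_div, div_eq_iff hwM]
        refine mul_left_cancel₀ h1b ?_
        linear_combination hrel - C'.a 0 0 * hw1
      have hwb' : ∀ i, (c i / w i) ^ M i * (y ⬝ᵥ C'.b i) = y ⬝ᵥ C'.a i := by
        intro i
        rw [hai i, dot_FOneC _ _ 0, dot_FOneC _ _ 0]
        linear_combination y 0 * hw2
      rw [Eb_eq hM hχ hE hw hwb fun i => (hab i).2,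
        Eb_eq hM hχ hE.swap hw' hwb' fun i => (hab' i).2]
      have h4 : (fun i => some (c i / (c i / w i))) = fun i => some (w i) := by
        funext i
        rw [div_div_cancel₀ (hc i)]
      rw [h4]

end Pool.Agent.DTU
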