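import Pool.Agent.DTU.FRedA

/-!
# Reduction of the size of the matrices: fibres with a fixed first coordinate
-/

set_option autoImplicit false

noncomputable section

namespace Pool.Agent.DTU

open Matrix
open Pool.Agent.ZCyc Pool.Agent.Dess Pool.Agent.GT Pool.Agent.TInc
open Pool.Agent.HGF (fst snd vlo)
open scoped Classical

variable {k : Type} [Field k] [IsAlgClosed k] [CharZero k] {m : ℕ} {C C' : Col k (m + 1)}
  {M : Fin (m + 1) → ℕ} {S S' : Matrix (Fin (m + 1)) (Fin (m + 1)) k}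
  {R W : Type} [Field R] [AddCommGroup W] [Module R W] {χ : Fin (m + 1) → k → R}
  {E : (Fin (m + 1) → Option k) → (Fin (m + 1) → Option k) → W}

theorem chars_red (hχ : HYG.Chars M χ) :
    HYG.Chars (fun i : Fin m => M i.succ) fun i => χ i.succ :=
  ⟨fun i => hχ.mul i.succ, fun i => hχ.nontriv i.succ, fun i => hχ.one i.succ⟩

omit [IsAlgClosed k] [CharZero k] in
private theorem cons_rot_FRed (x : Option k) (i : Fin m) (u : k) (w : Fin m → Option k) :
    (Fin.cons x (HYG.rot i u w) : Fin (m + 1) → Option k) =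
      HYG.rot i.succ u (Fin.cons x w : Fin (m + 1) → Option k) := by
  unfold HYG.rot
  rw [Fin.cons_update, Fin.cons_succ]

omit [IsAlgClosed k] [CharZero k] in
private theorem cons_vlo_FRed {K : Type} [Field K] [Algebra k K] (v : Place k K) (x : k)
    (w : Fin m → Option K) :
    (fun i => vlo v ((Fin.cons (some (algebraMap k K x)) w : Fin (m + 1) → Option K) i)) =
      (Fin.cons (some x) (fun i => vlo v (w i)) : Fin (m + 1) → Option k) := by
  funext i
  refine Fin.cases ?_ (fun j => ?_) i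
  · rw [Fin.cons_zero, Fin.cons_zero]
    exact HGF.vlo_const v (some x)
  · rw [Fin.cons_succ, Fin.cons_succ]

omit [IsAlgClosed k] [CharZero k] in
private theorem cons_some_FRed (x : k) (w : Fin m → k) :
    (fun i => some ((Fin.cons x w : Fin (m + 1) → k) i)) =
      (Fin.cons (some x) (fun i => some (w i)) : Fin (m + 1) → Option k) := by
  funext i
  refine Fin.cases ?_ (fun j => ?_) i
  · rw [Fin.cons_zero, Fin.cons_zero]
  · rw [Fin.cons_succ, Fin.cons_succ]

/-- the class function with the first coordinates `ω`, `ω'` (`on_red`; `Fin.cons (some ω) (rot i u w) = rot i.succ u (Fin.cons (some ω) w)`; the values of the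
constants: `HGF.vlo_const`) -/
theorem cls_red (hE : FCls C C' M χ E) (hS : S.det ≠ 0) (hS' : S'.det ≠ 0) {ω ω' : k}
    (hg : S *ᵥ (C.a 0 - ω ^ M 0 • C.b 0) = Pi.single 0 1)
    (hg' : S' *ᵥ (C'.a 0 - ω' ^ M 0 • C'.b 0) = Pi.single 0 1) :
    FCls (C.red S) (C'.red S') (fun i => M i.succ) (fun i => χ i.succ)
      fun w w' => E (Fin.cons (some ω) w) (Fin.cons (some ω') w') := by
  constructor
  · intro K _ _ hK w w' f hf h h'
    have h1 := hE.cf K hK _ _ f hf ((on_red hS hg).1 h) ((on_red hS' hg').1 h')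
    simp only [cons_vlo_FRed] at h1
    exact h1
  · intro w w' i u hu
    show E (Fin.cons (some ω) (HYG.rot i u w)) (Fin.cons (some ω') w') = _
    rw [cons_rot_FRed]
    exact hE.left _ _ i.succ u hu
  · intro w w' i u hu
    show E (Fin.cons (some ω) w) (Fin.cons (some ω') (HYG.rot i u w')) = _
    rw [cons_rot_FRed]
    exact hE.right _ _ i.succ u hu

/-- THE FUNCTION `Eb`. Let `b = (0, b₁) S`, `b₁ ≠ 0`, `b₁ N₁ = 0`, and `ω ω' = c_0`.
PROOF. By `dot_red_a`, `dot_red_b` the conditions for `i ≥ 1` are the same on both sides; if one of the scalar products is zero then both sides are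
zero (`Eb_zero`). Otherwise take `w` from `exists_w` for the reduced columns. `b · α_0 = ω ^ M_0 (b · β_0)` (`dot_red_g`). If
`b · β_0 ≠ 0` then both sides are `E (ω, w) (ω', c / w)` (`Eb_eq` for `Fin.cons ω w` and for `w`; `c_0 / ω = ω'`). If `b · β_0 = 0` then the left side is zero
(`Eb_zero`), and the right side is `E (ω, w) (ω', c / w)`, where the point `(ω', c / w)` lies on the second fibre (`on_right` for the reduced
columns and any index `i`, `q_i (b · α_i) ≠ 0` (`m ≠ 0` since `b₁ ≠ 0`), `on_red` for `K = k`), and the coordinate `0` of the first point is arbitrary (`on_free`: `b · α_0 = b · β_0 = 0`), so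
it is zero by `free_left`. -/
theorem Eb_red [CharZero R] (hM : ∀ i, 0 < M i) (hχ : HYG.Chars M χ) (hE : FCls C C' M χ E)
    {c q : Fin (m + 1) → k} (hc : ∀ i, c i ≠ 0) (hq : ∀ i, q i ≠ 0) (hS : S.det ≠ 0)
    (hS' : S'.det ≠ 0) {ω ω' : k} (hω : ω * ω' = c 0)
    (hg : S *ᵥ (C.a 0 - ω ^ M 0 • C.b 0) = Pi.single 0 1)
    (hg' : S' *ᵥ (C'.a 0 - ω' ^ M 0 • C'.b 0) = Pi.single 0 1) {b₁ : Fin m → k} (hb : b₁ ≠ 0)
    (h : b₁ ᵥ* (C.red S).N (C'.red S') (fun i => q i.succ * c i.succ ^ M i.succ)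
      (fun i => q i.succ) = 0) :
    Eb C M E c ((Fin.cons 0 b₁ : Fin (m + 1) → k) ᵥ* S) =
      Eb (C.red S) (fun i => M i.succ) (fun w w' => E (Fin.cons (some ω) w) (Fin.cons (some ω') w'))
        (fun i => c i.succ) b₁ := by
  have hM1 : ∀ i : Fin m, 0 < M i.succ := fun i => hM i.succ
  have hE1 := cls_red hE hS hS' hg hg'
  have hω0 : ω ≠ 0 := by
    rintro rfl
    exact hc 0 (by rw [← hω, zero_mul])
  have hω' : c 0 / ω = ω' := by
    rw [← hω, mul_div_cancel_left₀ _ hω0]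
  by_cases hz : ∃ i : Fin m, b₁ ⬝ᵥ (C.red S).a i = 0 ∨ b₁ ⬝ᵥ (C.red S).b i = 0
  · obtain ⟨i, hi⟩ := hz
    have hi' : ((Fin.cons 0 b₁ : Fin (m + 1) → k) ᵥ* S) ⬝ᵥ C.a i.succ = 0 ∨
        ((Fin.cons 0 b₁ : Fin (m + 1) → k) ᵥ* S) ⬝ᵥ C.b i.succ = 0 := by
      rw [dot_red_a, dot_red_b]
      exact hi
    rw [Eb_zero hi', Eb_zero hi]
  have hz' : ∀ i : Fin m, b₁ ⬝ᵥ (C.red S).a i ≠ 0 ∧ b₁ ⬝ᵥ (C.red S).b i ≠ 0 := by
    intro i
    by_contra hc'
    rw [not_and_or, not_not, not_not] at hc'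
    exact hz ⟨i, hc'⟩
  obtain ⟨w, hw, hwb⟩ := exists_w (C := C.red S) (M := fun i => M i.succ) hM1 hz'
  have hgd := dot_red_g b₁ hg
  rw [dotProduct_sub, dotProduct_smul, smul_eq_mul, sub_eq_zero] at hgd
  rw [Eb_eq (C := C.red S) hM1 (chars_red hχ) hE1 hw hwb fun i => (hz' i).2]
  have hcw : ∀ i : Fin m, w i * (c i.succ / w i) = c i.succ := fun i =>
    mul_div_cancel₀ _ (hw i)
  by_cases h0 : ((Fin.cons 0 b₁ : Fin (m + 1) → k) ᵥ* S) ⬝ᵥ C.b 0 = 0
  · rw [h0, mul_zero] at hgd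
    rw [Eb_zero (Or.inl hgd)]
    symm
    obtain ⟨i₀, -⟩ : ∃ i, b₁ i ≠ 0 := by
      by_contra hc'
      push Not at hc'
      exact hb (funext hc')
    have hon : ((C'.red S')).On (fun i => M i.succ) (fun i => some (c i.succ / w i)) := by
      refine on_right (C := C.red S) (b := b₁) (q := fun i => q i.succ) (w := w) hwb ?_
        (i := i₀) (mul_ne_zero (hq _) (hz' i₀).1)
      simp only [hcw]
      exact h
    have hon2 : C'.On M (Fin.cons (some ω') (fun i : Fin m => some (c i.succ / w i))) :=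
      (on_red (K := k) hS' hg').1 hon
    refine FCls.free_left hM hχ hE (i := 0) (fun y => on_free (cons_ne hS hb) hgd h0 ?_ y) hon2
    intro j hj
    rw [← cons_some_FRed, ga_some]
    obtain ⟨i, rfl⟩ := Fin.exists_succ_eq.2 hj
    rw [Fin.cons_succ, dotProduct_sub, dotProduct_smul, dot_red_a, dot_red_b, smul_eq_mul,
      ← hwb i, sub_self]
  · have hW0 : ∀ i, (Fin.cons ω w : Fin (m + 1) → k) i ≠ 0 := by
      intro i
      refine Fin.cases ?_ (fun j => ?_) i
      · rw [Fin.cons_zero]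
        exact hω0
      · rw [Fin.cons_succ]
        exact hw j
    have hWb : ∀ i, (Fin.cons ω w : Fin (m + 1) → k) i ^ M i *
        (((Fin.cons 0 b₁ : Fin (m + 1) → k) ᵥ* S) ⬝ᵥ C.b i) =
          ((Fin.cons 0 b₁ : Fin (m + 1) → k) ᵥ* S) ⬝ᵥ C.a i := by
      intro i
      refine Fin.cases ?_ (fun j => ?_) i
      · rw [Fin.cons_zero]
        exact hgd.symm
      · rw [Fin.cons_succ, dot_red_a, dot_red_b]
        exact hwb j
    have hWn : ∀ i, ((Fin.cons 0 b₁ : Fin (m + 1) → k) ᵥ* S) ⬝ᵥ C.b i ≠ 0 := by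
      intro i
      refine Fin.cases h0 (fun j => ?_) i
      rw [dot_red_b]
      exact (hz' j).2
    rw [Eb_eq hM hχ hE hW0 hWb hWn, cons_some_FRed]
    congr 1
    funext i
    refine Fin.cases ?_ (fun j => ?_) i
    · rw [Fin.cons_zero, Fin.cons_zero, hω']
    · rw [Fin.cons_succ, Fin.cons_succ]

end Pool.Agent.DTU
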