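import Pool.Agent.DTU.FTwoA

/-!
# The sum of two values on a line of vectors `b`
-/

set_option autoImplicit false

noncomputable section

namespace Pool.Agent.DTU

open Matrix Polynomial
open Pool.Agent.ZCyc Pool.Agent.Dess Pool.Agent.GT Pool.Agent.TInc
open Pool.Agent.HGF (fst snd vlo)
open scoped Classical

variable {k : Type} [Field k] [IsAlgClosed k] [CharZero k] {m : ℕ} {C C' : Col k m}
  {M : Fin m → ℕ} {R W : Type} [Field R] [AddCommGroup W] [Module R W] {χ : Fin m → k → R}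
  {E : (Fin m → Option k) → (Fin m → Option k) → W}

/-- the polynomial `(b + T b₂) · u` -/
private def pl_FTwo (b b₂ u : Fin m → k) : k[X] :=
  Polynomial.C (b ⬝ᵥ u) + Polynomial.X * Polynomial.C (b₂ ⬝ᵥ u)

omit [IsAlgClosed k] [CharZero k] in
private lemma eval_FTwo (b b₂ u : Fin m → k) (y : k) :
    (pl_FTwo b b₂ u).eval y = (b + y • b₂) ⬝ᵥ u := by
  simp [pl_FTwo, add_dotProduct, smul_dotProduct]
  ring

omit [IsAlgClosed k] [CharZero k] in
private lemma aeval_FTwo {K : Type} [Field K] [Algebra k K] (b b₂ u : Fin m → k) (T : K) :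
    aeval T (pl_FTwo b b₂ u) =
      (fun l => algebraMap k K (b l) + T * algebraMap k K (b₂ l)) ⬝ᵥ
        (fun l => algebraMap k K (u l)) := by
  have e : (fun l => algebraMap k K (b l) + T * algebraMap k K (b₂ l)) =
      (fun l => algebraMap k K (b l)) + T • (fun l => algebraMap k K (b₂ l)) := by
    funext l
    simp
  rw [e, add_dotProduct, smul_dotProduct, dot_map, dot_map]
  simp [pl_FTwo]
  ring

omit [IsAlgClosed k] [CharZero k] in
private lemma deg_FTwo (b b₂ u : Fin m → k) : (pl_FTwo b b₂ u).natDegree ≤ 1 := by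
  unfold pl_FTwo
  refine natDegree_add_le_of_degree_le (by simp) ?_
  exact (natDegree_mul_C_le _ _).trans (by simp)

/-- THE SUM OF TWO VALUES. Let `g = α_j - U β_j`, `g' = α'_j - U' β'_j ≠ 0`, `U U' = c_j ^ M_j`, `b N = 0`, `b₂ N = κ g'` with `κ ≠ 0`, and `b₂ · g ≠ 0`. Then
`Eb` is zero for the sum of `b` and `b + t₁ b₂`, where `t₁ = - (b · g) / (b₂ · g)`.
PROOF. Let `P_i = c_i ^ M_i`, `b_T = b + T b₂`, so `b_T N = T κ g'` and `b_T ≠ 0` for all `T` in a field over `k` (`T ≠ 0`: `g' ≠ 0`; `T = 0`: `b ≠ 0`).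
Polynomials in `T` of degree `≤ 2`:
`N₀ = (b_T · α_j) (q_j P_j (b_T · β_j) + T κ U')`, `N₁ = P_j (b_T · β_j) (q_j (b_T · α_j) + T κ)`,
`N₀ - N₁ = κ T (U' (b_T · α_j) - P_j (b_T · β_j)) = κ U' T (b_T · g)` (`P_j = U U'`), of the degree `2` with the roots `0`, `t₁` (`U' ≠ 0`).
Common zeros: if `N₀(y) = N₁(y) = 0` then `Eb = 0` for `b_y`: if `b_y · α_j = 0` or `b_y · β_j = 0` by `Eb_zero`, otherwise by `common_zero` (`Λ = y κ`).
If `N₁ = 0` or `N₀ = 0` as a polynomial then `0` and `t₁` are common zeros. If `b_T · α_i = 0` or `b_T · β_i = 0` as a polynomial for one `i` then both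
values are zero (`Eb_zero`). Otherwise take `K`, `T`, `η`, `w` from `exists_fieldM` with `w_i ^ M_i = (b_T · α_i) / (b_T · β_i)`, `η ^ M_j = N₀ / N₁`; all `≠ 0`. For
`ζ ^ M_j = 1` let `w'_i = c_i / w_i` for `i ≠ j` and `w'_j = c_j ζ η / w_j`. The point `w` lies on the first fibre (`on_left`), `w'` on the second
one: `on_right` with `q'_i = q_i` for `i ≠ j` and `q'_j = q_j + T κ / (b_T · α_j)`, index `i ≠ j`: the coefficient `q'_j (w_j w'_j) ^ M_j = q'_j P_j η ^ M_j` is
`q_j P_j + T κ U' / (b_T · β_j)` (from `η ^ M_j N₁ = N₀`; if `q_j (b_T · α_j) + T κ = 0` then `N₁ = 0`), so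
`b_T N' = b_T N + T κ U' β'_j - T κ α'_j = 0` (`vecMul_N`, over `K`; `N_map` or the formula again).
`F ζ v := E` at the values of the points. Apply `GOY.eta_sum` with `g y := Eb` for `b_y` (`Module ℚ W` from `Module.compHom W (algebraMap ℚ R)`, as in
`GOY/EfCF.lean`): `hF`: `hE.cf` for the function `ζ η - 1` (`≠ 0`, as `η ^ M_j ≠ 1`). `hF0`: at a pole of `η` the product `w_j w'_j = c_j ζ η` has a pole: `vlo_bad`. `hF2`:
`vlo_Eb_cst` with `b = b_T`, `b₁ = b_y` (the products have the values `c_i`). `hg`: common zeros. `hdeg`: `N₁` has degree `≤ 2`. -/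
theorem two_sum [CharZero R] (hM : ∀ i, 0 < M i) (hχ : HYG.Chars M χ) (hE : FCls C C' M χ E)
    {c q : Fin m → k} (hc : ∀ i, c i ≠ 0) (hq : ∀ i, q i ≠ 0) {b b₂ : Fin m → k} {i j : Fin m}
    (hij : i ≠ j) {U U' κ : k} (hU : U * U' = c j ^ M j) (hb : b ≠ 0) (hκ : κ ≠ 0)
    (h : b ᵥ* C.N C' (fun i => q i * c i ^ M i) q = 0)
    (h₂ : b₂ ᵥ* C.N C' (fun i => q i * c i ^ M i) q = κ • (C'.a j - U' • C'.b j))
    (hg' : C'.a j - U' • C'.b j ≠ 0) (hg : b₂ ⬝ᵥ (C.a j - U • C.b j) ≠ 0) :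
    Eb C M E c b + Eb C M E c
      (b + (-(b ⬝ᵥ (C.a j - U • C.b j)) / (b₂ ⬝ᵥ (C.a j - U • C.b j))) • b₂) = 0 := by
  let _ : Module ℚ W := Module.compHom W (algebraMap ℚ R)
  obtain ⟨P, hP⟩ : ∃ P : Fin m → k, P = fun i => c i ^ M i := ⟨_, rfl⟩
  have hPi : ∀ i, P i = c i ^ M i := fun i => by rw [hP]
  have hP0 : ∀ i, P i ≠ 0 := fun i => by
    rw [hPi]
    exact pow_ne_zero _ (hc i)
  have hUP : U * U' = P j := by rw [hU, hPi]
  have hU' : U' ≠ 0 := by
    rintro rfl
    rw [mul_zero] at hUP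
    exact hP0 j hUP.symm
  -- the vectors
  obtain ⟨p, hp⟩ : ∃ p : (Fin m → k) → k[X], p = pl_FTwo b b₂ := ⟨_, rfl⟩
  have hev : ∀ u y, (p u).eval y = (b + y • b₂) ⬝ᵥ u := fun u y => by
    rw [hp]
    exact eval_FTwo b b₂ u y
  have hN : ∀ y : k, (b + y • b₂) ᵥ* C.N C' (fun i => q i * c i ^ M i) q =
      (y * κ) • (C'.a j - U' • C'.b j) := by
    intro y
    rw [add_vecMul, smul_vecMul, h, h₂, zero_add, smul_smul]
  have hb0 : ∀ y : k, b + y • b₂ ≠ 0 := by
    intro y h0
    by_cases hy : y = 0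
    · rw [hy, zero_smul, add_zero] at h0
      exact hb h0
    · have h3 := hN y
      rw [h0, zero_vecMul] at h3
      rcases smul_eq_zero.1 h3.symm with h4 | h4
      · exact mul_ne_zero hy hκ h4
      · exact hg' h4
  -- the polynomials
  obtain ⟨N₀, hN₀⟩ : ∃ N : k[X], N = p (C.a j) *
      (Polynomial.C (q j * P j) * p (C.b j) + Polynomial.X * Polynomial.C (κ * U')) := ⟨_, rfl⟩
  obtain ⟨N₁, hN₁⟩ : ∃ N : k[X], N = Polynomial.C (P j) * p (C.b j) *
      (Polynomial.C (q j) * p (C.a j) + Polynomial.X * Polynomial.C κ) := ⟨_, rfl⟩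
  have hev0 : ∀ y, N₀.eval y = ((b + y • b₂) ⬝ᵥ C.a j) *
      (q j * P j * ((b + y • b₂) ⬝ᵥ C.b j) + y * κ * U') := by
    intro y
    rw [hN₀]
    simp only [eval_mul, eval_add, eval_C, eval_X, hev]
    ring
  have hev1 : ∀ y, N₁.eval y = P j * ((b + y • b₂) ⬝ᵥ C.b j) *
      (q j * ((b + y • b₂) ⬝ᵥ C.a j) + y * κ) := by
    intro y
    rw [hN₁]
    simp only [eval_mul, eval_add, eval_C, eval_X, hev]
  obtain ⟨d, hd⟩ : ∃ d, d = b₂ ⬝ᵥ (C.a j - U • C.b j) := ⟨_, rfl⟩
  obtain ⟨d₁, hd₁⟩ : ∃ d, d = b ⬝ᵥ (C.a j - U • C.b j) := ⟨_, rfl⟩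
  obtain ⟨t₁, ht₁⟩ : ∃ t, t = -d₁ / d := ⟨_, rfl⟩
  rw [← hd, ← hd₁, ← ht₁]
  rw [← hd] at hg
  have hdt : d * t₁ = -d₁ := by rw [ht₁, mul_div_cancel₀ _ hg]
  have hPe : N₀ - N₁ = Polynomial.C (κ * U' * d) *
      (Polynomial.X * (Polynomial.X - Polynomial.C t₁)) := by
    apply Polynomial.funext
    intro y
    rw [eval_sub, hev0, hev1]
    simp only [eval_mul, eval_sub, eval_C, eval_X]
    have e1 : (b + y • b₂) ⬝ᵥ C.a j - U * ((b + y • b₂) ⬝ᵥ C.b j) = d * (y - t₁) := by
      have e2 : (b + y • b₂) ⬝ᵥ C.a j - U * ((b + y • b₂) ⬝ᵥ C.b j) =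
          (b + y • b₂) ⬝ᵥ (C.a j - U • C.b j) := by
        rw [dotProduct_sub, dotProduct_smul, smul_eq_mul]
      rw [e2, add_dotProduct, smul_dotProduct, smul_eq_mul, ← hd, ← hd₁]
      linear_combination hdt
    rw [← hUP]
    linear_combination (κ * U' * y) * e1
  have hCne : κ * U' * d ≠ 0 := mul_ne_zero (mul_ne_zero hκ hU') hg
  have hXX : (Polynomial.X * (Polynomial.X - Polynomial.C t₁) : k[X]) ≠ 0 :=
    mul_ne_zero X_ne_zero (X_sub_C_ne_zero _)
  have hPne : N₀ - N₁ ≠ 0 := by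
    rw [hPe]
    exact mul_ne_zero (C_ne_zero.2 hCne) hXX
  have hroots : (N₀ - N₁).roots = {0} + {t₁} := by
    rw [hPe, roots_C_mul _ hCne, roots_mul hXX, roots_X, roots_X_sub_C]
  have hz0 : N₀.eval 0 = N₁.eval 0 := by
    have h3 : (N₀ - N₁).eval 0 = 0 := by
      rw [hPe]
      simp
    rw [eval_sub] at h3
    exact sub_eq_zero.1 h3
  have hz1 : N₀.eval t₁ = N₁.eval t₁ := by
    have h3 : (N₀ - N₁).eval t₁ = 0 := by
      rw [hPe]
      simp
    rw [eval_sub] at h3
    exact sub_eq_zero.1 h3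
  -- common zeros
  have hcz : ∀ y, N₀.eval y = 0 → N₁.eval y = 0 → Eb C M E c (b + y • b₂) = 0 := by
    intro y hy0 hy1
    by_cases h3 : (b + y • b₂) ⬝ᵥ C.a j = 0 ∨ (b + y • b₂) ⬝ᵥ C.b j = 0
    · exact Eb_zero h3
    · push Not at h3
      rw [hev0] at hy0
      rw [hev1] at hy1
      have h4 := (mul_eq_zero.1 hy0).resolve_left h3.1
      have h5 := (mul_eq_zero.1 hy1).resolve_left (mul_ne_zero (hP0 j) h3.2)
      refine common_zero hM hχ hE hc hq hij (hb0 y) (hN y) ?_ h5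
      rw [← hPi]
      exact h4
  have hconv : Eb C M E c b = Eb C M E c (b + (0 : k) • b₂) := by
    rw [zero_smul, add_zero]
  rw [hconv]
  by_cases hcase : N₀ = 0 ∨ N₁ = 0
  · have h3 : ∀ y, N₀.eval y = N₁.eval y → Eb C M E c (b + y • b₂) = 0 := by
      intro y hy
      rcases hcase with h4 | h4
      · have h5 : N₀.eval y = 0 := by rw [h4, eval_zero]
        exact hcz y h5 (by rw [← hy, h5])
      · have h5 : N₁.eval y = 0 := by rw [h4, eval_zero]
        exact hcz y (by rw [hy, h5]) h5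
    rw [h3 0 hz0, h3 t₁ hz1, add_zero]
  push Not at hcase
  obtain ⟨hN00, hN10⟩ := hcase
  by_cases hcase2 : ∃ i, p (C.a i) = 0 ∨ p (C.b i) = 0
  · obtain ⟨i₀, h3⟩ := hcase2
    have h4 : ∀ y : k, Eb C M E c (b + y • b₂) = 0 := by
      intro y
      refine Eb_zero (i := i₀) ?_
      rw [← hev, ← hev]
      rcases h3 with h3 | h3
      · left
        rw [h3, eval_zero]
      · right
        rw [h3, eval_zero]
    rw [h4, h4, add_zero]
  push Not at hcase2
  -- the field
  obtain ⟨K, _, _, hK, T, η, w, hT, hw, hη⟩ := exists_fieldM hM (fun i => p (C.a i))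
    (fun i => p (C.b i)) (hM j) N₀ N₁
  have hres : HasRes k K := hasRes_of_isCurve hK
  have hae : ∀ {Q : k[X]}, Q ≠ 0 → aeval T Q ≠ 0 := fun hP h => hP (transcendental_iff.1 hT _ h)
  obtain ⟨al, hal⟩ : ∃ al : k →+* K, al = algebraMap k K := ⟨_, rfl⟩
  obtain ⟨bK, hbK⟩ : ∃ bK : Fin m → K, bK = fun l => al (b l) + T * al (b₂ l) := ⟨_, rfl⟩
  have hap : ∀ u : Fin m → k, aeval T (p u) = bK ⬝ᵥ (fun l => al (u l)) := by
    intro u
    rw [hp, aeval_FTwo, hbK, hal]
  have hDa : ∀ i, (C.map K).a i = fun l => al (C.a i l) := fun i => by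
    rw [hal]
    rfl
  have hDb : ∀ i, (C.map K).b i = fun l => al (C.b i l) := fun i => by
    rw [hal]
    rfl
  have hDa' : ∀ i, (C'.map K).a i = fun l => al (C'.a i l) := fun i => by
    rw [hal]
    rfl
  have hDb' : ∀ i, (C'.map K).b i = fun l => al (C'.b i l) := fun i => by
    rw [hal]
    rfl
  have hA0 : ∀ i, bK ⬝ᵥ (C.map K).a i ≠ 0 := fun i => by
    rw [hDa, ← hap]
    exact hae (hcase2 i).1
  have hB0 : ∀ i, bK ⬝ᵥ (C.map K).b i ≠ 0 := fun i => by
    rw [hDb, ← hap]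
    exact hae (hcase2 i).2
  have hw' : ∀ i, w i ^ M i * (bK ⬝ᵥ (C.map K).b i) = bK ⬝ᵥ (C.map K).a i := by
    intro i
    rw [hw, hap, hap, ← hDa, ← hDb, div_mul_cancel₀ _ (hB0 i)]
  have hw0 : ∀ i, w i ≠ 0 := by
    intro i h3
    have h4 := hw' i
    rw [h3, zero_pow (hM i).ne', zero_mul] at h4
    exact hA0 i h4.symm
  have hη' : η ^ M j * aeval T N₁ = aeval T N₀ := by
    rw [hη, div_mul_cancel₀ _ (hae hN10)]
  have hη1 : η ^ M j ≠ 1 := by
    intro h3
    rw [h3, one_mul] at hη'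
    apply hae hPne
    rw [map_sub, hη', sub_self]
  have hbK0 : bK ≠ 0 := by
    intro h3
    apply hA0 j
    rw [h3, zero_dotProduct]
  -- the points
  have h₁ : (C.map K).On M fun i => some (w i) := on_left hbK0 hw'
  let wv' : k → Fin m → K := fun ζ i =>
    if i = j then al (c j) * (al ζ * η) / w j else al (c i) / w i
  have hprod : ∀ ζ i, w i * wv' ζ i = if i = j then al (c j) * (al ζ * η) else al (c i) := by
    intro ζ i
    show w i * (if i = j then al (c j) * (al ζ * η) / w j else al (c i) / w i) = _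
    by_cases h3 : i = j
    · rw [if_pos h3, if_pos h3, h3, mul_div_cancel₀ _ (hw0 j)]
    · rw [if_neg h3, if_neg h3, mul_div_cancel₀ _ (hw0 i)]
  -- the null vector of the constant matrix
  have hsum : ∀ l, ∑ i, (al (q i) * al (P i) * (bK ⬝ᵥ (C.map K).b i) * al (C'.b i l) -
      al (q i) * (bK ⬝ᵥ (C.map K).a i) * al (C'.a i l)) =
      T * al κ * (al (C'.a j l) - al U' * al (C'.b j l)) := by
    intro l
    have e1 := congrFun h l
    have e2 := congrFun h₂ l
    rw [vecMul_N] at e1 e2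
    simp only [Finset.sum_apply, Pi.sub_apply, Pi.smul_apply, smul_eq_mul, Pi.zero_apply] at e1 e2
    have f1 := congrArg al e1
    have f2 := congrArg al e2
    simp only [map_sum, map_sub, map_mul, map_zero] at f1 f2
    have e3 : ∀ u : Fin m → k, bK ⬝ᵥ (fun l => al (u l)) = al (b ⬝ᵥ u) + T * al (b₂ ⬝ᵥ u) := by
      intro u
      rw [← hap, hp]
      unfold pl_FTwo
      rw [map_add, map_mul, aeval_C, aeval_C, aeval_X, hal]
    rw [mul_assoc, ← f2, ← zero_add (T * _), ← f1, Finset.mul_sum, ← Finset.sum_add_distrib]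
    refine Finset.sum_congr rfl fun i _ => ?_
    rw [hDa, hDb, e3, e3, hPi]
    ring
  have h₂ : ∀ ζ : k, ζ ^ M j = 1 → (C'.map K).On M fun i => some (wv' ζ i) := by
    intro ζ hζ
    obtain ⟨q', hq'⟩ : ∃ q' : Fin m → K, q' = fun i =>
      if i = j then al (q j) + T * al κ / (bK ⬝ᵥ (C.map K).a j) else al (q i) := ⟨_, rfl⟩
    have hq'j : q' j * (bK ⬝ᵥ (C.map K).a j) = al (q j) * (bK ⬝ᵥ (C.map K).a j) + T * al κ := by
      rw [hq']
      show (if j = j then _ else _) * _ = _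
      rw [if_pos rfl, add_mul, div_mul_cancel₀ _ (hA0 j)]
    have hq'i : ∀ i, i ≠ j → q' i = al (q i) := by
      intro i hi
      rw [hq']
      show (if i = j then _ else _) = _
      rw [if_neg hi]
    refine on_right (b := bK) (q := q') (w := w) (i := i) hw' ?_ ?_
    · rw [vecMul_N]
      funext l
      simp only [Finset.sum_apply, Pi.sub_apply, Pi.smul_apply, smul_eq_mul, Pi.zero_apply]
      have e1 : ∀ i, q' i * (w i * wv' ζ i) ^ M i * (bK ⬝ᵥ (C.map K).b i) * (C'.map K).b i l -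
          q' i * (bK ⬝ᵥ (C.map K).a i) * (C'.map K).a i l =
          (al (q i) * al (P i) * (bK ⬝ᵥ (C.map K).b i) * al (C'.b i l) -
            al (q i) * (bK ⬝ᵥ (C.map K).a i) * al (C'.a i l)) +
          if i = j then T * al κ * al U' * al (C'.b j l) - T * al κ * al (C'.a j l) else 0 := by
        intro i
        rw [hDb', hDa', hprod]
        by_cases hi : i = j
        · rw [if_pos hi, if_pos hi, hi]
          have e2 : q' j * (al (c j) * (al ζ * η)) ^ M j * (bK ⬝ᵥ (C.map K).b j) =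
              al (q j) * al (P j) * (bK ⬝ᵥ (C.map K).b j) + T * al κ * al U' := by
            have e3 : (al (c j) * (al ζ * η)) ^ M j = al (P j) * η ^ M j := by
              rw [mul_pow, mul_pow, ← map_pow, ← map_pow, hζ, map_one, one_mul, hPi]
            have e4 := hη'
            rw [hN₀, hN₁] at e4
            simp only [map_mul, map_add, aeval_C, aeval_X, ← hal, hap] at e4
            rw [← hDa, ← hDb] at e4
            rw [e3]
            apply mul_left_cancel₀ (hA0 j)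
            linear_combination e4 + (al (P j) * η ^ M j * (bK ⬝ᵥ (C.map K).b j)) * hq'j
          rw [e2, hq'j]
          ring
        · rw [if_neg hi, if_neg hi, hq'i i hi, add_zero, hPi, map_pow]
      rw [Finset.sum_congr rfl fun i _ => e1 i, Finset.sum_add_distrib, hsum,
        Finset.sum_ite_eq' Finset.univ j, if_pos (Finset.mem_univ j)]
      ring
    · rw [hq'i i hij]
      exact mul_ne_zero ((_root_.map_ne_zero al).2 (hq i)) (hA0 i)
  have hdeg : N₁.natDegree ≤ (N₀ - N₁).natDegree := by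
    have h3 : (N₀ - N₁).natDegree = 2 := by
      rw [hPe, natDegree_C_mul hCne, natDegree_mul X_ne_zero (X_sub_C_ne_zero _),
        natDegree_X, natDegree_X_sub_C]
    rw [h3, hN₁]
    refine natDegree_mul_le.trans ?_
    have h4 : (Polynomial.C (P j) * p (C.b j)).natDegree ≤ 1 := by
      refine (natDegree_C_mul_le _ _).trans ?_
      rw [hp]
      exact deg_FTwo b b₂ _
    have h5 : (Polynomial.C (q j) * p (C.a j) + Polynomial.X * Polynomial.C κ).natDegree ≤ 1 := by
      refine natDegree_add_le_of_degree_le ?_ ?_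
      · refine (natDegree_C_mul_le _ _).trans ?_
        rw [hp]
        exact deg_FTwo b b₂ _
      · exact (natDegree_mul_C_le _ _).trans (by simp)
    omega
  have key := GOY.eta_sum hK (hM j) hT (η := η) (N₀ := N₀) (N₁ := N₁) hN10 hPne hdeg hη'
    (fun ζ v => E (fun i => vlo v (some (w i))) (fun i => vlo v (some (wv' ζ i))))
    (fun y => Eb C M E c (b + y • b₂)) ?_ ?_ ?_ hcz
  · rw [hroots] at key
    rw [Multiset.map_add, Multiset.sum_add, Multiset.map_singleton, Multiset.map_singleton,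
      Multiset.sum_singleton, Multiset.sum_singleton] at key
    exact key
  · -- the relation
    intro ζ hζ
    refine hE.cf K hK (fun i => some (w i)) (fun i => some (wv' ζ i))
      (algebraMap k K ζ * η - 1) ?_ h₁ (h₂ ζ hζ)
    intro h3
    apply hη1
    have h4 : (algebraMap k K ζ * η) ^ M j = 1 := by
      rw [sub_eq_zero.1 h3, one_pow]
    rwa [mul_pow, ← map_pow, hζ, map_one, one_mul] at h4
  · -- the poles of `η`
    intro ζ v hζ hv
    refine vlo_bad hχ hE (i := j) (Or.inl ?_)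
    rw [hprod, if_pos rfl]
    refine (HYG.vl_none_iff hK).2 ?_
    intro h3
    apply hv
    have hζ0 : ζ ≠ 0 := by
      rintro rfl
      rw [zero_pow (hM j).ne'] at hζ
      exact zero_ne_one hζ
    have e : η = al (c j * ζ)⁻¹ * (al (c j) * (al ζ * η)) := by
      have h3 : al (c j) ≠ 0 := (_root_.map_ne_zero al).2 (hc j)
      have h4 : al ζ ≠ 0 := (_root_.map_ne_zero al).2 hζ0
      rw [map_inv₀, map_mul]
      field_simp
    rw [e]
    refine mul_mem ?_ h3
    rw [hal]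
    exact v.const_mem _
  · -- the zeros
    intro ζ v y hζ hy hζη
    refine vlo_Eb_cst hM hχ hE (hb0 y) ?_ hw0 hw' (h₂ ζ hζ) hc ?_
    · intro l
      rw [hbK, hal]
      exact (Place.at_const (v := v) (b l)).add (hy.mul (Place.at_const (v := v) (b₂ l)))
    · intro i
      rw [hprod]
      by_cases hi : i = j
      · rw [if_pos hi, hi]
        have h5 := (Place.at_const (v := v) (c j)).mul hζη
        rw [mul_one] at h5
        rw [hal]
        exact h5
      · rw [if_neg hi, hal]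
        exact Place.at_const (v := v) (c i)

end Pool.Agent.DTU
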