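import Pool.Agent.DTU.Lin

/-!
# Matrices: sums with matrices of rank one, linear systems
-/

set_option autoImplicit false

noncomputable section

namespace Pool.Agent.DTU

open Matrix
open scoped Classical

section Ring

variable {R : Type} [CommRing R] {m : ℕ}

private theorem det_scalar_LinB {S : Type} [CommRing S] (D : S) (w v : Fin m → S) (hm : 0 < m) :
    (D • (1 : Matrix (Fin m) (Fin m) S) + vecMulVec w v).det =
      D ^ (m - 1) * (D + v ⬝ᵥ w) := by
  have h := charpoly_vecMulVec (-w) v
  have h2 := congrArg (Polynomial.eval D) h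
  rw [Matrix.eval_charpoly] at h2
  have h3 : scalar (Fin m) D - vecMulVec (-w) v =
      D • (1 : Matrix (Fin m) (Fin m) S) + vecMulVec w v := by
    rw [neg_vecMulVec, sub_neg_eq_add, Matrix.smul_one_eq_diagonal]
    rfl
  rw [h3] at h2
  rw [h2]
  simp only [Fintype.card_fin, neg_dotProduct, Polynomial.eval_sub, Polynomial.eval_pow,
    Polynomial.eval_X, Polynomial.eval_smul, smul_eq_mul]
  obtain ⟨k, rfl⟩ : ∃ k, m = k + 1 := ⟨m - 1, by omega⟩
  rw [Nat.add_sub_cancel, dotProduct_comm v w]
  ring

private theorem det_regular_LinB {S : Type} [CommRing S] {N : Matrix (Fin m) (Fin m) S}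
    (hN : IsLeftRegular N.det) (u v : Fin m → S) (p : S) :
    (N + p • vecMulVec u v).det = N.det + p * (v ⬝ᵥ N.adjugate *ᵥ u) := by
  rcases Nat.eq_zero_or_pos m with rfl | hm
  · simp
  have h1 : N.adjugate * (N + p • vecMulVec u v) =
      N.det • (1 : Matrix (Fin m) (Fin m) S) + vecMulVec (p • (N.adjugate *ᵥ u)) v := by
    rw [Matrix.mul_add, adjugate_mul, Matrix.mul_smul, mul_vecMulVec, smul_vecMulVec]
  have h2 := congrArg Matrix.det h1
  rw [det_mul, det_adjugate, det_scalar_LinB _ _ _ hm, Fintype.card_fin, dotProduct_smul,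
    smul_eq_mul] at h2
  exact (hN.pow (m - 1)) h2

/-- The determinant of a matrix plus a multiple of a matrix of rank one.
PROOF. For a matrix `N` whose determinant is a unit: `Matrix.det_add_replicateCol_mul_replicateRow` or similar (the matrix
determinant lemma), `N⁻¹ = N.det⁻¹ • N.adjugate`. The general case: the identity for the matrix of the variables
(`Matrix.mvPolynomialX`) over the field of fractions of `MvPolynomial (Fin m × Fin m ⊕ Fin m ⊕ Fin m ⊕ Unit) ℤ` (or so)
implies the identity in all rings (`MvPolynomial.eval₂Hom`, `RingHom.map_det`, `RingHom.map_adjugate`). Or directly, by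
induction on the number of entries of `u` which are not zero, or: the function `p ↦ det (N + p u v ^ t)` ... any proof. -/
theorem det_rank_one (N : Matrix (Fin m) (Fin m) R) (u v : Fin m → R) (p : R) :
    (N + p • vecMulVec u v).det = N.det + p * (v ⬝ᵥ N.adjugate *ᵥ u) := by
  have hreg : IsLeftRegular (charmatrix (-N)).det := (Matrix.charpoly_monic (-N)).isRegular.left
  have h := det_regular_LinB hreg (fun i => Polynomial.C (u i)) (fun i => Polynomial.C (v i))
    (Polynomial.C p)
  have h2 := congrArg (Polynomial.evalRingHom (0 : R)) h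
  have e1 : (Polynomial.evalRingHom (0 : R)).mapMatrix (charmatrix (-N)) = N := by
    ext i j
    by_cases hij : i = j
    · subst hij
      simp [charmatrix_apply_eq]
    · simp [charmatrix_apply_ne _ _ _ hij]
  rw [RingHom.map_det, map_add, map_add, map_mul, RingHom.map_det, e1] at h2
  have e2 : (Polynomial.evalRingHom (0 : R)).mapMatrix
      (Polynomial.C p • vecMulVec (fun i => Polynomial.C (u i)) fun i => Polynomial.C (v i)) =
      p • vecMulVec u v := by
    ext i j
    simp [vecMulVec_apply]
  have e3 : (Polynomial.evalRingHom (0 : R)) ((fun i => Polynomial.C (v i)) ⬝ᵥ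
      (charmatrix (-N)).adjugate *ᵥ fun i => Polynomial.C (u i)) = v ⬝ᵥ N.adjugate *ᵥ u := by
    have e4 : ((charmatrix (-N)).adjugate).map (Polynomial.evalRingHom (0 : R)) =
        N.adjugate := by
      rw [← RingHom.mapMatrix_apply, RingHom.map_adjugate, e1]
    have e5 : ⇑(Polynomial.evalRingHom (0 : R)) ∘
        ((charmatrix (-N)).adjugate *ᵥ fun i => Polynomial.C (u i)) = N.adjugate *ᵥ u := by
      ext i
      have e6 : ⇑(Polynomial.evalRingHom (0 : R)) ∘ (fun i => Polynomial.C (u i)) = u := by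
        ext a
        simp
      rw [Function.comp_apply, RingHom.map_mulVec, e4, e6]
    have e7 : ⇑(Polynomial.evalRingHom (0 : R)) ∘ (fun i => Polynomial.C (v i)) = v := by
      ext a
      simp
    rw [RingHom.map_dotProduct, e5, e7]
  rw [e2, e3] at h2
  simpa using h2

end Ring

section Field

variable {K : Type} [Field K] {m : ℕ}

/-- Solution of a linear system with a matrix of rank `m - 1`.
PROOF. Let the entry `i j` of the adjugate be different from zero, `N' = N.updateRow j (Pi.single i 1)`, `det N' ≠ 0`, so there is `y` with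
`N' *ᵥ y = g` (`y = N'⁻¹ *ᵥ g`). So `(N *ᵥ y) l = g l` for `l ≠ j`. Since `b ⬝ᵥ N *ᵥ y = 0 = b ⬝ᵥ g` (`Matrix.dotProduct_mulVec`) we get
`b j * ((N *ᵥ y) j - g j) = 0`, and `b j ≠ 0` (otherwise `b ᵥ* N' = b ᵥ* N = 0`, contradiction to `det_of_null`). -/
theorem exists_sol {N : Matrix (Fin m) (Fin m) K} (hN : N.adjugate ≠ 0) {b g : Fin m → K}
    (hb : b ≠ 0) (h : b ᵥ* N = 0) (hg : b ⬝ᵥ g = 0) : ∃ y, N *ᵥ y = g := by
  obtain ⟨i, j, hij⟩ : ∃ i j, N.adjugate i j ≠ 0 := by
    by_contra hcon
    push Not at hcon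
    exact hN (Matrix.ext hcon)
  rw [adjugate_apply] at hij
  set N' := N.updateRow j (Pi.single i 1) with hN'
  have hu : IsUnit N'.det := isUnit_iff_ne_zero.2 hij
  refine ⟨N'⁻¹ *ᵥ g, ?_⟩
  set y := N'⁻¹ *ᵥ g with hy
  have hNy : N' *ᵥ y = g := by
    rw [hy, mulVec_mulVec, mul_nonsing_inv _ hu, one_mulVec]
  have hl : ∀ l, l ≠ j → (N *ᵥ y) l = g l := by
    intro l hlj
    have h1 := congrFun hNy l
    rw [← h1]
    simp only [mulVec, hN']
    rw [updateRow_ne hlj]
  have h0 : b ⬝ᵥ (N *ᵥ y) = 0 := by
    rw [dotProduct_mulVec, h, zero_dotProduct]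
  have hbj : b j ≠ 0 := by
    intro hz
    apply hij
    refine det_of_null hb ?_
    rw [← h]
    ext l
    simp only [vecMul, dotProduct]
    refine Finset.sum_congr rfl fun a _ => ?_
    by_cases ha : a = j
    · subst ha
      rw [hz, zero_mul, zero_mul]
    · rw [hN', updateRow_ne ha]
  have h1 : b ⬝ᵥ (N *ᵥ y - g) = 0 := by
    rw [dotProduct_sub, h0, hg, sub_zero]
  have h2 : b j * ((N *ᵥ y) j - g j) = 0 := by
    rw [← h1, dotProduct]
    rw [Finset.sum_eq_single j]
    · rfl
    · intro l _ hlj
      rw [Pi.sub_apply, hl l hlj, sub_self, mul_zero]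
    · intro hc
      exact absurd (Finset.mem_univ j) hc
  ext l
  by_cases hlj : l = j
  · subst hlj
    exact sub_eq_zero.1 ((mul_eq_zero.1 h2).resolve_left hbj)
  · exact hl l hlj

/-- A vector `g ≠ 0` is the image of the unit vector. PROOF. Let `g j ≠ 0`; the matrix `T` with the columns `e_l`, `l ≠ j`, and the
column `g` (`(1 : Matrix _ _ K).updateCol j g`) has the determinant `g j ≠ 0` and `T *ᵥ e_j = g`. Take
`S = P * T⁻¹` with the permutation matrix which exchanges `e_j` and `e_0`. -/
theorem exists_S {g : Fin (m + 1) → K} (hg : g ≠ 0) :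
    ∃ S : Matrix (Fin (m + 1)) (Fin (m + 1)) K, S.det ≠ 0 ∧ S *ᵥ g = Pi.single 0 1 := by
  obtain ⟨j, hj⟩ : ∃ j, g j ≠ 0 := by
    by_contra hcon
    push Not at hcon
    exact hg (funext hcon)
  set T := (1 : Matrix (Fin (m + 1)) (Fin (m + 1)) K).updateCol j g with hT
  have hdet : T.det = g j := by
    rw [hT, ← cramer_apply, cramer_one]
    rfl
  have hu : IsUnit T.det := isUnit_iff_ne_zero.2 (by rw [hdet]; exact hj)
  have hTg : T *ᵥ Pi.single j 1 = g := by
    rw [mulVec_single_one]
    ext i
    simp [hT, Matrix.col]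
  have hTi : T⁻¹ *ᵥ g = Pi.single j 1 := by
    rw [← hTg, mulVec_mulVec, nonsing_inv_mul _ hu, one_mulVec]
  refine ⟨(1 : Matrix (Fin (m + 1)) (Fin (m + 1)) K).submatrix (Equiv.swap 0 j) id * T⁻¹,
    ?_, ?_⟩
  · rw [det_mul]
    refine mul_ne_zero ?_ ?_
    · rw [det_permute, det_one, mul_one]
      rcases Int.units_eq_one_or (Equiv.Perm.sign (Equiv.swap 0 j)) with h | h
      · rw [h]; simp
      · rw [h]; simp
    · have h1 : T⁻¹.det * T.det = 1 := by
        rw [← det_mul, nonsing_inv_mul _ hu, det_one]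
      intro h0
      rw [h0, zero_mul] at h1
      exact zero_ne_one h1
  · rw [← mulVec_mulVec, hTi]
    ext i
    rw [mulVec_single_one]
    simp only [Matrix.col, Matrix.transpose_apply, submatrix_apply]
    rw [Matrix.one_apply, Pi.single_apply]
    by_cases hi : i = 0
    · subst hi
      simp
    · have : Equiv.swap 0 j i ≠ j := by
        intro h
        apply hi
        have h2 := congrArg (Equiv.swap 0 j) h
        rw [Equiv.swap_apply_self, Equiv.swap_apply_right] at h2
        exact h2
      simp [hi, this]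

end Field

end Pool.Agent.DTU
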