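import Pool.Agent.DTU.FRank
import Pool.Agent.DTU.FTwo
import Pool.Agent.DTU.FRed
import Pool.Agent.DTU.FOneC
import Pool.Agent.DTU.LinB

/-!
# The relation between the left and the right null vector
-/

set_option autoImplicit false

noncomputable section

namespace Pool.Agent.DTU

open Matrix
open Pool.Agent.ZCyc Pool.Agent.Dess Pool.Agent.GT Pool.Agent.TInc
open Pool.Agent.HGF (fst snd vlo)
open scoped Classical

variable {k : Type} [Field k] [IsAlgClosed k] [CharZero k]
  {R W : Type} [Field R] [AddCommGroup W] [Module R W]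

/-- the statement for matrices of size `m + 1` -/
def ChainAt (k : Type) [Field k] [IsAlgClosed k] [CharZero k] (R W : Type) [Field R]
    [AddCommGroup W] [Module R W] (m : ℕ) : Prop :=
  ∀ (C C' : Col k (m + 1)) (M : Fin (m + 1) → ℕ) (χ : Fin (m + 1) → k → R)
    (E : (Fin (m + 1) → Option k) → (Fin (m + 1) → Option k) → W),
    (∀ i, 0 < M i) → HYG.Chars M χ → FCls C C' M χ E →
    ∀ c q : Fin (m + 1) → k, (∀ i, c i ≠ 0) → (∀ i, q i ≠ 0) →
    ∀ b y : Fin (m + 1) → k, b ≠ 0 → y ≠ 0 → b ᵥ* C.N C' (fun i => q i * c i ^ M i) q = 0 →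
      C.N C' (fun i => q i * c i ^ M i) q *ᵥ y = 0 →
      Eb C' M (fun w w' => E w' w) c y = (-1 : ℤ) ^ m • Eb C M E c b

/-- THE STEP of the induction if the value for the left null vector is not zero.
PROOF. Size `m + 2`. Let `e = Eb C M E c b ≠ 0`. Then `b · α_i`, `b · β_i ≠ 0` (`Eb_ne`); take `w` from `exists_w`, `w' = c / w`, so `e = E w w'` (`Eb_eq`), the
points lie on the fibres (`on_left`, `on_right`). Let `ω = w_0`, `ω' = w'_0`, `U = ω ^ M_0`, `U' = ω' ^ M_0`, `U U' = c_0 ^ M_0`, `g = α_0 - U β_0`, `g' = α'_0 - U' β'_0`, `b · g = 0`. If `g = 0` then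
`γ_0 = 0`, and the coordinate `1` of the first point is arbitrary (`on_free'` for `a = e_0`, `i = 1`), so `e = 0` (`free_left`), contradiction; if `g' = 0` the same for the
second point (`free_right`). So there are `S`, `S'` (`exists_S`), and `b = (0, b₁) S` (`exists_red`), `b₁ N₁ = 0` (`null_red` with `κ = 0`), where `N₁` is the reduced matrix
`(C.red S).N (C'.red S') ..`. So `det N₁ = 0` and there is `y₁ ≠ 0` with `N₁ y₁ = 0` (`Matrix.exists_mulVec_eq_zero_iff`). By `ih` for the reduced columns (`cls_red`, `chars_red`) and by `Eb_red`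
(`Eb_red` for `b₁`, and for `y₁` with the columns exchanged: `hE.swap`, the matrix is the transpose, `N_tr`, `Matrix.vecMul_transpose`): let
`y' = (0, y₁) S'`; `Eb C' .. y' = (-1) ^ m • e`. By `null_red` (columns exchanged) `y' Nᵗ = N y' = κ g` for some `κ`, and `y' · g' = 0` (`dot_red_g`), `y' ≠ 0` (`cons_ne`). Let `e' = Eb C' .. y'`, so
`e' = (-1) ^ m • e ≠ 0`. We have to show `Eb C' .. y = - e'`.
Case `κ ≠ 0`. If `y · g' ≠ 0`: `two_sum` for the exchanged columns, `b := y`, `b₂ := y' + y` (`N b₂ = κ g`, `b₂ · g' = y · g'`, `t₁ = -1`, `j = 0`, `i = 1`, the role of `g'` is played by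
`g ≠ 0`): `Eb y + Eb (y - (y' + y)) = 0`, and `Eb (- y') = Eb y'` (`Eb_smul`). If `y · g' = 0`: `two_zero` with `b₀ := y'` (`κ₀ = κ`), `b₁ := y` (`κ₁ = 0`); linearly independent since
`N (x y' + z y) = x κ g`. So `e' = 0`, contradiction.
Case `κ = 0`, `N y' = 0`. The adjugate of `N` is not zero (`rank_zero` for `b`), so it is not zero for `Nᵗ` and `y = r y'`, `r ≠ 0` (`nul_unique` twice, or `adj_zero`), `Eb y = e'`. By
`exists_sol` (`b · g = 0`) there is `z` with `N z = g`. If `z · g' ≠ 0`: `two_sum` with `b := y'`, `b₂ := z`, `κ = 1`, `t₁ = 0`: `e' + e' = 0`, so `e' = 0` (`W` has no torsion: `CharZero R`, `Module R W`),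
contradiction. If `z · g' = 0`: `two_zero` with `b₀ := y'` (`κ₀ = 0`), `b₁ := z` (`κ₁ = 1`), linearly independent: `e' = 0`, contradiction. -/
theorem chain_step [CharZero R] {m : ℕ} (ih : ChainAt k R W m) {C C' : Col k (m + 2)}
    {M : Fin (m + 2) → ℕ} {χ : Fin (m + 2) → k → R}
    {E : (Fin (m + 2) → Option k) → (Fin (m + 2) → Option k) → W} (hM : ∀ i, 0 < M i)
    (hχ : HYG.Chars M χ) (hE : FCls C C' M χ E) {c q : Fin (m + 2) → k} (hc : ∀ i, c i ≠ 0)
    (hq : ∀ i, q i ≠ 0) {b y : Fin (m + 2) → k} (hb : b ≠ 0) (hy : y ≠ 0)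
    (h : b ᵥ* C.N C' (fun i => q i * c i ^ M i) q = 0)
    (h' : C.N C' (fun i => q i * c i ^ M i) q *ᵥ y = 0) (h0 : Eb C M E c b ≠ 0) :
    Eb C' M (fun w w' => E w' w) c y = (-1 : ℤ) ^ (m + 1) • Eb C M E c b := by
  have hNt := N_tr C C' (fun i => q i * c i ^ M i) q
  have hyN : y ᵥ* C'.N C (fun i => q i * c i ^ M i) q = 0 := by
    rw [hNt, Matrix.vecMul_transpose]
    exact h'
  have hab := Eb_ne h0
  obtain ⟨w, hw0, hw⟩ := exists_w hM hab
  have he := Eb_eq hM hχ hE (c := c) hw0 hw fun i => (hab i).2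
  have hww : ∀ i, w i * (c i / w i) = c i := fun i => mul_div_cancel₀ (c i) (hw0 i)
  have hon : C.On M fun i => some (w i) := on_left hb hw
  have hon' : C'.On M fun i => some (c i / w i) := by
    refine on_right (q := q) (w' := fun i => c i / w i) hw ?_ (i := 0)
      (mul_ne_zero (hq 0) (hab 0).1)
    simp only [hww]
    exact h
  have h10 : (1 : Fin (m + 2)) ≠ 0 := by
    simp
  have hs1 : (Pi.single 0 1 : Fin (m + 2) → k) 1 = 0 := Pi.single_eq_of_ne h10 _
  have hs0 : (Pi.single 0 1 : Fin (m + 2) → k) ≠ 0 := by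
    intro hh
    have := congrFun hh 0
    simp at this
  have hsum : ∀ f : Fin (m + 2) → Fin (m + 2) → k,
      ∑ j, (Pi.single 0 1 : Fin (m + 2) → k) j • f j = f 0 := by
    intro f
    rw [Finset.sum_eq_single (0 : Fin (m + 2))]
    · simp
    · intro j _ hj
      rw [Pi.single_eq_of_ne hj, zero_smul]
    · intro hh
      exact absurd (Finset.mem_univ _) hh
  have hg0 : C.a 0 - w 0 ^ M 0 • C.b 0 ≠ 0 := by
    intro hg
    apply h0
    rw [he]
    refine hE.free_left hM hχ (i := 1) (fun y => ?_) hon'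
    refine on_free' hs0 hs1 ?_ y
    rw [hsum, ga_some]
    exact hg
  have hg0' : C'.a 0 - (c 0 / w 0) ^ M 0 • C'.b 0 ≠ 0 := by
    intro hg
    apply h0
    rw [he]
    refine hE.free_right hM hχ (i := 1) hon (fun y => ?_)
    refine on_free' hs0 hs1 ?_ y
    rw [hsum, ga_some (fun i => c i / w i)]
    exact hg
  obtain ⟨S, hS, hSg⟩ := exists_S hg0
  obtain ⟨S', hS', hSg'⟩ := exists_S hg0'
  have hU : w 0 ^ M 0 * (c 0 / w 0) ^ M 0 = c 0 ^ M 0 := by
    rw [← mul_pow, hww]
  have hU' : (c 0 / w 0) ^ M 0 * w 0 ^ M 0 = c 0 ^ M 0 := by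
    rw [mul_comm, hU]
  have hω' : c 0 / w 0 * w 0 = c 0 := by
    rw [mul_comm, hww]
  have hbg : b ⬝ᵥ (C.a 0 - w 0 ^ M 0 • C.b 0) = 0 := by
    rw [dotProduct_sub, dotProduct_smul, smul_eq_mul, hw, sub_self]
  obtain ⟨b₁, hb₁, hbb⟩ := exists_red hS hSg hb hbg
  have hn₁ := (null_red (q := q) hS' hU hSg hSg' (b₁ := b₁)).2
    ⟨0, by rw [← hbb, h, zero_smul]⟩
  have hdet := det_of_null hb₁ hn₁
  obtain ⟨y₁, hy₁, hNy₁⟩ := Matrix.exists_mulVec_eq_zero_iff.2 hdet
  have hyN₁ : y₁ ᵥ* (C'.red S').N (C.red S) (fun i => q i.succ * c i.succ ^ M i.succ)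
      (fun i => q i.succ) = 0 := by
    rw [N_tr (C.red S) (C'.red S'), Matrix.vecMul_transpose]
    exact hNy₁
  have hih := ih (C.red S) (C'.red S') (fun i => M i.succ) (fun i => χ i.succ)
    (fun w₁ w₁' => E (Fin.cons (some (w 0)) w₁) (Fin.cons (some (c 0 / w 0)) w₁'))
    (fun i => hM i.succ) (chars_red hχ) (cls_red hE hS hS' hSg hSg')
    (fun i => c i.succ) (fun i => q i.succ) (fun i => hc i.succ) (fun i => hq i.succ)
    b₁ y₁ hb₁ hy₁ hn₁ hNy₁
  have hr := Eb_red hM hχ hE hc hq hS hS' (hww 0) hSg hSg' hb₁ hn₁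
  have hr' := Eb_red hM hχ hE.swap hc hq hS' hS hω' hSg' hSg hy₁ hyN₁
  obtain ⟨κ, hκ⟩ := (null_red (q := q) hS hU' hSg' hSg (b₁ := y₁)).1 hyN₁
  have hyg := dot_red_g (S := S') y₁ hSg'
  have hyne := cons_ne hS' hy₁
  rw [← hbb] at hr
  rw [← hr, ← hr'] at hih
  clear hr hr'
  generalize (Fin.cons 0 y₁ : Fin (m + 2) → k) ᵥ* S' = y' at *
  have key : Eb C' M (fun w w' => E w' w) c y = -Eb C' M (fun w w' => E w' w) c y' := by
    have he' : Eb C' M (fun w w' => E w' w) c y' ≠ 0 := by
      intro hh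
      rw [hh] at hih
      rcases neg_one_pow_eq_or ℤ m with h1 | h1 <;> rw [h1] at hih
      · rw [one_smul] at hih
        exact h0 hih.symm
      · rw [neg_smul, one_smul] at hih
        exact h0 (neg_eq_zero.1 hih.symm)
    by_cases hκ0 : κ = 0
    · rw [hκ0, zero_smul] at hκ
      exfalso
      have hadj : (C.N C' (fun i => q i * c i ^ M i) q).adjugate ≠ 0 := by
        intro hh
        exact h0 (rank_zero hM hχ hE hc hq hb h hh)
      obtain ⟨z, hz⟩ := exists_sol hadj hb h hbg
      have hzN : z ᵥ* C'.N C (fun i => q i * c i ^ M i) q =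
          (1 : k) • (C.a 0 - w 0 ^ M 0 • C.b 0) := by
        rw [hNt, Matrix.vecMul_transpose, hz, one_smul]
      by_cases hzg : z ⬝ᵥ (C'.a 0 - (c 0 / w 0) ^ M 0 • C'.b 0) = 0
      · apply he'
        refine two_zero hM hχ hE.swap hc hq h10 hU' (fun x x' hx => ?_)
          (κ₀ := 0) (κ₁ := 1) (by rw [hκ, zero_smul]) hzN hyg hzg
        have h1 := congrArg (fun v => v ᵥ* C'.N C (fun i => q i * c i ^ M i) q) hx
        simp only [Matrix.add_vecMul, Matrix.smul_vecMul, Matrix.zero_vecMul, hκ, hzN,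
          smul_zero, zero_add, one_smul] at h1
        have h2 : x' = 0 := (smul_eq_zero.1 h1).resolve_right hg0
        rw [h2, zero_smul, add_zero] at hx
        exact ⟨(smul_eq_zero.1 hx).resolve_right hyne, h2⟩
      · have h1 := two_sum hM hχ hE.swap hc hq h10 hU' hyne one_ne_zero hκ hzN hg0 hzg
        rw [hyg, neg_zero, zero_div, zero_smul, add_zero] at h1
        apply he'
        have h2 : (2 : R) • Eb C' M (fun w w' => E w' w) c y' = 0 := by
          rw [two_smul]
          exact h1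
        exact (smul_eq_zero.1 h2).resolve_left two_ne_zero
    · by_cases hyg' : y ⬝ᵥ (C'.a 0 - (c 0 / w 0) ^ M 0 • C'.b 0) = 0
      · exfalso
        apply he'
        refine two_zero hM hχ hE.swap hc hq h10 hU' (fun x x' hx => ?_)
          (κ₀ := κ) (κ₁ := 0) hκ (by rw [hyN, zero_smul]) hyg hyg'
        have h1 := congrArg (fun v => v ᵥ* C'.N C (fun i => q i * c i ^ M i) q) hx
        simp only [Matrix.add_vecMul, Matrix.smul_vecMul, Matrix.zero_vecMul, hκ, hyN,
          smul_zero, add_zero, smul_smul] at h1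
        have h2 : x = 0 :=
          (mul_eq_zero.1 ((smul_eq_zero.1 h1).resolve_right hg0)).resolve_right hκ0
        rw [h2, zero_smul, zero_add] at hx
        exact ⟨h2, (smul_eq_zero.1 hx).resolve_right hy⟩
      · have h3 : (y' + y) ᵥ* C'.N C (fun i => q i * c i ^ M i) q =
            κ • (C.a 0 - w 0 ^ M 0 • C.b 0) := by
          rw [Matrix.add_vecMul, hκ, hyN, add_zero]
        have h4 : (y' + y) ⬝ᵥ (C'.a 0 - (c 0 / w 0) ^ M 0 • C'.b 0) =
            y ⬝ᵥ (C'.a 0 - (c 0 / w 0) ^ M 0 • C'.b 0) := by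
          rw [add_dotProduct, hyg, zero_add]
        have h1 := two_sum hM hχ hE.swap hc hq h10 hU' hy hκ0 hyN h3 hg0
          (by rw [h4]; exact hyg')
        rw [h4, neg_div, div_self hyg'] at h1
        have h5 : y + (-1 : k) • (y' + y) = (-1 : k) • y' := by
          rw [smul_add, neg_smul, one_smul, neg_smul, one_smul]
          abel
        rw [h5, Eb_smul (neg_ne_zero.2 one_ne_zero)] at h1
        exact eq_neg_of_add_eq_zero_left h1
  rw [key, hih, pow_succ, mul_neg_one, neg_smul]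

/-- THE RELATION. Induction on `m`. `m = 0`: `chain_one`. Step: if `Eb C M E c b ≠ 0` use `chain_step`. If
`Eb C' .. y ≠ 0` use `chain_step` for the exchanged columns and function (`hE.swap`, `N_tr`, `Matrix.vecMul_transpose`, `Matrix.mulVec_transpose`):
`Eb C M E c b = (-1) ^ (m + 1) • Eb C' .. y`; multiply by `(-1) ^ (m + 1)`. If both are zero there is nothing to show. -/
theorem chain [CharZero R] (m : ℕ) : ChainAt k R W m := by
  induction m with
  | zero =>
    intro C C' M χ E hM hχ hE c q hc hq b y hb hy h _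
    rw [pow_zero, one_smul]
    exact chain_one hM hχ hE hc hq hb hy h
  | succ m ih =>
    intro C C' M χ E hM hχ hE c q hc hq b y hb hy h h'
    by_cases h0 : Eb C M E c b = 0
    · by_cases h1 : Eb C' M (fun w w' => E w' w) c y = 0
      · rw [h0, h1, smul_zero]
      · have hNt := N_tr C C' (fun i => q i * c i ^ M i) q
        have hyN : y ᵥ* C'.N C (fun i => q i * c i ^ M i) q = 0 := by
          rw [hNt, Matrix.vecMul_transpose]
          exact h'
        have hbN : C'.N C (fun i => q i * c i ^ M i) q *ᵥ b = 0 := by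
          rw [hNt, Matrix.mulVec_transpose]
          exact h
        have h2 := chain_step ih hM hχ hE.swap hc hq hy hb hyN hbN h1
        have h3 : Eb C M (fun w w' => (fun w w' => E w' w) w' w) c b = Eb C M E c b := rfl
        rw [h3] at h2
        rw [h2, smul_smul, ← mul_pow, neg_one_mul, neg_neg, one_pow, one_smul]
    · exact chain_step ih hM hχ hE hc hq hb hy h h' h0

end Pool.Agent.DTU
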