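import Pool.Agent.DTU.VEf
import Pool.Agent.DTU.Chain

/-!
# `Ef` and the exchange of the two points
-/

set_option autoImplicit false

noncomputable section

namespace Pool.Agent.DTU

open Matrix
open Pool.Agent.ZCyc Pool.Agent.Dess Pool.Agent.GT Pool.Agent.TInc
open Pool.Agent.HGF (fst snd vlo)
open Pool.Agent.GOC (vo po)
open scoped Classical

variable {k : Type} [Field k] [IsAlgClosed k] [CharZero k] {r m : ℕ} {X : Fam k r (m + 1)}
  {R W : Type} [Field R] [AddCommGroup W] [Module R W] {χ : Fin (m + 1) → k → R}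
  {E : (Fin r → Option k) → (Fin (m + 1) → Option k) → (Fin r → Option k) →
    (Fin (m + 1) → Option k) → W}

/-- THE EXCHANGE in the fibres. PROOF. Let `N = X.Nm θ c z z'`; the matrix for `(z', z)` is `Nᵗ` (`Nm_tr`). Let `b ≠ 0`, `b N = 0` (`exists_null`) and
`y ≠ 0`, `N y = 0` (`exists_null` for `Nᵗ`, `Matrix.vecMul_transpose`). `Ef_eq` for both, `chain` for `hE.fcls z z'`. -/
theorem Ef_lr [CharZero R] (hM : ∀ i, 0 < X.M i) (hχ : HYG.Chars X.M χ) (hE : IsCls₂ X χ E)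
    {θ c : Fin (m + 1) → k} (hθ : ∀ i, θ i ≠ 0) (hc : ∀ i, c i ≠ 0) {z z' : Fin r → Option k}
    (h : (X.Nm θ c z z').det = 0) :
    Ef X (til E) θ (fun i => some (c i)) z' z =
      (-1 : ℤ) ^ m • Ef X E θ (fun i => some (c i)) z z' := by
  obtain ⟨b, hb, hbN⟩ := exists_null h
  obtain ⟨y, hy, hyN⟩ := exists_null (N := (X.Nm θ c z z')ᵀ) (by rw [Matrix.det_transpose]; exact h)
  have hyN' : y ᵥ* X.Nm θ c z' z = 0 := by rw [Nm_tr]; exact hyN
  rw [Matrix.vecMul_transpose] at hyN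
  rw [Ef_eq hM hχ hE.til hθ hc hy hyN', Ef_eq hM hχ hE hθ hc hb hbN]
  exact chain m (X.col z) (X.col z') X.M χ (fun w w' => E z w z' w') hM hχ (hE.fcls z z') c θ hc hθ
    b y hb hy hbN hyN

end Pool.Agent.DTU
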