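import Pool.Agent.DTU.Bar2
import Pool.Agent.DTU.EfLr
import Pool.Agent.GOC.Core2

/-!
# Two base coordinates: `Ef` is symmetric
-/

set_option autoImplicit false

noncomputable section

namespace Pool.Agent.DTU

open Matrix
open Pool.Agent.ZCyc Pool.Agent.Dess Pool.Agent.GT Pool.Agent.TInc
open Pool.Agent.HGF (fst snd vlo)
open Pool.Agent.GOC (vo po mv)
open scoped Classical

variable {k : Type} [Field k] [IsAlgClosed k] [CharZero k] {m : ℕ} {X : Fam k 2 (m + 1)}
  {R W : Type} [Field R] [AddCommGroup W] [Module R W] {χ : Fin (m + 1) → k → R}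
  {E : (Fin 2 → Option k) → (Fin (m + 1) → Option k) → (Fin 2 → Option k) →
    (Fin (m + 1) → Option k) → W}

/-- the form as a form in `s`, `t`, `x`, `y` -/
private def cf_Base2 (D : (Fin 2 → Fin 3) → (Fin 2 → Fin 3) → k) : GOC.Cf k :=
  fun a b i j => D ![a, i] ![b, j]

omit [IsAlgClosed k] [CharZero k] in
private theorem sum_fun_Base2 {M : Type} [AddCommMonoid M] (g : (Fin 2 → Fin 3) → M) :
    ∑ a, g a = ∑ i : Fin 3, ∑ j : Fin 3, g ![i, j] := by
  rw [← Fintype.sum_prod_type' (fun i j => g ![i, j])]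
  exact (Fintype.sum_equiv (finTwoArrowEquiv (Fin 3)).symm _ _ fun x => rfl).symm

omit [IsAlgClosed k] [CharZero k] in
/-- the value of the form as a sum over four indices -/
private theorem bf_eq_Base2 (D : (Fin 2 → Fin 3) → (Fin 2 → Fin 3) → k) {K : Type} [CommRing K]
    [Algebra k K] (S T : Fin 2 → Fin 2 → K) :
    bf D S T = ∑ a : Fin 3, ∑ b : Fin 3, ∑ i : Fin 3, ∑ j : Fin 3,
      algebraMap k K (cf_Base2 D a b i j) *
        (mv (S 0) a * mv (T 0) b * (mv (S 1) i * mv (T 1) j)) := by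
  unfold bf
  rw [sum_fun_Base2]
  refine Finset.sum_congr rfl fun a _ => ?_
  have h1 : ∀ i : Fin 3, (∑ b, algebraMap k K (D ![a, i] b) *
      ((∏ j, mv (S j) ((![a, i] : Fin 2 → Fin 3) j)) * ∏ j, mv (T j) (b j))) =
      ∑ b : Fin 3, ∑ j : Fin 3, algebraMap k K (cf_Base2 D a b i j) *
        (mv (S 0) a * mv (T 0) b * (mv (S 1) i * mv (T 1) j)) := by
    intro i
    rw [sum_fun_Base2]
    refine Finset.sum_congr rfl fun b _ => Finset.sum_congr rfl fun j _ => ?_
    rw [Fin.prod_univ_two, Fin.prod_univ_two]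
    show algebraMap k K (D ![a, i] ![b, j]) *
      (mv (S 0) a * mv (S 1) i * (mv (T 0) b * mv (T 1) j)) =
      algebraMap k K (D ![a, i] ![b, j]) * _
    ring
  rw [Finset.sum_congr rfl fun i _ => h1 i]
  exact Finset.sum_comm

omit [IsAlgClosed k] [CharZero k] in
private theorem expand_Base2 (f : GOC.Cf k) (s t x : Option k) (y : Fin 2 → k) :
    ∑ a : Fin 3, ∑ b : Fin 3, ∑ i : Fin 3, ∑ j : Fin 3,
        algebraMap k k (f a b i j) *
          (mv (vo s) a * mv (vo t) b * (mv (vo x) i * mv y j)) =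
      (f.at s t).hco 2 x * y 0 ^ 2 + (f.at s t).hco 1 x * (y 0 * y 1) +
      (f.at s t).hco 0 x * y 1 ^ 2 := by
  have h1 : (f.at s t).hco 2 x * y 0 ^ 2 + (f.at s t).hco 1 x * (y 0 * y 1) +
      (f.at s t).hco 0 x * y 1 ^ 2 = ∑ j : Fin 3, (f.at s t).hco j x * mv y j := by
    simp only [Fin.sum_univ_three, GOC.mv]
    simp
    ring
  rw [h1]
  have h2 : ∀ j : Fin 3, (f.at s t).hco j x * mv y j = ∑ a : Fin 3, ∑ b : Fin 3, ∑ i : Fin 3,
      algebraMap k k (f a b i j) *
          (mv (vo s) a * mv (vo t) b * (mv (vo x) i * mv y j)) := by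
    intro j
    unfold GOC.Bq.hco GOC.Cf.at
    rw [Finset.sum_mul]
    simp only [Finset.sum_mul]
    rw [Finset.sum_comm]
    refine Finset.sum_congr rfl fun a _ => ?_
    rw [Finset.sum_comm]
    refine Finset.sum_congr rfl fun b _ => Finset.sum_congr rfl fun i _ => ?_
    rw [show mv (vo s) a = GOC.mon s a from rfl, show mv (vo t) b = GOC.mon t b from rfl,
      show mv (vo x) i = GOC.mon x i from rfl]
    ring
  rw [Finset.sum_congr rfl fun j _ => h2 j]
  exact (Finset.sum_comm.trans (Finset.sum_congr rfl fun a _ => Finset.sum_comm.trans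
    (Finset.sum_congr rfl fun b _ => Finset.sum_comm))).symm

omit [IsAlgClosed k] [CharZero k] in
/-- the value of the form at four points -/
private theorem val_Base2 (D : (Fin 2 → Fin 3) → (Fin 2 → Fin 3) → k) {K : Type} [Field K]
    [Algebra k K] (z z' : Fin 2 → Option K) :
    ((cf_Base2 D).at (z 0) (z' 0)).val (z 1) (z' 1) =
      bf D (fun j => vo (z j)) fun j => vo (z' j) := by
  rw [bf_eq_Base2]
  unfold GOC.Bq.val GOC.Cf.at
  have h1 : ∀ i j : Fin 3, (∑ a, ∑ b, algebraMap k K (cf_Base2 D a b i j) *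
      (GOC.mon (z 0) a * GOC.mon (z' 0) b)) * (GOC.mon (z 1) i * GOC.mon (z' 1) j) =
      ∑ a : Fin 3, ∑ b : Fin 3, algebraMap k K (cf_Base2 D a b i j) *
        (mv (vo (z 0)) a * mv (vo (z' 0)) b * (mv (vo (z 1)) i * mv (vo (z' 1)) j)) := by
    intro i j
    rw [Finset.sum_mul]
    refine Finset.sum_congr rfl fun a _ => ?_
    rw [Finset.sum_mul]
    refine Finset.sum_congr rfl fun b _ => ?_
    rw [show mv (vo (z 0)) a = GOC.mon (z 0) a from rfl,
      show mv (vo (z' 0)) b = GOC.mon (z' 0) b from rfl,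
      show mv (vo (z 1)) i = GOC.mon (z 1) i from rfl,
      show mv (vo (z' 1)) j = GOC.mon (z' 1) j from rfl]
    ring
  rw [Finset.sum_congr rfl fun i _ => Finset.sum_congr rfl fun j _ => h1 i j]
  -- the order of the sums `i`, `j`, `a`, `b`
  rw [Finset.sum_congr rfl fun i _ => Finset.sum_comm]
  rw [Finset.sum_comm]
  refine Finset.sum_congr rfl fun a _ => ?_
  rw [Finset.sum_congr rfl fun i _ => Finset.sum_comm]
  exact Finset.sum_comm

omit [IsAlgClosed k] [CharZero k] in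
private theorem sym_Base2 {D : (Fin 2 → Fin 3) → (Fin 2 → Fin 3) → k} (hs : ∀ a b, D a b = D b a)
    (a b i j : Fin 3) : cf_Base2 D a b i j = cf_Base2 D b a j i :=
  hs _ _

/-- `GOC.Bar` in the last coordinate. PROOF. As `GOY.Ef_barY`: let `κ ≠ 0` and the equations of `GOC.Bar` at `x` be given. For all
`y : Fin 2 → k` the determinant at `(s, x)`, `(t, y)` is `bf D = ∑ j, hco j * mv y j` (`hco` unfolds to the sums over `a`, `b`, `i`;
`GOC.mon x i = mv (vo x) i`; the sum over `Fin 2 → Fin 3` is a double sum, `![a, i]`), so it is `κ (wd y (vo Y)) (wd y (vo Y'))`. Apply `Ef_sum` with `z = ![s, x]`, `i = 0`. -/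
theorem Ef_barY [CharZero R] (he : ∀ j, ∑ l, X.e l j = 2) (hM : ∀ i, 0 < X.M i)
    (hχ : HYG.Chars X.M χ) (hE : IsCls₂ X χ E) {θ c : Fin (m + 1) → k} (hθ : ∀ i, θ i ≠ 0)
    (hc : ∀ i, c i ≠ 0) {D : (Fin 2 → Fin 3) → (Fin 2 → Fin 3) → k}
    (hD : ∀ S T : Fin 2 → Fin 2 → k,
      ((X.cv S).N (X.cv T) (fun i => θ i * c i ^ X.M i) θ).det = bf D S T) (s t : Option k) :
    GOC.Bar (GOC.Cf.at (fun a b i j => D ![a, i] ![b, j]) s t)
      fun x y => Ef X E θ (fun i => some (c i)) ![s, x] ![t, y] := by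
  intro x Y Y' κ hκ h2 h1 h0
  refine Ef_sum he hM hχ hE hθ hc 0 ![s, x] t hκ fun y => ?_
  rw [hD, bf_eq_Base2]
  have h4 := expand_Base2 (cf_Base2 D) s t x y
  change (∑ a : Fin 3, ∑ b : Fin 3, ∑ i : Fin 3, ∑ j : Fin 3,
    algebraMap k k (cf_Base2 D a b i j) *
      (mv (vo s) a * mv (vo t) b * (mv (vo x) i * mv y j))) = _
  rw [h4]
  change (GOC.Cf.at (fun a b i j => D ![a, i] ![b, j]) s t).hco 2 x * y 0 ^ 2 +
    (GOC.Cf.at (fun a b i j => D ![a, i] ![b, j]) s t).hco 1 x * (y 0 * y 1) +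
    (GOC.Cf.at (fun a b i j => D ![a, i] ![b, j]) s t).hco 0 x * y 1 ^ 2 = _
  rw [h2, h1, h0]
  unfold GOY.wd
  rw [show vo Y 1 = snd Y from rfl, show vo Y 0 = fst Y from rfl, show vo Y' 1 = snd Y' from rfl,
    show vo Y' 0 = fst Y' from rfl]
  ring

/-- `GOC.Bar` in the third coordinate. PROOF. As `GOY.Ef_barX`: by the symmetry of `D` the form `fun i j => (cf.at s t) j i` is `cf.at t s`. The
equations of `GOC.Bar` at `y` say that the quadratic form in `x` has the zeros `X₀`, `X₀'`; so the determinant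
is zero at `(![s, X₀], ![t, y])` and `(![s, X₀'], ![t, y])`. By `Ef_lr` for `til E` (`til_til`) the value `Ef X E θ c ![s, X₀] ![t, y]` is
`(-1) ^ m • Ef X (til E) θ c ![t, y] ![s, X₀]`; apply `Ef_barY` to `til E` (`hE.til`). -/
theorem Ef_barX [CharZero R] (he : ∀ j, ∑ l, X.e l j = 2) (hM : ∀ i, 0 < X.M i)
    (hχ : HYG.Chars X.M χ) (hE : IsCls₂ X χ E) {θ c : Fin (m + 1) → k} (hθ : ∀ i, θ i ≠ 0)
    (hc : ∀ i, c i ≠ 0) {D : (Fin 2 → Fin 3) → (Fin 2 → Fin 3) → k} (hs : ∀ a b, D a b = D b a)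
    (hD : ∀ S T : Fin 2 → Fin 2 → k,
      ((X.cv S).N (X.cv T) (fun i => θ i * c i ^ X.M i) θ).det = bf D S T) (s t : Option k) :
    GOC.Bar (fun i j => GOC.Cf.at (fun a b i j => D ![a, i] ![b, j]) s t j i)
      fun y x => Ef X E θ (fun i => some (c i)) ![s, x] ![t, y] := by
  have hsw : (fun i j => GOC.Cf.at (fun a b i j => D ![a, i] ![b, j]) s t j i) =
      GOC.Cf.at (fun a b i j => D ![a, i] ![b, j]) t s := by
    funext i j
    exact (GOC.at_sym (f := cf_Base2 D) (sym_Base2 hs) s t i j).symm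
  rw [hsw]
  intro y X₀ X₀' κ hκ h2 h1 h0
  have h3 : Ef X (til E) θ (fun i => some (c i)) ![t, y] ![s, X₀] +
      Ef X (til E) θ (fun i => some (c i)) ![t, y] ![s, X₀'] = 0 :=
    Ef_barY he hM hχ hE.til hθ hc hD t s y X₀ X₀' κ hκ h2 h1 h0
  have h4 : ∀ x : Option k,
      (GOC.Cf.at (fun a b i j => D ![a, i] ![b, j]) t s).hco 2 y * fst x ^ 2 +
      (GOC.Cf.at (fun a b i j => D ![a, i] ![b, j]) t s).hco 1 y * (fst x * snd x) +
      (GOC.Cf.at (fun a b i j => D ![a, i] ![b, j]) t s).hco 0 y * snd x ^ 2 = 0 →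
      Ef X E θ (fun i => some (c i)) ![s, x] ![t, y] =
        (-1 : ℤ) ^ m • Ef X (til E) θ (fun i => some (c i)) ![t, y] ![s, x] := by
    intro x hx
    have h5 : (X.Nm θ c ![t, y] ![s, x]).det = 0 := by
      rw [← GOC.Bq.val_eq] at hx
      unfold Fam.Nm Fam.col
      rw [hD, ← val_Base2]
      exact hx
    have h6 := Ef_lr hM hχ hE.til hθ hc h5
    rw [til_til] at h6
    exact h6
  have h7 := h4 X₀ (by rw [h2, h1, h0]; ring)
  have h8 := h4 X₀' (by rw [h2, h1, h0]; ring)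
  change Ef X E θ (fun i => some (c i)) ![s, X₀] ![t, y] +
    Ef X E θ (fun i => some (c i)) ![s, X₀'] ![t, y] = 0
  rw [h7, h8, ← smul_add, h3, smul_zero]

/-- THE SYMMETRY for two base coordinates. PROOF. Take `D` from `exists_D` for `p i = θ i * c i ^ M i`, `q = θ` (`hD` for `R = k`, and for fields `K` over `k`). `GOC.core2` for
`f a b i j = D ![a, i] ![b, j]` and `F s t x y = Ef X E θ c ![s, x] ![t, y]`: `sym` from the symmetry of `D`; `cf`: `Ef_cf` for the constants `c` (`HGF.vlo_const`; the condition `val = 0` is `bf D = 0`);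
`barY`, `barX`. `z = ![z 0, z 1]`. (`Module ℚ W` from `Module.compHom W (algebraMap ℚ R)`.) -/
theorem base2 [CharZero R] (he : ∀ j, ∑ l, X.e l j = 2) (hM : ∀ i, 0 < X.M i)
    (hχ : HYG.Chars X.M χ) (hE : IsCls₂ X χ E) {θ c : Fin (m + 1) → k} (hθ : ∀ i, θ i ≠ 0)
    (hc : ∀ i, c i ≠ 0) {z z' : Fin 2 → Option k} (h : (X.Nm θ c z z').det = 0) :
    Ef X E θ (fun i => some (c i)) z' z = Ef X E θ (fun i => some (c i)) z z' := by
  let _ : Module ℚ W := Module.compHom W (algebraMap ℚ R)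
  obtain ⟨D, hs, hDK⟩ := exists_D X he (fun i => θ i * c i ^ X.M i) θ
  have hD : ∀ S T : Fin 2 → Fin 2 → k,
      ((X.cv S).N (X.cv T) (fun i => θ i * c i ^ X.M i) θ).det = bf D S T := fun S T => hDK k S T
  have hcf : (cf_Base2 D).IsCF fun s t x y => Ef X E θ (fun i => some (c i)) ![s, x] ![t, y] := by
    intro K _ _ hK s t x y g hg hxy
    have h1 : (X.Nm (fun i => algebraMap k K (θ i)) (fun i => algebraMap k K (c i))
        ![s, x] ![t, y]).det = 0 := by
      have h2 := val_Base2 D (![s, x] : Fin 2 → Option K) ![t, y]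
      have h3 := hDK K (fun j => vo ((![s, x] : Fin 2 → Option K) j))
        fun j => vo ((![t, y] : Fin 2 → Option K) j)
      simp only [map_mul, map_pow] at h3
      unfold Fam.Nm Fam.col
      rw [h3, ← h2]
      exact hxy
    have h2 := Ef_cf (Nat.succ_pos m) hM hχ hE hθ hK
      (fun i => (_root_.map_ne_zero (algebraMap k K)).2 (hc i)) h1 hg
    refine Eq.trans ?_ h2
    refine Finset.sum_congr rfl fun v _ => ?_
    have e1 : (fun j => vlo v ((![s, x] : Fin 2 → Option K) j)) = ![vlo v s, vlo v x] := by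
      funext j
      fin_cases j <;> rfl
    have e2 : (fun j => vlo v ((![t, y] : Fin 2 → Option K) j)) = ![vlo v t, vlo v y] := by
      funext j
      fin_cases j <;> rfl
    have e3 : (fun i => vlo v (some (algebraMap k K (c i)))) = fun i => some (c i) := by
      funext i
      exact HGF.vlo_const v (some (c i))
    beta_reduce
    rw [e1, e2, e3]
  have e3 : ∀ u : Fin 2 → Option k, ![u 0, u 1] = u := fun u => by
    funext i
    fin_cases i <;> rfl
  have hval : ((cf_Base2 D).at (z 0) (z' 0)).val (z 1) (z' 1) = 0 := by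
    rw [val_Base2, ← hD]
    exact h
  have h4 := GOC.core2 (f := cf_Base2 D)
    (F := fun s t x y => Ef X E θ (fun i => some (c i)) ![s, x] ![t, y])
    ⟨sym_Base2 hs, hcf, fun s t => Ef_barY he hM hχ hE hθ hc hD s t,
      fun s t => Ef_barX he hM hχ hE hθ hc hs hD s t⟩ (z 0) (z' 0) (z 1) (z' 1) hval
  simp only [e3] at h4
  exact h4.symm

end Pool.Agent.DTU
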