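import Pool.Agent.DTU.OnT
import Pool.Agent.DTU.Base2
import Pool.Agent.DTU.Base1M

/-!
# The exchange of two points
-/

set_option autoImplicit false

noncomputable section

namespace Pool.Agent.DTU

open Matrix
open Pool.Agent.ZCyc Pool.Agent.Dess Pool.Agent.GT Pool.Agent.TInc
open Pool.Agent.HGF (fst snd vlo)
open Pool.Agent.GOC (vo po)
open scoped Classical

variable {k : Type} [Field k] [IsAlgClosed k] [CharZero k] {r m : ℕ} {X : Fam k r (m + 1)}
  {R W : Type} [Field R] [AddCommGroup W] [Module R W] {χ : Fin (m + 1) → k → R}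
  {E : (Fin r → Option k) → (Fin (m + 1) → Option k) → (Fin r → Option k) →
    (Fin (m + 1) → Option k) → W}

/-- THE EXCHANGE OF TWO POINTS. PROOF. `onT`: in the first case both sides are zero (apply it to `E` and to `til E`, `hE.til`). In the
second case `E z w z' w' = Ef E z z'` and `E z' w' z w = til E z w z' w' = Ef (til E) z z' = (-1) ^ m • Ef E z' z` (`Ef_lr` for `(z', z)`; the determinant of
the transpose, `Nm_tr`). `r = 0`: `z = z'` (functions on `Fin 0`). `r = 1`: `base1` (`i = 0`), `Ef E z' z = - Ef E z z'`. `r = 2`: `base2`, `Ef E z' z = Ef E z z'`. (`subst` for `r`: `interval_cases r`.) -/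
theorem swap [CharZero R] (hr : r ≤ 2) (he : ∀ j, ∑ l, X.e l j = 2) (hM : ∀ i, 0 < X.M i)
    (hχ : HYG.Chars X.M χ) (hE : IsCls₂ X χ E) {z z' : Fin r → Option k}
    {w w' : Fin (m + 1) → Option k} (h : On X z w) (h' : On X z' w') :
    E z' w' z w = (-1 : ℤ) ^ (m + r) • E z w z' w' := by
  have hr3 : r = 0 ∨ r = 1 ∨ r = 2 := by omega
  rcases onT (R := R) (W := W) hM hχ h h' with h0 | ⟨θ, c, hθ, hc, hdet, hEf⟩
  · have e1 : E z w z' w' = 0 := h0 E hE
    have e2 : E z' w' z w = 0 := h0 (til E) hE.til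
    rw [e1, e2, smul_zero]
  · have e1 : E z w z' w' = Ef X E θ (fun i => some (c i)) z z' := hEf E hE
    have e2 : E z' w' z w = Ef X (til E) θ (fun i => some (c i)) z z' := hEf (til E) hE.til
    have hdet' : (X.Nm θ c z' z).det = 0 := by
      rw [Nm_tr, Matrix.det_transpose]
      exact hdet
    rw [e2, e1, Ef_lr hM hχ hE hθ hc hdet', pow_add, mul_smul]
    congr 1
    rcases hr3 with rfl | rfl | rfl
    · rw [Subsingleton.elim z' z, pow_zero, one_smul]
    · rw [pow_one, neg_smul, one_smul]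
      exact eq_neg_of_add_eq_zero_right (base1 he hM hχ hE hθ hc 0 hdet)
    · rw [neg_one_sq, one_smul]
      exact base2 he hM hχ hE hθ hc hdet

end Pool.Agent.DTU
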