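import Pool.Agent.DTU.FVEb
import Pool.Agent.GOY.Eta

/-!
# Function fields; common zeros
-/

set_option autoImplicit false

noncomputable section

namespace Pool.Agent.DTU

open Matrix Polynomial
open Pool.Agent.ZCyc Pool.Agent.Dess Pool.Agent.GT Pool.Agent.TInc
open Pool.Agent.HGF (fst snd vlo)
open scoped Classical

variable {k : Type} [Field k] [IsAlgClosed k] [CharZero k] {m : ℕ} {C C' : Col k m}
  {M : Fin m → ℕ} {R W : Type} [Field R] [AddCommGroup W] [Module R W] {χ : Fin m → k → R}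
  {E : (Fin m → Option k) → (Fin m → Option k) → W}

/-- A function field with a transcendental element `T` and roots of rational functions of `T` (as
`GOY.exists_fieldT`; `HYG.exists_roots` for `r = m + 1`, `Fin.snoc` or `Fin.cons`) -/
theorem exists_fieldM {n : ℕ} {M : Fin n → ℕ} (hM : ∀ i, 0 < M i) (p q : Fin n → k[X]) {M₁ : ℕ}
    (hM₁ : 0 < M₁) (p₁ q₁ : k[X]) :
    ∃ (K : Type) (_ : Field K) (_ : Algebra k K) (_ : IsCurve k K) (T η : K) (w : Fin n → K),
      Transcendental k T ∧ (∀ i, w i ^ M i = aeval T (p i) / aeval T (q i)) ∧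
        η ^ M₁ = aeval T p₁ / aeval T q₁ := by
  obtain ⟨K, i1, i2, hK, φ, w, hw⟩ := HYG.exists_roots (k := k)
    (HYG.isCurve_ratFunc (k := k)) (r := n + 1)
    (M := (Fin.cons M₁ M : Fin (n + 1) → ℕ)) (by
      intro i
      refine Fin.cases ?_ (fun i => ?_) i
      · exact hM₁
      · exact hM i)
    (Fin.cons (aeval RatFunc.X p₁ / aeval RatFunc.X q₁) fun i =>
      aeval RatFunc.X (p i) / aeval RatFunc.X (q i) : Fin (n + 1) → RatFunc k)
  refine ⟨K, i1, i2, hK, φ RatFunc.X, w 0, fun i => w i.succ, fun h =>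
    RatFunc.transcendental_X ((isAlgebraic_algHom_iff φ (φ : RatFunc k →+* K).injective).1 h),
    fun i => ?_, ?_⟩
  · have h := hw i.succ
    simp only [Fin.cons_succ] at h
    rw [h, map_div₀, aeval_algHom_apply, aeval_algHom_apply]
  · have h := hw 0
    simp only [Fin.cons_zero] at h
    rw [h, map_div₀, aeval_algHom_apply, aeval_algHom_apply]

/-- A COMMON ZERO. Let `b N = Λ g'`, `g' = α'_j - U' β'_j`, and `q_j P_j (b · β_j) + Λ U' = 0`, `q_j (b · α_j) + Λ = 0`. Then `Eb` is zero for `b`.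
PROOF. Let `Eb ≠ 0`. `b N = Λ g' = - q_j (b · α_j) α'_j + q_j P_j (b · β_j) β'_j`, so the sum over `i ≠ j` in `vecMul_N` is zero. Take `w`
from `exists_w`, `w' = c / w`; by `vecMul_ga` `∑ a_i γ'_i = 0` for `a_i = q_i (b · α_i)` for `i ≠ j`, `a_j = 0` (subtract the term
`j`), and `a_i ≠ 0` for the index `i ≠ j`. So the coordinate `j` of the second point is arbitrary (`on_free'`), the points lie on the fibres (`on_left`; `on_free'` with
`y = w' j`, `Function.update_eq_self`), `Eb_eq` and `free_right` give zero. -/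
theorem common_zero [CharZero R] (hM : ∀ i, 0 < M i) (hχ : HYG.Chars M χ)
    (hE : FCls C C' M χ E) {c q : Fin m → k} (hc : ∀ i, c i ≠ 0) (hq : ∀ i, q i ≠ 0)
    {b : Fin m → k} {i j : Fin m} (hij : i ≠ j) {U' Λ : k} (hb : b ≠ 0)
    (h : b ᵥ* C.N C' (fun i => q i * c i ^ M i) q = Λ • (C'.a j - U' • C'.b j))
    (h₀ : q j * c j ^ M j * (b ⬝ᵥ C.b j) + Λ * U' = 0) (h₁ : q j * (b ⬝ᵥ C.a j) + Λ = 0) :
    Eb C M E c b = 0 := by
  by_contra hne
  have hab := Eb_ne hne
  obtain ⟨w, hw, hw1⟩ := exists_w hM hab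
  have hcw : ∀ l, c l = w l * (c l / w l) := fun l => (mul_div_cancel₀ (c l) (hw l)).symm
  have hN : b ᵥ* C.N C' (fun i => q i * c i ^ M i) q =
      -∑ i, (q i * (b ⬝ᵥ C.a i)) • C'.ga M (fun i => some (c i / w i)) i := by
    have h2 := vecMul_ga (C' := C') (q := q) (w' := fun l => c l / w l) hw1
    have h3 : (fun i => q i * (w i * (c i / w i)) ^ M i) = fun i => q i * c i ^ M i := by
      funext l
      rw [← hcw l]
    rw [h3] at h2
    exact h2
  -- the right side is the term of the index `j`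
  have hj : Λ • (C'.a j - U' • C'.b j) =
      -((q j * (b ⬝ᵥ C.a j)) • C'.ga M (fun i => some (c i / w i)) j) := by
    rw [ga_some (C := C') (fun i => c i / w i) j]
    have h2 : Λ = -(q j * (b ⬝ᵥ C.a j)) := by linear_combination h₁
    have h3 : Λ * U' = -(q j * (b ⬝ᵥ C.a j) * (c j / w j) ^ M j) := by
      have h4 : c j ^ M j * (b ⬝ᵥ C.b j) = (c j / w j) ^ M j * (b ⬝ᵥ C.a j) := by
        rw [← hw1 j, ← mul_assoc, ← mul_pow, div_mul_cancel₀ _ (hw j)]
      linear_combination h₀ - q j * h4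
    funext l
    simp only [Pi.smul_apply, Pi.sub_apply, Pi.neg_apply, smul_eq_mul]
    linear_combination C'.a j l * h2 - C'.b j l * h3
  have hsum : ∑ l, (if l = j then 0 else q l * (b ⬝ᵥ C.a l)) •
      C'.ga M (fun i => some (c i / w i)) l = 0 := by
    have h2 : ∑ i, (q i * (b ⬝ᵥ C.a i)) • C'.ga M (fun i => some (c i / w i)) i =
        (q j * (b ⬝ᵥ C.a j)) • C'.ga M (fun i => some (c i / w i)) j := by
      have h3 := hN.symm.trans (h.trans hj)
      exact neg_injective h3
    rw [← Finset.add_sum_erase Finset.univ _ (Finset.mem_univ j)] at h2 ⊢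
    rw [if_pos rfl, zero_smul, zero_add]
    have h4 := add_eq_left.1 h2
    rw [← h4]
    refine Finset.sum_congr rfl fun l hl => ?_
    rw [if_neg (Finset.ne_of_mem_erase hl)]
  have hfree : ∀ y, C'.On M (Function.update (fun i => some (c i / w i)) j y) := by
    intro y
    refine on_free' (a := fun l => if l = j then 0 else q l * (b ⬝ᵥ C.a l)) ?_ (if_pos rfl)
      hsum y
    intro h0
    have h2 := congrFun h0 i
    simp only [if_neg hij, Pi.zero_apply] at h2
    exact mul_ne_zero (hq i) (hab i).1 h2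
  have h5 := hE.free_right hM hχ (on_left hb hw1) hfree
  rw [← Eb_eq hM hχ hE hw hw1 fun i => (hab i).2] at h5
  exact hne h5

end Pool.Agent.DTU
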