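import Pool.Agent.DTU.FrmD
import Pool.Agent.DTU.LinB

/-!
# The determinant as a form: one coordinate `c i`
-/

set_option autoImplicit false

noncomputable section

namespace Pool.Agent.DTU

open Matrix
open Pool.Agent.ZCyc Pool.Agent.Dess Pool.Agent.GT Pool.Agent.TInc
open Pool.Agent.HGF (fst snd vlo)
open Pool.Agent.GOC (vo po mv)
open scoped Classical

variable {k : Type} [Field k] {r m : ℕ}

private theorem mv_map_Frm {R R' : Type} [CommRing R] [CommRing R'] (φ : R →+* R') (S : Fin 2 → R)
    (i : Fin 3) : mv (fun j => φ (S j)) i = φ (mv S i) := by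
  simp only [mv, map_mul, map_pow]

private theorem mv_smul_Frm {R : Type} [CommRing R] (c : R) (S : Fin 2 → R) (i : Fin 3) :
    mv (fun j => c * S j) i = c ^ 2 * mv S i := by
  fin_cases i
  · simp only [mv]
    simp
    ring
  · simp only [mv]
    simp
    ring
  · simp only [mv]
    simp
    ring

private theorem bf_sub_Frm (D₀ D₁ : (Fin r → Fin 3) → (Fin r → Fin 3) → k) {R : Type} [CommRing R]
    [Algebra k R] (S T : Fin r → Fin 2 → R) :
    bf (fun a b => D₁ a b - D₀ a b) S T = bf D₁ S T - bf D₀ S T := by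
  unfold bf
  rw [← Finset.sum_sub_distrib]
  refine Finset.sum_congr rfl fun a _ => ?_
  rw [← Finset.sum_sub_distrib]
  refine Finset.sum_congr rfl fun b _ => ?_
  rw [map_sub, sub_mul]

private theorem N_upd_Frm {R : Type} [CommRing R] (C C' : Col R m) (p q : Fin m → R) (i : Fin m)
    (x : R) : C.N C' (Function.update p i x) q =
      C.N C' (Function.update p i 0) q + x • vecMulVec (C.b i) (C'.b i) := by
  ext l l'
  rw [Matrix.add_apply, Matrix.smul_apply, vecMulVec_apply, smul_eq_mul]
  simp only [Col.N, Matrix.of_apply]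
  rw [← sub_eq_iff_eq_add', ← Finset.sum_sub_distrib, Finset.sum_eq_single i]
  · rw [Function.update_self, Function.update_self]
    ring
  · intro j _ hj
    rw [Function.update_of_ne hj, Function.update_of_ne hj]
    ring
  · intro h
    exact absurd (Finset.mem_univ _) h

/-- THE DEPENDENCE ON ONE COEFFICIENT `p i`: `N(x) = N(0) + x • vecMulVec β_i β'_i`, so `det N(x) = det N(0) + x (det N(1) - det N(0))` (`det_rank_one`); take
`D₀` from `exists_D` for `p i = 0`, and `D₁` as the difference of the forms for `p i = 1` and `p i = 0`. (`Function.update` and `algebraMap`: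
`Function.update_apply`.) -/
theorem exists_D2 [CharZero k] (X : Fam k r m) (he : ∀ j, ∑ l, X.e l j = 2) (p q : Fin m → k)
    (i : Fin m) :
    ∃ D₀ D₁ : (Fin r → Fin 3) → (Fin r → Fin 3) → k, (∀ a b, D₀ a b = D₀ b a) ∧
      (∀ a b, D₁ a b = D₁ b a) ∧
      ∀ (R : Type) [CommRing R] [Algebra k R] (S T : Fin r → Fin 2 → R) (x : R),
        ((X.cv S).N (X.cv T) (Function.update (fun i => algebraMap k R (p i)) i x)
          fun i => algebraMap k R (q i)).det = bf D₀ S T + x * bf D₁ S T := by
  obtain ⟨D₀, hs₀, h₀⟩ := exists_D X he (Function.update p i 0) q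
  obtain ⟨D₁, hs₁, h₁⟩ := exists_D X he (Function.update p i 1) q
  refine ⟨D₀, fun a b => D₁ a b - D₀ a b, hs₀, fun a b => by
    change D₁ a b - D₀ a b = D₁ b a - D₀ b a
    rw [hs₀ a b, hs₁ a b], ?_⟩
  intro R _ _ S T x
  have hu : ∀ y : k, (fun j => algebraMap k R (Function.update p i y j)) =
      Function.update (fun j => algebraMap k R (p j)) i (algebraMap k R y) := by
    intro y
    funext j
    by_cases hj : j = i
    · subst hj
      rw [Function.update_self, Function.update_self]
    · rw [Function.update_of_ne hj, Function.update_of_ne hj]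
  have e₀ := h₀ R S T
  have e₁ := h₁ R S T
  rw [hu, map_zero] at e₀
  rw [hu, map_one, N_upd_Frm, det_rank_one, e₀] at e₁
  rw [N_upd_Frm, det_rank_one, e₀, bf_sub_Frm, ← e₁]
  ring

/-- The determinant of `X.Nm` as a function of the coordinate `c i` (`exists_D2` for `p i = θ i * c i ^ M i`, `S j = vo (z j)`, `T j = vo (z' j)`). -/
theorem exists_Nm [CharZero k] (X : Fam k r m) (he : ∀ j, ∑ l, X.e l j = 2) (θ c : Fin m → k)
    (i : Fin m) :
    ∃ D₀ D₁ : (Fin r → Fin 3) → (Fin r → Fin 3) → k, (∀ a b, D₀ a b = D₀ b a) ∧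
      (∀ a b, D₁ a b = D₁ b a) ∧
      ∀ (K : Type) [Field K] [Algebra k K] (z z' : Fin r → Option K) (x : K),
        (X.Nm (fun i => algebraMap k K (θ i))
          (Function.update (fun i => algebraMap k K (c i)) i x) z z').det =
          bf D₀ (fun j => vo (z j)) (fun j => vo (z' j)) +
            algebraMap k K (θ i) * x ^ X.M i * bf D₁ (fun j => vo (z j)) fun j => vo (z' j) := by
  obtain ⟨D₀, D₁, hs₀, hs₁, h⟩ := exists_D2 X he (fun j => θ j * c j ^ X.M j) θ i
  refine ⟨D₀, D₁, hs₀, hs₁, ?_⟩
  intro K _ _ z z' x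
  rw [← h K (fun j => vo (z j)) (fun j => vo (z' j)) (algebraMap k K (θ i) * x ^ X.M i)]
  have hu : (fun j => algebraMap k K (θ j) *
      Function.update (fun i => algebraMap k K (c i)) i x j ^ X.M j) =
      Function.update (fun j => algebraMap k K (θ j * c j ^ X.M j)) i
        (algebraMap k K (θ i) * x ^ X.M i) := by
    funext j
    by_cases hj : j = i
    · subst hj
      rw [Function.update_self, Function.update_self]
    · rw [Function.update_of_ne hj, Function.update_of_ne hj, map_mul, map_pow]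
  unfold Fam.Nm Fam.col
  rw [hu]

/-! ### Simple facts on `bf` -/

theorem bf_symm {D : (Fin r → Fin 3) → (Fin r → Fin 3) → k} (hD : ∀ a b, D a b = D b a)
    {R : Type} [CommRing R] [Algebra k R] (S T : Fin r → Fin 2 → R) : bf D T S = bf D S T := by
  unfold bf
  rw [Finset.sum_comm]
  refine Finset.sum_congr rfl fun a _ => Finset.sum_congr rfl fun b _ => ?_
  rw [hD b a, mul_comm (∏ j, mv (T j) (b j))]

/-- (`mv (a • S) i = a ^ 2 * mv S i`) -/
theorem bf_smul (D : (Fin r → Fin 3) → (Fin r → Fin 3) → k) {R : Type} [CommRing R] [Algebra k R]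
    (S T : Fin r → Fin 2 → R) (a b : Fin r → R) :
    bf D (fun j i => a j * S j i) (fun j i => b j * T j i) =
      (∏ j, a j ^ 2) * (∏ j, b j ^ 2) * bf D S T := by
  unfold bf
  rw [Finset.mul_sum]
  refine Finset.sum_congr rfl fun x _ => ?_
  rw [Finset.mul_sum]
  refine Finset.sum_congr rfl fun y _ => ?_
  simp only [mv_smul_Frm, Finset.prod_mul_distrib]
  ring

theorem bf_map (D : (Fin r → Fin 3) → (Fin r → Fin 3) → k) {R R' : Type} [CommRing R]
    [Algebra k R] [CommRing R'] [Algebra k R'] (φ : R →ₐ[k] R') (S T : Fin r → Fin 2 → R) :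
    bf D (fun j i => φ (S j i)) (fun j i => φ (T j i)) = φ (bf D S T) := by
  have h1 : ∀ (S : Fin 2 → R) (i : Fin 3), mv (fun j => φ (S j)) i = φ (mv S i) := fun S i =>
    mv_map_Frm (φ : R →+* R') S i
  unfold bf
  simp only [map_sum, map_mul, map_prod, AlgHom.commutes, h1]

theorem bf_add (D₀ D₁ : (Fin r → Fin 3) → (Fin r → Fin 3) → k) (x : k) {R : Type} [CommRing R]
    [Algebra k R] (S T : Fin r → Fin 2 → R) :
    bf (fun a b => D₀ a b + x * D₁ a b) S T = bf D₀ S T + algebraMap k R x * bf D₁ S T := by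
  unfold bf
  rw [Finset.mul_sum, ← Finset.sum_add_distrib]
  refine Finset.sum_congr rfl fun a _ => ?_
  rw [Finset.mul_sum, ← Finset.sum_add_distrib]
  refine Finset.sum_congr rfl fun b _ => ?_
  rw [map_add, map_mul]
  ring

end Pool.Agent.DTU
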