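import Pool.Agent.DTU.EfMov
import Pool.Agent.DTU.FTwoA
import Pool.Agent.DTU.Frm

/-!
# Two base coordinates: the sum of two values with the same first three coordinates
-/

set_option autoImplicit false

noncomputable section

namespace Pool.Agent.DTU

open Matrix Polynomial
open Pool.Agent.ZCyc Pool.Agent.Dess Pool.Agent.GT Pool.Agent.TInc
open Pool.Agent.HGF (fst snd vlo)
open Pool.Agent.GOC (vo po mv)
open scoped Classical

variable {k : Type} [Field k] [IsAlgClosed k] [CharZero k] {m : ℕ} {X : Fam k 2 m}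
  {R W : Type} [Field R] [AddCommGroup W] [Module R W] {χ : Fin m → k → R}
  {E : (Fin 2 → Option k) → (Fin m → Option k) → (Fin 2 → Option k) → (Fin m → Option k) → W}

section Aux

/-- the path -/
private def pth_Bar2 {R : Type} [CommRing R] (μ T : R) : Fin 2 → R := ![μ * T + 1, T]

private theorem pth_ne_Bar2 {K : Type} [Field K] (μ T : K) : pth_Bar2 μ T ≠ 0 := by
  intro h
  have h0 := congrFun h 0
  have h1 := congrFun h 1
  simp only [pth_Bar2, Matrix.cons_val_zero, Matrix.cons_val_one, Pi.zero_apply] at h0 h1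
  rw [h1, mul_zero, zero_add] at h0
  exact one_ne_zero h0

private theorem prop_Bar2 {K : Type} [Field K] {u v : Fin 2 → K} (hu : u ≠ 0)
    (h : GOY.wd u v = 0) : ∃ r, v = fun l => r * u l := by
  have h' : u 0 * v 1 - u 1 * v 0 = 0 := h
  by_cases h0 : u 0 = 0
  · have h1 : u 1 ≠ 0 := by
      intro h1
      apply hu
      funext l
      fin_cases l
      · exact h0
      · exact h1
    refine ⟨v 1 / u 1, ?_⟩
    funext l
    fin_cases l
    · show v 0 = v 1 / u 1 * u 0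
      field_simp
      linear_combination -h'
    · show v 1 = v 1 / u 1 * u 1
      field_simp
  · refine ⟨v 0 / u 0, ?_⟩
    funext l
    fin_cases l
    · show v 0 = v 0 / u 0 * u 0
      field_simp
    · show v 1 = v 0 / u 0 * u 1
      field_simp
      linear_combination h'

omit [IsAlgClosed k] [CharZero k] in
private theorem vo_map_Bar2 {K : Type} [Field K] [Algebra k K] (x : Option k) :
    vo (x.map (algebraMap k K)) = fun i => algebraMap k K (vo x i) := by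
  funext i
  fin_cases i
  · exact HGF.fst_map (Algebra.ofId k K) x
  · exact HGF.snd_map (Algebra.ofId k K) x

omit [CharZero k] in
/-- a line which is different from two others -/
private theorem exists_m_Bar2 {b₁ b₂ : Fin 2 → k} (h1 : b₁ ≠ 0) (h2 : b₂ ≠ 0) :
    ∃ μ : k, μ * b₁ 1 - b₁ 0 ≠ 0 ∧ μ * b₂ 1 - b₂ 0 ≠ 0 := by
  by_contra hcon
  push Not at hcon
  have h3 : (Polynomial.X * C (b₁ 1) - C (b₁ 0)) * (Polynomial.X * C (b₂ 1) - C (b₂ 0)) = 0 := by
    apply Polynomial.funext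
    intro m
    rw [eval_zero, eval_mul, eval_sub, eval_sub, eval_mul, eval_mul, eval_X, eval_C, eval_C,
      eval_C, eval_C]
    by_cases h4 : m * b₁ 1 - b₁ 0 = 0
    · rw [h4, zero_mul]
    · rw [hcon m h4, mul_zero]
  have h5 : ∀ b : Fin 2 → k, b ≠ 0 → Polynomial.X * C (b 1) - C (b 0) ≠ 0 := by
    intro b hb h
    apply hb
    have e0 := congrArg (eval 0) h
    have e1 := congrArg (eval 1) h
    simp only [eval_sub, eval_mul, eval_X, eval_C, zero_mul, zero_sub, eval_zero, one_mul] at e0 e1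
    have e2 : b 0 = 0 := neg_eq_zero.1 e0
    have e3 : b 1 = 0 := by rw [e2, sub_zero] at e1; exact e1
    funext l
    fin_cases l
    · exact e2
    · exact e3
  exact mul_ne_zero (h5 _ h1) (h5 _ h2) h3

/-- the value of the second coordinate -/
private theorem vlo_pth_Bar2 {K : Type} [Field K] [Algebra k K] (hK : IsCurve k K) {μ : k} {T : K}
    (hT0 : T ≠ 0) {v : Place k K} {y : k} (hy : v.At T y) :
    vlo v (some ((algebraMap k K μ * T + 1) / T)) = po (pth_Bar2 μ y) := by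
  have hres : HasRes k K := hasRes_of_isCurve hK
  have h1 : v.At (algebraMap k K μ * T + 1) (μ * y + 1) :=
    ((Place.at_const (v := v) μ).mul hy).add (GOY.at_one v)
  by_cases hy0 : y = 0
  · have h2 : po (pth_Bar2 μ y) = none := by
      rw [GOC.po_eq_none]
      exact hy0
    rw [h2]
    refine (HYG.vl_none_iff hK).2 fun h3 => ?_
    obtain ⟨d, hd⟩ := exists_at hK v h3
    have h4 := hy.mul hd
    rw [mul_div_cancel₀ _ hT0, hy0, zero_mul] at h4
    have h5 := h4.unique h1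
    rw [hy0, mul_zero, zero_add] at h5
    exact zero_ne_one h5
  · have h2 : po (pth_Bar2 μ y) = some ((μ * y + 1) / y) := by
      unfold po
      exact if_neg hy0
    rw [h2]
    exact HGF.vlo_at (h1.div hy hy0)

/-- the form on the path as a polynomial -/
private def bP_Bar2 (D : (Fin 2 → Fin 3) → (Fin 2 → Fin 3) → k) (S : Fin 2 → Fin 2 → k)
    (s : Fin 2 → k) (μ : k) : k[X] :=
  bf D (fun j i => C (S j i)) ![fun i => C (s i), pth_Bar2 (C μ) Polynomial.X]

omit [IsAlgClosed k] [CharZero k] in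
private theorem aeval_bP_Bar2 (D : (Fin 2 → Fin 3) → (Fin 2 → Fin 3) → k) (S : Fin 2 → Fin 2 → k)
    (s : Fin 2 → k) (μ : k) {K : Type} [CommRing K] [Algebra k K] (T : K) :
    aeval T (bP_Bar2 D S s μ) = bf D (fun j i => algebraMap k K (S j i))
      ![fun i => algebraMap k K (s i), pth_Bar2 (algebraMap k K μ) T] := by
  unfold bP_Bar2
  rw [← bf_map]
  congr 1
  · funext j i
    rw [aeval_C]
  · funext j i
    fin_cases j
    · show aeval T (C (s i)) = algebraMap k K (s i)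
      rw [aeval_C]
    · fin_cases i
      · show aeval T (C μ * Polynomial.X + 1) = algebraMap k K μ * T + 1
        rw [map_add, map_mul, aeval_C, aeval_X, map_one]
      · show aeval T (Polynomial.X : k[X]) = T
        rw [aeval_X]

omit [IsAlgClosed k] [CharZero k] in
private theorem eval_bP_Bar2 (D : (Fin 2 → Fin 3) → (Fin 2 → Fin 3) → k) (S : Fin 2 → Fin 2 → k)
    (s : Fin 2 → k) (μ : k) (y : k) :
    (bP_Bar2 D S s μ).eval y = bf D S ![s, pth_Bar2 μ y] := by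
  have h := aeval_bP_Bar2 D S s μ (K := k) y
  rw [coe_aeval_eq_eval] at h
  exact h

omit [IsAlgClosed k] [CharZero k] in
private theorem mv_C_Bar2 (s : Fin 2 → k) (b : Fin 3) :
    mv (fun i => (C (s i) : k[X])) b = C (mv s b) := by
  simp only [mv, map_mul, map_pow]

omit [IsAlgClosed k] [CharZero k] in
private theorem natDegree_bP_Bar2 (D : (Fin 2 → Fin 3) → (Fin 2 → Fin 3) → k)
    (S : Fin 2 → Fin 2 → k) (s : Fin 2 → k) (μ : k) : (bP_Bar2 D S s μ).natDegree ≤ 2 := by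
  unfold bP_Bar2 bf
  refine natDegree_sum_le_of_forall_le _ _ fun a _ => ?_
  refine natDegree_sum_le_of_forall_le _ _ fun b _ => ?_
  have h1 : (∏ j, mv (fun i => (C (S j i) : k[X])) (a j)) = C (∏ j, mv (S j) (a j)) := by
    rw [map_prod]
    exact Finset.prod_congr rfl fun j _ => mv_C_Bar2 (S j) (a j)
  have h2 : (∏ j, mv ((![fun i => C (s i), pth_Bar2 (C μ) Polynomial.X] :
      Fin 2 → Fin 2 → k[X]) j) (b j)) =
      C (mv s (b 0)) * mv (pth_Bar2 (C μ) Polynomial.X) (b 1) := by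
    rw [Fin.prod_univ_two]
    show mv (fun i => (C (s i) : k[X])) (b 0) * mv (pth_Bar2 (C μ) Polynomial.X) (b 1) = _
    rw [mv_C_Bar2]
  rw [h1, h2]
  refine (natDegree_C_mul_le _ _).trans ?_
  refine (natDegree_C_mul_le _ _).trans ?_
  refine (natDegree_C_mul_le _ _).trans ?_
  have h3 : (C μ * Polynomial.X + 1 : k[X]).natDegree ≤ 1 := by
    refine natDegree_add_le_of_degree_le ?_ (by simp)
    exact (natDegree_C_mul_le _ _).trans (by simp)
  have h4 : ((b 1 : ℕ)) * 1 + (2 - (b 1 : ℕ)) * 1 = 2 := by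
    have := (b 1).2
    omega
  refine le_of_le_of_eq ?_ h4
  show ((C μ * Polynomial.X + 1 : k[X]) ^ (b 1 : ℕ) * (Polynomial.X : k[X]) ^
    (2 - (b 1 : ℕ))).natDegree ≤ _
  exact natDegree_mul_le_of_le (natDegree_pow_le_of_le _ h3)
    (natDegree_pow_le_of_le _ (by simp))

omit [IsAlgClosed k] [CharZero k] in
/-- a multiple of the second vector -/
private theorem bf_snd_Bar2 (D : (Fin 2 → Fin 3) → (Fin 2 → Fin 3) → k) {K : Type} [CommRing K]
    [Algebra k K] (S T : Fin 2 → Fin 2 → K) {s u : Fin 2 → K} {a : K} (h0 : T 0 = s)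
    (h1 : T 1 = fun i => a * u i) : bf D S T = a ^ 2 * bf D S ![s, u] := by
  have h := bf_smul D S ![s, u] (fun _ => 1) ![1, a]
  simp only [one_mul, one_pow, Finset.prod_const_one] at h
  rw [Fin.prod_univ_two] at h
  have e1 : (fun j i => (![1, a] : Fin 2 → K) j * (![s, u] : Fin 2 → Fin 2 → K) j i) = T := by
    funext j i
    fin_cases j
    · show 1 * s i = T 0 i
      rw [one_mul, h0]
    · show a * u i = T 1 i
      rw [h1]
  rw [e1] at h
  rw [h]
  show 1 ^ 2 * a ^ 2 * bf D S ![s, u] = _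
  rw [one_pow, one_mul]

omit [IsAlgClosed k] [CharZero k] in
/-- the determinant -/
private theorem det_Bar2 {D₀ D₁ : (Fin 2 → Fin 3) → (Fin 2 → Fin 3) → k} {θ c : Fin m → k}
    {i : Fin m}
    (hD : ∀ (R : Type) [CommRing R] [Algebra k R] (S T : Fin 2 → Fin 2 → R) (x : R),
      ((X.cv S).N (X.cv T) (Function.update (fun j => algebraMap k R (θ j * c j ^ X.M j)) i x)
        fun j => algebraMap k R (θ j)).det = bf D₀ S T + x * bf D₁ S T)
    {K : Type} [Field K] [Algebra k K] (zK zK' : Fin 2 → Option K) (cK : Fin m → K)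
    (hcK : ∀ j, j ≠ i → cK j = algebraMap k K (c j)) :
    (X.Nm (fun j => algebraMap k K (θ j)) cK zK zK').det =
      bf D₀ (fun j => vo (zK j)) (fun j => vo (zK' j)) +
        algebraMap k K (θ i) * cK i ^ X.M i *
          bf D₁ (fun j => vo (zK j)) (fun j => vo (zK' j)) := by
  rw [← hD K]
  unfold Fam.Nm Fam.col
  congr 2
  funext j
  by_cases hj : j = i
  · subst hj
    rw [Function.update_self]
  · rw [Function.update_of_ne hj, hcK j hj, map_mul, map_pow]

end Aux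

/-- Let `z` and the first coordinate `t` of `z'` be fixed. The determinant of `N` is a quadratic form in the second coordinate `y` of `z'`, with
the zeros `Y`, `Y'`. Then the sum of the values of `Ef` for `Y` and `Y'` is zero.
PROOF. Let `D₀`, `D₁` from `exists_Nm` for the index `i`, `p = θ_i c_i ^ M_i ≠ 0`; so for vectors `y` over a `k`-algebra the form
`bf D₀ + p * bf D₁` at `(vo ∘ z)`, `![vo t, y]` is `κ * wd y (vo Y) * wd y (vo Y')` (both sides are quadratic forms in `y`, with the same values at all `y : Fin 2 → k`; over `k[X]`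
use `Polynomial.funext` and `bf_map`).
Choose `μ : k` with `e := wd ![μ, 1] (vo Y) ≠ 0` and `e' := wd ![μ, 1] (vo Y') ≠ 0` (`GOY.wd`; `exists_m_BarS` in `GOY/BarS.lean`). Path: `y(T) = ![μ T + 1, T]`, `wd y(T) (vo Y) = e T + wd ![1, 0] (vo Y)`,
with the zero `τ`, and `po y(τ) = Y`; similarly `τ'` for `Y'`. Polynomials in `T` of degree `≤ 2`: `N₀ = - bf D₀` and `N₁ = p * bf D₁` at `(vo ∘ z)`, `![vo t, y(T)]`; `N₀ - N₁ = - κ (e T + ..) (e' T + ..)` has the
degree `2` and the roots `τ`, `τ'`. Let `g T₀ := Ef X E θ (some ∘ c) z ![t, po y(T₀)]`; we have to show `g τ + g τ' = 0`.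
(1) If `N₀(y) = N₁(y) = 0` then `g y = 0`: by `exists_Nm` (for `K = k`; `vo (po y(T₀))` is a multiple of `y(T₀)`, `GOC.exists_vo`, `bf_smul`) the determinant is zero for all values of `c_i`; `Ef_mov`. So if `N₀ = 0` or
`N₁ = 0` as a polynomial then `g τ = g τ' = 0` (both vanish at `τ` and `τ'`).
(2) Otherwise take `K`, `T`, `η` from `exists_fieldM` with `n = 0`, `η ^ M_i = N₀(T) / N₁(T) ≠ 0`. For `ζ ^ M_i = 1`: `z` constant, `z' = ![some t.., some ((μ T + 1) / T)]` (the first coordinate constant), `c` constant except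
`c_i ζ η`. `vo (some ((μ T + 1) / T)) = T⁻¹ • y(T)`. By `exists_Nm` the determinant is `T⁻¹ ^ 2 * (- N₀(T) + p η ^ M_i * bf D₁) = 0`. `F ζ v := Ef` at the values. Apply `GOY.eta_sum` (`Module ℚ W` from
`Module.compHom W (algebraMap ℚ R)`): `hF`: `Ef_cf` for the function `ζ η - 1` (`≠ 0`: `η ^ M_i ≠ 1` as `N₀ ≠ N₁`). `hF0`: at a pole of `η` the value of `c_i ζ η` is `none`, `Ef_bad`. `hF2`: if `T` has the value `y₀` and `ζ η` the value `1`
then the value of `z'` is `![t, po y(y₀)]` (`vlo_pth_BarS` in `GOY/BarS.lean`), the value of `c` is `c`. `hg`: (1). `hdeg`: `N₁` has degree `≤ 2`. -/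
theorem Ef_sum [CharZero R] (he : ∀ j, ∑ l, X.e l j = 2) (hM : ∀ i, 0 < X.M i)
    (hχ : HYG.Chars X.M χ) (hE : IsCls₂ X χ E) {θ c : Fin m → k} (hθ : ∀ i, θ i ≠ 0)
    (hc : ∀ i, c i ≠ 0) (i : Fin m) (z : Fin 2 → Option k) (t : Option k) {Y Y' : Option k} {κ : k}
    (hκ : κ ≠ 0)
    (hq : ∀ y : Fin 2 → k, ((X.cv fun j => vo (z j)).N (X.cv ![vo t, y])
      (fun i => θ i * c i ^ X.M i) θ).det = κ * (GOY.wd y (vo Y) * GOY.wd y (vo Y'))) :
    Ef X E θ (fun i => some (c i)) z ![t, Y] + Ef X E θ (fun i => some (c i)) z ![t, Y'] = 0 := by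
  let _ : Module ℚ W := Module.compHom W (algebraMap ℚ R)
  have hm : 0 < m := (Nat.zero_le _).trans_lt i.2
  obtain ⟨D₀, D₁, -, -, hD⟩ := exists_D2 X he (fun j => θ j * c j ^ X.M j) θ i
  obtain ⟨p, hp⟩ : ∃ p : k, p = θ i * c i ^ X.M i := ⟨_, rfl⟩
  have hp0 : p ≠ 0 := by
    rw [hp]
    exact mul_ne_zero (hθ i) (pow_ne_zero _ (hc i))
  obtain ⟨μ, hm1, hm2⟩ := exists_m_Bar2 (GOC.vo_ne Y) (GOC.vo_ne Y')
  obtain ⟨S, hS⟩ : ∃ S : Fin 2 → Fin 2 → k, S = fun j => vo (z j) := ⟨_, rfl⟩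
  obtain ⟨N₀, hN₀⟩ : ∃ N : k[X], N = -bP_Bar2 D₀ S (vo t) μ := ⟨_, rfl⟩
  obtain ⟨N₁, hN₁⟩ : ∃ N : k[X], N = C p * bP_Bar2 D₁ S (vo t) μ := ⟨_, rfl⟩
  have hdN₁ : N₁.natDegree ≤ 2 := by
    rw [hN₁]
    exact (natDegree_C_mul_le _ _).trans (natDegree_bP_Bar2 _ _ _ _)
  have hN₀e : ∀ y, N₀.eval y = -bf D₀ S ![vo t, pth_Bar2 μ y] := by
    intro y
    rw [hN₀, eval_neg, eval_bP_Bar2]
  have hN₁e : ∀ y, N₁.eval y = p * bf D₁ S ![vo t, pth_Bar2 μ y] := by
    intro y
    rw [hN₁, eval_mul, eval_C, eval_bP_Bar2]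
  -- the points
  obtain ⟨pt, hpt⟩ : ∃ pt : k → Fin 2 → Option k, pt = fun y => ![t, po (pth_Bar2 μ y)] :=
    ⟨_, rfl⟩
  have hsc : ∀ y : k, ∃ r : k, r ≠ 0 ∧ ∀ D : (Fin 2 → Fin 3) → (Fin 2 → Fin 3) → k,
      bf D S (fun j => vo (pt y j)) = r ^ 2 * bf D S ![vo t, pth_Bar2 μ y] := by
    intro y
    obtain ⟨r, hr0, hr⟩ := GOC.exists_vo (pth_ne_Bar2 μ y)
    refine ⟨r⁻¹, inv_ne_zero hr0, fun D => bf_snd_Bar2 D S _ ?_ ?_⟩
    · rw [hpt]
      rfl
    · rw [hpt]
      show vo (po (pth_Bar2 μ y)) = fun i => r⁻¹ * pth_Bar2 μ y i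
      funext i
      have h2 := congrFun hr i
      rw [h2, inv_mul_cancel_left₀ hr0]
  -- the polynomial `N₀ - N₁`
  obtain ⟨e₁, he₁⟩ : ∃ e, e = μ * vo Y 1 - vo Y 0 := ⟨_, rfl⟩
  obtain ⟨e₂, he₂⟩ : ∃ e, e = μ * vo Y' 1 - vo Y' 0 := ⟨_, rfl⟩
  rw [← he₁] at hm1
  rw [← he₂] at hm2
  obtain ⟨τ₁, hτ₁⟩ : ∃ τ, τ = -vo Y 1 / e₁ := ⟨_, rfl⟩
  obtain ⟨τ₂, hτ₂⟩ : ∃ τ, τ = -vo Y' 1 / e₂ := ⟨_, rfl⟩
  have hτe₁ : e₁ * τ₁ = -vo Y 1 := by rw [hτ₁, mul_div_cancel₀ _ hm1]
  have hτe₂ : e₂ * τ₂ = -vo Y' 1 := by rw [hτ₂, mul_div_cancel₀ _ hm2]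
  have hwd₁ : ∀ y, GOY.wd (pth_Bar2 μ y) (vo Y) = e₁ * (y - τ₁) := by
    intro y
    rw [mul_sub, hτe₁, he₁]
    simp only [GOY.wd, pth_Bar2, Matrix.cons_val_zero, Matrix.cons_val_one]
    ring
  have hwd₂ : ∀ y, GOY.wd (pth_Bar2 μ y) (vo Y') = e₂ * (y - τ₂) := by
    intro y
    rw [mul_sub, hτe₂, he₂]
    simp only [GOY.wd, pth_Bar2, Matrix.cons_val_zero, Matrix.cons_val_one]
    ring
  have hdet₀ : ∀ y, bf D₀ S ![vo t, pth_Bar2 μ y] + p * bf D₁ S ![vo t, pth_Bar2 μ y] =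
      κ * (GOY.wd (pth_Bar2 μ y) (vo Y) * GOY.wd (pth_Bar2 μ y) (vo Y')) := by
    intro y
    rw [← hq (pth_Bar2 μ y), hS]
    have h1 := hD k (fun j => vo (z j)) ![vo t, pth_Bar2 μ y] p
    rw [← h1]
    congr 2
    funext j
    by_cases hj : j = i
    · subst hj
      rw [Function.update_self, hp]
    · rw [Function.update_of_ne hj]
      rfl
  have hPe : N₀ - N₁ = C (-(κ * (e₁ * e₂))) * ((Polynomial.X - C τ₁) * (Polynomial.X - C τ₂)) := by
    apply Polynomial.funext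
    intro y
    have h3 := hdet₀ y
    rw [hwd₁, hwd₂] at h3
    rw [eval_sub, hN₀e, hN₁e, eval_mul, eval_mul, eval_sub, eval_sub, eval_X, eval_C, eval_C,
      eval_C]
    linear_combination -h3
  have hCne : (-(κ * (e₁ * e₂)) : k) ≠ 0 := neg_ne_zero.2 (mul_ne_zero hκ (mul_ne_zero hm1 hm2))
  have hXX : (Polynomial.X - C τ₁) * (Polynomial.X - C τ₂) ≠ 0 :=
    mul_ne_zero (X_sub_C_ne_zero _) (X_sub_C_ne_zero _)
  have hPne : N₀ - N₁ ≠ 0 := by
    rw [hPe]
    exact mul_ne_zero (C_ne_zero.2 hCne) hXX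
  have hroots : (N₀ - N₁).roots = {τ₁} + {τ₂} := by
    rw [hPe, roots_C_mul _ hCne, roots_mul hXX, roots_X_sub_C, roots_X_sub_C]
  have hdeg : N₁.natDegree ≤ (N₀ - N₁).natDegree := by
    have h3 : (N₀ - N₁).natDegree = 2 := by
      rw [hPe, natDegree_C_mul hCne, natDegree_mul (X_sub_C_ne_zero _) (X_sub_C_ne_zero _),
        natDegree_X_sub_C, natDegree_X_sub_C]
    rw [h3]
    exact hdN₁
  have hz₁ : (N₀ - N₁).eval τ₁ = 0 := by
    rw [hPe, eval_mul, eval_mul, eval_sub, eval_sub, eval_X, eval_C, eval_C, eval_C, sub_self,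
      zero_mul, mul_zero]
  have hz₂ : (N₀ - N₁).eval τ₂ = 0 := by
    rw [hPe, eval_mul, eval_mul, eval_sub, eval_sub, eval_X, eval_C, eval_C, eval_C, sub_self,
      mul_zero, mul_zero]
  -- the two zeros
  have hfin : ∀ (Z : Option k) (τ : k), GOY.wd (pth_Bar2 μ τ) (vo Z) = 0 → pt τ = ![t, Z] := by
    intro Z τ h
    obtain ⟨r, hr⟩ := prop_Bar2 (pth_ne_Bar2 μ τ) h
    have hr0 : r ≠ 0 := by
      rintro rfl
      apply GOC.vo_ne Z
      rw [hr]
      funext l
      exact zero_mul _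
    have h1 : po (pth_Bar2 μ τ) = Z := by
      rw [← GOC.po_mul hr0 (pth_Bar2 μ τ), ← hr, GOC.po_vo]
    rw [hpt]
    show ![t, po (pth_Bar2 μ τ)] = ![t, Z]
    rw [h1]
  rw [← hfin Y τ₁ (by rw [hwd₁, sub_self, mul_zero]),
    ← hfin Y' τ₂ (by rw [hwd₂, sub_self, mul_zero])]
  -- common zeros
  have hg : ∀ y, N₀.eval y = 0 → N₁.eval y = 0 →
      Ef X E θ (fun j => some (c j)) z (pt y) = 0 := by
    intro y h0 h1
    rw [hN₀e, neg_eq_zero] at h0
    rw [hN₁e] at h1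
    have h1' := (mul_eq_zero.1 h1).resolve_left hp0
    refine Ef_mov hM hχ hE hθ hc i fun x => ?_
    obtain ⟨r, -, hr⟩ := hsc y
    have h2 := det_Bar2 hD (K := k) z (pt y) (Function.update c i x) (fun j hj => by
      rw [Function.update_of_ne hj]
      rfl)
    rw [← hS, hr, hr, h0, h1', mul_zero, mul_zero, zero_add] at h2
    exact h2
  -- the trivial cases
  by_cases hN10 : N₁ = 0
  · have h1 : ∀ τ, (N₀ - N₁).eval τ = 0 → Ef X E θ (fun j => some (c j)) z (pt τ) = 0 := by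
      intro τ h
      have h2 : N₁.eval τ = 0 := by rw [hN10, eval_zero]
      refine hg τ ?_ h2
      rw [eval_sub, h2, sub_zero] at h
      exact h
    rw [h1 _ hz₁, h1 _ hz₂, add_zero]
  by_cases hN00 : N₀ = 0
  · have h1 : ∀ τ, (N₀ - N₁).eval τ = 0 → Ef X E θ (fun j => some (c j)) z (pt τ) = 0 := by
      intro τ h
      have h2 : N₀.eval τ = 0 := by rw [hN00, eval_zero]
      refine hg τ h2 ?_
      rw [eval_sub, h2, zero_sub, neg_eq_zero] at h
      exact h
    rw [h1 _ hz₁, h1 _ hz₂, add_zero]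
  -- the field
  obtain ⟨K, _, _, hK, T, η, w, hT, -, hη⟩ := exists_fieldM (M := fun j : Fin 0 => j.elim0)
    (fun j => j.elim0) (fun j => j.elim0) (fun j => j.elim0) (hM i) N₀ N₁
  have hres : HasRes k K := hasRes_of_isCurve hK
  have hae : ∀ {Q : k[X]}, Q ≠ 0 → aeval T Q ≠ 0 := fun hP h => hP (transcendental_iff.1 hT _ h)
  have hT0 : T ≠ 0 := by
    rintro rfl
    exact hT isAlgebraic_zero
  have hη' : η ^ X.M i * aeval T N₁ = aeval T N₀ := by
    rw [hη, div_mul_cancel₀ _ (hae hN10)]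
  have hη0 : η ≠ 0 := by
    rintro rfl
    rw [zero_pow (hM i).ne', zero_mul] at hη'
    exact hae hN00 hη'.symm
  have hη1 : η ^ X.M i ≠ 1 := by
    intro h
    rw [h, one_mul] at hη'
    apply hae hPne
    rw [map_sub, hη', sub_self]
  obtain ⟨al, hal⟩ : ∃ al : k →+* K, al = algebraMap k K := ⟨_, rfl⟩
  obtain ⟨zK, hzK⟩ : ∃ zK : Fin 2 → Option K, zK = fun j => (z j).map al := ⟨_, rfl⟩
  obtain ⟨zK', hzK'⟩ : ∃ zK' : Fin 2 → Option K,
      zK' = ![t.map al, some ((al μ * T + 1) / T)] := ⟨_, rfl⟩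
  obtain ⟨cK, hcK⟩ : ∃ cK : k → Fin m → K,
      cK = fun ζ => Function.update (fun j => al (c j)) i (al (c i) * (al ζ * η)) := ⟨_, rfl⟩
  have hcKi : ∀ ζ, cK ζ i = al (c i) * (al ζ * η) := by
    intro ζ
    rw [hcK]
    exact Function.update_self ..
  have hcKj : ∀ ζ j, j ≠ i → cK ζ j = al (c j) := by
    intro ζ j hj
    rw [hcK]
    exact Function.update_of_ne hj ..
  have hζ0 : ∀ ζ : k, ζ ^ X.M i = 1 → ζ ≠ 0 := by
    rintro ζ hζ rfl
    rw [zero_pow (hM i).ne'] at hζ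
    exact zero_ne_one hζ
  have hcK0 : ∀ ζ : k, ζ ^ X.M i = 1 → ∀ j, cK ζ j ≠ 0 := by
    intro ζ hζ j
    by_cases hj : j = i
    · rw [hj, hcKi]
      exact mul_ne_zero ((_root_.map_ne_zero al).2 (hc i))
        (mul_ne_zero ((_root_.map_ne_zero al).2 (hζ0 ζ hζ)) hη0)
    · rw [hcKj ζ j hj]
      exact (_root_.map_ne_zero al).2 (hc j)
  have hSK : (fun j => vo (zK j)) = fun j i => al (S j i) := by
    funext j
    rw [hzK, hS, hal]
    exact vo_map_Bar2 (z j)
  have hTK : ∀ D : (Fin 2 → Fin 3) → (Fin 2 → Fin 3) → k,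
      bf D (fun j => vo (zK j)) (fun j => vo (zK' j)) =
        T⁻¹ ^ 2 * aeval T (bP_Bar2 D S (vo t) μ) := by
    intro D
    rw [aeval_bP_Bar2, ← hal, hSK]
    refine bf_snd_Bar2 D _ _ ?_ ?_
    · rw [hzK', hal]
      exact vo_map_Bar2 t
    · rw [hzK']
      show vo (some ((al μ * T + 1) / T)) = _
      rw [GOC.vo_some]
      funext i
      fin_cases i
      · show (al μ * T + 1) / T = T⁻¹ * (al μ * T + 1)
        rw [div_eq_inv_mul]
      · show (1 : K) = T⁻¹ * T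
        rw [inv_mul_cancel₀ hT0]
  have hdetK : ∀ ζ : k, ζ ^ X.M i = 1 →
      (X.Nm (fun j => algebraMap k K (θ j)) (cK ζ) zK zK').det = 0 := by
    intro ζ hζ
    rw [det_Bar2 hD zK zK' (cK ζ) (fun j hj => by rw [hcKj ζ j hj, hal]), hTK, hTK, hcKi, mul_pow,
      mul_pow, ← map_pow, ← map_pow, hζ, map_one, one_mul]
    have h1 : aeval T N₀ = -aeval T (bP_Bar2 D₀ S (vo t) μ) := by rw [hN₀, map_neg]
    have h2 : aeval T N₁ = al (θ i) * al (c i ^ X.M i) * aeval T (bP_Bar2 D₁ S (vo t) μ) := by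
      rw [hN₁, map_mul, aeval_C, hp, ← hal, map_mul]
    rw [← hal]
    rw [h1, h2] at hη'
    linear_combination T⁻¹ ^ 2 * hη'
  -- the values
  have hcz : ∀ v : Place k K, (fun i => vlo v (zK i)) = z := by
    intro v
    funext i
    rw [hzK, hal]
    exact HGF.vlo_const v (z i)
  have hcz' : ∀ (v : Place k K) (y : k), v.At T y → (fun i => vlo v (zK' i)) = pt y := by
    intro v y hy
    funext i
    rw [hzK', hpt]
    fin_cases i
    · show vlo v (t.map al) = t
      rw [hal]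
      exact HGF.vlo_const v t
    · show vlo v (some ((al μ * T + 1) / T)) = po (pth_Bar2 μ y)
      rw [hal]
      exact vlo_pth_Bar2 hK hT0 hy
  have key := GOY.eta_sum hK (hM i) hT (η := η) (N₀ := N₀) (N₁ := N₁) hN10 hPne hdeg hη'
    (fun ζ v => Ef X E θ (fun j => vlo v (some (cK ζ j))) (fun j => vlo v (zK j))
      fun j => vlo v (zK' j))
    (fun y => Ef X E θ (fun j => some (c j)) z (pt y)) ?_ ?_ ?_ hg
  · -- the conclusion
    rw [hroots] at key
    rw [Multiset.map_add, Multiset.sum_add, Multiset.map_singleton, Multiset.map_singleton,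
      Multiset.sum_singleton, Multiset.sum_singleton] at key
    exact key
  · -- the relation
    intro ζ hζ
    refine Ef_cf hm hM hχ hE hθ hK (hcK0 ζ hζ) (hdetK ζ hζ) (f := algebraMap k K ζ * η - 1) ?_
    intro h
    apply hη1
    have h3 : (algebraMap k K ζ * η) ^ X.M i = 1 := by
      rw [sub_eq_zero.1 h, one_pow]
    rwa [mul_pow, ← map_pow, hζ, map_one, one_mul] at h3
  · -- the poles of `η`
    intro ζ v hζ hv
    refine Ef_bad (i := i) (Or.inl ?_)
    show vlo v (some (cK ζ i)) = none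
    refine (HYG.vl_none_iff hK).2 fun h => hv ?_
    have e : η = al (c i * ζ)⁻¹ * cK ζ i := by
      have h3 : al (c i) ≠ 0 := (_root_.map_ne_zero al).2 (hc i)
      have h4 : al ζ ≠ 0 := (_root_.map_ne_zero al).2 (hζ0 ζ hζ)
      rw [hcKi, map_inv₀, map_mul]
      field_simp
    rw [e]
    refine mul_mem ?_ h
    rw [hal]
    exact v.const_mem _
  · -- the zeros
    intro ζ v y hζ hy hζη
    show Ef X E θ (fun j => vlo v (some (cK ζ j))) (fun j => vlo v (zK j))
      (fun j => vlo v (zK' j)) = Ef X E θ (fun j => some (c j)) z (pt y)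
    rw [hcz, hcz' v y hy]
    congr 1
    funext j
    by_cases hj : j = i
    · rw [hj, hcKi, hal]
      have h5 := (Place.at_const (v := v) (c i)).mul hζη
      rw [mul_one] at h5
      exact HGF.vlo_at h5
    · rw [hcKj ζ j hj, hal]
      exact HGF.vlo_at (Place.at_const (v := v) (c j))

end Pool.Agent.DTU
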