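import Pool.Agent.DTU.Frm
import Pool.Agent.GOC.Es

/-!
# One base coordinate: the quadratic form of the pairs
-/

set_option autoImplicit false

noncomputable section

namespace Pool.Agent.DTU

open Matrix Polynomial
open Pool.Agent.ZCyc Pool.Agent.Dess Pool.Agent.GT Pool.Agent.TInc
open Pool.Agent.VFP (Om tt)
open Pool.Agent.HGF (fst snd vlo)
open Pool.Agent.GOC (vo po mv es)
open scoped Classical

/-- the quadratic form in `e` with `qf D (es S T) = bf D S T` for a symmetric `D` -/
def qf {k : Type} [Field k] (D : (Fin 1 → Fin 3) → (Fin 1 → Fin 3) → k) {R : Type} [CommRing R]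
    [Algebra k R] (e : Fin 3 → R) : R :=
  algebraMap k R (D ![2] ![2]) * e 2 ^ 2 + algebraMap k R (D ![2] ![1]) * (e 2 * e 1) +
    algebraMap k R (D ![2] ![0]) * (e 1 ^ 2 - 2 * (e 0 * e 2)) +
    algebraMap k R (D ![1] ![1]) * (e 0 * e 2) + algebraMap k R (D ![1] ![0]) * (e 0 * e 1) +
    algebraMap k R (D ![0] ![0]) * e 0 ^ 2

section Alg

variable {k : Type} [Field k] {D : (Fin 1 → Fin 3) → (Fin 1 → Fin 3) → k}

/-- (`es S T = ![S 1 * T 1, S 0 * T 1 + S 1 * T 0, S 0 * T 0]`; the sum over `Fin 1 → Fin 3` is a sum over `Fin 3`, `Fin.sum_univ_three`, `ring`) -/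
theorem qf_es (hD : ∀ a b, D a b = D b a) {R : Type} [CommRing R] [Algebra k R]
    (S T : Fin 2 → R) : qf D (es S T) = bf D (fun _ => S) fun _ => T := by
  have hs : ∀ F : (Fin 1 → Fin 3) → R, ∑ a, F a = F ![0] + F ![1] + F ![2] := by
    intro F
    rw [← (Equiv.funUnique (Fin 1) (Fin 3)).symm.sum_comp, Fin.sum_univ_three]
    have h : ∀ i : Fin 3, (Equiv.funUnique (Fin 1) (Fin 3)).symm i = ![i] := by
      intro i
      funext j
      fin_cases j
      rfl
    rw [h, h, h]
  unfold bf qf
  rw [hs, hs, hs, hs, hD ![0] ![1], hD ![0] ![2], hD ![1] ![2]]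
  simp only [Finset.univ_unique, Finset.prod_singleton, mv, es]
  simp
  ring

theorem qf_map {R R' : Type} [CommRing R] [Algebra k R] [CommRing R'] [Algebra k R']
    (φ : R →ₐ[k] R') (e : Fin 3 → R) : qf D (fun i => φ (e i)) = φ (qf D e) := by
  unfold qf
  simp only [map_add, map_sub, map_mul, map_pow, AlgHom.commutes, map_ofNat]

theorem qf_smul {R : Type} [CommRing R] [Algebra k R] (r : R) (e : Fin 3 → R) :
    qf D (fun i => r * e i) = r ^ 2 * qf D e := by
  unfold qf
  ring

/-- a vector in the kernel of a linear form which is independent of `e` -/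
private lemma exists_ker_Base1 (L : Fin 3 → k) {e : Fin 3 → k} (he : e ≠ 0) :
    ∃ h : Fin 3 → k, (∀ x y : k, (∀ i, x * e i + y * h i = 0) → x = 0 ∧ y = 0) ∧
      L 0 * h 0 + L 1 * h 1 + L 2 * h 2 = 0 := by
  -- one coordinate of `h` is zero and the same coordinate of `e` is not zero
  have key : ∀ (i : Fin 3) (h : Fin 3 → k), e i ≠ 0 → h i = 0 → h ≠ 0 →
      ∀ x y : k, (∀ i, x * e i + y * h i = 0) → x = 0 ∧ y = 0 := by
    intro i h hi h0 hne x y hxy
    have hx : x = 0 := by
      have h1 := hxy i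
      rw [h0, mul_zero, add_zero] at h1
      exact (mul_eq_zero.1 h1).resolve_right hi
    refine ⟨hx, ?_⟩
    by_contra hy
    apply hne
    funext l
    have h1 := hxy l
    rw [hx, zero_mul, zero_add] at h1
    exact (mul_eq_zero.1 h1).resolve_left hy
  by_cases h0 : e 0 = 0
  · by_cases h1 : e 1 = 0
    · have h2 : e 2 ≠ 0 := by
        intro h2
        apply he
        funext l
        fin_cases l
        · exact h0
        · exact h1
        · exact h2
      by_cases hL : L 0 = 0
      · refine ⟨![1, 0, 0], key 2 _ h2 rfl ?_, ?_⟩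
        · intro h
          exact one_ne_zero (congrFun h 0)
        · simp [hL]
      · refine ⟨![L 1, -L 0, 0], key 2 _ h2 rfl ?_, ?_⟩
        · intro h
          exact neg_ne_zero.2 hL (congrFun h 1)
        · simp
          ring
    · by_cases hL : L 0 = 0
      · refine ⟨![1, 0, 0], key 1 _ h1 rfl ?_, ?_⟩
        · intro h
          exact one_ne_zero (congrFun h 0)
        · simp [hL]
      · refine ⟨![L 2, 0, -L 0], key 1 _ h1 rfl ?_, ?_⟩
        · intro h
          exact neg_ne_zero.2 hL (congrFun h 2)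
        · simp
          ring
  · by_cases hL : L 1 = 0
    · refine ⟨![0, 1, 0], key 0 _ h0 rfl ?_, ?_⟩
      · intro h
        exact one_ne_zero (congrFun h 1)
      · simp [hL]
    · refine ⟨![0, L 2, -L 1], key 0 _ h0 rfl ?_, ?_⟩
      · intro h
        exact neg_ne_zero.2 hL (congrFun h 2)
      · simp
        ring

private lemma qf_self_Base1 (D : (Fin 1 → Fin 3) → (Fin 1 → Fin 3) → k) (e : Fin 3 → k) :
    qf D e = D ![2] ![2] * e 2 ^ 2 + D ![2] ![1] * (e 2 * e 1) +
      D ![2] ![0] * (e 1 ^ 2 - 2 * (e 0 * e 2)) + D ![1] ![1] * (e 0 * e 2) +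
      D ![1] ![0] * (e 0 * e 1) + D ![0] ![0] * e 0 ^ 2 := rfl

/-- If `Q(e) = 0`, `e ≠ 0`, then there is `h`, linearly independent of `e`, with `Q(x e + y h) = y ^ 2 Q(h)` for all `x`, `y`.
PROOF. `Q(e + h) - Q(e) - Q(h)` is a linear form in `h` (its coefficients are linear in `e`); its kernel has dimension at least `2` and so it contains a
vector `h` which is not a multiple of `e` (explicitly: if `L = (l0, l1, l2)` are the coefficients then `(l1, -l0, 0)`, `(l2, 0, -l0)`, `(0, l2, -l1)` lie in the kernel, not all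
multiples of `e`; if `L = 0` take any `h`). -/
theorem exists_tan [CharZero k] (D : (Fin 1 → Fin 3) → (Fin 1 → Fin 3) → k) {e : Fin 3 → k}
    (he : e ≠ 0) (h0 : qf D e = 0) :
    ∃ h : Fin 3 → k, (∀ x y : k, (∀ i, x * e i + y * h i = 0) → x = 0 ∧ y = 0) ∧
      ∀ (R : Type) [CommRing R] [Algebra k R] (x y : R),
        qf D (fun i => x * algebraMap k R (e i) + y * algebraMap k R (h i)) =
          y ^ 2 * algebraMap k R (qf D h) := by
  obtain ⟨h, h1, h2⟩ := exists_ker_Base1 ![-2 * D ![2] ![0] * e 2 + D ![1] ![1] * e 2 +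
    D ![1] ![0] * e 1 + 2 * D ![0] ![0] * e 0, D ![2] ![1] * e 2 + 2 * D ![2] ![0] * e 1 +
    D ![1] ![0] * e 0, 2 * D ![2] ![2] * e 2 + D ![2] ![1] * e 1 - 2 * D ![2] ![0] * e 0 +
    D ![1] ![1] * e 0] he
  refine ⟨h, h1, ?_⟩
  intro R _ _ x y
  simp only [Matrix.cons_val_zero, Matrix.cons_val_one, Matrix.cons_val] at h2
  rw [qf_self_Base1] at h0
  have e0 := congrArg (algebraMap k R) h0
  have e2 := congrArg (algebraMap k R) h2
  rw [qf_self_Base1]
  unfold qf
  simp only [map_add, map_sub, map_mul, map_pow, map_ofNat, map_neg, map_zero] at e0 e2 ⊢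
  linear_combination x ^ 2 * e0 + x * y * e2

/-- The form `D` has a zero on every line: there are `x`, `y`, not both zero, with `Q(x e + y h) = 0` (a binary quadratic form over an
algebraically closed field: `GOC.exists_pr` or `IsAlgClosed.exists_root`). -/
theorem exists_zero [IsAlgClosed k] (D : (Fin 1 → Fin 3) → (Fin 1 → Fin 3) → k)
    (e h : Fin 3 → k) :
    ∃ x y : k, (x ≠ 0 ∨ y ≠ 0) ∧ qf D (fun i => x * e i + y * h i) = 0 := by
  by_cases he : qf D e = 0
  · refine ⟨1, 0, Or.inl one_ne_zero, ?_⟩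
    have h1 : (fun i => 1 * e i + 0 * h i) = e := by
      funext i
      ring
    rw [h1, he]
  · obtain ⟨b, hb⟩ : ∃ b, b = qf D (fun i => e i + h i) - qf D e - qf D h := ⟨_, rfl⟩
    have hdeg : (Polynomial.C (qf D e) * Polynomial.X ^ 2 + Polynomial.C b * Polynomial.X +
        Polynomial.C (qf D h)).degree ≠ 0 := by
      rw [Polynomial.degree_quadratic he]
      decide
    obtain ⟨x, hx⟩ := IsAlgClosed.exists_root _ hdeg
    refine ⟨x, 1, Or.inr one_ne_zero, ?_⟩
    rw [Polynomial.IsRoot.def] at hx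
    simp only [Polynomial.eval_add, Polynomial.eval_mul, Polynomial.eval_C, Polynomial.eval_pow,
      Polynomial.eval_X] at hx
    rw [hb] at hx
    rw [← hx]
    simp only [qf_self_Base1]
    ring

end Alg

end Pool.Agent.DTU
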