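import Pool.Agent.DTU.Base1Z

/-!
# One base coordinate: the zeros of both forms
-/

set_option autoImplicit false
set_option linter.unusedSectionVars false

noncomputable section

namespace Pool.Agent.DTU

open Matrix Polynomial
open Pool.Agent.ZCyc Pool.Agent.Dess Pool.Agent.GT Pool.Agent.TInc
open Pool.Agent.VFP (Om tt)
open Pool.Agent.HGF (fst snd vlo)
open Pool.Agent.GOC (vo po mv es)
open scoped Classical

variable {k : Type} [Field k] [IsAlgClosed k] [CharZero k] {m : ℕ} {X : Fam k 1 m}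
  {R W : Type} [Field R] [AddCommGroup W] [Module R W] {χ : Fin m → k → R}
  {E : (Fin 1 → Option k) → (Fin m → Option k) → (Fin 1 → Option k) → (Fin m → Option k) → W}
  {θ c : Fin m → k} {i : Fin m} {D₀ D₁ : (Fin 1 → Fin 3) → (Fin 1 → Fin 3) → k}

/-- the forms `D₀`, `D₁` describe the determinant (see `exists_Nm`) -/
def IsD (X : Fam k 1 m) (θ c : Fin m → k) (i : Fin m)
    (D₀ D₁ : (Fin 1 → Fin 3) → (Fin 1 → Fin 3) → k) : Prop :=
  (∀ a b, D₀ a b = D₀ b a) ∧ (∀ a b, D₁ a b = D₁ b a) ∧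
    ∀ (K : Type) [Field K] [Algebra k K] (z z' : Fin 1 → Option K) (x : K),
      (X.Nm (fun i => algebraMap k K (θ i))
        (Function.update (fun i => algebraMap k K (c i)) i x) z z').det =
        bf D₀ (fun j => vo (z j)) (fun j => vo (z' j)) +
          algebraMap k K (θ i) * x ^ X.M i * bf D₁ (fun j => vo (z j)) fun j => vo (z' j)

/-- the determinant at the points `po S`, `po T` is a multiple of `Q₀ + θ_i x ^ M_i Q₁` at `es S T` (`GOC.exists_vo`, `bf_smul`, `qf_es`) -/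
theorem IsD.det (hD : IsD X θ c i D₀ D₁) {K : Type} [Field K] [Algebra k K] {S T : Fin 2 → K}
    (hS : S ≠ 0) (hT : T ≠ 0) (x : K)
    (h : qf D₀ (es S T) + algebraMap k K (θ i) * x ^ X.M i * qf D₁ (es S T) = 0) :
    (X.Nm (fun i => algebraMap k K (θ i)) (Function.update (fun i => algebraMap k K (c i)) i x)
      (fun _ => po S) fun _ => po T).det = 0 := by
  obtain ⟨a, ha, hSa⟩ := Pool.Agent.GOC.exists_vo hS
  obtain ⟨b, hb, hTb⟩ := Pool.Agent.GOC.exists_vo hT
  have h1 : es S T = fun j => a * b * es (vo (po S)) (vo (po T)) j := by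
    conv_lhs => rw [hSa, hTb]
    exact Pool.Agent.GOC.es_smul a b _ _
  rw [h1, qf_smul, qf_smul, qf_es hD.1, qf_es hD.2.1] at h
  rw [hD.2.2 K (fun _ => po S) (fun _ => po T) x]
  have h2 : (a * b) ^ 2 ≠ 0 := pow_ne_zero 2 (mul_ne_zero ha hb)
  apply (mul_eq_zero.1 (?_ : (a * b) ^ 2 * _ = 0)).resolve_left h2
  linear_combination h

/-- If both forms vanish at `e` then `Ze` is zero (`GOC.exists_es`; `Ef_mov` with `IsD.det` for `K = k`, `es_swap`). -/
theorem Ze_mov [CharZero R] (hM : ∀ i, 0 < X.M i) (hχ : HYG.Chars X.M χ) (hE : IsCls₂ X χ E)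
    (hθ : ∀ i, θ i ≠ 0) (hc : ∀ i, c i ≠ 0) (hD : IsD X θ c i D₀ D₁) {e : Fin 3 → k}
    (h₀ : qf D₀ e = 0) (h₁ : qf D₁ e = 0) : Ze X E θ (fun i => some (c i)) e = 0 := by
  obtain ⟨S, T, hST⟩ := Pool.Agent.GOC.exists_es e
  by_cases hS : S = 0
  · have he : e = 0 := by
      rw [← hST, hS]
      funext j
      fin_cases j <;> simp [es]
    unfold Ze
    rw [dif_neg]
    rintro ⟨p, hp1, hp2, hp⟩
    exact Pool.Agent.GOC.es_ne hp1 hp2 (hp.trans he)
  by_cases hT : T = 0
  · have he : e = 0 := by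
      rw [← hST, hT]
      funext j
      fin_cases j <;> simp [es]
    unfold Ze
    rw [dif_neg]
    rintro ⟨p, hp1, hp2, hp⟩
    exact Pool.Agent.GOC.es_ne hp1 hp2 (hp.trans he)
  have h1 : ∀ x : k, qf D₀ (es S T) + algebraMap k k (θ i) * x ^ X.M i * qf D₁ (es S T) = 0 := by
    intro x
    rw [hST, h₀, h₁, mul_zero, add_zero]
  rw [Ze_es hS hT one_ne_zero (e := e) (by rw [← hST]; funext j; rw [one_mul])]
  have h2 : Ef X E θ (fun i => some (c i)) (fun _ => po S) (fun _ => po T) = 0 :=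
    Ef_mov hM hχ hE hθ hc i fun x => hD.det hS hT x (h1 x)
  have h3 : Ef X E θ (fun i => some (c i)) (fun _ => po T) (fun _ => po S) = 0 :=
    Ef_mov hM hχ hE hθ hc i fun x => hD.det hT hS x (by
      rw [Pool.Agent.GOC.es_swap S T]
      exact h1 x)
  rw [h2, h3, add_zero]

end Pool.Agent.DTU
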