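import Pool.Agent.DTU.Base1P

/-!
# One base coordinate: tangent lines
-/

set_option autoImplicit false

noncomputable section

namespace Pool.Agent.DTU

open Matrix Polynomial
open Pool.Agent.ZCyc Pool.Agent.Dess Pool.Agent.GT Pool.Agent.TInc
open Pool.Agent.VFP (Om tt)
open Pool.Agent.HGF (fst snd vlo)
open Pool.Agent.GOC (vo po mv es)
open scoped Classical

variable {k : Type} [Field k] [IsAlgClosed k] [CharZero k] {m : ℕ} {X : Fam k 1 m}
  {R W : Type} [Field R] [AddCommGroup W] [Module R W] {χ : Fin m → k → R}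
  {E : (Fin 1 → Option k) → (Fin m → Option k) → (Fin 1 → Option k) → (Fin m → Option k) → W}
  {θ c : Fin m → k} {i : Fin m} {D₀ D₁ : (Fin 1 → Fin 3) → (Fin 1 → Fin 3) → k}

omit [IsAlgClosed k] [CharZero k] in
private theorem qf_deg_Base1T (D : (Fin 1 → Fin 3) → (Fin 1 → Fin 3) → k) (e h : Fin 3 → k) :
    (qf D (fun l => algebraMap k k[X] (e l) + Polynomial.X * algebraMap k k[X] (h l))).natDegree
      ≤ 2 := by
  have h1 : qf D (fun l => algebraMap k k[X] (e l) + Polynomial.X * algebraMap k k[X] (h l)) =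
      C (D ![2] ![2] * h 2 ^ 2 + D ![2] ![1] * (h 2 * h 1) +
        D ![2] ![0] * (h 1 ^ 2 - 2 * (h 0 * h 2)) + D ![1] ![1] * (h 0 * h 2) +
        D ![1] ![0] * (h 0 * h 1) + D ![0] ![0] * h 0 ^ 2) * Polynomial.X ^ 2 +
      C (D ![2] ![2] * (2 * (e 2 * h 2)) + D ![2] ![1] * (e 2 * h 1 + h 2 * e 1) +
        D ![2] ![0] * (2 * (e 1 * h 1) - 2 * (e 0 * h 2 + h 0 * e 2)) +
        D ![1] ![1] * (e 0 * h 2 + h 0 * e 2) + D ![1] ![0] * (e 0 * h 1 + h 0 * e 1) +
        D ![0] ![0] * (2 * (e 0 * h 0))) * Polynomial.X +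
      C (D ![2] ![2] * e 2 ^ 2 + D ![2] ![1] * (e 2 * e 1) +
        D ![2] ![0] * (e 1 ^ 2 - 2 * (e 0 * e 2)) + D ![1] ![1] * (e 0 * e 2) +
        D ![1] ![0] * (e 0 * e 1) + D ![0] ![0] * e 0 ^ 2) := by
    unfold qf
    simp only [Polynomial.algebraMap_eq, map_add, map_sub, map_mul, map_pow, map_ofNat]
    ring
  rw [h1]
  exact natDegree_quadratic_le

omit [IsAlgClosed k] [CharZero k] in
private theorem es_map_Base1T {K K' : Type} [CommRing K] [CommRing K'] (φ : K →+* K')
    (S T : Fin 2 → K) : es (fun i => φ (S i)) (fun i => φ (T i)) = fun l => φ (es S T l) := by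
  funext l
  fin_cases l <;> simp [es]

/-- the field with the roots -/
private theorem exists_field_Base1T {M : ℕ} (hM : 0 < M) (p q : k[X]) (e h : Fin 3 → k) :
    ∃ (K : Type) (_ : Field K) (_ : Algebra k K) (_ : IsCurve k K) (T η : K) (S S' : Fin 2 → K),
      Transcendental k T ∧ η ^ M = aeval T p / aeval T q ∧
        es S S' = fun l => algebraMap k K (e l) + T * algebraMap k K (h l) := by
  obtain ⟨K, _, _, hK, T, η, w, hT, -, hη⟩ := exists_fieldM (k := k) (n := 0) (M := fun _ => 1)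
    (fun i => i.elim0) (fun _ => 0) (fun _ => 0) hM p q
  obtain ⟨S, S', hS⟩ := GOC.exists_es (K := AlgebraicClosure K)
    (fun l => algebraMap K (AlgebraicClosure K) (algebraMap k K (e l) + T * algebraMap k K (h l)))
  obtain ⟨K', hK'⟩ : ∃ K' : IntermediateField K (AlgebraicClosure K),
      K' = IntermediateField.adjoin K (Set.range S ∪ Set.range S') := ⟨_, rfl⟩
  have hfin : Finite ((Set.range S ∪ Set.range S' : Set (AlgebraicClosure K))) :=
    ((Set.finite_range S).union (Set.finite_range S')).to_subtype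
  have hfd : FiniteDimensional K K' := by
    rw [hK']
    exact IntermediateField.finiteDimensional_adjoin fun x _ => Algebra.IsIntegral.isIntegral x
  let φ : K →ₐ[k] K' := IsScalarTower.toAlgHom k K K'
  have hφ : ((φ : K →ₐ[k] K') : K →+* K').Finite := by
    show (algebraMap K K').Finite
    exact RingHom.finite_algebraMap.2 hfd
  have hm : ∀ i, S i ∈ K' := fun i => by
    rw [hK']
    exact IntermediateField.subset_adjoin K _ (Or.inl ⟨i, rfl⟩)
  have hm' : ∀ i, S' i ∈ K' := fun i => by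
    rw [hK']
    exact IntermediateField.subset_adjoin K _ (Or.inr ⟨i, rfl⟩)
  refine ⟨K', inferInstance, inferInstance, HYG.isCurve_of_finite hK φ hφ, φ T, φ η,
    fun i => ⟨S i, hm i⟩, fun i => ⟨S' i, hm' i⟩, ?_, ?_, ?_⟩
  · exact fun h1 => hT ((isAlgebraic_algHom_iff φ (φ : K →+* K').injective).1 h1)
  · rw [← map_pow, hη, map_div₀, aeval_algHom_apply, aeval_algHom_apply]
  · funext l
    apply Subtype.ext
    have h1 := congrFun (es_map_Base1T (K'.val : K' →+* AlgebraicClosure K)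
      (fun i => (⟨S i, hm i⟩ : K')) (fun i => (⟨S' i, hm' i⟩ : K'))) l
    have h2 := congrFun hS l
    have h3 : es (fun i => (K'.val : K' →+* AlgebraicClosure K) (⟨S i, hm i⟩ : K'))
        (fun i => (K'.val : K' →+* AlgebraicClosure K) (⟨S' i, hm' i⟩ : K')) l = es S S' l := rfl
    rw [h3, h2, map_add, map_mul] at h1
    exact h1.symm

/-- A TANGENT LINE. Let `e`, `h` be linearly independent, `Q = Q₀ + p Q₁`, `p = θ_i c_i ^ M_i`, `Q(e + T h) = T ^ 2 Q(h)`, `Q(h) ≠ 0`. Then `Ze` is zero at `e`.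
PROOF. If `Q₁(e) = 0` then `Q₀(e) = 0`, and `Ze_mov`. Otherwise `Q₁(e) ≠ 0`, `Q₀(e) = - p Q₁(e) ≠ 0`. Polynomials: `e(T) = e + T h`, `N₀ = - Q₀(e(T))`, `N₁ = p Q₁(e(T))`, `N₀ - N₁ = - T ^ 2 Q(h)`, degree `2`, roots `0`, `0`. `e(y) ≠ 0` for
all `y : k`. Field: `K₀` with `T` transcendental and `η ^ M_i = N₀(T) / N₁(T)` (`exists_fieldM`, `n = 0`), and a curve `K` over it which contains vectors `S`, `S'` with `es S S' = e(T)`: `GOC.exists_es`
over the algebraic closure of `K₀`, and finitely many elements generate a finite extension of `K₀` (as in the proof of `HYG.exists_roots`, or inside `Om k` with `ARS.exists_fld`: `T = tt k`, all elements in `Om k`).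
`S`, `S' ≠ 0` since `e(T) ≠ 0`. For `ζ ^ M_i = 1` let `c(ζ)` be constant except `c_i ζ η`; by `IsD.det` the determinants at `(po S, po S')` and `(po S', po S)` are zero (`Q₀(e(T)) + p η ^ M_i Q₁(e(T)) = 0`, `es_swap`). `F ζ v := ` the
sum of the two values of `Ef` at the values of `c(ζ)`, `po S`, `po S'`. `GOY.eta_sum` with `g y := Ze` at `e(y)` (`Module ℚ W` from `Module.compHom`): `hF`: `Ef_cf` twice, for `ζ η - 1 ≠ 0`. `hF0`: `Ef_bad` (the value of `c_i ζ η` is `none`).
`hF2`: `Ze_vlo` with `a = 1`; the value of `c(ζ)` is `c`. `hg`: `Ze_mov`. The conclusion is `Ze e + Ze e = 0` (`e(0) = e`). -/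
theorem Ze_tan [CharZero R] (hM : ∀ i, 0 < X.M i) (hχ : HYG.Chars X.M χ) (hE : IsCls₂ X χ E)
    (hθ : ∀ i, θ i ≠ 0) (hc : ∀ i, c i ≠ 0) (hD : IsD X θ c i D₀ D₁) {e h : Fin 3 → k}
    (hi : ∀ x y : k, (∀ i, x * e i + y * h i = 0) → x = 0 ∧ y = 0)
    (hQ : ∀ (R : Type) [CommRing R] [Algebra k R] (T : R),
      qf D₀ (fun l => algebraMap k R (e l) + T * algebraMap k R (h l)) +
        algebraMap k R (θ i * c i ^ X.M i) *
          qf D₁ (fun l => algebraMap k R (e l) + T * algebraMap k R (h l)) =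
        T ^ 2 * algebraMap k R (qf D₀ h + θ i * c i ^ X.M i * qf D₁ h))
    (h0 : qf D₀ h + θ i * c i ^ X.M i * qf D₁ h ≠ 0) : Ze X E θ (fun i => some (c i)) e = 0 := by
  let _ : Module ℚ W := Module.compHom W (algebraMap ℚ R)
  have hm : 0 < m := i.pos
  obtain ⟨p, hp⟩ : ∃ p, p = θ i * c i ^ X.M i := ⟨_, rfl⟩
  have hp0 : p ≠ 0 := by
    rw [hp]
    exact mul_ne_zero (hθ i) (pow_ne_zero _ (hc i))
  rw [← hp] at h0
  have hey : ∀ y : k, (fun l => e l + y * h l) ≠ 0 := by
    intro y hy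
    have h1 := hi 1 y fun l => by
      have h2 := congrFun hy l
      rw [one_mul]
      exact h2
    exact one_ne_zero h1.1
  -- the polynomials
  obtain ⟨ET, hET⟩ : ∃ ET : Fin 3 → k[X],
      ET = fun l => algebraMap k k[X] (e l) + Polynomial.X * algebraMap k k[X] (h l) := ⟨_, rfl⟩
  obtain ⟨N₀, hN₀⟩ : ∃ N : k[X], N = -qf D₀ ET := ⟨_, rfl⟩
  obtain ⟨N₁, hN₁⟩ : ∃ N : k[X], N = C p * qf D₁ ET := ⟨_, rfl⟩
  obtain ⟨q, hq⟩ : ∃ q, q = qf D₀ h + p * qf D₁ h := ⟨_, rfl⟩
  rw [← hq] at h0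
  have hev : ∀ (D : (Fin 1 → Fin 3) → (Fin 1 → Fin 3) → k) (y : k),
      (qf D ET).eval y = qf D fun l => e l + y * h l := by
    intro D y
    have h1 := qf_map (D := D) (aeval y : k[X] →ₐ[k] k) ET
    rw [coe_aeval_eq_eval] at h1
    rw [← h1]
    congr 1
    funext l
    rw [hET]
    show eval y (algebraMap k k[X] (e l) + Polynomial.X * algebraMap k k[X] (h l)) = _
    rw [Polynomial.algebraMap_eq, eval_add, eval_mul, eval_X, eval_C, eval_C]
  have hPe : N₀ - N₁ = C (-q) * Polynomial.X ^ 2 := by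
    have h1 := hQ k[X] Polynomial.X
    rw [← hp, ← hq, ← hET] at h1
    rw [hN₀, hN₁, map_neg]
    rw [Polynomial.algebraMap_eq] at h1
    linear_combination -h1
  have hqn : -q ≠ 0 := neg_ne_zero.2 h0
  have hPne : N₀ - N₁ ≠ 0 := by
    rw [hPe]
    exact mul_ne_zero (C_ne_zero.2 hqn) (pow_ne_zero _ X_ne_zero)
  have he0 : (fun l => e l + (0 : k) * h l) = e := by
    funext l
    rw [zero_mul, add_zero]
  have hzero : qf D₀ e + p * qf D₁ e = 0 := by
    have h1 := congrArg (eval 0) hPe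
    rw [eval_sub, hN₀, hN₁, eval_neg, eval_mul, eval_C, hev, hev, he0, eval_mul, eval_pow,
      eval_X] at h1
    have h2 : (0 : k) ^ 2 = 0 := by norm_num
    rw [h2, mul_zero] at h1
    linear_combination -h1
  by_cases hQ1 : qf D₁ e = 0
  · have hQ0 : qf D₀ e = 0 := by
      rw [hQ1, mul_zero, add_zero] at hzero
      exact hzero
    exact Ze_mov hM hχ hE hθ hc hD hQ0 hQ1
  have hN10 : N₁ ≠ 0 := by
    intro h1
    have h2 := congrArg (eval 0) h1
    rw [hN₁, eval_mul, eval_C, hev, he0, eval_zero] at h2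
    exact mul_ne_zero hp0 hQ1 h2
  have hN00 : N₀ ≠ 0 := by
    intro h1
    have h2 := congrArg (eval 0) h1
    rw [hN₀, eval_neg, hev, he0, eval_zero] at h2
    have h3 : p * qf D₁ e = 0 := by linear_combination hzero + h2
    exact mul_ne_zero hp0 hQ1 h3
  have hdeg : N₁.natDegree ≤ (N₀ - N₁).natDegree := by
    rw [hPe, natDegree_C_mul hqn, natDegree_X_pow, hN₁, hET]
    exact (natDegree_C_mul_le _ _).trans (qf_deg_Base1T D₁ e h)
  -- the field
  obtain ⟨K, _, _, hK, T, η, S, S', hT, hη, hS⟩ := exists_field_Base1T (hM i) N₀ N₁ e h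
  have hres : HasRes k K := hasRes_of_isCurve hK
  have hae : ∀ {Q : k[X]}, Q ≠ 0 → aeval T Q ≠ 0 := fun hP h => hP (transcendental_iff.1 hT _ h)
  have hη' : η ^ X.M i * aeval T N₁ = aeval T N₀ := by
    rw [hη, div_mul_cancel₀ _ (hae hN10)]
  have hη1 : η ^ X.M i ≠ 1 := by
    intro h
    rw [h, one_mul] at hη'
    apply hae hPne
    rw [map_sub, hη', sub_self]
  have hη0 : η ≠ 0 := by
    rintro rfl
    rw [zero_pow (hM i).ne', zero_mul] at hη'
    exact hae hN00 hη'.symm
  have hesT : es S S' = fun l => aeval T (ET l) := by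
    rw [hS, hET]
    funext l
    rw [map_add, map_mul, aeval_X, Polynomial.algebraMap_eq, aeval_C, aeval_C]
  have hqT : ∀ D : (Fin 1 → Fin 3) → (Fin 1 → Fin 3) → k,
      qf D (es S S') = aeval T (qf D ET) := by
    intro D
    rw [hesT]
    exact qf_map (D := D) (aeval T : k[X] →ₐ[k] K) ET
  have hesne : es S S' ≠ 0 := by
    intro h1
    have he : e ≠ 0 := by
      rw [← he0]
      exact hey 0
    apply he
    funext l
    by_contra hl
    have h2 : ET l ≠ 0 := by
      intro h3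
      apply hl
      have h4 := congrArg (eval 0) h3
      rw [hET] at h4
      simpa [Polynomial.algebraMap_eq] using h4
    apply hae h2
    rw [hesT] at h1
    exact congrFun h1 l
  have hS0 : S ≠ 0 := by
    rintro rfl
    apply hesne
    funext l
    fin_cases l <;> simp [es]
  have hS0' : S' ≠ 0 := by
    rintro rfl
    apply hesne
    funext l
    fin_cases l <;> simp [es]
  obtain ⟨al, hal⟩ : ∃ al : k →+* K, al = algebraMap k K := ⟨_, rfl⟩
  let cz : k → Fin m → K := fun ζ => Function.update (fun j => algebraMap k K (c j)) i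
    (algebraMap k K (c i) * (algebraMap k K ζ * η))
  have hzne : ∀ ζ : k, ζ ^ X.M i = 1 → ζ ≠ 0 := by
    rintro ζ hζ rfl
    rw [zero_pow (hM i).ne'] at hζ
    exact zero_ne_one hζ
  have hinj : ∀ {x : k}, x ≠ 0 → algebraMap k K x ≠ 0 := fun hx =>
    (_root_.map_ne_zero (algebraMap k K)).2 hx
  have hcz0 : ∀ ζ : k, ζ ^ X.M i = 1 → ∀ j, cz ζ j ≠ 0 := by
    intro ζ hζ j
    by_cases hj : j = i
    · subst hj
      show Function.update (fun j => algebraMap k K (c j)) j
        (algebraMap k K (c j) * (algebraMap k K ζ * η)) j ≠ 0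
      rw [Function.update_self]
      exact mul_ne_zero (hinj (hc j)) (mul_ne_zero (hinj (hzne ζ hζ)) hη0)
    · show Function.update (fun j => algebraMap k K (c j)) i
        (algebraMap k K (c i) * (algebraMap k K ζ * η)) j ≠ 0
      rw [Function.update_of_ne hj]
      exact hinj (hc j)
  have hquad : ∀ ζ : k, ζ ^ X.M i = 1 → qf D₀ (es S S') + algebraMap k K (θ i) *
      (algebraMap k K (c i) * (algebraMap k K ζ * η)) ^ X.M i * qf D₁ (es S S') = 0 := by
    intro ζ hζ
    have h1 := hη'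
    rw [hN₀, hN₁, map_neg, map_mul, aeval_C, hp, map_mul, map_pow] at h1
    rw [hqT, hqT, mul_pow, mul_pow, ← map_pow (algebraMap k K) ζ, hζ, map_one, one_mul]
    linear_combination h1
  have hdet : ∀ ζ : k, ζ ^ X.M i = 1 → (X.Nm (fun i => algebraMap k K (θ i)) (cz ζ)
      (fun _ => po S) fun _ => po S').det = 0 := fun ζ hζ =>
    hD.det hS0 hS0' _ (hquad ζ hζ)
  have hdet' : ∀ ζ : k, ζ ^ X.M i = 1 → (X.Nm (fun i => algebraMap k K (θ i)) (cz ζ)
      (fun _ => po S') fun _ => po S).det = 0 := fun ζ hζ =>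
    hD.det hS0' hS0 _ (by
      rw [GOC.es_swap S S']
      exact hquad ζ hζ)
  have key := GOY.eta_sum hK (hM i) hT (η := η) (N₀ := N₀) (N₁ := N₁) hN10 hPne hdeg hη'
    (fun ζ v => Ef X E θ (fun j => vlo v (some (cz ζ j))) (fun _ => vlo v (po S))
        (fun _ => vlo v (po S')) +
      Ef X E θ (fun j => vlo v (some (cz ζ j))) (fun _ => vlo v (po S'))
        fun _ => vlo v (po S))
    (fun y => Ze X E θ (fun j => some (c j)) fun l => e l + y * h l) ?_ ?_ ?_ ?_
  · -- the conclusion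
    rw [hPe, roots_C_mul _ hqn, roots_X_pow, Multiset.map_nsmul, Multiset.sum_nsmul,
      Multiset.map_singleton, Multiset.sum_singleton, he0, ← Nat.cast_smul_eq_nsmul R] at key
    rcases smul_eq_zero.1 key with h1 | h1
    · exfalso
      have h2 : ((2 : ℕ) : R) ≠ 0 := Nat.cast_ne_zero.2 (by norm_num)
      exact h2 h1
    · exact h1
  · -- the relation
    intro ζ hζ
    have hf : algebraMap k K ζ * η - 1 ≠ 0 := by
      intro h1
      apply hη1
      have h3 : (algebraMap k K ζ * η) ^ X.M i = 1 := by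
        rw [sub_eq_zero.1 h1, one_pow]
      rwa [mul_pow, ← map_pow, hζ, map_one, one_mul] at h3
    have h1 := Ef_cf hm hM hχ hE hθ hK (hcz0 ζ hζ) (hdet ζ hζ) hf
    have h2 := Ef_cf hm hM hχ hE hθ hK (hcz0 ζ hζ) (hdet' ζ hζ) hf
    simp only [smul_add]
    rw [Finsupp.sum_add]
    rw [h1, h2, add_zero]
  · -- the poles of `η`
    intro ζ v hζ hv
    have h1 : vlo v (some (cz ζ i)) = none := by
      refine (HYG.vl_none_iff hK).2 fun h2 => hv ?_
      have h3 : cz ζ i = algebraMap k K (c i) * (algebraMap k K ζ * η) :=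
        Function.update_self _ _ _
      have h4 : η = algebraMap k K (c i * ζ)⁻¹ * cz ζ i := by
        have h5 := hinj (hc i)
        have h6 := hinj (hzne ζ hζ)
        rw [h3, map_inv₀, map_mul]
        field_simp
      rw [h4]
      exact mul_mem (v.const_mem _) h2
    show Ef X E θ _ _ _ + Ef X E θ _ _ _ = 0
    rw [Ef_bad (i := i) (Or.inl h1), Ef_bad (i := i) (Or.inl h1), add_zero]
  · -- the zeros
    intro ζ v y hζ hy hζη
    have h1 : (fun j => vlo v (some (cz ζ j))) = fun j => some (c j) := by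
      funext j
      apply HGF.vlo_at
      by_cases hj : j = i
      · subst hj
        have h3 : cz ζ j = algebraMap k K (c j) * (algebraMap k K ζ * η) :=
          Function.update_self _ _ _
        rw [h3]
        have h4 := (Place.at_const (v := v) (c j)).mul hζη
        rw [mul_one] at h4
        exact h4
      · have h3 : cz ζ j = algebraMap k K (c j) := Function.update_of_ne hj _ _
        rw [h3]
        exact Place.at_const _
    show Ef X E θ (fun j => vlo v (some (cz ζ j))) _ _ +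
      Ef X E θ (fun j => vlo v (some (cz ζ j))) _ _ = _
    rw [h1]
    symm
    refine Ze_vlo hS0 hS0' (a := 1) (hey y) fun l => ?_
    rw [one_mul, hS]
    exact (Place.at_const (e l)).add (hy.mul (Place.at_const (h l)))
  · -- both polynomials vanish
    intro y hy0 hy1
    rw [hN₀, eval_neg, hev] at hy0
    rw [hN₁, eval_mul, eval_C, hev] at hy1
    exact Ze_mov hM hχ hE hθ hc hD (neg_eq_zero.1 hy0) ((mul_eq_zero.1 hy1).resolve_left hp0)

end Pool.Agent.DTU
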