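import Pool.Agent.DTU.EfMov
import Pool.Agent.DTU.FTwoA
import Pool.Agent.DTU.Base1

/-!
# One base coordinate: the sum of the values of `Ef` at `(z, z')` and `(z', z)`
-/

set_option autoImplicit false

noncomputable section

namespace Pool.Agent.DTU

open Matrix Polynomial
open Pool.Agent.ZCyc Pool.Agent.Dess Pool.Agent.GT Pool.Agent.TInc
open Pool.Agent.VFP (Om tt)
open Pool.Agent.HGF (fst snd vlo)
open Pool.Agent.GOC (vo po mv es)
open scoped Classical

variable {k : Type} [Field k] [IsAlgClosed k] [CharZero k] {m : ℕ} {X : Fam k 1 m}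
  {R W : Type} [Field R] [AddCommGroup W] [Module R W] {χ : Fin m → k → R}
  {E : (Fin 1 → Option k) → (Fin m → Option k) → (Fin 1 → Option k) → (Fin m → Option k) → W}

/-- the sum of the values at `(z, z')` and `(z', z)` for the pair of points with the coordinates `e` (zero for `e = 0`) -/
def Ze (X : Fam k 1 m)
    (E : (Fin 1 → Option k) → (Fin m → Option k) → (Fin 1 → Option k) → (Fin m → Option k) → W)
    (θ : Fin m → k) (c : Fin m → Option k) (e : Fin 3 → k) : W :=
  if h : ∃ p : (Fin 2 → k) × (Fin 2 → k), p.1 ≠ 0 ∧ p.2 ≠ 0 ∧ es p.1 p.2 = e then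
    Ef X E θ c (fun _ => po h.choose.1) (fun _ => po h.choose.2) +
      Ef X E θ c (fun _ => po h.choose.2) (fun _ => po h.choose.1) else 0

/-- (`GOC.es_unique`, `GOC.po_mul`, `add_comm`) -/
theorem Ze_es {θ : Fin m → k} {c : Fin m → Option k} {S T : Fin 2 → k} (hS : S ≠ 0) (hT : T ≠ 0)
    {e : Fin 3 → k} {ρ : k} (hρ : ρ ≠ 0) (he : e = fun i => ρ * es S T i) :
    Ze X E θ c e = Ef X E θ c (fun _ => po S) (fun _ => po T) +
      Ef X E θ c (fun _ => po T) (fun _ => po S) := by
  have h : ∃ p : (Fin 2 → k) × (Fin 2 → k), p.1 ≠ 0 ∧ p.2 ≠ 0 ∧ es p.1 p.2 = e := by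
    refine ⟨(fun i => ρ * S i, fun i => 1 * T i), ?_, ?_, ?_⟩
    · intro h0
      apply hS
      funext i
      have h1 : ρ * S i = 0 := congrFun h0 i
      exact (mul_eq_zero.1 h1).resolve_left hρ
    · simpa using hT
    · rw [GOC.es_smul, he]
      funext i
      ring
  obtain ⟨h1, h2, h3⟩ := h.choose_spec
  rw [Ze, dif_pos h]
  rcases GOC.es_unique h1 h2 hS hT (h3.trans he) with ⟨μ, ν, e1, e2⟩ | ⟨μ, ν, e1, e2⟩
  · have hμ : μ ≠ 0 := by
      rintro rfl
      apply h1
      rw [e1]
      funext i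
      simp
    have hν : ν ≠ 0 := by
      rintro rfl
      apply h2
      rw [e2]
      funext i
      simp
    have p1 : po h.choose.1 = po S := by rw [e1, GOC.po_mul hμ]
    have p2 : po h.choose.2 = po T := by rw [e2, GOC.po_mul hν]
    rw [p1, p2]
  · have hμ : μ ≠ 0 := by
      rintro rfl
      apply h1
      rw [e1]
      funext i
      simp
    have hν : ν ≠ 0 := by
      rintro rfl
      apply h2
      rw [e2]
      funext i
      simp
    have p1 : po h.choose.1 = po T := by rw [e1, GOC.po_mul hμ]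
    have p2 : po h.choose.2 = po S := by rw [e2, GOC.po_mul hν]
    rw [p1, p2, add_comm]

/-- multiples of `e` (`GOC.exists_es`, `Ze_es`; `e = 0`: both sides are zero since `es S T ≠ 0`, `GOC.es_ne`) -/
theorem Ze_smul {θ : Fin m → k} {c : Fin m → Option k} {e : Fin 3 → k} {ρ : k} (hρ : ρ ≠ 0) :
    Ze X E θ c (fun i => ρ * e i) = Ze X E θ c e := by
  by_cases h0 : e = 0
  · have h1 : (fun i => ρ * e i) = e := by
      rw [h0]
      funext i
      simp
    rw [h1]
  · obtain ⟨S, T, hST⟩ := GOC.exists_es e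
    have hS : S ≠ 0 := by
      rintro rfl
      apply h0
      rw [← hST]
      funext i
      fin_cases i <;> simp [es]
    have hT : T ≠ 0 := by
      rintro rfl
      apply h0
      rw [← hST]
      funext i
      fin_cases i <;> simp [es]
    rw [Ze_es hS hT hρ (by rw [hST]), Ze_es hS hT one_ne_zero (by
      rw [hST]
      funext i
      ring)]

/-- THE VALUES. Let `S`, `T` be vectors over `K`, both `≠ 0`, and let the multiple `a` of `es S T` have the value `e ≠ 0` at the place `v`. Then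
`Ze` at `e` is the sum of the two values of `Ef` at the values of the points `po S`, `po T`. PROOF. `GOC.exists_sp` gives multiples of `S`, `T` with the
values `s`, `t ≠ 0`, so a multiple of `es S T` has the value `es s t ≠ 0` (`GOC.at_es`, `GOC.es_smul`, `GOC.es_ne`), and `GOC.ratio` shows `e = ρ es s t`. The value of `po S` is `po s` (`GOC.Sp.vlo`). `Ze_es`. -/
theorem Ze_vlo {K : Type} [Field K] [Algebra k K] [HasRes k K] {v : Place k K}
    {θ : Fin m → k} {c : Fin m → Option k} {S T : Fin 2 → K} (hS : S ≠ 0) (hT : T ≠ 0) {a : K}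
    {e : Fin 3 → k} (he : e ≠ 0) (h : ∀ i, v.At (a * es S T i) (e i)) :
    Ze X E θ c e =
      Ef X E θ c (fun _ => vlo v (po S)) (fun _ => vlo v (po T)) +
        Ef X E θ c (fun _ => vlo v (po T)) (fun _ => vlo v (po S)) := by
  obtain ⟨a1, s, hs⟩ := GOC.exists_sp v hS
  obtain ⟨b1, t, ht⟩ := GOC.exists_sp v hT
  have h1 := GOC.at_es hs.sp ht.sp
  rw [GOC.es_smul] at h1
  obtain ⟨d, hd, -, hde⟩ := GOC.ratio (v := v) (Z := es S T) h h1 he (GOC.es_ne hs.z0 ht.z0)
  rw [Ze_es hs.z0 ht.z0 hd hde, hs.vlo, ht.vlo]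

end Pool.Agent.DTU
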