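import Pool.Agent.DTU.Lin
import Pool.Agent.GOY.Pla

/-!
# Points of the fibres
-/

set_option autoImplicit false

noncomputable section

namespace Pool.Agent.DTU

open Matrix
open Pool.Agent.ZCyc Pool.Agent.Dess Pool.Agent.GT Pool.Agent.TInc
open Pool.Agent.HGF (fst snd vlo)
open scoped Classical

variable {k : Type} [Field k] {m : ℕ} {C C' : Col k m} {M : Fin m → ℕ}

/-! ### The vectors -/

/-- a point lies on the fibre if and only if there is a vector `b ≠ 0` which is orthogonal to all `γ_i`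
(`Matrix.exists_mulVec_eq_zero_iff`, `(Matrix.of γ *ᵥ b) i = γ i ⬝ᵥ b`) -/
theorem on_iff {w : Fin m → Option k} :
    C.On M w ↔ ∃ b : Fin m → k, b ≠ 0 ∧ ∀ i, b ⬝ᵥ C.ga M w i = 0 := by
  unfold Col.On
  rw [← Matrix.exists_mulVec_eq_zero_iff]
  constructor
  · rintro ⟨b, hb, h⟩
    refine ⟨b, hb, fun i => ?_⟩
    have h1 := congrFun h i
    rw [dotProduct_comm]
    exact h1
  · rintro ⟨b, hb, h⟩
    refine ⟨b, hb, ?_⟩
    funext i
    have h1 := h i
    rw [dotProduct_comm] at h1
    exact h1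

/-- ... and if and only if the vectors `γ_i` are linearly dependent (`Matrix.exists_vecMul_eq_zero_iff`) -/
theorem on_iff' {w : Fin m → Option k} :
    C.On M w ↔ ∃ a : Fin m → k, a ≠ 0 ∧ ∑ i, a i • C.ga M w i = 0 := by
  have key : ∀ a : Fin m → k, a ᵥ* Matrix.of (C.ga M w) = ∑ i, a i • C.ga M w i := by
    intro a
    funext l
    rw [Finset.sum_apply]
    rfl
  unfold Col.On
  rw [← Matrix.exists_vecMul_eq_zero_iff]
  constructor
  · rintro ⟨a, ha, h⟩
    exact ⟨a, ha, by rw [← key]; exact h⟩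
  · rintro ⟨a, ha, h⟩
    exact ⟨a, ha, by rw [key]; exact h⟩

theorem ga_some (w : Fin m → k) (i : Fin m) :
    C.ga M (fun i => some (w i)) i = C.a i - w i ^ M i • C.b i := by
  funext l
  simp only [Col.ga, HGF.fst_some, HGF.snd_some, Pi.sub_apply, Pi.smul_apply,
    smul_eq_mul, one_pow, mul_one]
  rw [mul_comm (C.b i l)]

/-- `b N = ∑ (p_i (b · β_i) β'_i - q_i (b · α_i) α'_i)` -/
theorem vecMul_N (p q b : Fin m → k) :
    b ᵥ* C.N C' p q = ∑ i, ((p i * (b ⬝ᵥ C.b i)) • C'.b i - (q i * (b ⬝ᵥ C.a i)) • C'.a i) := by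
  funext l'
  rw [Finset.sum_apply]
  have h1 : (b ᵥ* C.N C' p q) l' = ∑ l, ∑ i, b l * (p i * (C.b i l * C'.b i l') -
      q i * (C.a i l * C'.a i l')) := by
    have h2 : (b ᵥ* C.N C' p q) l' = ∑ l, b l * ∑ i, (p i * (C.b i l * C'.b i l') -
      q i * (C.a i l * C'.a i l')) := rfl
    rw [h2]
    refine Finset.sum_congr rfl fun l _ => ?_
    rw [Finset.mul_sum]
  rw [h1, Finset.sum_comm]
  refine Finset.sum_congr rfl fun i _ => ?_
  simp only [Pi.sub_apply, Pi.smul_apply, smul_eq_mul, dotProduct]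
  rw [Finset.mul_sum, Finset.mul_sum, Finset.sum_mul, Finset.sum_mul, ← Finset.sum_sub_distrib]
  refine Finset.sum_congr rfl fun l _ => ?_
  ring

theorem N_tr {R : Type} [CommRing R] (D D' : Col R m) (p q : Fin m → R) :
    D'.N D p q = (D.N D' p q)ᵀ := by
  ext l l'
  simp only [Col.N, Matrix.of_apply, Matrix.transpose_apply]
  refine Finset.sum_congr rfl fun i _ => ?_
  ring

/-- `b = (0, ..)`: if `b ≠ 0` is orthogonal to all `γ_i` then the point lies on the fibre -/
theorem on_left {b : Fin m → k} {w : Fin m → k} (hb : b ≠ 0)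
    (h : ∀ i, w i ^ M i * (b ⬝ᵥ C.b i) = b ⬝ᵥ C.a i) : C.On M (fun i => some (w i)) := by
  refine on_iff.2 ⟨b, hb, fun i => ?_⟩
  rw [ga_some, dotProduct_sub, dotProduct_smul, smul_eq_mul, h, sub_self]

/-- Let `w_i ^ M_i (b · β_i) = b · α_i` for all `i`. Then `b N = - ∑ q_i (b · α_i) γ'_i` for `N` with the coefficients
`p_i = q_i (w_i w'_i) ^ M_i`. -/
theorem vecMul_ga {b q w w' : Fin m → k} (h : ∀ i, w i ^ M i * (b ⬝ᵥ C.b i) = b ⬝ᵥ C.a i) :
    b ᵥ* C.N C' (fun i => q i * (w i * w' i) ^ M i) q =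
      -∑ i, (q i * (b ⬝ᵥ C.a i)) • C'.ga M (fun i => some (w' i)) i := by
  rw [vecMul_N, ← Finset.sum_neg_distrib]
  refine Finset.sum_congr rfl fun i _ => ?_
  rw [ga_some]
  funext l
  simp only [Pi.sub_apply, Pi.smul_apply, Pi.neg_apply, smul_eq_mul]
  rw [← h i, mul_pow]
  ring

/-- If `b N = 0` and one of the coefficients is not zero then the second point lies on its fibre
(`vecMul_ga`, `on_iff'`) -/
theorem on_right {b q w w' : Fin m → k} (h : ∀ i, w i ^ M i * (b ⬝ᵥ C.b i) = b ⬝ᵥ C.a i)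
    (hN : b ᵥ* C.N C' (fun i => q i * (w i * w' i) ^ M i) q = 0) {i : Fin m}
    (hi : q i * (b ⬝ᵥ C.a i) ≠ 0) : C'.On M (fun i => some (w' i)) := by
  refine on_iff'.2 ⟨fun j => q j * (b ⬝ᵥ C.a j), fun h0 => hi (congrFun h0 i), ?_⟩
  rw [vecMul_ga h, neg_eq_zero] at hN
  exact hN

private theorem ga_upd_ColL {w : Fin m → Option k} {i j : Fin m} (hj : j ≠ i) {y : Option k} :
    C.ga M (Function.update w i y) j = C.ga M w j := by
  funext l
  simp only [Col.ga, Function.update_of_ne hj]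

/-- the point is arbitrary in the coordinate `i` if `b ≠ 0` is orthogonal to `α_i`, `β_i` and all `γ_j`, `j ≠ i`
(`on_iff`) -/
theorem on_free {b : Fin m → k} (hb : b ≠ 0) {w : Fin m → Option k} {i : Fin m}
    (ha : b ⬝ᵥ C.a i = 0) (hb' : b ⬝ᵥ C.b i = 0) (h : ∀ j, j ≠ i → b ⬝ᵥ C.ga M w j = 0)
    (y : Option k) : C.On M (Function.update w i y) := by
  refine on_iff.2 ⟨b, hb, fun j => ?_⟩
  by_cases hj : j = i
  · subst hj
    have h1 : C.ga M (Function.update w j y) j =
        snd y ^ M j • C.a j - fst y ^ M j • C.b j := by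
      funext l
      simp only [Col.ga, Function.update_self, Pi.sub_apply, Pi.smul_apply, smul_eq_mul]
      ring
    rw [h1, dotProduct_sub, dotProduct_smul, dotProduct_smul, ha, hb', smul_zero, smul_zero,
      sub_zero]
  · rw [ga_upd_ColL hj]
    exact h j hj

/-- the point is arbitrary in the coordinate `i` if there is a linear relation between the vectors `γ_j`, `j ≠ i`
(`on_iff'`) -/
theorem on_free' {a : Fin m → k} (ha : a ≠ 0) {w : Fin m → Option k} {i : Fin m} (hi : a i = 0)
    (h : ∑ j, a j • C.ga M w j = 0) (y : Option k) : C.On M (Function.update w i y) := by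
  refine on_iff'.2 ⟨a, ha, ?_⟩
  rw [← h]
  refine Finset.sum_congr rfl fun j _ => ?_
  by_cases hj : j = i
  · rw [hj, hi, zero_smul, zero_smul]
  · rw [ga_upd_ColL hj]

private theorem fst_mul_ColL (u : k) (x : Option k) :
    fst (x.map fun w => u * w) = (if x ≠ none then u else 1) * fst x := by
  cases x with
  | none => simp
  | some f => rw [if_pos (by simp), Option.map_some, HGF.fst_some, HGF.fst_some]

private theorem snd_mul_ColL (u : k) (x : Option k) : snd (x.map fun w => u * w) = snd x := by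
  cases x with
  | none => rfl
  | some f => rw [Option.map_some, HGF.snd_some, HGF.snd_some]

/-- (compare `GOY.on_rot`) -/
theorem on_rot {w : Fin m → Option k} (h : C.On M w) {i : Fin m} {u : k} (hu : u ^ M i = 1) :
    C.On M (HYG.rot i u w) := by
  have h1 : ∀ j : Fin m, fst (HYG.rot i u w j) ^ M j = fst (w j) ^ M j := by
    intro j
    unfold HYG.rot
    by_cases hj : j = i
    · subst hj
      rw [Function.update_self, fst_mul_ColL, mul_pow]
      split_ifs
      · rw [hu, one_mul]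
      · rw [one_pow, one_mul]
    · rw [Function.update_of_ne hj]
  have h2 : ∀ j : Fin m, snd (HYG.rot i u w j) = snd (w j) := by
    intro j
    unfold HYG.rot
    by_cases hj : j = i
    · subst hj
      rw [Function.update_self, snd_mul_ColL]
    · rw [Function.update_of_ne hj]
  have h3 : C.ga M (HYG.rot i u w) = C.ga M w := by
    funext j l
    simp only [Col.ga, h1, h2]
  unfold Col.On at h ⊢
  rw [h3]
  exact h

end Pool.Agent.DTU
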