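import Pool.Agent.DTU.ColL

/-!
# Points of the fibres: extension of the field
-/

set_option autoImplicit false

noncomputable section

namespace Pool.Agent.DTU

open Matrix
open Pool.Agent.ZCyc Pool.Agent.Dess Pool.Agent.GT Pool.Agent.TInc
open Pool.Agent.HGF (fst snd vlo)
open scoped Classical

variable {k : Type} [Field k] {m : ℕ} {C C' : Col k m} {M : Fin m → ℕ}

/-! ### Extension of the field -/

section Map

variable {K : Type} [Field K] [Algebra k K] {K' : Type} [Field K'] [Algebra k K']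

/-- a homomorphism: the vectors `γ_i` (`HGF.fst_map`, `HGF.snd_map`) -/
theorem on_hom {D : Col K m} (φ : K →ₐ[k] K') {D' : Col K' m} (ha : ∀ i l, D'.a i l = φ (D.a i l))
    (hb : ∀ i l, D'.b i l = φ (D.b i l)) {w : Fin m → Option K} :
    D'.On M (fun i => (w i).map φ) ↔ D.On M w := by
  have h1 : Matrix.of (D'.ga M fun i => (w i).map φ) =
      (φ : K →+* K').mapMatrix (Matrix.of (D.ga M w)) := by
    ext i l
    show D'.a i l * snd ((w i).map φ) ^ M i - D'.b i l * fst ((w i).map φ) ^ M i =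
      φ (D.a i l * snd (w i) ^ M i - D.b i l * fst (w i) ^ M i)
    rw [ha, hb, HGF.fst_map, HGF.snd_map, map_sub, map_mul, map_mul, map_pow, map_pow]
  unfold Col.On
  rw [h1, ← RingHom.map_det]
  exact map_eq_zero (φ : K →+* K')

/-- constant points (`on_hom` for `Algebra.ofId k K`) -/
theorem on_cst {w : Fin m → Option k} :
    (C.map K).On M (fun i => (w i).map (algebraMap k K)) ↔ C.On M w :=
  on_hom (D := C) (D' := C.map K) (Algebra.ofId k K) (fun _ _ => rfl) (fun _ _ => rfl)

/-- the points over `K` of the fibre of a family over `k`: extension of the field -/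
theorem on_mapK (φ : K →ₐ[k] K') {w : Fin m → Option K} :
    (C.map K').On M (fun i => (w i).map φ) ↔ (C.map K).On M w :=
  on_hom φ (fun i l => (φ.commutes (C.a i l)).symm) (fun i l => (φ.commutes (C.b i l)).symm)

/-- the columns over `K` and vectors over `k`: `(φ ∘ b) · (φ ∘ u) = φ (b · u)` -/
theorem dot_map (b u : Fin m → k) :
    (fun l => algebraMap k K (b l)) ⬝ᵥ (fun l => algebraMap k K (u l)) =
      algebraMap k K (b ⬝ᵥ u) := by
  unfold dotProduct
  rw [map_sum]
  exact Finset.sum_congr rfl (fun l _ => (map_mul _ _ _).symm)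

/-- the matrix `N` over `K` (`map_sum`, `map_mul`, ...) -/
theorem N_map {D₁ D₂ : Col K m} {D₁' D₂' : Col K' m} (φ : K →ₐ[k] K')
    (ha : ∀ i l, D₁'.a i l = φ (D₁.a i l)) (hb : ∀ i l, D₁'.b i l = φ (D₁.b i l))
    (ha' : ∀ i l, D₂'.a i l = φ (D₂.a i l)) (hb' : ∀ i l, D₂'.b i l = φ (D₂.b i l))
    (p q : Fin m → K) (l l' : Fin m) :
    D₁'.N D₂' (fun i => φ (p i)) (fun i => φ (q i)) l l' = φ (D₁.N D₂ p q l l') := by
  show (∑ i, (φ (p i) * (D₁'.b i l * D₂'.b i l') - φ (q i) * (D₁'.a i l * D₂'.a i l'))) =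
    φ (∑ i, (p i * (D₁.b i l * D₂.b i l') - q i * (D₁.a i l * D₂.a i l')))
  rw [map_sum]
  refine Finset.sum_congr rfl (fun i _ => ?_)
  rw [map_sub, map_mul, map_mul, map_mul, map_mul, ha, hb, ha', hb']

end Map

end Pool.Agent.DTU
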