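import Pool.Agent.DTU.ColM

/-!
# Points of the fibres: values at places
-/

set_option autoImplicit false

noncomputable section

namespace Pool.Agent.DTU

open Matrix
open Pool.Agent.ZCyc Pool.Agent.Dess Pool.Agent.GT Pool.Agent.TInc
open Pool.Agent.HGF (fst snd vlo)
open scoped Classical

variable {k : Type} [Field k] {m : ℕ} {C C' : Col k m} {M : Fin m → ℕ}

/-! ### Values -/

section Values

variable {K : Type} [Field K] [Algebra k K] {v : Place k K} {D D' : Col K m}
  {lam lam' : Fin m → K}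

private theorem at_det_ColV {v : Place k K} {B : Matrix (Fin m) (Fin m) K}
    {B' : Matrix (Fin m) (Fin m) k} (h : ∀ i j, v.At (B i j) (B' i j)) : v.At B.det B'.det := by
  rw [Matrix.det_apply', Matrix.det_apply']
  refine Place.At.sum fun σ _ => ?_
  refine Place.At.mul ?_ (Place.At.prod fun i _ => h _ _)
  have h1 := Place.at_const (v := v) (((Equiv.Perm.sign σ : ℤˣ) : ℤ) : k)
  rwa [map_intCast] at h1

private theorem det_scale_ColV (A : Matrix (Fin m) (Fin m) K) (a b : Fin m → K) :
    (Matrix.of fun i j => a i * (b j * A i j)).det = (∏ i, a i) * ((∏ j, b j) * A.det) := by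
  have h1 : (Matrix.of fun i j => a i * (b j * A i j)) =
      Matrix.of fun i j => a i * (Matrix.of fun i j => b j * A i j) i j := rfl
  rw [h1, Matrix.det_mul_column, Matrix.det_mul_row]

/-- constant columns -/
theorem lm_cst (C : Col k m) (v : Place k K) : Col.Lm v (fun _ => 1) (C.map K) C := by
  refine ⟨fun _ => one_ne_zero, fun i l => ?_, fun i l => ?_⟩
  · rw [one_mul]
    exact Place.at_const _
  · rw [one_mul]
    exact Place.at_const _

/-- The values of a point lie on the fibre for the values of the columns. PROOF. Take, by `HGF.exists_mul`,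
`t i ≠ 0` with `v.At (t i * fst (w i)) (fst (vlo v (w i)))`, `v.At (t i * snd (w i)) (snd (vlo v (w i)))`. Then
`lam l * t i ^ M i * D.ga M w i l` has the value `C.ga M (vlo v ∘ w) i l`, and the determinant of this matrix is
`(∏ lam l) * (∏ t i ^ M i) * det` (`Matrix.det_mul_row`, `Matrix.det_mul_column`) `= 0`; values of determinants: `Matrix.det_apply`,
`HYG.at_det` in `Pool/Agent/HYG/CVal.lean`. Compare `GOY.on_vlo`. -/
theorem on_vlo [HasRes k K] (hl : Col.Lm v lam D C) {w : Fin m → Option K} (h : D.On M w) :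
    C.On M (fun i => vlo v (w i)) := by
  choose t ht h1 h2 using fun i => HGF.exists_mul v (w i)
  have h3 : ∀ i l, v.At ((Matrix.of fun i l => t i ^ M i * (lam l * D.ga M w i l)) i l)
      (Matrix.of (C.ga M fun i => vlo v (w i)) i l) := by
    intro i l
    have h4 := ((hl.a i l).mul ((h2 i).pow (M i))).sub ((hl.b i l).mul ((h1 i).pow (M i)))
    have h5 : lam l * D.a i l * (t i * snd (w i)) ^ M i -
        lam l * D.b i l * (t i * fst (w i)) ^ M i = t i ^ M i * (lam l * D.ga M w i l) := by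
      unfold Col.ga
      rw [mul_pow, mul_pow]
      ring
    rw [h5] at h4
    exact h4
  have h6 := at_det_ColV h3
  have h7 : (Matrix.of fun i l => t i ^ M i * (lam l * D.ga M w i l)).det = 0 := by
    have h8 := det_scale_ColV (Matrix.of (D.ga M w)) (fun i => t i ^ M i) lam
    have h9 : (Matrix.of (D.ga M w)).det = 0 := h
    rw [h9, mul_zero, mul_zero] at h8
    exact h8
  rw [h7] at h6
  exact h6.unique (GOY.at_zero v)

/-- constant columns (`on_vlo`, `lm_cst`) -/
theorem on_vlo_cst [HasRes k K] (v : Place k K) {w : Fin m → Option K} (h : (C.map K).On M w) :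
    C.On M (fun i => vlo v (w i)) := by
  exact on_vlo (lm_cst C v) h

/-- A vector `u ≠ 0` has a multiple with a value different from zero: choose an entry `u j ≠ 0` with `u l / u j` in the
valuation ring for all `l` (a maximal entry for the valuation: `Finite.exists_max` or induction;
`ValuationSubring.mem_or_inv_mem`), `r = (u j)⁻¹`, `HasRes.res`; the value of `r * u j` is `1`. -/
theorem exists_nrm [HasRes k K] (v : Place k K) {u : Fin m → K} (hu : u ≠ 0) :
    ∃ (r : K) (u₁ : Fin m → k), r ≠ 0 ∧ u₁ ≠ 0 ∧ ∀ l, v.At (r * u l) (u₁ l) := by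
  obtain ⟨l0, hl0⟩ := Function.ne_iff.1 hu
  have : Nonempty (Fin m) := ⟨l0⟩
  obtain ⟨j, hj⟩ := Finite.exists_max fun l => v.ring.valuation (u l)
  have hj0 : u j ≠ 0 := by
    intro h0
    have h1 := hj l0
    rw [h0, map_zero] at h1
    have h2 := le_antisymm h1 zero_le
    exact hl0 ((map_eq_zero _).1 h2)
  have hmem : ∀ l, (u j)⁻¹ * u l ∈ v.ring := by
    intro l
    rw [← ValuationSubring.valuation_le_one_iff, map_mul, map_inv₀]
    have h1 : v.ring.valuation (u j) ≠ 0 := (Valuation.ne_zero_iff _).2 hj0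
    have h3 := mul_le_mul_right (hj l) (v.ring.valuation (u j))⁻¹
    rwa [inv_mul_cancel₀ h1] at h3
  choose u₁ hu₁ using fun l => HasRes.res (k := k) v _ (hmem l)
  refine ⟨(u j)⁻¹, u₁, inv_ne_zero hj0, ?_, hu₁⟩
  intro h
  have h1 := hu₁ j
  rw [inv_mul_cancel₀ hj0, h] at h1
  exact one_ne_zero ((GOY.at_one v).unique h1)

/-- The value of a vector `b`. (`exists_nrm` for `b l / lam l`) -/
theorem exists_lim [HasRes k K] (hl : Col.Lm v lam D C) {b : Fin m → K} (hb : b ≠ 0) :
    ∃ (r : K) (b₁ : Fin m → k), r ≠ 0 ∧ b₁ ≠ 0 ∧ ∀ l, v.At (r * (b l / lam l)) (b₁ l) := by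
  have hu : (fun l => b l / lam l) ≠ 0 := by
    intro h
    apply hb
    funext l
    exact (div_eq_zero_iff.1 (congrFun h l)).resolve_right (hl.ne l)
  exact exists_nrm v hu

/-- (`r * (b l * a l) = (r * (b l / lam l)) * (lam l * a l)`; `Place.At.sum`) -/
theorem at_dot (hl : Col.Lm v lam D C) {b : Fin m → K} {r : K} {b₁ : Fin m → k}
    (h : ∀ l, v.At (r * (b l / lam l)) (b₁ l)) (i : Fin m) :
    v.At (r * (b ⬝ᵥ D.a i)) (b₁ ⬝ᵥ C.a i) ∧ v.At (r * (b ⬝ᵥ D.b i)) (b₁ ⬝ᵥ C.b i) := by
  have key : ∀ (u : Fin m → K) (u₁ : Fin m → k), (∀ l, v.At (lam l * u l) (u₁ l)) →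
      v.At (r * (b ⬝ᵥ u)) (b₁ ⬝ᵥ u₁) := by
    intro u u₁ hu
    have h1 : v.At (∑ l, r * (b l / lam l) * (lam l * u l)) (∑ l, b₁ l * u₁ l) :=
      Place.At.sum fun l _ => (h l).mul (hu l)
    have h2 : ∑ l, r * (b l / lam l) * (lam l * u l) = r * (b ⬝ᵥ u) := by
      unfold dotProduct
      rw [Finset.mul_sum]
      refine Finset.sum_congr rfl fun l _ => ?_
      have e := hl.ne l
      field_simp
    rw [h2] at h1
    exact h1
  exact ⟨key _ _ fun l => hl.a i l, key _ _ fun l => hl.b i l⟩

/-- the entries of the matrix `N` -/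
theorem at_N (hl : Col.Lm v lam D C) (hl' : Col.Lm v lam' D' C') {p q : Fin m → K}
    {p₁ q₁ : Fin m → k} (hp : ∀ i, v.At (p i) (p₁ i)) (hq : ∀ i, v.At (q i) (q₁ i))
    (l l' : Fin m) : v.At (lam l * lam' l' * D.N D' p q l l') (C.N C' p₁ q₁ l l') := by
  have h1 : v.At (∑ i, (p i * (lam l * D.b i l * (lam' l' * D'.b i l')) -
      q i * (lam l * D.a i l * (lam' l' * D'.a i l'))))
      (∑ i, (p₁ i * (C.b i l * C'.b i l') - q₁ i * (C.a i l * C'.a i l'))) :=
    Place.At.sum fun i _ => ((hp i).mul ((hl.b i l).mul (hl'.b i l'))).sub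
      ((hq i).mul ((hl.a i l).mul (hl'.a i l')))
  have h2 : ∑ i, (p i * (lam l * D.b i l * (lam' l' * D'.b i l')) -
      q i * (lam l * D.a i l * (lam' l' * D'.a i l'))) =
      lam l * lam' l' * D.N D' p q l l' := by
    unfold Col.N
    rw [Matrix.of_apply, Finset.mul_sum]
    refine Finset.sum_congr rfl fun i _ => ?_
    ring
  rw [h2] at h1
  exact h1

/-- null vectors (`at_N`: `r * lam' l' * (b ᵥ* N) l'` has the value `(b₁ ᵥ* N₁) l'`) -/
theorem null_lim (hl : Col.Lm v lam D C) (hl' : Col.Lm v lam' D' C') {p q : Fin m → K}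
    {p₁ q₁ : Fin m → k} (hp : ∀ i, v.At (p i) (p₁ i)) (hq : ∀ i, v.At (q i) (q₁ i))
    {b : Fin m → K} {r : K} {b₁ : Fin m → k} (h : ∀ l, v.At (r * (b l / lam l)) (b₁ l))
    (h0 : b ᵥ* D.N D' p q = 0) : b₁ ᵥ* C.N C' p₁ q₁ = 0 := by
  funext l'
  have h1 : v.At (∑ l, r * (b l / lam l) * (lam l * lam' l' * D.N D' p q l l'))
      (∑ l, b₁ l * C.N C' p₁ q₁ l l') :=
    Place.At.sum fun l _ => (h l).mul (at_N hl hl' hp hq l l')
  have h2 : ∑ l, r * (b l / lam l) * (lam l * lam' l' * D.N D' p q l l') =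
      r * lam' l' * (b ᵥ* D.N D' p q) l' := by
    have h3 : (b ᵥ* D.N D' p q) l' = ∑ l, b l * D.N D' p q l l' := rfl
    rw [h3, Finset.mul_sum]
    refine Finset.sum_congr rfl fun l _ => ?_
    have e := hl.ne l
    field_simp
  rw [h2, h0, Pi.zero_apply, mul_zero] at h1
  exact h1.unique (GOY.at_zero v)

/-- the determinant (`at_N`; `Matrix.det_mul_row`, `Matrix.det_mul_column`, or a null vector, `exists_lim`, `null_lim`) -/
theorem det_lim [HasRes k K] (hl : Col.Lm v lam D C) (hl' : Col.Lm v lam' D' C') {p q : Fin m → K}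
    {p₁ q₁ : Fin m → k} (hp : ∀ i, v.At (p i) (p₁ i)) (hq : ∀ i, v.At (q i) (q₁ i))
    (h : (D.N D' p q).det = 0) : (C.N C' p₁ q₁).det = 0 := by
  have h1 : v.At (Matrix.of fun l l' => lam l * (lam' l' * D.N D' p q l l')).det
      (C.N C' p₁ q₁).det := by
    refine at_det_ColV fun l l' => ?_
    have h2 := at_N hl hl' hp hq l l'
    rw [mul_assoc] at h2
    exact h2
  rw [det_scale_ColV, h, mul_zero, mul_zero] at h1
  exact h1.unique (GOY.at_zero v)

/-- The adjugate matrix: if it is zero over `K` then it is zero at the values. (`lam l * lam' l' * N l l'` has the value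
`N₁ l l'`; the entries of the adjugate of the matrix `lam l * lam' l' * N l l'` are those of `N.adjugate` up to factors: the
matrix is `diagonal lam * N * diagonal lam'`, `Matrix.adjugate_mul_distrib`; the entries of an adjugate are determinants
(`Matrix.adjugate_apply`), so their values are the entries of the adjugate of the matrix of the values.) -/
theorem adj_lim [HasRes k K] (hl : Col.Lm v lam D C) (hl' : Col.Lm v lam' D' C') {p q : Fin m → K}
    {p₁ q₁ : Fin m → k} (hp : ∀ i, v.At (p i) (p₁ i)) (hq : ∀ i, v.At (q i) (q₁ i))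
    (h : (C.N C' p₁ q₁).adjugate ≠ 0) : (D.N D' p q).adjugate ≠ 0 := by
  intro h0
  apply h
  have h1 : (Matrix.of fun l l' => lam l * (lam' l' * D.N D' p q l l')) =
      Matrix.diagonal lam * D.N D' p q * Matrix.diagonal lam' := by
    ext l l'
    rw [Matrix.mul_diagonal, Matrix.diagonal_mul, Matrix.of_apply]
    ring
  have h2 : (Matrix.of fun l l' => lam l * (lam' l' * D.N D' p q l l')).adjugate = 0 := by
    rw [h1, Matrix.adjugate_mul_distrib, Matrix.adjugate_mul_distrib, h0, zero_mul, mul_zero]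
  have h3 : ∀ l l', v.At ((Matrix.of fun l l' => lam l * (lam' l' * D.N D' p q l l')) l l')
      (C.N C' p₁ q₁ l l') := by
    intro l l'
    have h4 := at_N hl hl' hp hq l l'
    rw [mul_assoc] at h4
    exact h4
  ext i j
  have h5 : v.At ((Matrix.of fun l l' => lam l * (lam' l' * D.N D' p q l l')).adjugate i j)
      ((C.N C' p₁ q₁).adjugate i j) := by
    rw [Matrix.adjugate_apply, Matrix.adjugate_apply]
    refine at_det_ColV fun l l' => ?_
    rw [Matrix.updateRow_apply, Matrix.updateRow_apply]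
    split_ifs with hl1
    · rw [Pi.single_apply, Pi.single_apply]
      split_ifs
      · exact GOY.at_one v
      · exact GOY.at_zero v
    · exact h3 l l'
  rw [h2] at h5
  exact h5.unique (GOY.at_zero v)

end Values

end Pool.Agent.DTU
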