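import Pool.Agent.DTU.VEf
import Pool.Agent.HYG.Cover

/-!
# `Ef` is a class function
-/

set_option autoImplicit false

noncomputable section

namespace Pool.Agent.DTU

open Matrix
open Pool.Agent.ZCyc Pool.Agent.Dess Pool.Agent.GT Pool.Agent.TInc
open Pool.Agent.VFP (Om tt)
open Pool.Agent.HGF (fst snd vlo)
open Pool.Agent.GOC (vo po)
open scoped Classical

variable {k : Type} [Field k] [IsAlgClosed k] [CharZero k] {r m : ℕ} {X : Fam k r m}
  {R W : Type} [Field R] [AddCommGroup W] [Module R W] {χ : Fin m → k → R}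
  {E : (Fin r → Option k) → (Fin m → Option k) → (Fin r → Option k) → (Fin m → Option k) → W}

/-- `Ef` IS A CLASS FUNCTION of `c`, `z`, `z'`.
PROOF. If `Ef` is zero at the values of `c`, `z`, `z'` for all places then there is nothing to show.
Let `v₀` be a place at which it is not zero. Then the values of the `c i` are `c₁ i ≠ 0` (`Ef_bad`) and the adjugate of the matrix at the values is not
zero (definition of `Ef`), so the adjugate of `N = X.Nm θ c z z'` is not zero (`adj_lim`, `exists_lam`). Let `b = nul N`, `b ≠ 0`, `b N = 0` (`nul_ne`, `nul_vecMul`). By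
`exists_lim`, `null_lim`, `Ef_eq` and `Eb_ne` at `v₀` the values `b₁ · α_i`, `b₁ · β_i` are not zero, so `b · α_i ≠ 0`, `b · β_i ≠ 0` in `K` for all `i` (`at_dot`). Take
`K'`, `φ`, `w` from `HYG.exists_roots` for `(b · α_i) / (b · β_i)`, so `w_i ≠ 0`. Apply `hE.cf` for `K'`, the points
`(φ z, w)`, `(φ z', φ c / w)` (they lie on `X`: `on_left`, `on_right`, with `φ ∘ b`; `col_map`, `Nm_map`) and `φ f`. By `vlo_Ef`
(with `w'_i = φ c_i / w_i`, `w_i w'_i = φ c_i`) the values are those of `Ef` at the values of `φ c`, `φ z`,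
`φ z'`, which are the values of `c`, `z`, `z'` at the place of `K` below (`HGF.vlo_alg`). With `GTC.cvr_div` the sum is `N` times
the sum for `K` and `f` (as in `GOY.Ef_cf`; `Module ℚ W` from `Module.compHom`). (`m = 0`: `Ef` is a constant; then either treat it directly - the
degree of a divisor of a function is zero - or use `hm`.) -/
theorem Ef_cf [CharZero R] (hm : 0 < m) (hM : ∀ i, 0 < X.M i) (hχ : HYG.Chars X.M χ)
    (hE : IsCls₂ X χ E) {θ : Fin m → k} (hθ : ∀ i, θ i ≠ 0) {K : Type} [Field K] [Algebra k K]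
    (hK : IsCurve k K) {z z' : Fin r → Option K} {c : Fin m → K} (hc : ∀ i, c i ≠ 0)
    (h : (X.Nm (fun i => algebraMap k K (θ i)) c z z').det = 0) {f : K} (hf : f ≠ 0) :
    ((TInc.dv hK f).sum fun v a => a • Ef X E θ (fun i => vlo v (some (c i)))
      (fun j => vlo v (z j)) fun j => vlo v (z' j)) = 0 := by
  have hres : HasRes k K := hasRes_of_isCurve hK
  by_cases hall : ∀ v : Place k K, Ef X E θ (fun i => vlo v (some (c i)))
      (fun j => vlo v (z j)) (fun j => vlo v (z' j)) = 0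
  · unfold Finsupp.sum
    refine Finset.sum_eq_zero fun v _ => ?_
    beta_reduce
    rw [hall v, smul_zero]
  push Not at hall
  obtain ⟨v₀, hv₀⟩ := hall
  obtain ⟨hcv, hadj⟩ : (∀ i, vlo v₀ (some (c i)) ≠ none ∧ vlo v₀ (some (c i)) ≠ some 0) ∧
      (X.Nm θ (fun i => fst (vlo v₀ (some (c i)))) (fun j => vlo v₀ (z j))
        fun j => vlo v₀ (z' j)).adjugate ≠ 0 := by
    by_contra hcon
    apply hv₀
    unfold Ef
    rw [if_neg hcon]
  have hcv' : ∀ i, ∃ ω : k, ω ≠ 0 ∧ v₀.At (c i) ω := by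
    intro i
    rcases GOY.val_cases v₀ (c i) with h1 | h1
    · exact h1
    · rcases h1 with h1 | h1
      · exact absurd h1 (hcv i).1
      · exact absurd h1 (hcv i).2
  choose c₁ hc₁0 hc₁ using hcv'
  have hcs : (fun i => vlo v₀ (some (c i))) = fun i => some (c₁ i) := by
    funext i
    exact HYG.vl_eq.2 (hc₁ i)
  rw [hcs] at hv₀
  have hfs : (fun i => fst (vlo v₀ (some (c i)))) = c₁ := by
    funext i
    rw [congrFun hcs i]
    rfl
  rw [hfs] at hadj
  obtain ⟨lam, hl⟩ := exists_lam X v₀ z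
  obtain ⟨lam', hl'⟩ := exists_lam X v₀ z'
  have hp : ∀ i, v₀.At (algebraMap k K (θ i) * c i ^ X.M i) (θ i * c₁ i ^ X.M i) := fun i =>
    (Place.at_const _).mul ((hc₁ i).pow _)
  have hq : ∀ i, v₀.At (algebraMap k K (θ i)) (θ i) := fun i => Place.at_const _
  have hNK : (X.Nm (fun i => algebraMap k K (θ i)) c z z').adjugate ≠ 0 :=
    adj_lim hl hl' hp hq hadj
  have hb := nul_ne hNK
  have hvm := nul_vecMul h
  obtain ⟨b, hbe⟩ : ∃ b, b = nul (X.Nm (fun i => algebraMap k K (θ i)) c z z') := ⟨_, rfl⟩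
  rw [← hbe] at hb hvm
  clear hbe
  obtain ⟨r', b₁, -, hb₁, hbv⟩ := exists_lim hl hb
  have hnull : b₁ ᵥ* X.Nm θ c₁ (fun j => vlo v₀ (z j)) (fun j => vlo v₀ (z' j)) = 0 :=
    null_lim hl hl' hp hq hbv hvm
  have hEb : Eb (X.col fun j => vlo v₀ (z j)) X.M
      (fun w w' => E (fun j => vlo v₀ (z j)) w (fun j => vlo v₀ (z' j)) w') c₁ b₁ ≠ 0 := by
    rw [← Ef_eq hM hχ hE hθ hc₁0 hb₁ hnull]
    exact hv₀
  have hαK : ∀ i, b ⬝ᵥ (X.col z).a i ≠ 0 := by
    intro i h0
    apply (Eb_ne hEb i).1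
    have h1 := (at_dot hl hbv i).1
    rw [h0, mul_zero] at h1
    exact h1.unique (Place.at_zero_iff.2 v₀.vanishes_zero)
  have hβK : ∀ i, b ⬝ᵥ (X.col z).b i ≠ 0 := by
    intro i h0
    apply (Eb_ne hEb i).2
    have h1 := (at_dot hl hbv i).2
    rw [h0, mul_zero] at h1
    exact h1.unique (Place.at_zero_iff.2 v₀.vanishes_zero)
  obtain ⟨K', iK', iA', hK', φ, w, hw⟩ := HYG.exists_roots hK hM
    fun i => (b ⬝ᵥ (X.col z).a i) / (b ⬝ᵥ (X.col z).b i)
  have hres' : HasRes k K' := hasRes_of_isCurve hK'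
  have hφ : Function.Injective φ := (φ : K →+* K').injective
  have hφ0 : ∀ x : K, x ≠ 0 → φ x ≠ 0 := fun x hx h => hx (hφ (by rw [h, map_zero]))
  have hwne : ∀ i, w i ≠ 0 := by
    intro i h0
    apply hφ0 _ (div_ne_zero (hαK i) (hβK i))
    rw [← hw i, h0, zero_pow (hM i).ne']
  have hb' : (fun l => φ (b l)) ≠ 0 := by
    intro h0
    apply hb
    funext l
    apply hφ
    rw [Pi.zero_apply, map_zero]
    exact congrFun h0 l
  have hpa : ∀ i, (fun l => φ (b l)) ⬝ᵥ (X.col fun j => (z j).map φ).a i =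
      φ (b ⬝ᵥ (X.col z).a i) := by
    intro i
    unfold dotProduct
    rw [map_sum]
    refine Finset.sum_congr rfl fun l _ => ?_
    rw [(col_map X φ z i l).1, map_mul]
  have hpb : ∀ i, (fun l => φ (b l)) ⬝ᵥ (X.col fun j => (z j).map φ).b i =
      φ (b ⬝ᵥ (X.col z).b i) := by
    intro i
    unfold dotProduct
    rw [map_sum]
    refine Finset.sum_congr rfl fun l _ => ?_
    rw [(col_map X φ z i l).2, map_mul]
  have hrel : ∀ i, w i ^ X.M i * ((fun l => φ (b l)) ⬝ᵥ (X.col fun j => (z j).map φ).b i) =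
      (fun l => φ (b l)) ⬝ᵥ (X.col fun j => (z j).map φ).a i := by
    intro i
    rw [hpa, hpb, hw i, ← map_mul, div_mul_cancel₀ _ (hβK i)]
  have hww : ∀ i, w i * (φ (c i) / w i) = φ (c i) := fun i => mul_div_cancel₀ _ (hwne i)
  have hwf : (fun i => w i * (φ (c i) / w i)) = fun i => φ (c i) := funext hww
  have h1ne : (fun l => φ (b l)) ⬝ᵥ (X.col fun j => (z j).map φ).a ⟨0, hm⟩ ≠ 0 := by
    rw [hpa]
    exact hφ0 _ (hαK _)
  have hN' : (fun l => φ (b l)) ᵥ* X.Nm (fun i => algebraMap k K' (θ i))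
      (fun i => w i * (φ (c i) / w i)) (fun j => (z j).map φ) (fun j => (z' j).map φ) = 0 := by
    rw [hwf]
    have hth : (fun i => algebraMap k K' (θ i)) = fun i => φ (algebraMap k K (θ i)) := by
      funext i
      rw [AlgHom.commutes]
    rw [hth]
    funext l'
    have h2 := congrArg φ (congrFun hvm l')
    rw [Pi.zero_apply, map_zero] at h2
    rw [Pi.zero_apply, ← h2]
    unfold vecMul dotProduct
    rw [map_sum]
    refine Finset.sum_congr rfl fun l _ => ?_
    beta_reduce
    rw [Nm_map, map_mul]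
  have on1 : On X (fun j => (z j).map φ) (fun i => some (w i)) := on_left hb' hrel
  have hθ0 : (algebraMap k K' (θ ⟨0, hm⟩)) *
      ((fun l => φ (b l)) ⬝ᵥ (X.col fun j => (z j).map φ).a ⟨0, hm⟩) ≠ 0 :=
    mul_ne_zero ((map_ne_zero_iff _ (algebraMap k K').injective).2 (hθ _)) h1ne
  have on2 : On X (fun j => (z' j).map φ) (fun i => some (φ (c i) / w i)) :=
    on_right (q := fun i => algebraMap k K' (θ i)) hrel hN' hθ0
  have h3 := hE.cf K' hK' (fun j => (z j).map φ) (fun i => some (w i))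
    (fun j => (z' j).map φ) (fun i => some (φ (c i) / w i)) (φ f) (hφ0 f hf) on1 on2
  have hval : ∀ v : Place k K', E (fun j => vlo v ((z j).map φ)) (fun i => vlo v (some (w i)))
      (fun j => vlo v ((z' j).map φ)) (fun i => vlo v (some (φ (c i) / w i))) =
      Ef X E θ (fun i => vlo v (some (φ (c i)))) (fun j => vlo v ((z j).map φ))
        fun j => vlo v ((z' j).map φ) := by
    intro v
    rw [vlo_Ef hM hχ hE hθ hwne hb' hrel h1ne hN' v]
    simp only [hww]
  simp only [hval] at h3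
  obtain ⟨N, hN, hdiv⟩ := GTC.cvr_div hK hK' φ
  let _ : Module ℚ W := Module.compHom W (algebraMap ℚ R)
  have h4 := hdiv f hf
    (fun v => Ef X E θ (fun i => vlo v (some (c i))) (fun j => vlo v (z j))
      fun j => vlo v (z' j))
    (fun v => Ef X E θ (fun i => vlo v (some (φ (c i)))) (fun j => vlo v ((z j).map φ))
      fun j => vlo v ((z' j).map φ))
    (fun w' v hv => by
      have g0 : (fun i => vlo w' (some (φ (c i)))) = fun i => vlo v (some (c i)) := by
        funext i
        exact HGF.vlo_alg hv (some (c i))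
      have g1 : (fun j => vlo w' ((z j).map φ)) = fun j => vlo v (z j) := by
        funext j
        exact HGF.vlo_alg hv _
      have g2 : (fun j => vlo w' ((z' j).map φ)) = fun j => vlo v (z' j) := by
        funext j
        exact HGF.vlo_alg hv _
      rw [g0, g1, g2])
  simp only [Int.cast_smul_eq_zsmul] at h4
  rw [h3] at h4
  have hN'' : (N : ℚ) ≠ 0 := by exact_mod_cast hN.ne'
  have h5 := congrArg (fun x => (N : ℚ)⁻¹ • x) h4
  simp only [smul_zero, inv_smul_smul₀ hN''] at h5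
  exact h5.symm

end Pool.Agent.DTU
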