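import Pool.Agent.DTU.EfCF
import Pool.Agent.DTU.LinB
import Pool.Agent.GOY.Pla

/-!
# Paths for `Ef`
-/

set_option autoImplicit false

noncomputable section

namespace Pool.Agent.DTU

open Matrix
open Pool.Agent.ZCyc Pool.Agent.Dess Pool.Agent.GT Pool.Agent.TInc
open Pool.Agent.VFP (Om tt)
open Pool.Agent.HGF (fst snd vlo)
open Pool.Agent.GOC (vo po)
open scoped Classical

variable {k : Type} [Field k] [IsAlgClosed k] [CharZero k] {r m : ℕ} {X : Fam k r m}
  {R W : Type} [Field R] [AddCommGroup W] [Module R W] {χ : Fin m → k → R}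
  {E : (Fin r → Option k) → (Fin m → Option k) → (Fin r → Option k) → (Fin m → Option k) → W}

omit [IsAlgClosed k] [CharZero k] in
private theorem below_EfMov {n : ℕ} {K : IntermediateField k (Om k)}
    {w : Fin n → Option (Om k)} {w' : Fin n → Option K} (hw : ∀ i, (w' i).map K.val = w i)
    {V : Place k (Om k)} {c : Place k K}
    (hV : V.ring.comap (K.val : K →+* Om k) = c.ring) :
    (fun i => vlo V (w i)) = fun i => vlo c (w' i) := by
  funext i
  rw [← hw, HGF.vlo_alg hV]

/-- comparison of two values of the parameter (`Ef_cf` for the field of definition, `ARS.bridge_core`, as in `GOY.bridge₂`) -/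
theorem Ef_bridge [CharZero R] (hm : 0 < m) (hM : ∀ i, 0 < X.M i) (hχ : HYG.Chars X.M χ)
    (hE : IsCls₂ X χ E) {θ : Fin m → k} (hθ : ∀ i, θ i ≠ 0) {z z' : Fin r → Option (Om k)}
    {c : Fin m → Om k} (hc : ∀ i, c i ≠ 0)
    (h : (X.Nm (fun i => algebraMap k (Om k) (θ i)) c z z').det = 0) {c₀ c₁ : k} {C₀ C₁ : W}
    (h₀ : ∀ v : Place k (Om k), v.At (tt k) c₀ →
      Ef X E θ (fun i => vlo v (some (c i))) (fun i => vlo v (z i)) (fun i => vlo v (z' i)) = C₀)
    (h₁ : ∀ v : Place k (Om k), v.At (tt k) c₁ →
      Ef X E θ (fun i => vlo v (some (c i))) (fun i => vlo v (z i)) (fun i => vlo v (z' i)) = C₁) :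
    C₀ = C₁ := by
  let Γ' : Finset (Om k) := (Finset.univ.biUnion fun i : Fin r =>
    (z i).toFinset ∪ (z' i).toFinset) ∪ Finset.univ.image c
  obtain ⟨K, hK, hΓ, htt⟩ := ARS.exists_fld Γ'
  have h1 : ∀ i, ∃ x' : Option K, x'.map K.val = z i := fun i =>
    ARS.lift_opt _ fun f hf => hΓ (by
      simp only [Γ', Finset.coe_union, Set.mem_union, Finset.mem_coe, Finset.mem_biUnion,
        Finset.mem_univ, true_and, Finset.mem_union, Option.mem_toFinset]
      exact Or.inl ⟨i, Or.inl hf⟩)
  have h2 : ∀ i, ∃ x' : Option K, x'.map K.val = z' i := fun i =>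
    ARS.lift_opt _ fun f hf => hΓ (by
      simp only [Γ', Finset.coe_union, Set.mem_union, Finset.mem_coe, Finset.mem_biUnion,
        Finset.mem_univ, true_and, Finset.mem_union, Option.mem_toFinset]
      exact Or.inl ⟨i, Or.inr hf⟩)
  have h3 : ∀ i, c i ∈ K := fun i => hΓ (by
    simp only [Γ', Finset.coe_union, Set.mem_union, Finset.mem_coe]
    exact Or.inr (Finset.mem_image_of_mem c (Finset.mem_univ i)))
  choose a ha using h1
  choose a' ha' using h2
  let d : Fin m → K := fun i => ⟨c i, h3 i⟩
  have hd : ∀ i, ((fun i => some (d i)) i : Option K).map K.val = (fun i => some (c i)) i :=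
    fun i => rfl
  have hd0 : ∀ i, d i ≠ 0 := fun i h0 => hc i (congrArg Subtype.val h0)
  have hdet : (X.Nm (fun i => algebraMap k K (θ i)) d a a').det = 0 := by
    have e1 : (K.val : K →+* Om k).mapMatrix
        (X.Nm (fun i => algebraMap k K (θ i)) d a a') =
          X.Nm (fun i => algebraMap k (Om k) (θ i)) c z z' := by
      ext l l'
      have e2 := Nm_map X K.val (fun i => algebraMap k K (θ i)) d a a' l l'
      have e3 : (fun i => (a i).map K.val) = z := funext ha
      have e4 : (fun i => (a' i).map K.val) = z' := funext ha'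
      rw [e3, e4] at e2
      exact e2.symm
    apply (K.val : K →+* Om k).injective
    rw [RingHom.map_det, e1, h, map_zero]
  have hW : ∀ (n : ℕ) (x : W), n ≠ 0 → n • x = 0 → x = 0 := by
    intro n x hn hx
    rw [← Nat.cast_smul_eq_nsmul R] at hx
    exact (smul_eq_zero.1 hx).resolve_left (Nat.cast_ne_zero.2 hn)
  refine ARS.bridge_core hW hK htt
    (fun v => Ef X E θ (fun i => vlo v (some (c i))) (fun i => vlo v (z i))
      (fun i => vlo v (z' i)))
    (fun v => Ef X E θ (fun i => vlo v (some (d i))) (fun i => vlo v (a i))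
      (fun i => vlo v (a' i))) (fun V v hV => ?_)
    (fun f hf => Ef_cf hm hM hχ hE hθ hK hd0 hdet hf) h₀ h₁
  rw [below_EfMov ha hV, below_EfMov ha' hV, below_EfMov hd hV]

/-- the determinant is zero for all elements of `Om k` -/
private theorem det_EfMov {θ : Fin m → k} {z z' : Fin r → Option k} {c : Fin m → k} {j : Fin m}
    (h : ∀ x : k, (X.Nm θ (Function.update c j x) z z').det = 0) (y : Om k) :
    (X.Nm (fun i => algebraMap k (Om k) (θ i))
      (Function.update (fun i => algebraMap k (Om k) (c i)) j y)
      (fun l => (z l).map (algebraMap k (Om k)))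
      (fun l => (z' l).map (algebraMap k (Om k)))).det = 0 := by
  let Q : Matrix (Fin m) (Fin m) (Polynomial k) := Matrix.of fun l l' =>
    ∑ i, (Polynomial.C (θ i) * (Function.update (fun i => Polynomial.C (c i)) j Polynomial.X i) ^
      X.M i * (Polynomial.C ((X.col z).b i l) * Polynomial.C ((X.col z').b i l')) -
      Polynomial.C (θ i) * (Polynomial.C ((X.col z).a i l) * Polynomial.C ((X.col z').a i l')))
  have hQ : Q.det = 0 := by
    apply Polynomial.funext
    intro x
    rw [Polynomial.eval_zero, ← h x, ← Polynomial.coe_evalRingHom, RingHom.map_det]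
    congr 1
    ext l l'
    have e1 : ∀ i, Polynomial.eval x
        (Function.update (fun i => Polynomial.C (c i)) j Polynomial.X i) =
          Function.update c j x i := by
      intro i
      by_cases hi : i = j
      · subst hi
        rw [Function.update_self, Function.update_self, Polynomial.eval_X]
      · rw [Function.update_of_ne hi, Function.update_of_ne hi, Polynomial.eval_C]
    simp only [Q, RingHom.mapMatrix_apply, Matrix.map_apply, Matrix.of_apply,
      Polynomial.coe_evalRingHom, Polynomial.eval_finset_sum, Polynomial.eval_sub,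
      Polynomial.eval_mul, Polynomial.eval_pow, Polynomial.eval_C, e1]
    rfl
  have h2 := congrArg (Polynomial.aeval y) hQ
  rw [map_zero, AlgHom.map_det] at h2
  rw [← h2]
  congr 1
  ext l l'
  have e1 : ∀ i, Polynomial.aeval y
      (Function.update (fun i => Polynomial.C (c i)) j Polynomial.X i) =
        Function.update (fun i => algebraMap k (Om k) (c i)) j y i := by
    intro i
    by_cases hi : i = j
    · subst hi
      rw [Function.update_self, Function.update_self, Polynomial.aeval_X]
    · rw [Function.update_of_ne hi, Function.update_of_ne hi, Polynomial.aeval_C]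
  simp only [Q, AlgHom.mapMatrix_apply, Matrix.map_apply, Matrix.of_apply,
    map_sum, map_sub, map_mul, map_pow, Polynomial.aeval_C, e1]
  unfold Fam.Nm
  rw [col_cst, col_cst]
  rfl

/-- If the determinant is zero for all values of the coordinate `c_j` then `Ef` is zero.
PROOF. `Ef_bridge` for the constant points `z`, `z'` and `c` with `c_j` replaced by `(1 - tt) c_j + ...`: a path from `c_j` to `0`: `(1 - tt) * c_j ≠ 0`. At `tt = 0` the value is
`Ef` at `c`, at `tt = 1` the coordinate `j` has the value `0`, `Ef_bad`. The determinant over `Om k` is zero: it is a polynomial in the coordinate `j` (over `k`), which is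
zero for all values in `k` (`Matrix.det` of a matrix over `k[X]`, `Polynomial.funext`; `k` is infinite), or `det_rank_one`. -/
theorem Ef_mov [CharZero R] (hM : ∀ i, 0 < X.M i) (hχ : HYG.Chars X.M χ)
    (hE : IsCls₂ X χ E) {θ : Fin m → k} (hθ : ∀ i, θ i ≠ 0) {z z' : Fin r → Option k}
    {c : Fin m → k} (hc : ∀ i, c i ≠ 0) (j : Fin m)
    (h : ∀ x : k, (X.Nm θ (Function.update c j x) z z').det = 0) :
    Ef X E θ (fun i => some (c i)) z z' = 0 := by
  have hm : 0 < m := lt_of_le_of_lt (Nat.zero_le _) j.2
  have h1t : (1 : Om k) - tt k ≠ 0 := by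
    intro h0
    apply GOY.transc_tt (k := k)
    rw [← sub_eq_zero.1 h0]
    exact isAlgebraic_one
  have hz : ∀ (v : Place k (Om k)) (s : Fin r → Option k),
      (fun l => vlo v ((s l).map (algebraMap k (Om k)))) = s := fun v s =>
    funext fun l => HGF.vlo_const v _
  refine Ef_bridge (c₀ := 0) (c₁ := 1) hm hM hχ hE hθ
    (c := Function.update (fun i => algebraMap k (Om k) (c i)) j
      ((1 - tt k) * algebraMap k (Om k) (c j))) (fun i => ?_)
    (det_EfMov h ((1 - tt k) * algebraMap k (Om k) (c j))) (fun v hv => ?_) (fun v hv => ?_)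
  · by_cases hi : i = j
    · subst hi
      rw [Function.update_self]
      exact mul_ne_zero h1t ((map_ne_zero _).2 (hc i))
    · rw [Function.update_of_ne hi]
      exact (map_ne_zero _).2 (hc i)
  · have e1 : (fun i => vlo v (some (Function.update (fun i => algebraMap k (Om k) (c i)) j
        ((1 - tt k) * algebraMap k (Om k) (c j)) i))) = fun i => some (c i) := by
      funext i
      apply HGF.vlo_at
      by_cases hi : i = j
      · subst hi
        rw [Function.update_self]
        have h2 := ((GOY.at_one v).sub hv).mul (Place.at_const (v := v) (c i))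
        rw [sub_zero, one_mul] at h2
        exact h2
      · rw [Function.update_of_ne hi]
        exact Place.at_const (v := v) (c i)
    rw [e1, hz, hz]
  · apply Ef_bad (i := j)
    right
    apply HGF.vlo_at
    rw [Function.update_self]
    have h2 := ((GOY.at_one v).sub hv).mul (Place.at_const (v := v) (c j))
    rw [sub_self, zero_mul] at h2
    exact h2

end Pool.Agent.DTU
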