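import Pool.Agent.DTU.ColV

/-!
# The forms and the columns
-/

set_option autoImplicit false

noncomputable section

namespace Pool.Agent.DTU

open Matrix Polynomial
open Pool.Agent.ZCyc Pool.Agent.Dess Pool.Agent.GT Pool.Agent.TInc
open Pool.Agent.HGF (fst snd vlo)
open Pool.Agent.GOC (vo po)
open scoped Classical

variable {k : Type} [Field k] {r m : ℕ}

section Ring

variable {R : Type} [CommRing R] [Algebra k R]

/-- multiples of the vectors (`S 0 ^ a * S 1 ^ (e - a)` has degree `e` for `a ≤ e`; `Fintype.mem_piFinset`, `Finset.prod_mul_distrib`) -/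
theorem ev_smul (e : Fin r → ℕ) (c : (Fin r → ℕ) → k) (a : Fin r → R) (S : Fin r → Fin 2 → R) :
    ev e c (fun j i => a j * S j i) = (∏ j, a j ^ e j) * ev e c S := by
  unfold ev
  rw [Finset.mul_sum]
  refine Finset.sum_congr rfl fun b hb => ?_
  have h1 : ∀ j, a j ^ e j = a j ^ b j * a j ^ (e j - b j) := by
    intro j
    have h2 : b j < e j + 1 := Finset.mem_range.1 (Fintype.mem_piFinset.1 hb j)
    rw [← pow_add, Nat.add_sub_cancel' (Nat.lt_succ_iff.1 h2)]
  have h3 : ∏ j, ((a j * S j 0) ^ b j * (a j * S j 1) ^ (e j - b j)) =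
      (∏ j, a j ^ e j) * ∏ j, (S j 0 ^ b j * S j 1 ^ (e j - b j)) := by
    rw [← Finset.prod_mul_distrib]
    refine Finset.prod_congr rfl fun j _ => ?_
    rw [h1 j, mul_pow, mul_pow]
    ring
  rw [h3]
  ring

theorem ev_map (e : Fin r → ℕ) (c : (Fin r → ℕ) → k) {R' : Type} [CommRing R'] [Algebra k R']
    (φ : R →ₐ[k] R') (S : Fin r → Fin 2 → R) : ev e c (fun j i => φ (S j i)) = φ (ev e c S) := by
  unfold ev
  simp only [map_sum, map_mul, map_prod, map_pow, AlgHom.commutes]

end Ring

/-- the degree in one variable `j` (the others are constant) -/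
theorem natDegree_ev (e : Fin r → ℕ) (c : (Fin r → ℕ) → k) {S : Fin r → Fin 2 → k[X]} {j : Fin r}
    (hj : ∀ i, (S j i).natDegree ≤ 1) (h : ∀ j', j' ≠ j → ∀ i, (S j' i).natDegree = 0) :
    (ev e c S).natDegree ≤ e j := by
  unfold ev
  refine natDegree_sum_le_of_forall_le _ _ fun b hb => ?_
  have h0 : b j < e j + 1 := Finset.mem_range.1 (Fintype.mem_piFinset.1 hb j)
  have h1 : (S j 0 ^ b j * S j 1 ^ (e j - b j)).natDegree ≤ e j := by
    have h2 : (S j 0 ^ b j * S j 1 ^ (e j - b j)).natDegree ≤ b j * 1 + (e j - b j) * 1 :=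
      natDegree_mul_le_of_le (natDegree_pow_le_of_le (b j) (hj 0))
        (natDegree_pow_le_of_le (e j - b j) (hj 1))
    rw [mul_one, mul_one, Nat.add_sub_cancel' (Nat.lt_succ_iff.1 h0)] at h2
    exact h2
  have h3 : ∀ j', j' ≠ j → (S j' 0 ^ b j' * S j' 1 ^ (e j' - b j')).natDegree ≤ 0 := by
    intro j' hj'
    have h4 : (S j' 0 ^ b j' * S j' 1 ^ (e j' - b j')).natDegree ≤
        b j' * 0 + (e j' - b j') * 0 :=
      natDegree_mul_le_of_le (natDegree_pow_le_of_le (b j') (h j' hj' 0).le)
        (natDegree_pow_le_of_le (e j' - b j') (h j' hj' 1).le)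
    simpa using h4
  have h5 : (∏ j', (S j' 0 ^ b j' * S j' 1 ^ (e j' - b j'))).natDegree ≤ e j := by
    refine (natDegree_prod_le _ _).trans ?_
    calc ∑ j', (S j' 0 ^ b j' * S j' 1 ^ (e j' - b j')).natDegree
        ≤ ∑ j', (if j' = j then e j else 0) := by
          refine Finset.sum_le_sum fun j' _ => ?_
          by_cases h6 : j' = j
          · subst h6
            rw [if_pos rfl]
            exact h1
          · rw [if_neg h6]
            exact h3 j' h6
      _ = e j := by simp
  have h7 : algebraMap k k[X] (c b) = C (c b) := rfl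
  rw [h7]
  exact (natDegree_C_mul_le _ _).trans h5

variable {K : Type} [Field K] [Algebra k K]

/-- values at a place (`Place.At.sum`, `Place.At.prod`, `.mul`, `.pow`, `Place.at_const`) -/
theorem at_ev {v : Place k K} (e : Fin r → ℕ) (c : (Fin r → ℕ) → k) {S : Fin r → Fin 2 → K}
    {s : Fin r → Fin 2 → k} (hS : ∀ j i, v.At (S j i) (s j i)) : v.At (ev e c S) (ev e c s) := by
  unfold ev
  refine Place.At.sum fun b _ => ?_
  have h0 : v.At (algebraMap k K (c b)) (algebraMap k k (c b)) := Place.at_const (v := v) (c b)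
  exact h0.mul (Place.At.prod fun j _ => ((hS j 0).pow (b j)).mul ((hS j 1).pow (e j - b j)))

variable (X : Fam k r m)

/-- The values of the columns at a point: `HGF.exists_mul` gives `t j ≠ 0` with `v.At (t j * vo (z j) i) (vo (vlo v (z j)) i)` for all
`i` (`vo x = ![fst x, snd x]`). Take `lam l = ∏ j, t j ^ X.e l j` (`ev_smul`, `at_ev`). -/
theorem exists_lam [HasRes k K] (v : Place k K) (z : Fin r → Option K) :
    ∃ lam : Fin m → K, Col.Lm v lam (X.col z) (X.col fun j => vlo v (z j)) := by
  choose t ht h1 h2 using fun j => HGF.exists_mul v (z j)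
  have hS : ∀ j i, v.At (t j * vo (z j) i) (vo (vlo v (z j)) i) := by
    intro j i
    fin_cases i
    · exact h1 j
    · exact h2 j
  refine ⟨fun l => ∏ j, t j ^ X.e l j,
    ⟨fun l => Finset.prod_ne_zero_iff.2 fun j _ => pow_ne_zero _ (ht j), fun i l => ?_,
      fun i l => ?_⟩⟩
  · have h5 := at_ev (X.e l) (X.A l i) hS
    rw [ev_smul] at h5
    exact h5
  · have h5 := at_ev (X.e l) (X.B l i) hS
    rw [ev_smul] at h5
    exact h5

private theorem vo_map_EvL {K' : Type} [Field K'] [Algebra k K'] (φ : K →ₐ[k] K')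
    (x : Option K) : vo (x.map φ) = fun i => φ (vo x i) := by
  funext i
  fin_cases i
  · exact HGF.fst_map φ x
  · exact HGF.snd_map φ x

/-- the columns over another field (`vo (x.map φ) = φ ∘ vo x`, `GOY.vo_map` in `Pool/Agent/GOY/EvL.lean`; `ev_map`) -/
theorem col_map {K' : Type} [Field K'] [Algebra k K'] (φ : K →ₐ[k] K') (z : Fin r → Option K)
    (i l : Fin m) : (X.col fun j => (z j).map φ).a i l = φ ((X.col z).a i l) ∧
      (X.col fun j => (z j).map φ).b i l = φ ((X.col z).b i l) := by
  have h1 : (fun j => vo ((z j).map φ)) = fun j i => φ (vo (z j) i) :=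
    funext fun j => vo_map_EvL φ (z j)
  constructor
  · show ev (X.e l) (X.A l i) (fun j => vo ((z j).map φ)) =
      φ (ev (X.e l) (X.A l i) fun j => vo (z j))
    rw [h1, ev_map]
  · show ev (X.e l) (X.B l i) (fun j => vo ((z j).map φ)) =
      φ (ev (X.e l) (X.B l i) fun j => vo (z j))
    rw [h1, ev_map]

/-- constant points -/
theorem col_cst (z : Fin r → Option k) :
    (X.col fun j => (z j).map (algebraMap k K)) = (X.col z).map K := by
  have h1 := fun i l => col_map X (Algebra.ofId k K) z i l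
  show (⟨(X.col fun j => (z j).map (algebraMap k K)).a,
    (X.col fun j => (z j).map (algebraMap k K)).b⟩ : Col K m) =
    ⟨fun i l => algebraMap k K ((X.col z).a i l), fun i l => algebraMap k K ((X.col z).b i l)⟩
  congr 1
  · funext i l
    exact (h1 i l).1
  · funext i l
    exact (h1 i l).2

/-- the matrix `N` over another field (`N_map`, `col_map`) -/
theorem Nm_map {K' : Type} [Field K'] [Algebra k K'] (φ : K →ₐ[k] K') (θ c : Fin m → K)
    (z z' : Fin r → Option K) (l l' : Fin m) :
    X.Nm (fun i => φ (θ i)) (fun i => φ (c i)) (fun j => (z j).map φ) (fun j => (z' j).map φ) l l' =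
      φ (X.Nm θ c z z' l l') := by
  have h1 := N_map φ (fun i l => (col_map X φ z i l).1) (fun i l => (col_map X φ z i l).2)
    (fun i l => (col_map X φ z' i l).1) (fun i l => (col_map X φ z' i l).2)
    (fun i => θ i * c i ^ X.M i) θ l l'
  have h2 : (fun i => φ (θ i * c i ^ X.M i)) = fun i => φ (θ i) * φ (c i) ^ X.M i := by
    funext i
    rw [map_mul, map_pow]
  rw [h2] at h1
  exact h1

/-- (`N_tr`) -/
theorem Nm_tr (θ c : Fin m → K) (z z' : Fin r → Option K) : X.Nm θ c z' z = (X.Nm θ c z z')ᵀ :=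
  N_tr (X.col z) (X.col z') (fun i => θ i * c i ^ X.M i) θ

end Pool.Agent.DTU
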