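import Pool.Agent.DTU.FOne

/-!
# The function `Eb`
-/

set_option autoImplicit false

noncomputable section

namespace Pool.Agent.DTU

open Matrix
open Pool.Agent.ZCyc Pool.Agent.Dess Pool.Agent.GT Pool.Agent.TInc
open Pool.Agent.HGF (fst snd vlo)
open scoped Classical

variable {k : Type} [Field k] [IsAlgClosed k] [CharZero k] {m : ℕ} {C C' : Col k m}
  {M : Fin m → ℕ} {R W : Type} [Field R] [AddCommGroup W] [Module R W] {χ : Fin m → k → R}
  {E : (Fin m → Option k) → (Fin m → Option k) → W}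

omit [CharZero k] in
private theorem rt_FEb {M : ℕ} (hM : 0 < M) (a : k) : HYG.rt M a ^ M = a := by
  have h : ∃ r : k, r ^ M = a := IsAlgClosed.exists_pow_nat_eq a hM
  unfold HYG.rt
  rw [dif_pos h]
  exact h.choose_spec

omit [IsAlgClosed k] [CharZero k] in
private theorem chi_FEb (hχ : HYG.Chars M χ) (i : Fin m) (hM : 0 < M i) {u : k}
    (hu : u ^ M i = 1) : χ i u * χ i u⁻¹ = 1 := by
  have hu0 : u ≠ 0 := by
    rintro rfl
    rw [zero_pow hM.ne'] at hu
    exact zero_ne_one hu
  rw [← hχ.mul i u u⁻¹ hu (by rw [inv_pow, hu, inv_one]), mul_inv_cancel₀ hu0, hχ.one]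

/-- The value does not depend on the choice of the roots: if `w_i ≠ 0` and `u_i ^ M_i = w_i ^ M_i`
then `u_i = ζ_i w_i`, and the rotations of the coordinate `i` of the first point by `ζ_i` and of
the second point by `ζ_i⁻¹` multiply `E` by `χ i ζ_i * χ i ζ_i⁻¹ = χ i 1 = 1` (`hχ.mul`,
`hχ.one`; change the coordinates one after the other: induction over a finset `s` of indices, for
the points with `u_i` for `i ∈ s` and `w_i` otherwise; compare `GOY.same_root`,
`GOX/Ec.lean`). -/
theorem same_root (hM : ∀ i, 0 < M i) (hχ : HYG.Chars M χ) (hE : FCls C C' M χ E)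
    {c : Fin m → k} {w u : Fin m → k} (hw : ∀ i, w i ≠ 0) (hu : ∀ i, u i ^ M i = w i ^ M i) :
    E (fun i => some (u i)) (fun i => some (c i / u i)) =
      E (fun i => some (w i)) (fun i => some (c i / w i)) := by
  have hv0 : ∀ i, u i ≠ 0 := by
    intro i h
    have h1 := hu i
    rw [h, zero_pow (hM i).ne'] at h1
    exact pow_ne_zero _ (hw i) h1.symm
  have hr : ∀ i, (u i / w i) ^ M i = 1 := by
    intro i
    rw [div_pow, hu, div_self (pow_ne_zero _ (hw i))]
  have hr' : ∀ i, ((u i / w i)⁻¹) ^ M i = 1 := by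
    intro i
    rw [inv_pow, hr, inv_one]
  have key : ∀ s : Finset (Fin m),
      E (fun i => some (if i ∈ s then u i else w i))
        (fun i => some (c i / if i ∈ s then u i else w i)) =
      E (fun i => some (w i)) (fun i => some (c i / w i)) := by
    intro s
    induction s using Finset.induction_on with
    | empty => simp
    | insert j s hj ih =>
      have e1 : (fun i => some (if i ∈ insert j s then u i else w i)) =
          HYG.rot j (u j / w j) (fun i => some (if i ∈ s then u i else w i)) := by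
        funext i
        unfold HYG.rot
        by_cases hi : i = j
        · subst hi
          rw [Function.update_self, Option.map_some, if_pos (Finset.mem_insert_self i s),
            if_neg hj, div_mul_cancel₀ _ (hw i)]
        · rw [Function.update_of_ne hi]
          simp only [Finset.mem_insert, hi, false_or]
      have e2 : (fun i => some (c i / if i ∈ insert j s then u i else w i)) =
          HYG.rot j (u j / w j)⁻¹ (fun i => some (c i / if i ∈ s then u i else w i)) := by
        funext i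
        unfold HYG.rot
        by_cases hi : i = j
        · subst hi
          rw [Function.update_self, Option.map_some, if_pos (Finset.mem_insert_self i s),
            if_neg hj]
          congr 1
          have h1 := hv0 i
          have h2 := hw i
          field_simp
        · rw [Function.update_of_ne hi]
          simp only [Finset.mem_insert, hi, false_or]
      rw [e1, e2, hE.left _ _ _ _ (hr j), hE.right _ _ _ _ (hr' j), smul_smul,
        chi_FEb hχ j (hM j) (hr j), one_smul]
      exact ih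
  have h := key Finset.univ
  simpa using h

/-- the value for arbitrary coordinates `w_i ≠ 0` with `w_i ^ M_i (b · β_i) = b · α_i`,
`b · β_i ≠ 0` (`same_root`; `HYG.rt M a ^ M = a` as in `GOY/EbL.lean`) -/
theorem Eb_eq (hM : ∀ i, 0 < M i) (hχ : HYG.Chars M χ) (hE : FCls C C' M χ E)
    {c b : Fin m → k} {w : Fin m → k} (hw : ∀ i, w i ≠ 0)
    (h : ∀ i, w i ^ M i * (b ⬝ᵥ C.b i) = b ⬝ᵥ C.a i) (hb : ∀ i, b ⬝ᵥ C.b i ≠ 0) :
    Eb C M E c b = E (fun i => some (w i)) (fun i => some (c i / w i)) := by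
  have ha : ∀ i, b ⬝ᵥ C.a i ≠ 0 := fun i => by
    rw [← h i]
    exact mul_ne_zero (pow_ne_zero _ (hw i)) (hb i)
  unfold Eb
  rw [if_pos fun i => ⟨ha i, hb i⟩]
  refine same_root hM hχ hE hw fun i => ?_
  unfold Col.wb
  rw [rt_FEb (hM i), div_eq_iff (hb i), h i]

omit [IsAlgClosed k] [CharZero k] in
/-- (`if_neg`) -/
theorem Eb_zero {c b : Fin m → k} {i : Fin m} (h : b ⬝ᵥ C.a i = 0 ∨ b ⬝ᵥ C.b i = 0) :
    Eb C M E c b = 0 := by
  unfold Eb
  refine if_neg fun h' => ?_
  rcases h with h | h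
  · exact (h' i).1 h
  · exact (h' i).2 h

omit [IsAlgClosed k] [CharZero k] in
/-- multiples of `b` (the quotients are the same) -/
theorem Eb_smul {c b : Fin m → k} {r : k} (hr : r ≠ 0) : Eb C M E c (r • b) = Eb C M E c b := by
  have hwb : ∀ i, C.wb M (r • b) i = C.wb M b i := fun i => by
    unfold Col.wb
    rw [smul_dotProduct, smul_dotProduct, smul_eq_mul, smul_eq_mul, mul_div_mul_left _ _ hr]
  unfold Eb
  simp only [hwb, smul_dotProduct, smul_eq_mul, mul_ne_zero_iff, ne_eq, hr, not_false_eq_true,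
    true_and]

omit [IsAlgClosed k] [CharZero k] in
/-- (`Eb_zero`) -/
theorem Eb_ne {c b : Fin m → k} (h : Eb C M E c b ≠ 0) (i : Fin m) :
    b ⬝ᵥ C.a i ≠ 0 ∧ b ⬝ᵥ C.b i ≠ 0 :=
  ⟨fun h0 => h (Eb_zero (i := i) (Or.inl h0)), fun h0 => h (Eb_zero (i := i) (Or.inr h0))⟩

omit [CharZero k] in
/-- (`IsAlgClosed.exists_pow_nat_eq` for `b · α_i / b · β_i`) -/
theorem exists_w (hM : ∀ i, 0 < M i) {b : Fin m → k}
    (h : ∀ i, b ⬝ᵥ C.a i ≠ 0 ∧ b ⬝ᵥ C.b i ≠ 0) :
    ∃ w : Fin m → k, (∀ i, w i ≠ 0) ∧ ∀ i, w i ^ M i * (b ⬝ᵥ C.b i) = b ⬝ᵥ C.a i := by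
  have h1 : ∀ i, ∃ z : k, z ^ M i = b ⬝ᵥ C.a i / b ⬝ᵥ C.b i := fun i =>
    IsAlgClosed.exists_pow_nat_eq _ (hM i)
  choose w hw using h1
  refine ⟨w, fun i h0 => ?_, fun i => ?_⟩
  · have h2 := hw i
    rw [h0, zero_pow (hM i).ne'] at h2
    exact div_ne_zero (h i).1 (h i).2 h2.symm
  · rw [hw i, div_mul_cancel₀ _ (h i).2]

end Pool.Agent.DTU
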