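import Pool.Agent.DTU.FVEb
import Pool.Agent.HYG.ATwo

/-!
# Lines of vectors `b`
-/

set_option autoImplicit false
set_option linter.unusedSectionVars false

noncomputable section

namespace Pool.Agent.DTU

open Matrix
open Pool.Agent.ZCyc Pool.Agent.Dess Pool.Agent.GT Pool.Agent.TInc
open Pool.Agent.VFP (Om tt)
open Pool.Agent.HGF (fst snd vlo)
open scoped Classical

variable {k : Type} [Field k] [IsAlgClosed k] [CharZero k] {m : ℕ} {C C' : Col k m}
  {M : Fin m → ℕ} {R W : Type} [Field R] [AddCommGroup W] [Module R W] {χ : Fin m → k → R}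
  {E : (Fin m → Option k) → (Fin m → Option k) → W}

/-- the vector of the path -/
private def bt_FLine (b b' : Fin m → k) : Fin m → Om k := fun l =>
  (1 - tt k) * algebraMap k (Om k) (b l) + tt k * algebraMap k (Om k) (b' l)

private theorem at_FLine (b b' : Fin m → k) {v : Place k (Om k)} {t₀ : k}
    (hv : v.At (tt k) t₀) (l : Fin m) :
    v.At (bt_FLine b b' l) ((1 - t₀) * b l + t₀ * b' l) :=
  (((Pool.Agent.GOY.at_one v).sub hv).mul (Place.at_const (v := v) (b l))).add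
    (hv.mul (Place.at_const (v := v) (b' l)))

private theorem at0_FLine (b b' : Fin m → k) {v : Place k (Om k)} (hv : v.At (tt k) 0)
    (l : Fin m) : v.At (bt_FLine b b' l) (b l) := by
  have h1 := at_FLine b b' hv l
  rwa [sub_zero, one_mul, zero_mul, add_zero] at h1

private theorem at1_FLine (b b' : Fin m → k) {v : Place k (Om k)} (hv : v.At (tt k) 1)
    (l : Fin m) : v.At (bt_FLine b b' l) (b' l) := by
  have h1 := at_FLine b b' hv l
  rwa [sub_self, zero_mul, one_mul, zero_add] at h1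

private theorem dot_FLine (C : Col k m) {v : Place k (Om k)} {B : Fin m → Om k} {b : Fin m → k}
    (h : ∀ l, v.At (B l) (b l)) (i : Fin m) :
    v.At (B ⬝ᵥ (C.map (Om k)).a i) (b ⬝ᵥ C.a i) ∧
      v.At (B ⬝ᵥ (C.map (Om k)).b i) (b ⬝ᵥ C.b i) := by
  have h1 : ∀ l, v.At ((1 : Om k) * (B l / (fun _ : Fin m => (1 : Om k)) l)) (b l) := by
    intro l
    simpa using h l
  have h2 := at_dot (lm_cst C v) h1 i
  rwa [one_mul, one_mul] at h2

/-- Let `b₀`, `b₁` be linearly independent. If for all vectors `b(t) ∈ Om k b₀ + Om k b₁` the point `c / ω` lies on the second fibre for the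
coordinates `ω_i` with `ω_i ^ M_i (b(t) · β_i) = b(t) · α_i` then `Eb` is zero for `b₀`.
PROOF. Let `Eb C M E c b₀ ≠ 0`, so `b₀ · α_i`, `b₀ · β_i ≠ 0` for all `i` (`Eb_ne`). Let `i` be the index in the statement,
`b' = (b₁ · α_i) b₀ - (b₀ · α_i) b₁`, so `b' · α_i = 0` and `b' ≠ 0` (`hi`, `b₀ · α_i ≠ 0`). Path: `t = tt k`, `b(t) = (1 - t) b₀ + t b' = x b₀ + y b₁`. At the places
above `t = 0` `b(t)` has the value `b₀`, so the elements `b(t) · α_j`, `b(t) · β_j` are not zero (`HYG.exists_place_tt 0`). Choose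
`ω_j ≠ 0` in `Om k` with `ω_j ^ M_j = (b(t) · α_j) / (b(t) · β_j)`. By `on_left` and `h` the points `ω` and `c / ω` lie on the fibres; `FCls.bridge` for `0`, `1`:
at `t = 0` the value is `Eb b₀` and at `t = 1` it is `Eb b'` by `vlo_Eb_cst` (the products `ω_j (c_j / ω_j) = c_j` are constant; `Place.at_const`; `b' ≠ 0`). `Eb b' = 0` by
`Eb_zero`. -/
theorem line_zero [CharZero R] (hM : ∀ i, 0 < M i) (hχ : HYG.Chars M χ) (hE : FCls C C' M χ E)
    {c : Fin m → k} (hc : ∀ i, c i ≠ 0) {b₀ b₁ : Fin m → k} (i : Fin m)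
    (hi : ∀ x y : k, x • b₀ + y • b₁ = 0 → x = 0 ∧ y = 0)
    (h : ∀ (x y : Om k) (b : Fin m → Om k),
      (∀ l, b l = x * algebraMap k (Om k) (b₀ l) + y * algebraMap k (Om k) (b₁ l)) →
      (∀ j, b ⬝ᵥ (C.map (Om k)).a j ≠ 0) → (∀ j, b ⬝ᵥ (C.map (Om k)).b j ≠ 0) →
      ∀ w : Fin m → Om k, (∀ j, w j ≠ 0) →
        (∀ j, w j ^ M j * (b ⬝ᵥ (C.map (Om k)).b j) = b ⬝ᵥ (C.map (Om k)).a j) →
        (C'.map (Om k)).On M (fun j => some (algebraMap k (Om k) (c j) / w j))) :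
    Eb C M E c b₀ = 0 := by
  by_contra hne
  have hab := fun j => Eb_ne hne j
  let b' : Fin m → k := fun l => (b₁ ⬝ᵥ C.a i) * b₀ l - (b₀ ⬝ᵥ C.a i) * b₁ l
  have hb'a : b' ⬝ᵥ C.a i = 0 := by
    have h1 : b' = (b₁ ⬝ᵥ C.a i) • b₀ - (b₀ ⬝ᵥ C.a i) • b₁ := by
      funext l
      simp [b']
    rw [h1, sub_dotProduct, smul_dotProduct, smul_dotProduct, smul_eq_mul, smul_eq_mul]
    ring
  have hb' : b' ≠ 0 := by
    intro h0
    have h1 : (b₁ ⬝ᵥ C.a i) • b₀ + (-(b₀ ⬝ᵥ C.a i)) • b₁ = 0 := by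
      funext l
      have h2 := congrFun h0 l
      simp only [b', Pi.zero_apply] at h2
      simp only [Pi.add_apply, Pi.smul_apply, smul_eq_mul, Pi.zero_apply]
      linear_combination h2
    exact (hab i).1 (neg_eq_zero.1 (hi _ _ h1).2)
  have hb₀ : b₀ ≠ 0 := by
    intro h0
    apply (hab i).1
    rw [h0, zero_dotProduct]
  let B : Fin m → Om k := bt_FLine b₀ b'
  obtain ⟨v₀, hv₀⟩ := HYG.exists_place_tt (k := k) 0
  have hAne : ∀ j, B ⬝ᵥ (C.map (Om k)).a j ≠ 0 := by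
    intro j h1
    have h2 := (dot_FLine C (at0_FLine b₀ b' hv₀) j).1
    rw [show bt_FLine b₀ b' ⬝ᵥ (C.map (Om k)).a j = 0 from h1] at h2
    exact (hab j).1 (h2.unique (Pool.Agent.GOY.at_zero v₀))
  have hBne : ∀ j, B ⬝ᵥ (C.map (Om k)).b j ≠ 0 := by
    intro j h1
    have h2 := (dot_FLine C (at0_FLine b₀ b' hv₀) j).2
    rw [show bt_FLine b₀ b' ⬝ᵥ (C.map (Om k)).b j = 0 from h1] at h2
    exact (hab j).2 (h2.unique (Pool.Agent.GOY.at_zero v₀))
  have hω : ∀ j, ∃ ω : Om k, ω ^ M j =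
      (B ⬝ᵥ (C.map (Om k)).a j) / (B ⬝ᵥ (C.map (Om k)).b j) := fun j =>
    IsAlgClosed.exists_pow_nat_eq _ (hM j)
  choose ω hω using hω
  have hω0 : ∀ j, ω j ≠ 0 := by
    intro j h1
    have h2 := hω j
    rw [h1, zero_pow (hM j).ne'] at h2
    exact div_ne_zero (hAne j) (hBne j) h2.symm
  have hωb : ∀ j, ω j ^ M j * (B ⬝ᵥ (C.map (Om k)).b j) = B ⬝ᵥ (C.map (Om k)).a j := by
    intro j
    rw [hω, div_mul_cancel₀ _ (hBne j)]
  have hBz : B ≠ 0 := by
    intro h1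
    apply hAne i
    rw [h1, zero_dotProduct]
  have hon : (C.map (Om k)).On M fun j => some (ω j) := on_left hBz hωb
  have hon' : (C'.map (Om k)).On M fun j => some (algebraMap k (Om k) (c j) / ω j) := by
    refine h ((1 - tt k) + tt k * algebraMap k (Om k) (b₁ ⬝ᵥ C.a i))
      (-(tt k * algebraMap k (Om k) (b₀ ⬝ᵥ C.a i))) B ?_ hAne hBne ω hω0 hωb
    intro l
    simp only [B, bt_FLine, b', map_sub, map_mul]
    ring
  have hpr : ∀ {v : Place k (Om k)} (j : Fin m),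
      v.At (ω j * (algebraMap k (Om k) (c j) / ω j)) (c j) := by
    intro v j
    rw [mul_div_cancel₀ _ (hω0 j)]
    exact Place.at_const (v := v) (c j)
  apply hne
  refine FCls.bridge hE hon hon' (c₀ := 0) (c₁ := 1) ?_ ?_
  · intro v hv
    exact vlo_Eb_cst hM hχ hE hb₀ (at0_FLine b₀ b' hv) hω0 hωb hon' hc fun j => hpr j
  · intro v hv
    rw [vlo_Eb_cst hM hχ hE hb' (at1_FLine b₀ b' hv) hω0 hωb hon' hc fun j => hpr j]
    exact Eb_zero (Or.inl hb'a)

end Pool.Agent.DTU
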