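import Pool.Agent.DTU.ColV
import Pool.Agent.ARS.Mov

/-!
# Class functions of the fibres: the coordinates `0`, `∞`, free coordinates
-/

set_option autoImplicit false

noncomputable section

namespace Pool.Agent.DTU

open Matrix
open Pool.Agent.ZCyc Pool.Agent.Dess Pool.Agent.GT Pool.Agent.TInc
open Pool.Agent.VFP (Om tt)
open Pool.Agent.HGF (fst snd vlo)
open scoped Classical

variable {k : Type} [Field k] [IsAlgClosed k] [CharZero k] {m : ℕ} {C C' : Col k m}
  {M : Fin m → ℕ} {R W : Type} [Field R] [AddCommGroup W] [Module R W] {χ : Fin m → k → R}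
  {E : (Fin m → Option k) → (Fin m → Option k) → W}

/-! ### Auxiliary lemmas -/

/-- the field of definition of finitely many points of the projective line -/
private theorem exists_def_FOne {w w' : Fin m → Option (Om k)} (h : (C.map (Om k)).On M w)
    (h' : (C'.map (Om k)).On M w') :
    ∃ (K : IntermediateField k (Om k)) (a a' : Fin m → Option K),
      IsCurve k K ∧ tt k ∈ K ∧ (C.map K).On M a ∧ (C'.map K).On M a' ∧
      (∀ i, (a i).map K.val = w i) ∧ ∀ i, (a' i).map K.val = w' i := by
  let Γ' : Finset (Om k) := Finset.univ.biUnion fun i => (w i).toFinset ∪ (w' i).toFinset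
  obtain ⟨K, hK, hΓ, htt⟩ := ARS.exists_fld Γ'
  have hm : ∀ (i : Fin m) (f : Om k), (f ∈ (w i).toFinset ∨ f ∈ (w' i).toFinset) →
      f ∈ (Γ' : Set (Om k)) := by
    intro i f hf
    simp only [Γ', Finset.mem_coe, Finset.mem_biUnion, Finset.mem_univ, true_and,
      Finset.mem_union]
    exact ⟨i, hf⟩
  have h1 : ∀ i, ∃ x' : Option K, x'.map K.val = w i := fun i =>
    ARS.lift_opt _ fun f hf => hΓ (hm i f (Or.inl (Option.mem_toFinset.2 hf)))
  have h2 : ∀ i, ∃ x' : Option K, x'.map K.val = w' i := fun i =>
    ARS.lift_opt _ fun f hf => hΓ (hm i f (Or.inr (Option.mem_toFinset.2 hf)))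
  choose a ha using h1
  choose a' ha' using h2
  refine ⟨K, a, a', hK, htt, ?_, ?_, ha, ha'⟩
  · rw [← on_mapK (C := C) (M := M) K.val]
    have e1 : (fun i => (a i).map K.val) = w := funext ha
    rw [e1]
    exact h
  · rw [← on_mapK (C := C') (M := M) K.val]
    have e1 : (fun i => (a' i).map K.val) = w' := funext ha'
    rw [e1]
    exact h'

omit [IsAlgClosed k] [CharZero k] in
private theorem vlo_below_FOne {K : IntermediateField k (Om k)} {w : Fin m → Option (Om k)}
    {w' : Fin m → Option K} (hw : ∀ i, (w' i).map K.val = w i) {V : Place k (Om k)}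
    {c : Place k K} (hV : V.ring.comap (K.val : K →+* Om k) = c.ring) :
    (fun i => vlo V (w i)) = fun i => vlo c (w' i) := by
  funext i
  rw [← hw, HGF.vlo_alg hV]

omit [IsAlgClosed k] [CharZero k] in
/-- the determinant is a form of degree one in `fst ^ M i`, `snd ^ M i` of the coordinate `i` -/
private theorem det_upd_FOne (D : Col k m) (w : Fin m → Option k) (i : Fin m) (y : Option k) :
    (Matrix.of (D.ga M (Function.update w i y))).det =
      snd y ^ M i * ((Matrix.of (D.ga M w)).updateRow i (D.a i)).det -
        fst y ^ M i * ((Matrix.of (D.ga M w)).updateRow i (D.b i)).det := by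
  have h1 : Matrix.of (D.ga M (Function.update w i y)) =
      (Matrix.of (D.ga M w)).updateRow i
        (snd y ^ M i • D.a i + (-(fst y ^ M i)) • D.b i) := by
    ext j l
    by_cases hj : j = i
    · subst hj
      rw [Matrix.updateRow_self, Matrix.of_apply]
      simp only [Col.ga, Function.update_self, Pi.add_apply, Pi.smul_apply, smul_eq_mul]
      ring
    · rw [Matrix.updateRow_ne hj, Matrix.of_apply, Matrix.of_apply]
      simp only [Col.ga, Function.update_of_ne hj]
  rw [h1, Matrix.det_updateRow_add, Matrix.det_updateRow_smul, Matrix.det_updateRow_smul]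
  ring

omit [IsAlgClosed k] [CharZero k] in
/-- the coordinate `i` is arbitrary if it can be `0` and `∞` -/
private theorem on_all_FOne {D : Col k m} {w : Fin m → Option k} {i : Fin m} (hM : 0 < M i)
    (h0 : D.On M (Function.update w i (some 0))) (h1 : D.On M (Function.update w i none))
    (y : Option k) : D.On M (Function.update w i y) := by
  unfold Col.On at h0 h1 ⊢
  rw [det_upd_FOne] at h0 h1 ⊢
  have e0 : ((Matrix.of (D.ga M w)).updateRow i (D.a i)).det = 0 := by
    have hs : snd (some (0 : k)) = 1 := rfl
    have hf : fst (some (0 : k)) = 0 := rfl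
    rw [hs, hf, one_pow, one_mul, zero_pow hM.ne', zero_mul, sub_zero] at h0
    exact h0
  have e1 : ((Matrix.of (D.ga M w)).updateRow i (D.b i)).det = 0 := by
    have hs : snd (none : Option k) = 0 := rfl
    have hf : fst (none : Option k) = 1 := rfl
    rw [hs, hf, one_pow, one_mul, zero_pow hM.ne', zero_mul, zero_sub, neg_eq_zero] at h1
    exact h1
  rw [e0, e1, mul_zero, mul_zero, sub_zero]

omit [IsAlgClosed k] [CharZero k] in
private theorem map_upd_FOne (w : Fin m → Option k) (i : Fin m) (y : Option k) :
    (fun l => (Function.update w i y l).map (algebraMap k (Om k))) =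
      Function.update (fun l => (w l).map (algebraMap k (Om k))) i
        (y.map (algebraMap k (Om k))) := by
  funext l
  by_cases hl : l = i
  · subst hl
    rw [Function.update_self, Function.update_self]
  · rw [Function.update_of_ne hl, Function.update_of_ne hl]

omit [IsAlgClosed k] [CharZero k] in
private theorem cst_upd_FOne {w : Fin m → Option k} {i : Fin m} (v : Place k (Om k))
    (y : Option (Om k)) :
    (fun l => vlo v (Function.update (fun l => (w l).map (algebraMap k (Om k))) i y l)) =
      Function.update w i (vlo v y) := by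
  funext l
  by_cases hl : l = i
  · subst hl
    rw [Function.update_self, Function.update_self]
  · rw [Function.update_of_ne hl, Function.update_of_ne hl]
    exact HGF.vlo_const v _

/-! ### The theorems -/

/-- the function with the two points exchanged -/
theorem FCls.swap (hE : FCls C C' M χ E) : FCls C' C M χ fun w w' => E w' w where
  cf := fun K _ _ hK w w' f hf h h' => hE.cf K hK w' w f hf h' h
  left := fun w w' i u hu => hE.right w' w i u hu
  right := fun w w' i u hu => hE.left w' w i u hu

/-- `E` is zero if a coordinate of the first point is `0` or `∞` (such points are fixed by `rot i u`;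
`GOY.zero_of_fixed`) -/
theorem FCls.zero_left (hχ : HYG.Chars M χ) (hE : FCls C C' M χ E) {w w' : Fin m → Option k}
    {i : Fin m} (h : w i = none ∨ w i = some 0) : E w w' = 0 := by
  obtain ⟨u, hu, hχ'⟩ := hχ.nontriv i
  have h1 : HYG.rot i u w = w := by
    unfold HYG.rot
    have h2 : (w i).map (fun z => u * z) = w i := by
      rcases h with h | h
      · rw [h]
        rfl
      · rw [h, Option.map_some, mul_zero]
    rw [h2, Function.update_eq_self]
  have h2 := hE.left w w' i u hu
  rw [h1] at h2
  have h3 : (χ i u - 1) • E w w' = 0 := by rw [sub_smul, one_smul, ← h2, sub_self]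
  exact (smul_eq_zero.1 h3).resolve_left (sub_ne_zero.2 hχ')

theorem FCls.zero_right (hχ : HYG.Chars M χ) (hE : FCls C C' M χ E) {w w' : Fin m → Option k}
    {i : Fin m} (h : w' i = none ∨ w' i = some 0) : E w w' = 0 :=
  FCls.zero_left hχ hE.swap h

/-- comparison of two values of the parameter (`GOY.bridge₂`) -/
theorem FCls.bridge [CharZero R] (hE : FCls C C' M χ E) {w w' : Fin m → Option (Om k)}
    (hw : (C.map (Om k)).On M w) (hw' : (C'.map (Om k)).On M w') {c₀ c₁ : k} {C₀ C₁ : W}
    (h₀ : ∀ v : Place k (Om k), v.At (tt k) c₀ →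
      E (fun i => vlo v (w i)) (fun i => vlo v (w' i)) = C₀)
    (h₁ : ∀ v : Place k (Om k), v.At (tt k) c₁ →
      E (fun i => vlo v (w i)) (fun i => vlo v (w' i)) = C₁) : C₀ = C₁ := by
  obtain ⟨K, a, a', hK, htt, hon, hon', ha, ha'⟩ := exists_def_FOne hw hw'
  have hW : ∀ (n : ℕ) (x : W), n ≠ 0 → n • x = 0 → x = 0 := by
    intro n x hn hx
    rw [← Nat.cast_smul_eq_nsmul R] at hx
    exact (smul_eq_zero.1 hx).resolve_left (Nat.cast_ne_zero.2 hn)
  refine ARS.bridge_core hW hK htt (fun v => E (fun i => vlo v (w i)) fun i => vlo v (w' i))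
    (fun v => E (fun i => vlo v (a i)) fun i => vlo v (a' i)) (fun V c hV => ?_)
    (fun f hf => hE.cf K hK a a' f hf hon hon') h₀ h₁
  rw [vlo_below_FOne ha hV, vlo_below_FOne ha' hV]

/-- If the coordinate `i` of the first point is arbitrary then `E` is zero.
PROOF. If `w i` is `none` or `some 0` use `zero_left`. Let `w i = some a`. The coordinate `i` moves over `Om k`: `some ((1 - tt) a)` (the other
coordinates and the second point are constant), `bridge` for `c₀ = 0` (value `E w w'`) and `c₁ = 1` (the coordinate is `some 0`,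
value zero by `zero_left`). The moving point lies on the fibre: by `on_iff'` or by the following: the determinant is
a polynomial in the coordinate: the coordinate `i` appears in the row `i` of the matrix only, and by `h` for the values `some 0` and `none` (or `some 1`) the
determinants with this row replaced by `α_i` and by `β_i` are zero (`M i ≠ 0`; `Matrix.det_updateRow_add`, `..smul`). -/
theorem FCls.free_left [CharZero R] (hM : ∀ i, 0 < M i) (hχ : HYG.Chars M χ)
    (hE : FCls C C' M χ E) {w w' : Fin m → Option k} {i : Fin m}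
    (h : ∀ y, C.On M (Function.update w i y)) (h' : C'.On M w') : E w w' = 0 := by
  have e0 := on_cst (K := Om k) (C := C) (M := M) |>.2 (h (some 0))
  have e1 := on_cst (K := Om k) (C := C) (M := M) |>.2 (h none)
  rw [map_upd_FOne, Option.map_some, map_zero] at e0
  rw [map_upd_FOne, Option.map_none] at e1
  have hall := on_all_FOne (hM i) e0 e1 (some (GOY.pth (w i) 0))
  have hon' := on_cst (K := Om k) (C := C') (M := M) |>.2 h'
  refine hE.bridge hall hon' (c₀ := 0) (c₁ := 1) (fun v hv => ?_) (fun v hv => ?_)
  · rw [cst_upd_FOne, GOY.pth_zero hv, Function.update_eq_self]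
    have h2 : (fun l => vlo v ((w' l).map (algebraMap k (Om k)))) = w' :=
      funext fun l => HGF.vlo_const v _
    rw [h2]
  · rw [cst_upd_FOne, HGF.vlo_at (GOY.pth_one hv (w i) 0)]
    exact FCls.zero_left hχ hE (i := i) (Or.inr (Function.update_self _ _ _))

/-- (`free_left` for `hE.swap`) -/
theorem FCls.free_right [CharZero R] (hM : ∀ i, 0 < M i) (hχ : HYG.Chars M χ)
    (hE : FCls C C' M χ E) {w w' : Fin m → Option k} {i : Fin m} (h' : C.On M w)
    (h : ∀ y, C'.On M (Function.update w' i y)) : E w w' = 0 :=
  FCls.free_left hM hχ hE.swap h h'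

end Pool.Agent.DTU
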