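import Pool.Agent.DTU.FLine

/-!
# Matrices of small rank; lines orthogonal to `g`
-/

set_option autoImplicit false

noncomputable section

namespace Pool.Agent.DTU

open Matrix
open Pool.Agent.ZCyc Pool.Agent.Dess Pool.Agent.GT Pool.Agent.TInc
open Pool.Agent.VFP (Om tt)
open Pool.Agent.HGF (fst snd vlo)
open scoped Classical

variable {k : Type} [Field k] [IsAlgClosed k] [CharZero k] {m : ℕ} {C C' : Col k m}
  {M : Fin m → ℕ} {R W : Type} [Field R] [AddCommGroup W] [Module R W] {χ : Fin m → k → R}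
  {E : (Fin m → Option k) → (Fin m → Option k) → W}

/-! ### Auxiliary lemmas -/

omit [IsAlgClosed k] [CharZero k] in
private theorem comb_FRank (b₀ b₁ p q : Fin m → k) {x y : Om k} {B : Fin m → Om k}
    (hB : ∀ l, B l = x * algebraMap k (Om k) (b₀ l) + y * algebraMap k (Om k) (b₁ l))
    (l' : Fin m) :
    (B ᵥ* (C.map (Om k)).N (C'.map (Om k)) (fun i => algebraMap k (Om k) (p i))
      (fun i => algebraMap k (Om k) (q i))) l' =
      x * algebraMap k (Om k) ((b₀ ᵥ* C.N C' p q) l') +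
        y * algebraMap k (Om k) ((b₁ ᵥ* C.N C' p q) l') := by
  have h1 : ∀ l, (C.map (Om k)).N (C'.map (Om k)) (fun i => algebraMap k (Om k) (p i))
      (fun i => algebraMap k (Om k) (q i)) l l' = algebraMap k (Om k) (C.N C' p q l l') := fun l =>
    N_map (D₁ := C) (D₂ := C') (D₁' := C.map (Om k)) (D₂' := C'.map (Om k))
      (Algebra.ofId k (Om k)) (fun _ _ => rfl) (fun _ _ => rfl) (fun _ _ => rfl)
      (fun _ _ => rfl) p q l l'
  simp only [Matrix.vecMul, dotProduct, h1, hB, map_sum, map_mul, Finset.mul_sum]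
  rw [← Finset.sum_add_distrib]
  exact Finset.sum_congr rfl fun l _ => by ring

omit [IsAlgClosed k] [CharZero k] in
private theorem cdot_FRank (b₀ b₁ u : Fin m → k) {x y : Om k} {B : Fin m → Om k}
    (hB : ∀ l, B l = x * algebraMap k (Om k) (b₀ l) + y * algebraMap k (Om k) (b₁ l)) :
    B ⬝ᵥ (fun l => algebraMap k (Om k) (u l)) =
      x * algebraMap k (Om k) (b₀ ⬝ᵥ u) + y * algebraMap k (Om k) (b₁ ⬝ᵥ u) := by
  simp only [dotProduct, hB, map_sum, map_mul, Finset.mul_sum]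
  rw [← Finset.sum_add_distrib]
  exact Finset.sum_congr rfl fun l _ => by ring

/-! ### The theorems -/

/-- If the matrix has rank at most `m - 2` then `Eb` is zero.
PROOF. `exists_indep` gives a second null vector `b₁`. `line_zero`: for `b(t) = x b₀ + y b₁` we have
`b(t) N = 0` (over `Om k`: `N_map`, for `Algebra.ofId k (Om k)`, or `vecMul_N` and the same formula
over `Om k`), and `on_right` with `w'_j = c_j / w_j` (`w_j w'_j = c_j`), the coefficient
`q_i (b(t) · α_i)` is not zero. (`m = 0`: there is no `b ≠ 0`; the index is any `i`.) -/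
theorem rank_zero [CharZero R] (hM : ∀ i, 0 < M i) (hχ : HYG.Chars M χ) (hE : FCls C C' M χ E)
    {c q : Fin m → k} (hc : ∀ i, c i ≠ 0) (hq : ∀ i, q i ≠ 0) {b : Fin m → k} (hb : b ≠ 0)
    (h : b ᵥ* C.N C' (fun i => q i * c i ^ M i) q = 0)
    (hN : (C.N C' (fun i => q i * c i ^ M i) q).adjugate = 0) : Eb C M E c b = 0 := by
  obtain ⟨b', hb', hi⟩ := exists_indep hN hb h
  obtain ⟨i, -⟩ : ∃ i, b i ≠ 0 := by
    by_contra hcon
    push Not at hcon
    exact hb (funext hcon)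
  refine line_zero hM hχ hE hc i hi fun x y B hB hA _ w hw hwb => ?_
  refine on_right (C := C.map (Om k)) (C' := C'.map (Om k))
    (q := fun l => algebraMap k (Om k) (q l)) hwb ?_ (i := i) ?_
  · have e1 : (fun l => algebraMap k (Om k) (q l) * (w l * (algebraMap k (Om k) (c l) / w l)) ^ M l)
        = fun l => algebraMap k (Om k) (q l * c l ^ M l) := by
      funext l
      rw [mul_div_cancel₀ _ (hw l), map_mul, map_pow]
    rw [e1]
    funext l'
    rw [comb_FRank b b' (fun l => q l * c l ^ M l) q hB, h, hb']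
    simp
  · exact mul_ne_zero ((map_ne_zero _).2 (hq i)) (hA i)

/-- Let `g = α_j - U β_j`, `g' = α'_j - U' β'_j`, `U U' = c_j ^ M_j`. If `b₀ N = κ₀ g'`,
`b₁ N = κ₁ g'`, `b₀ · g = b₁ · g = 0`, then `Eb` is zero for `b₀`.
PROOF. `line_zero`. Let `b = x b₀ + y b₁` over `Om k`, `Λ = x κ₀ + y κ₁`, so `b N = Λ g'` and
`b · g = 0`, that is `b · α_j = U (b · β_j)`. Let `q' = Function.update q j (q j + Λ / (b · α_j))`.
Then `p'_j := q'_j * P_j = q_j P_j + Λ U' / (b · β_j)` (`P_j = U U'`, `b · α_j = U (b · β_j)`), so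
`b N' = b N + (p'_j - p_j) (b · β_j) β'_j - (q'_j - q_j) (b · α_j) α'_j
= Λ g' + Λ U' β'_j - Λ α'_j = 0` for the matrix `N'` with the coefficients `q'` (`vecMul_N`).
`on_right` with `q'`, `w'_l = c_l / w_l` and the index `i ≠ j`: `q_i (b · α_i) ≠ 0`. -/
theorem two_zero [CharZero R] (hM : ∀ i, 0 < M i) (hχ : HYG.Chars M χ) (hE : FCls C C' M χ E)
    {c q : Fin m → k} (hc : ∀ i, c i ≠ 0) (hq : ∀ i, q i ≠ 0) {b₀ b₁ : Fin m → k} {i j : Fin m}
    (hij : i ≠ j) {U U' κ₀ κ₁ : k} (hU : U * U' = c j ^ M j)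
    (hi : ∀ x y : k, x • b₀ + y • b₁ = 0 → x = 0 ∧ y = 0)
    (h₀ : b₀ ᵥ* C.N C' (fun i => q i * c i ^ M i) q = κ₀ • (C'.a j - U' • C'.b j))
    (h₁ : b₁ ᵥ* C.N C' (fun i => q i * c i ^ M i) q = κ₁ • (C'.a j - U' • C'.b j))
    (g₀ : b₀ ⬝ᵥ (C.a j - U • C.b j) = 0) (g₁ : b₁ ⬝ᵥ (C.a j - U • C.b j) = 0) :
    Eb C M E c b₀ = 0 := by
  refine line_zero hM hχ hE hc i hi fun x y B hB hA _ w hw hwb => ?_
  have ea : B ⬝ᵥ (C.map (Om k)).a j =
      x * algebraMap k (Om k) (b₀ ⬝ᵥ C.a j) + y * algebraMap k (Om k) (b₁ ⬝ᵥ C.a j) :=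
    cdot_FRank b₀ b₁ (C.a j) hB
  have eb : B ⬝ᵥ (C.map (Om k)).b j =
      x * algebraMap k (Om k) (b₀ ⬝ᵥ C.b j) + y * algebraMap k (Om k) (b₁ ⬝ᵥ C.b j) :=
    cdot_FRank b₀ b₁ (C.b j) hB
  have hg : B ⬝ᵥ (C.map (Om k)).a j = algebraMap k (Om k) U * (B ⬝ᵥ (C.map (Om k)).b j) := by
    have h2 : b₀ ⬝ᵥ C.a j = U * (b₀ ⬝ᵥ C.b j) := by
      rw [dotProduct_sub, dotProduct_smul, smul_eq_mul, sub_eq_zero] at g₀
      exact g₀
    have h3 : b₁ ⬝ᵥ C.a j = U * (b₁ ⬝ᵥ C.b j) := by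
      rw [dotProduct_sub, dotProduct_smul, smul_eq_mul, sub_eq_zero] at g₁
      exact g₁
    rw [ea, eb, h2, h3, map_mul, map_mul]
    ring
  set Λ : Om k := x * algebraMap k (Om k) κ₀ + y * algebraMap k (Om k) κ₁ with hΛ
  let q' : Fin m → Om k := Function.update (fun l => algebraMap k (Om k) (q l)) j
    (algebraMap k (Om k) (q j) + Λ / (B ⬝ᵥ (C.map (Om k)).a j))
  have hq'j : q' j = algebraMap k (Om k) (q j) + Λ / (B ⬝ᵥ (C.map (Om k)).a j) :=
    Function.update_self _ _ _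
  have hq'l : ∀ l, l ≠ j → q' l = algebraMap k (Om k) (q l) := fun l hl =>
    Function.update_of_ne hl _ _
  refine on_right (C := C.map (Om k)) (C' := C'.map (Om k)) (q := q') hwb ?_ (i := i) ?_
  · have e1 : (fun l => q' l * (w l * (algebraMap k (Om k) (c l) / w l)) ^ M l)
        = fun l => q' l * algebraMap k (Om k) (c l ^ M l) := by
      funext l
      rw [mul_div_cancel₀ _ (hw l), map_pow]
    rw [e1]
    have hBN : B ᵥ* (C.map (Om k)).N (C'.map (Om k))
        (fun i => algebraMap k (Om k) (q i * c i ^ M i)) (fun i => algebraMap k (Om k) (q i)) =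
        Λ • ((C'.map (Om k)).a j - algebraMap k (Om k) U' • (C'.map (Om k)).b j) := by
      funext l'
      rw [comb_FRank b₀ b₁ (fun l => q l * c l ^ M l) q hB, h₀, h₁]
      simp only [Pi.smul_apply, Pi.sub_apply, smul_eq_mul, map_mul, map_sub, Col.map, hΛ]
      ring
    rw [vecMul_N] at hBN ⊢
    have hd : ∑ l, ((q' l * algebraMap k (Om k) (c l ^ M l) * (B ⬝ᵥ (C.map (Om k)).b l)) •
          (C'.map (Om k)).b l - (q' l * (B ⬝ᵥ (C.map (Om k)).a l)) • (C'.map (Om k)).a l) -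
        ∑ l, ((algebraMap k (Om k) (q l * c l ^ M l) * (B ⬝ᵥ (C.map (Om k)).b l)) •
          (C'.map (Om k)).b l - (algebraMap k (Om k) (q l) * (B ⬝ᵥ (C.map (Om k)).a l)) •
          (C'.map (Om k)).a l) =
        (Λ * algebraMap k (Om k) U') • (C'.map (Om k)).b j - Λ • (C'.map (Om k)).a j := by
      rw [← Finset.sum_sub_distrib, Finset.sum_eq_single j]
      · have hne := hA j
        have h5 : (Λ / (B ⬝ᵥ (C.map (Om k)).a j)) * algebraMap k (Om k) (c j ^ M j) *
            (B ⬝ᵥ (C.map (Om k)).b j) = Λ * algebraMap k (Om k) U' := by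
          rw [← hU, map_mul, div_mul_eq_mul_div, div_mul_eq_mul_div, div_eq_iff hne, hg]
          ring
        have h6 : (Λ / (B ⬝ᵥ (C.map (Om k)).a j)) * (B ⬝ᵥ (C.map (Om k)).a j) = Λ :=
          div_mul_cancel₀ _ hne
        rw [hq'j]
        funext l'
        simp only [Pi.smul_apply, Pi.sub_apply, smul_eq_mul, map_mul] at h5 ⊢
        linear_combination (C'.map (Om k)).b j l' * h5 - (C'.map (Om k)).a j l' * h6
      · intro l _ hl
        rw [hq'l l hl, map_mul]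
        exact sub_self _
      · intro hcon
        exact absurd (Finset.mem_univ j) hcon
    rw [hBN, sub_eq_iff_eq_add] at hd
    rw [hd]
    funext l'
    simp only [Pi.smul_apply, Pi.sub_apply, Pi.add_apply, Pi.zero_apply, smul_eq_mul]
    ring
  · rw [hq'l i hij]
    exact mul_ne_zero ((map_ne_zero _).2 (hq i)) (hA i)

end Pool.Agent.DTU
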