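import Pool.Agent.DTU.FVEb

/-!
# Reduction of the size of the matrices: algebra
-/

set_option autoImplicit false

noncomputable section

namespace Pool.Agent.DTU

open Matrix
open Pool.Agent.ZCyc Pool.Agent.Dess Pool.Agent.GT Pool.Agent.TInc
open Pool.Agent.HGF (fst snd vlo)
open scoped Classical

/-- the columns `1, ..., m` after multiplication by `S`, without their first components -/
def Col.red {K : Type} [Field K] {m : ℕ} (C : Col K (m + 1))
    (S : Matrix (Fin (m + 1)) (Fin (m + 1)) K) : Col K m :=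
  ⟨fun i l => (S *ᵥ C.a i.succ) l.succ, fun i l => (S *ᵥ C.b i.succ) l.succ⟩

section Alg

variable {k : Type} [Field k] {m : ℕ} {C C' : Col k (m + 1)} {M : Fin (m + 1) → ℕ}
  {S S' : Matrix (Fin (m + 1)) (Fin (m + 1)) k}

/-- If `S γ_0 = e_0` then the points `w` of the reduced fibre are the points `(w_0, w)` of the fibre.
PROOF. Over `K`: let `G = Matrix.of (ga)` (rows `γ_i`). The rows of `G * (S over K)ᵀ` are `S γ_i` (`Matrix.det_mul`, `det S ≠ 0`, `Matrix.mulVec`, `ga` is linear in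
the columns), the first row is `e_0`, so the determinant is that of the matrix without the first row and column (`Matrix.det_succ_row_zero`, only the
term `0` remains), and this is the matrix of the `ga` of the reduced columns. -/
theorem on_red {K : Type} [Field K] [Algebra k K] (hS : S.det ≠ 0) {ω : k}
    (hg : S *ᵥ (C.a 0 - ω ^ M 0 • C.b 0) = Pi.single 0 1) {w : Fin m → Option K} :
    ((C.red S).map K).On (fun i => M i.succ) w ↔
      (C.map K).On M (Fin.cons (some (algebraMap k K ω)) w) := by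
  set SK : Matrix (Fin (m + 1)) (Fin (m + 1)) K := S.map (algebraMap k K) with hSK
  have hdet : SK.det ≠ 0 := by
    have h1 : SK.det = algebraMap k K S.det := by
      rw [hSK]
      exact (RingHom.map_det (algebraMap k K) S).symm
    rw [h1]
    exact (map_ne_zero _).2 hS
  set W : Fin (m + 1) → Option K := Fin.cons (some (algebraMap k K ω)) w with hW
  set G : Matrix (Fin (m + 1)) (Fin (m + 1)) K := Matrix.of ((C.map K).ga M W) with hG
  have hrow : ∀ i l, (G * SKᵀ) i l = (SK *ᵥ ((C.map K).ga M W i)) l := by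
    intro i l
    rw [Matrix.mul_apply, Matrix.mulVec, dotProduct]
    refine Finset.sum_congr rfl fun j _ => ?_
    rw [Matrix.transpose_apply, mul_comm]
    rfl
  have hmap : ∀ (v : Fin (m + 1) → k) (l : Fin (m + 1)),
      (SK *ᵥ fun j => algebraMap k K (v j)) l = algebraMap k K ((S *ᵥ v) l) := by
    intro v l
    rw [Matrix.mulVec, Matrix.mulVec, dotProduct, dotProduct, map_sum]
    refine Finset.sum_congr rfl fun j _ => ?_
    rw [map_mul]
    rfl
  have hrow0 : ∀ l, (G * SKᵀ) 0 l = (Pi.single 0 1 : Fin (m + 1) → K) l := by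
    intro l
    rw [hrow]
    have h1 : (C.map K).ga M W 0 =
        fun j => algebraMap k K ((C.a 0 - ω ^ M 0 • C.b 0) j) := by
      funext j
      have h2 : W 0 = some (algebraMap k K ω) := rfl
      unfold Col.ga
      rw [h2]
      simp only [Col.map, snd, fst, Option.getD_some, Pi.sub_apply, Pi.smul_apply, smul_eq_mul,
        map_sub, map_mul, map_pow]
      rw [if_neg (by simp)]
      ring
    rw [h1, hmap, hg]
    by_cases hl : l = 0
    · subst hl
      simp
    · simp [hl]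
  have hsub : (G * SKᵀ).submatrix Fin.succ Fin.succ =
      Matrix.of (((C.red S).map K).ga (fun i => M i.succ) w) := by
    ext i l
    rw [Matrix.submatrix_apply, hrow]
    have h1 : (C.map K).ga M W i.succ =
        (snd (w i) ^ M i.succ) • (fun j => algebraMap k K (C.a i.succ j)) -
        (fst (w i) ^ M i.succ) • (fun j => algebraMap k K (C.b i.succ j)) := by
      funext j
      have h2 : W i.succ = w i := rfl
      unfold Col.ga
      rw [h2]
      simp only [Col.map, Pi.sub_apply, Pi.smul_apply, smul_eq_mul]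
      ring
    rw [h1, Matrix.mulVec_sub, Matrix.mulVec_smul, Matrix.mulVec_smul, Pi.sub_apply,
      Pi.smul_apply, Pi.smul_apply, hmap, hmap]
    simp only [Matrix.of_apply, Col.ga, Col.map, Col.red, smul_eq_mul]
    ring
  have hd : (G * SKᵀ).det = ((G * SKᵀ).submatrix Fin.succ Fin.succ).det := by
    rw [Matrix.det_succ_row_zero, Finset.sum_eq_single 0]
    · rw [hrow0]
      simp [Fin.succAbove_zero]
    · intro j _ hj
      rw [hrow0]
      simp [hj]
    · intro h
      exact absurd (Finset.mem_univ _) h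
  unfold Col.On
  rw [← hsub, ← hd, Matrix.det_mul, Matrix.det_transpose]
  constructor
  · intro h
    rcases mul_eq_zero.1 h with h | h
    · exact h
    · exact absurd h hdet
  · intro h
    have h' : G.det = 0 := h
    rw [h', zero_mul]

/-- (`Matrix.dotProduct_mulVec`, `Fin.sum_univ_succ`) -/
theorem dot_red (b : Fin m → k) (v : Fin (m + 1) → k) :
    ((Fin.cons 0 b : Fin (m + 1) → k) ᵥ* S) ⬝ᵥ v = b ⬝ᵥ fun l => (S *ᵥ v) l.succ := by
  rw [← Matrix.dotProduct_mulVec]
  simp only [dotProduct]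
  rw [Fin.sum_univ_succ]
  simp only [Fin.cons_zero, Fin.cons_succ, zero_mul, zero_add]

theorem dot_red_a (b : Fin m → k) (i : Fin m) :
    ((Fin.cons 0 b : Fin (m + 1) → k) ᵥ* S) ⬝ᵥ C.a i.succ = b ⬝ᵥ (C.red S).a i :=
  dot_red b (C.a i.succ)

theorem dot_red_b (b : Fin m → k) (i : Fin m) :
    ((Fin.cons 0 b : Fin (m + 1) → k) ᵥ* S) ⬝ᵥ C.b i.succ = b ⬝ᵥ (C.red S).b i :=
  dot_red b (C.b i.succ)

/-- (`dot_red`) -/
theorem dot_red_g (b : Fin m → k) {g : Fin (m + 1) → k} (hg : S *ᵥ g = Pi.single 0 1) :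
    ((Fin.cons 0 b : Fin (m + 1) → k) ᵥ* S) ⬝ᵥ g = 0 := by
  rw [dot_red, hg]
  simp only [dotProduct]
  refine Finset.sum_eq_zero fun l _ => ?_
  simp

/-- vectors orthogonal to `g` (`b = (b S⁻¹) S`, and the component `0` of `b S⁻¹` is `b · g`: `(b S⁻¹) · (S g)`) -/
theorem exists_red (hS : S.det ≠ 0) {g : Fin (m + 1) → k} (hg : S *ᵥ g = Pi.single 0 1)
    {b : Fin (m + 1) → k} (hb : b ≠ 0) (h : b ⬝ᵥ g = 0) :
    ∃ b₁ : Fin m → k, b₁ ≠ 0 ∧ b = (Fin.cons 0 b₁ : Fin (m + 1) → k) ᵥ* S := by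
  set b' : Fin (m + 1) → k := b ᵥ* S⁻¹ with hb'
  have hu : IsUnit S.det := isUnit_iff_ne_zero.2 hS
  have h1 : b' ᵥ* S = b := by
    rw [hb', Matrix.vecMul_vecMul, Matrix.nonsing_inv_mul _ hu, Matrix.vecMul_one]
  have h0 : b' 0 = 0 := by
    have h2 : b' ⬝ᵥ (S *ᵥ g) = 0 := by
      rw [Matrix.dotProduct_mulVec, h1, h]
    rw [hg] at h2
    simpa using h2
  have hc : (Fin.cons 0 (fun l : Fin m => b' l.succ) : Fin (m + 1) → k) = b' := by
    funext l
    refine Fin.cases ?_ (fun l => ?_) l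
    · simp [h0]
    · simp
  refine ⟨fun l => b' l.succ, ?_, ?_⟩
  · intro hz
    rw [hz] at hc
    have h3 : b' = 0 := by
      rw [← hc]
      funext l
      refine Fin.cases ?_ (fun l => ?_) l <;> simp
    rw [h3, Matrix.zero_vecMul] at h1
    exact hb h1.symm
  · rw [hc, h1]

theorem cons_ne (hS : S.det ≠ 0) {b : Fin m → k} (hb : b ≠ 0) :
    (Fin.cons 0 b : Fin (m + 1) → k) ᵥ* S ≠ 0 := by
  intro h
  have h1 := Matrix.eq_zero_of_vecMul_eq_zero hS h
  apply hb
  funext l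
  have h2 := congrFun h1 l.succ
  simpa using h2

/-- THE MATRIX `N`. Let `g = α_0 - U β_0`, `g' = α'_0 - U' β'_0`, `U U' = c_0 ^ M_0`, `S g = e_0`, `S' g' = e_0`. For `b = (0, b₁) S` the vector `b₁ N₁` consists of
the components `1, ..., m` of `S' (b N)`. PROOF. `vecMul_N`: `b N = ∑_i (p_i (b·β_i) β'_i - q_i (b·α_i) α'_i)`. The terms `i ≥ 1` give `b₁ N₁`
(`dot_red_a`, `dot_red_b`). The term `i = 0`: `b · α_0 = U (b · β_0)` (`dot_red_g`), so it is `q_0 U (b·β_0) (U' β'_0 - α'_0) = - q_0 U (b·β_0) g'`, and the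
components `1, ..., m` of `S' g' = e_0` are zero. -/
theorem vecMul_red {c q : Fin (m + 1) → k} {U U' : k} (hU : U * U' = c 0 ^ M 0)
    (hg : S *ᵥ (C.a 0 - U • C.b 0) = Pi.single 0 1)
    (hg' : S' *ᵥ (C'.a 0 - U' • C'.b 0) = Pi.single 0 1) (b₁ : Fin m → k) (l : Fin m) :
    (b₁ ᵥ* (C.red S).N (C'.red S') (fun i => q i.succ * c i.succ ^ M i.succ) fun i => q i.succ) l =
      (S' *ᵥ (((Fin.cons 0 b₁ : Fin (m + 1) → k) ᵥ* S) ᵥ*
        C.N C' (fun i => q i * c i ^ M i) q)) l.succ := by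
  set B : Fin (m + 1) → k := (Fin.cons 0 b₁ : Fin (m + 1) → k) ᵥ* S with hB
  have hsum : ∀ v : Fin (m + 1) → Fin (m + 1) → k,
      (S' *ᵥ ∑ i, v i) l.succ = ∑ i, (S' *ᵥ v i) l.succ := by
    intro v
    have h1 : S' *ᵥ ∑ i, v i = ∑ i, S' *ᵥ v i := by
      have := map_sum (Matrix.mulVecLin S') v Finset.univ
      simpa only [Matrix.mulVecLin_apply] using this
    rw [h1, Finset.sum_apply]
  rw [vecMul_N, vecMul_N, hsum, Finset.sum_apply, Fin.sum_univ_succ (n := m)]
  have ha : B ⬝ᵥ C.a 0 = U * (B ⬝ᵥ C.b 0) := by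
    have h1 := dot_red_g b₁ hg
    rw [← hB, dotProduct_sub, dotProduct_smul, smul_eq_mul] at h1
    linear_combination h1
  have ha' : (S' *ᵥ C'.a 0) l.succ = U' * (S' *ᵥ C'.b 0) l.succ := by
    have h1 := congrFun hg' l.succ
    rw [Matrix.mulVec_sub, Matrix.mulVec_smul, Pi.sub_apply, Pi.smul_apply, smul_eq_mul,
      Pi.single_eq_of_ne (Fin.succ_ne_zero l)] at h1
    linear_combination h1
  have h0 : (S' *ᵥ ((q 0 * c 0 ^ M 0 * (B ⬝ᵥ C.b 0)) • C'.b 0 -
      (q 0 * (B ⬝ᵥ C.a 0)) • C'.a 0)) l.succ = 0 := by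
    rw [Matrix.mulVec_sub, Matrix.mulVec_smul, Matrix.mulVec_smul, Pi.sub_apply, Pi.smul_apply,
      Pi.smul_apply, smul_eq_mul, smul_eq_mul, ha, ha', ← hU]
    ring
  rw [h0, zero_add]
  refine Finset.sum_congr rfl fun i _ => ?_
  rw [Matrix.mulVec_sub, Matrix.mulVec_smul, Matrix.mulVec_smul, Pi.sub_apply, Pi.smul_apply,
    Pi.smul_apply, hB, dot_red_a, dot_red_b]
  rfl

/-- `b₁ N₁ = 0` if and only if `b N` is a multiple of `g'` (`S' (b N) = κ e_0 = κ S' g'`, `S'` is invertible) -/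
theorem null_red (hS' : S'.det ≠ 0) {c q : Fin (m + 1) → k} {U U' : k}
    (hU : U * U' = c 0 ^ M 0) (hg : S *ᵥ (C.a 0 - U • C.b 0) = Pi.single 0 1)
    (hg' : S' *ᵥ (C'.a 0 - U' • C'.b 0) = Pi.single 0 1) {b₁ : Fin m → k} :
    b₁ ᵥ* (C.red S).N (C'.red S') (fun i => q i.succ * c i.succ ^ M i.succ) (fun i => q i.succ) = 0 ↔
      ∃ κ : k, ((Fin.cons 0 b₁ : Fin (m + 1) → k) ᵥ* S) ᵥ*
        C.N C' (fun i => q i * c i ^ M i) q = κ • (C'.a 0 - U' • C'.b 0) := by
  set V : Fin (m + 1) → k := ((Fin.cons 0 b₁ : Fin (m + 1) → k) ᵥ* S) ᵥ*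
    C.N C' (fun i => q i * c i ^ M i) q with hV
  have key : ∀ l, (b₁ ᵥ* (C.red S).N (C'.red S') (fun i => q i.succ * c i.succ ^ M i.succ)
      fun i => q i.succ) l = (S' *ᵥ V) l.succ := fun l => vecMul_red hU hg hg' b₁ l
  constructor
  · intro h
    refine ⟨(S' *ᵥ V) 0, ?_⟩
    have h1 : S' *ᵥ (V - (S' *ᵥ V) 0 • (C'.a 0 - U' • C'.b 0)) = 0 := by
      rw [Matrix.mulVec_sub, Matrix.mulVec_smul, hg']
      funext l
      refine Fin.cases ?_ (fun l => ?_) l
      · simp
      · rw [Pi.sub_apply, ← key l, h]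
        simp
    have h2 := Matrix.eq_zero_of_mulVec_eq_zero hS' h1
    exact sub_eq_zero.1 h2
  · rintro ⟨κ, hκ⟩
    funext l
    rw [key l, hκ, Matrix.mulVec_smul, hg']
    simp

end Alg

end Pool.Agent.DTU
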