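import Pool.Agent.DTU.FEb

/-!
# The values along a path
-/

set_option autoImplicit false

noncomputable section

namespace Pool.Agent.DTU

open Matrix
open Pool.Agent.ZCyc Pool.Agent.Dess Pool.Agent.GT Pool.Agent.TInc
open Pool.Agent.HGF (fst snd vlo)
open scoped Classical

variable {k : Type} [Field k] [IsAlgClosed k] [CharZero k] {m : ℕ} {C C' : Col k m}
  {M : Fin m → ℕ} {R W : Type} [Field R] [AddCommGroup W] [Module R W] {χ : Fin m → k → R}
  {E : (Fin m → Option k) → (Fin m → Option k) → W}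

/-- THE VALUES. Let `C`, `C'` be the values of the columns `D`, `D'` over `K`, and `b₁ ≠ 0` the value of the vector
`b` (up to factors). Let `w_i ≠ 0` be elements of `K` with `w_i ^ M_i (b · β_i) = b · α_i` (the columns of `D`), and let the point `w'` lie on the
fibre of `D'`. If the products `w_i w'_i` have the values `c_i ≠ 0` at the place `v` then the value of `E` at the values of the
two points is `Eb` for `b₁`.
PROOF. The values of `w'` lie on the fibre of `C'` (`on_vlo`).
Case 1: a coordinate `w_i` has the value `0` or `∞` (`GOY.val_cases`). Then the left side is zero (`zero_left`). If `Eb ≠ 0` then `b₁ · α_i`, `b₁ · β_i` are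
not zero (`Eb_ne`), and `w_i ^ M_i = (r (b · α_i)) / (r (b · β_i))` has a value different from `0` (`at_dot`, `Place.At.div`), contradiction to
`GOY.root_val` (or `GOY.pow_bad`).
Case 2: all `w_i` have values `ω_i ≠ 0`. Then `w'_i = (w_i w'_i) / w_i` has the value `c_i / ω_i`, and `ω_i ^ M_i (b₁ · β_i) = b₁ · α_i`
(`at_dot`, `Place.At.unique`). If `b₁ · β_i ≠ 0` for all `i` use `Eb_eq`. If `b₁ · β_i = 0` for one `i` then also `b₁ · α_i = 0`; then `Eb = 0` (`Eb_zero`), and
the coordinate `i` of the first point is arbitrary (`on_free`: `b₁` is orthogonal to `α_i`, `β_i` and all `γ_j = α_j - ω_j ^ M_j β_j`, `ga_some`), so that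
`E = 0` by `free_left`. -/
theorem vlo_Eb [CharZero R] (hM : ∀ i, 0 < M i) (hχ : HYG.Chars M χ) (hE : FCls C C' M χ E)
    {K : Type} [Field K] [Algebra k K] [HasRes k K] {v : Place k K} {D D' : Col K m}
    {lam lam' : Fin m → K} (hl : Col.Lm v lam D C) (hl' : Col.Lm v lam' D' C')
    {w w' b : Fin m → K} {r : K} {b₁ : Fin m → k} (hb₁ : b₁ ≠ 0)
    (hb : ∀ l, v.At (r * (b l / lam l)) (b₁ l)) (hw : ∀ i, w i ≠ 0)
    (h : ∀ i, w i ^ M i * (b ⬝ᵥ D.b i) = b ⬝ᵥ D.a i)
    (hw' : D'.On M (fun i => some (w' i))) {c : Fin m → k} (hc : ∀ i, c i ≠ 0)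
    (hv : ∀ i, v.At (w i * w' i) (c i)) :
    E (fun i => vlo v (some (w i))) (fun i => vlo v (some (w' i))) = Eb C M E c b₁ := by
  have hon' : C'.On M (fun i => vlo v (some (w' i))) := on_vlo hl' hw'
  by_cases hbad : ∃ i, vlo v (some (w i)) = none ∨ vlo v (some (w i)) = some 0
  · obtain ⟨i, hi⟩ := hbad
    rw [hE.zero_left hχ (i := i) hi]
    by_contra hne
    obtain ⟨ha, hb'⟩ := Eb_ne (fun h0 => hne h0.symm) i
    obtain ⟨h1, h2⟩ := at_dot hl hb i
    have h3 : r * (b ⬝ᵥ D.b i) ≠ 0 := by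
      intro h0
      rw [h0] at h2
      exact hb' (h2.unique (GOY.at_zero v))
    have h4 : w i ^ M i = (r * (b ⬝ᵥ D.a i)) / (r * (b ⬝ᵥ D.b i)) := by
      rw [eq_div_iff h3, ← h i]
      ring
    have h5 := h1.div h2 hb'
    rw [← h4] at h5
    obtain ⟨ω, hω, h6⟩ := GOY.root_val (hM i) v h5 (div_ne_zero ha hb')
    rw [HGF.vlo_at h6] at hi
    rcases hi with hi | hi
    · exact absurd hi (by simp)
    · exact hω (Option.some.inj hi)
  · have hval : ∀ i, ∃ ω : k, ω ≠ 0 ∧ v.At (w i) ω := fun i =>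
      (GOY.val_cases v (w i)).resolve_right fun hi => hbad ⟨i, hi⟩
    choose ω hω hat using hval
    have hat' : ∀ i, v.At (w' i) (c i / ω i) := by
      intro i
      have h1 := (hv i).div (hat i) (hω i)
      rwa [mul_div_cancel_left₀ _ (hw i)] at h1
    have e1 : (fun i => vlo v (some (w i))) = fun i => some (ω i) :=
      funext fun i => HGF.vlo_at (hat i)
    have e2 : (fun i => vlo v (some (w' i))) = fun i => some (c i / ω i) :=
      funext fun i => HGF.vlo_at (hat' i)
    have hrel : ∀ i, ω i ^ M i * (b₁ ⬝ᵥ C.b i) = b₁ ⬝ᵥ C.a i := by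
      intro i
      obtain ⟨h1, h2⟩ := at_dot hl hb i
      have h3 := ((hat i).pow (M i)).mul h2
      have h4 : w i ^ M i * (r * (b ⬝ᵥ D.b i)) = r * (b ⬝ᵥ D.a i) := by
        rw [← h i]
        ring
      rw [h4] at h3
      exact h3.unique h1
    rw [e1, e2]
    by_cases hβ : ∀ i, b₁ ⬝ᵥ C.b i ≠ 0
    · exact (Eb_eq hM hχ hE hω hrel hβ).symm
    · push Not at hβ
      obtain ⟨i, hi⟩ := hβ
      have hi' : b₁ ⬝ᵥ C.a i = 0 := by rw [← hrel i, hi, mul_zero]
      rw [Eb_zero (i := i) (Or.inr hi)]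
      rw [e2] at hon'
      refine hE.free_left hM hχ (i := i) (fun y => ?_) hon'
      refine on_free hb₁ hi' hi (fun j _ => ?_) y
      rw [ga_some, dotProduct_sub, dotProduct_smul, smul_eq_mul, hrel, sub_self]

/-- constant columns (`lm_cst`) -/
theorem vlo_Eb_cst [CharZero R] (hM : ∀ i, 0 < M i) (hχ : HYG.Chars M χ) (hE : FCls C C' M χ E)
    {K : Type} [Field K] [Algebra k K] [HasRes k K] {v : Place k K}
    {w w' b : Fin m → K} {b₁ : Fin m → k} (hb₁ : b₁ ≠ 0)
    (hb : ∀ l, v.At (b l) (b₁ l)) (hw : ∀ i, w i ≠ 0)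
    (h : ∀ i, w i ^ M i * (b ⬝ᵥ (C.map K).b i) = b ⬝ᵥ (C.map K).a i)
    (hw' : (C'.map K).On M (fun i => some (w' i))) {c : Fin m → k} (hc : ∀ i, c i ≠ 0)
    (hv : ∀ i, v.At (w i * w' i) (c i)) :
    E (fun i => vlo v (some (w i))) (fun i => vlo v (some (w' i))) = Eb C M E c b₁ := by
  refine vlo_Eb hM hχ hE (lm_cst C v) (lm_cst C' v) (r := 1) hb₁ (fun l => ?_) hw h hw' hc hv
  rw [one_mul, div_one]
  exact hb l

/-- A product with the value `0` or `∞`: then `E` is zero at the values. (If both factors had finite values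
different from zero then so would the product: `GOY.val_cases`, `zero_left`, `zero_right`.) -/
theorem vlo_bad (hχ : HYG.Chars M χ) (hE : FCls C C' M χ E)
    {K : Type} [Field K] [Algebra k K] {v : Place k K} {w w' : Fin m → K} {i : Fin m}
    [HasRes k K] (h : vlo v (some (w i * w' i)) = none ∨ vlo v (some (w i * w' i)) = some 0) :
    E (fun i => vlo v (some (w i))) (fun i => vlo v (some (w' i))) = 0 := by
  rcases GOY.val_cases v (w i) with ⟨ω, hω, h1⟩ | h1
  · rcases GOY.val_cases v (w' i) with ⟨ω', hω', h2⟩ | h2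
    · rw [HGF.vlo_at (h1.mul h2)] at h
      rcases h with h | h
      · exact absurd h (by simp)
      · exact absurd (Option.some.inj h) (mul_ne_zero hω hω')
    · exact hE.zero_right hχ (i := i) h2
  · exact hE.zero_left hχ (i := i) h1

end Pool.Agent.DTU
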