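import Pool.Agent.DTU.EvL

/-!
# The determinant as a form
-/

set_option autoImplicit false

noncomputable section

namespace Pool.Agent.DTU

open Matrix
open Pool.Agent.ZCyc Pool.Agent.Dess Pool.Agent.GT Pool.Agent.TInc
open Pool.Agent.HGF (fst snd vlo)
open Pool.Agent.GOC (vo po mv)
open scoped Classical

variable {k : Type} [Field k] {r m : ℕ}

/-- the value of the form of degree `2` in all variables `S j`, `T j` with the coefficients `D` -/
def bf (D : (Fin r → Fin 3) → (Fin r → Fin 3) → k) {R : Type} [CommRing R] [Algebra k R]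
    (S T : Fin r → Fin 2 → R) : R :=
  ∑ a, ∑ b, algebraMap k R (D a b) * ((∏ j, mv (S j) (a j)) * ∏ j, mv (T j) (b j))

/-- the variables of the generic point -/
private abbrev V_FrmD (r : ℕ) : Type := (Fin r × Fin 2) ⊕ (Fin r × Fin 2)

/-- the weights of the variables -/
private def wt_FrmD (r : ℕ) : V_FrmD r → (Fin r → ℕ) × (Fin r → ℕ) :=
  Sum.elim (fun x => (Pi.single x.1 1, 0)) (fun x => (0, Pi.single x.1 1))

/-- the generic points -/
private def gS_FrmD (k : Type) [Field k] (r : ℕ) : Fin r → Fin 2 → MvPolynomial (V_FrmD r) k :=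
  fun j i => MvPolynomial.X (Sum.inl (j, i))

private def gT_FrmD (k : Type) [Field k] (r : ℕ) : Fin r → Fin 2 → MvPolynomial (V_FrmD r) k :=
  fun j i => MvPolynomial.X (Sum.inr (j, i))

/-- the values of the variables -/
private def vl_FrmD {R : Type} (S T : Fin r → Fin 2 → R) : V_FrmD r → R :=
  Sum.elim (fun x => S x.1 x.2) (fun x => T x.1 x.2)

/-- the exponents -/
private def ex_FrmD (a b : Fin r → Fin 3) : V_FrmD r →₀ ℕ :=
  Finsupp.equivFunOnFinite.symm
    (Sum.elim (fun x => if x.2 = 0 then (a x.1 : ℕ) else 2 - (a x.1 : ℕ))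
      (fun x => if x.2 = 0 then (b x.1 : ℕ) else 2 - (b x.1 : ℕ)))

private theorem ev_wt_FrmD (e : Fin r → ℕ) (c : (Fin r → ℕ) → k)
    (S : Fin r → Fin 2 → MvPolynomial (V_FrmD r) k) (d : Fin r → (Fin r → ℕ) × (Fin r → ℕ))
    (hS : ∀ j i, MvPolynomial.IsWeightedHomogeneous (wt_FrmD r) (S j i) (d j)) :
    MvPolynomial.IsWeightedHomogeneous (wt_FrmD r) (ev e c S) (∑ j, e j • d j) := by
  unfold ev
  refine MvPolynomial.IsWeightedHomogeneous.sum _ _ _ fun a ha => ?_
  rw [MvPolynomial.algebraMap_eq]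
  refine MvPolynomial.IsWeightedHomogeneous.C_mul ?_ _
  refine MvPolynomial.IsWeightedHomogeneous.prod _ _ _ fun j _ => ?_
  have h1 := ((hS j 0).pow (a j)).mul ((hS j 1).pow (e j - a j))
  have h2 : a j ≤ e j := by
    have := Fintype.mem_piFinset.1 ha j
    rw [Finset.mem_range] at this
    omega
  rwa [← add_smul, Nat.add_sub_cancel' h2] at h1

private theorem sum_single_FrmD (e : Fin r → ℕ) :
    (∑ j, e j • ((Pi.single j 1 : Fin r → ℕ), (0 : Fin r → ℕ))) = (e, 0) := by
  ext j
  · rw [Prod.fst_sum, Finset.sum_apply, Finset.sum_eq_single j]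
    · simp
    · intro i _ hij
      simp [Ne.symm hij]
    · intro h
      exact absurd (Finset.mem_univ _) h
  · rw [Prod.snd_sum, Finset.sum_apply]
    simp

private theorem sum_single'_FrmD (e : Fin r → ℕ) :
    (∑ j, e j • ((0 : Fin r → ℕ), (Pi.single j 1 : Fin r → ℕ))) = (0, e) := by
  ext j
  · rw [Prod.fst_sum, Finset.sum_apply]
    simp
  · rw [Prod.snd_sum, Finset.sum_apply, Finset.sum_eq_single j]
    · simp
    · intro i _ hij
      simp [Ne.symm hij]
    · intro h
      exact absurd (Finset.mem_univ _) h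

private theorem evS_FrmD (e : Fin r → ℕ) (c : (Fin r → ℕ) → k) :
    MvPolynomial.IsWeightedHomogeneous (wt_FrmD r) (ev e c (gS_FrmD k r)) (e, 0) := by
  have h := ev_wt_FrmD e c (gS_FrmD k r) (fun j => (Pi.single j 1, 0)) fun j i =>
    MvPolynomial.isWeightedHomogeneous_X k (wt_FrmD r) (Sum.inl (j, i))
  rwa [sum_single_FrmD] at h

private theorem evT_FrmD (e : Fin r → ℕ) (c : (Fin r → ℕ) → k) :
    MvPolynomial.IsWeightedHomogeneous (wt_FrmD r) (ev e c (gT_FrmD k r)) (0, e) := by
  have h := ev_wt_FrmD e c (gT_FrmD k r) (fun j => (0, Pi.single j 1)) fun j i =>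
    MvPolynomial.isWeightedHomogeneous_X k (wt_FrmD r) (Sum.inr (j, i))
  rwa [sum_single'_FrmD] at h

/-- the generic determinant -/
private def gP_FrmD (X : Fam k r m) (p q : Fin m → k) : MvPolynomial (V_FrmD r) k :=
  ((X.cv (gS_FrmD k r)).N (X.cv (gT_FrmD k r)) (fun i => algebraMap k _ (p i))
    fun i => algebraMap k _ (q i)).det

private theorem entry_FrmD (X : Fam k r m) (p q : Fin m → k) (l l' : Fin m) :
    MvPolynomial.IsWeightedHomogeneous (wt_FrmD r)
      ((X.cv (gS_FrmD k r)).N (X.cv (gT_FrmD k r)) (fun i => algebraMap k _ (p i))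
        (fun i => algebraMap k _ (q i)) l l') (X.e l, X.e l') := by
  simp only [Col.N, Matrix.of_apply]
  refine MvPolynomial.IsWeightedHomogeneous.sum _ _ _ fun i _ => ?_
  have h1 : MvPolynomial.IsWeightedHomogeneous (wt_FrmD r)
      ((X.cv (gS_FrmD k r)).b i l * (X.cv (gT_FrmD k r)).b i l') (X.e l, X.e l') := by
    have := (evS_FrmD (X.e l) (X.B l i)).mul (evT_FrmD (X.e l') (X.B l' i))
    rwa [Prod.mk_add_mk, add_zero, zero_add] at this
  have h2 : MvPolynomial.IsWeightedHomogeneous (wt_FrmD r)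
      ((X.cv (gS_FrmD k r)).a i l * (X.cv (gT_FrmD k r)).a i l') (X.e l, X.e l') := by
    have := (evS_FrmD (X.e l) (X.A l i)).mul (evT_FrmD (X.e l') (X.A l' i))
    rwa [Prod.mk_add_mk, add_zero, zero_add] at this
  rw [MvPolynomial.algebraMap_eq]
  exact (h1.C_mul _).sub (h2.C_mul _)

private theorem gP_wt_FrmD (X : Fam k r m) (he : ∀ j, ∑ l, X.e l j = 2) (p q : Fin m → k) :
    MvPolynomial.IsWeightedHomogeneous (wt_FrmD r) (gP_FrmD X p q) ((fun _ => 2), fun _ => 2) := by
  unfold gP_FrmD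
  rw [Matrix.det_apply']
  refine MvPolynomial.IsWeightedHomogeneous.sum _ _ _ fun σ _ => ?_
  have h : MvPolynomial.IsWeightedHomogeneous (wt_FrmD r)
      (∏ i, (X.cv (gS_FrmD k r)).N (X.cv (gT_FrmD k r)) (fun i => algebraMap k _ (p i))
        (fun i => algebraMap k _ (q i)) (σ i) i) (∑ i, (X.e (σ i), X.e i)) :=
    MvPolynomial.IsWeightedHomogeneous.prod _ _ _ fun i _ => entry_FrmD X p q (σ i) i
  have h2 : (∑ i, (X.e (σ i), X.e i)) = ((fun _ => 2 : Fin r → ℕ), (fun _ => 2 : Fin r → ℕ)) := by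
    ext j
    · rw [Prod.fst_sum, Finset.sum_apply, ← he j]
      exact Equiv.sum_comp σ fun l => X.e l j
    · rw [Prod.snd_sum, Finset.sum_apply, ← he j]
  rw [h2] at h
  have h3 : ((Equiv.Perm.sign σ : ℤ) : MvPolynomial (V_FrmD r) k) =
      MvPolynomial.C ((Equiv.Perm.sign σ : ℤ) : k) := by
    rw [map_intCast]
  rw [h3]
  exact h.C_mul _

private theorem ex_inj_FrmD (x y : (Fin r → Fin 3) × (Fin r → Fin 3))
    (h : ex_FrmD x.1 x.2 = ex_FrmD y.1 y.2) : x = y := by
  have h' := fun v => DFunLike.congr_fun h v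
  ext j
  · have := h' (Sum.inl (j, 0))
    simpa [ex_FrmD] using this
  · have := h' (Sum.inr (j, 0))
    simpa [ex_FrmD] using this

private theorem ex_surj_FrmD (d : V_FrmD r →₀ ℕ)
    (hd : Finsupp.weight (wt_FrmD r) d = ((fun _ => 2), fun _ => 2)) :
    ∃ a b : Fin r → Fin 3, ex_FrmD a b = d := by
  have h1 : ∀ j, d (Sum.inl (j, 0)) + d (Sum.inl (j, 1)) = 2 := by
    intro j
    have h := congrArg (fun z => z.1 j) hd
    simp only [Finsupp.weight_apply] at h
    rw [Finsupp.sum_fintype _ _ (fun i => by simp), Prod.fst_sum, Finset.sum_apply,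
      Fintype.sum_sum_type, Fintype.sum_prod_type, Fintype.sum_prod_type] at h
    simpa [wt_FrmD, Pi.single_apply, Finset.sum_ite_eq, Fin.sum_univ_two, Finset.sum_add_distrib]
      using h
  have h2 : ∀ j, d (Sum.inr (j, 0)) + d (Sum.inr (j, 1)) = 2 := by
    intro j
    have h := congrArg (fun z => z.2 j) hd
    simp only [Finsupp.weight_apply] at h
    rw [Finsupp.sum_fintype _ _ (fun i => by simp), Prod.snd_sum, Finset.sum_apply,
      Fintype.sum_sum_type, Fintype.sum_prod_type, Fintype.sum_prod_type] at h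
    simpa [wt_FrmD, Pi.single_apply, Finset.sum_ite_eq, Fin.sum_univ_two, Finset.sum_add_distrib]
      using h
  refine ⟨fun j => ⟨d (Sum.inl (j, 0)), by have := h1 j; omega⟩,
    fun j => ⟨d (Sum.inr (j, 0)), by have := h2 j; omega⟩, ?_⟩
  ext v
  rcases v with ⟨j, i⟩ | ⟨j, i⟩
  · fin_cases i
    · simp [ex_FrmD]
    · have := h1 j
      simp [ex_FrmD]
      omega
  · fin_cases i
    · simp [ex_FrmD]
    · have := h2 j
      simp [ex_FrmD]
      omega

private theorem prod_ex_FrmD {R : Type} [CommRing R] (S T : Fin r → Fin 2 → R)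
    (a b : Fin r → Fin 3) : ∏ x, vl_FrmD S T x ^ ex_FrmD a b x =
      (∏ j, mv (S j) (a j)) * ∏ j, mv (T j) (b j) := by
  rw [Fintype.prod_sum_type, Fintype.prod_prod_type, Fintype.prod_prod_type]
  simp [vl_FrmD, ex_FrmD, mv, Fin.prod_univ_two]

/-- a weighted homogeneous polynomial of degree `2` as a value of `bf` -/
private theorem aeval_eq_FrmD (P : MvPolynomial (V_FrmD r) k)
    (hP : MvPolynomial.IsWeightedHomogeneous (wt_FrmD r) P ((fun _ => 2), fun _ => 2))
    {R : Type} [CommRing R] [Algebra k R] (S T : Fin r → Fin 2 → R) :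
    MvPolynomial.aeval (vl_FrmD S T) P = bf (fun a b => P.coeff (ex_FrmD a b)) S T := by
  rw [MvPolynomial.aeval_def, MvPolynomial.eval₂_eq']
  have h1 : bf (fun a b => P.coeff (ex_FrmD a b)) S T =
      ∑ x : (Fin r → Fin 3) × (Fin r → Fin 3), algebraMap k R (P.coeff (ex_FrmD x.1 x.2)) *
        ∏ v, vl_FrmD S T v ^ ex_FrmD x.1 x.2 v := by
    rw [Fintype.sum_prod_type]
    unfold bf
    refine Finset.sum_congr rfl fun a _ => Finset.sum_congr rfl fun b _ => ?_
    rw [prod_ex_FrmD]
  rw [h1, ← Finset.sum_image (s := Finset.univ) (g := fun x : (Fin r → Fin 3) × (Fin r → Fin 3) =>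
    ex_FrmD x.1 x.2) (f := fun d => algebraMap k R (P.coeff d) * ∏ v, vl_FrmD S T v ^ d v)
    (fun x _ y _ h => ex_inj_FrmD x y h)]
  refine Finset.sum_subset ?_ ?_
  · intro d hd
    obtain ⟨a, b, h⟩ := ex_surj_FrmD d (hP (MvPolynomial.mem_support_iff.1 hd))
    exact Finset.mem_image.2 ⟨(a, b), Finset.mem_univ _, h⟩
  · intro d _ hd
    rw [MvPolynomial.notMem_support_iff.1 hd, map_zero, zero_mul]

private theorem aeval_gP_FrmD (X : Fam k r m) (p q : Fin m → k) {R : Type} [CommRing R]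
    [Algebra k R] (S T : Fin r → Fin 2 → R) :
    MvPolynomial.aeval (vl_FrmD S T) (gP_FrmD X p q) =
      ((X.cv S).N (X.cv T) (fun i => algebraMap k R (p i)) fun i => algebraMap k R (q i)).det := by
  unfold gP_FrmD
  rw [AlgHom.map_det]
  congr 1
  ext l l'
  have hS : (fun j i => MvPolynomial.aeval (vl_FrmD S T) (gS_FrmD k r j i)) = S := by
    funext j i
    simp [gS_FrmD, vl_FrmD]
  have hT : (fun j i => MvPolynomial.aeval (vl_FrmD S T) (gT_FrmD k r j i)) = T := by
    funext j i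
    simp [gT_FrmD, vl_FrmD]
  have eS : ∀ (e : Fin r → ℕ) (c : (Fin r → ℕ) → k),
      MvPolynomial.aeval (vl_FrmD S T) (ev e c (gS_FrmD k r)) = ev e c S := by
    intro e c
    rw [← ev_map, hS]
  have eT : ∀ (e : Fin r → ℕ) (c : (Fin r → ℕ) → k),
      MvPolynomial.aeval (vl_FrmD S T) (ev e c (gT_FrmD k r)) = ev e c T := by
    intro e c
    rw [← ev_map, hT]
  simp only [AlgHom.mapMatrix_apply, Matrix.map_apply, Col.N, Matrix.of_apply, Fam.cv, map_sum,
    map_sub, map_mul, AlgHom.commutes, eS, eT]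

/-- THE DETERMINANT AS A FORM.
PROOF. Say that a function `F` of `S`, `T` (for all `k`-algebras `R`) is a form of degree `(d, d')`, `d d' : Fin r → ℕ`, if there are
coefficients `c` with `F S T = ∑ a ∈ piFinset (range (d j + 1)), ∑ b ∈ piFinset (range (d' j + 1)), c a b * ∏ j (S j 0 ^ a j * S j 1 ^ (d j - a j)) *
∏ j (T j 0 ^ b j * T j 1 ^ (d' j - b j))`. Sums and multiples by constants of forms of the same degree are forms, the product of forms of degrees `(d, d')`,
`(f, f')` is a form of degree `(d + f, d' + f')` (coefficients: sums over the pairs with given sums of exponents), so the product over `i` of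
forms of degrees `(d i, d' i)` is a form of degree `(∑ d i, ∑ d' i)`. The entry `l l'` of the matrix is a form of degree `(X.e l, X.e l')`, the products
in `Matrix.det_apply` are forms of degree `(∑ X.e l, ∑ X.e (σ l)) = (2, 2)`. This gives coefficients `D₁`; the determinant is symmetric (`N_tr`,
`Matrix.det_transpose`), so `D a b = (D₁ a b + D₁ b a) / 2` is also right. -/
theorem exists_D [CharZero k] (X : Fam k r m) (he : ∀ j, ∑ l, X.e l j = 2) (p q : Fin m → k) :
    ∃ D : (Fin r → Fin 3) → (Fin r → Fin 3) → k, (∀ a b, D a b = D b a) ∧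
      ∀ (R : Type) [CommRing R] [Algebra k R] (S T : Fin r → Fin 2 → R),
        ((X.cv S).N (X.cv T) (fun i => algebraMap k R (p i)) fun i => algebraMap k R (q i)).det =
          bf D S T := by
  obtain ⟨D₁, h₁⟩ : ∃ D₁ : (Fin r → Fin 3) → (Fin r → Fin 3) → k,
      ∀ (R : Type) [CommRing R] [Algebra k R] (S T : Fin r → Fin 2 → R),
        ((X.cv S).N (X.cv T) (fun i => algebraMap k R (p i)) fun i => algebraMap k R (q i)).det =
          bf D₁ S T :=
    ⟨_, fun R _ _ S T => (aeval_gP_FrmD X p q S T).symm.trans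
      (aeval_eq_FrmD _ (gP_wt_FrmD X he p q) S T)⟩
  refine ⟨fun a b => 1 / 2 * (D₁ a b + D₁ b a), fun a b => by
    change 1 / 2 * (D₁ a b + D₁ b a) = 1 / 2 * (D₁ b a + D₁ a b)
    rw [add_comm (D₁ a b)], ?_⟩
  intro R _ _ S T
  have h2 : bf (fun a b => 1 / 2 * (D₁ a b + D₁ b a)) S T =
      algebraMap k R (1 / 2) * (bf D₁ S T + bf D₁ T S) := by
    unfold bf
    rw [Finset.sum_comm (f := fun a b => algebraMap k R (D₁ a b) *
      ((∏ j, mv (T j) (a j)) * ∏ j, mv (S j) (b j))), ← Finset.sum_add_distrib, Finset.mul_sum]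
    refine Finset.sum_congr rfl fun a _ => ?_
    rw [← Finset.sum_add_distrib, Finset.mul_sum]
    refine Finset.sum_congr rfl fun b _ => ?_
    rw [map_mul, map_add]
    ring
  have h3 : bf D₁ T S = bf D₁ S T := by
    rw [← h₁ R T S, ← h₁ R S T, N_tr, Matrix.det_transpose]
  rw [h2, h3, h₁ R S T, ← two_mul, ← mul_assoc, ← map_ofNat (algebraMap k R) 2, ← map_mul]
  rw [one_div, inv_mul_cancel₀ (two_ne_zero : (2 : k) ≠ 0), map_one, one_mul]

end Pool.Agent.DTU
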