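import Pool.Agent.DTU.Defs

/-!
# Null vectors of square matrices
-/

set_option autoImplicit false

noncomputable section

namespace Pool.Agent.DTU

open Matrix
open scoped Classical

section Field

variable {K : Type} [Field K] {m : ℕ}

private theorem upd_Lin (N : Matrix (Fin m) (Fin m) K) (j : Fin m) (r v : Fin m → K) :
    v ᵥ* N.updateRow j r = v ᵥ* N.updateRow j 0 + v j • r := by
  funext t
  have h1 : (∑ l, if l = j then v j * r t else 0) = v j * r t := by
    rw [Finset.sum_ite_eq' Finset.univ j]
    simp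
  simp only [Matrix.vecMul, dotProduct, Pi.add_apply, Pi.smul_apply, smul_eq_mul]
  rw [← h1, ← Finset.sum_add_distrib]
  refine Finset.sum_congr rfl fun l _ => ?_
  by_cases hl : l = j
  · subst hl
    simp
  · simp [hl]

private theorem upd_self_Lin (N : Matrix (Fin m) (Fin m) K) (j : Fin m) (v : Fin m → K) :
    v ᵥ* N = v ᵥ* N.updateRow j 0 + v j • N j := by
  have h := upd_Lin N j (N j) v
  rwa [Matrix.updateRow_eq_self] at h

/-- (`Matrix.exists_vecMul_eq_zero_iff`) -/
theorem exists_null {N : Matrix (Fin m) (Fin m) K} (h : N.det = 0) : ∃ b, b ≠ 0 ∧ b ᵥ* N = 0 := by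
  obtain ⟨v, hv, hv'⟩ := Matrix.exists_vecMul_eq_zero_iff.2 h
  exact ⟨v, hv, hv'⟩

/-- (`Matrix.exists_vecMul_eq_zero_iff`) -/
theorem det_of_null {N : Matrix (Fin m) (Fin m) K} {b : Fin m → K} (hb : b ≠ 0) (h : b ᵥ* N = 0) :
    N.det = 0 :=
  Matrix.exists_vecMul_eq_zero_iff.1 ⟨b, hb, h⟩

theorem nul_ne {N : Matrix (Fin m) (Fin m) K} (h : N.adjugate ≠ 0) : nul N ≠ 0 := by
  have hx : ∃ l, N.adjugate l ≠ 0 := by
    by_contra hc
    push Not at hc
    exact h (funext hc)
  rw [nul, dif_pos hx]
  exact hx.choose_spec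

/-- the rows of the adjugate matrix are null vectors (`Matrix.adjugate_mul`) -/
theorem nul_vecMul {N : Matrix (Fin m) (Fin m) K} (h : N.det = 0) : nul N ᵥ* N = 0 := by
  rw [nul]
  split_ifs with hx
  · have h1 : N.adjugate * N = 0 := by
      rw [Matrix.adjugate_mul, h, zero_smul]
    funext t
    have h2 := congrFun (congrFun h1 hx.choose) t
    rw [Matrix.mul_apply] at h2
    exact h2
  · exact Matrix.zero_vecMul N

/-- If there are two linearly independent left null vectors then the adjugate matrix is zero.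
PROOF. The entry `i j` of the adjugate is `det (N.updateRow j (Pi.single i 1))` (`Matrix.adjugate_apply`). There is a
combination `b'' ≠ 0` of `b`, `b'` with `b'' j = 0`; then `b'' ᵥ* N.updateRow j _ = b'' ᵥ* N = 0`, so the determinant is zero
(`det_of_null`). -/
theorem adj_zero {N : Matrix (Fin m) (Fin m) K} {b b' : Fin m → K} (h : b ᵥ* N = 0)
    (h' : b' ᵥ* N = 0) (hi : ∀ x y : K, x • b + y • b' = 0 → x = 0 ∧ y = 0) : N.adjugate = 0 := by
  have hb : b ≠ 0 := by
    rintro rfl
    have := (hi 1 0 (by simp)).1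
    exact one_ne_zero this
  ext i j
  rw [Matrix.adjugate_apply, Matrix.zero_apply]
  by_cases hj : b j = 0
  · refine det_of_null hb ?_
    rw [upd_Lin, hj, zero_smul, add_zero]
    have h1 := upd_self_Lin N j b
    rw [hj, zero_smul, add_zero] at h1
    rw [← h1, h]
  · have hne : b' j • b + (-(b j)) • b' ≠ 0 := by
      intro h0
      have := (hi _ _ h0).2
      exact hj (neg_eq_zero.1 this)
    have hz : (b' j • b + (-(b j)) • b') j = 0 := by
      simp only [Pi.add_apply, Pi.smul_apply, smul_eq_mul]
      ring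
    have hv : (b' j • b + (-(b j)) • b') ᵥ* N = 0 := by
      rw [Matrix.add_vecMul, Matrix.smul_vecMul, Matrix.smul_vecMul, h, h', smul_zero, smul_zero,
        add_zero]
    refine det_of_null hne ?_
    rw [upd_Lin, hz, zero_smul, add_zero]
    have h1 := upd_self_Lin N j (b' j • b + (-(b j)) • b')
    rw [hz, zero_smul, add_zero] at h1
    rw [← h1, hv]

/-- the left null vector is unique up to a factor (`adj_zero`) -/
theorem nul_unique {N : Matrix (Fin m) (Fin m) K} (hN : N.adjugate ≠ 0) {b : Fin m → K}
    (hb : b ≠ 0) (h : b ᵥ* N = 0) : ∃ r : K, r ≠ 0 ∧ nul N = r • b := by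
  have hn := nul_ne hN
  have hv := nul_vecMul (det_of_null hb h)
  by_cases hi : ∀ x y : K, x • b + y • nul N = 0 → x = 0 ∧ y = 0
  · exact absurd (adj_zero h hv hi) hN
  · push Not at hi
    obtain ⟨x, y, hxy, hne⟩ := hi
    have hy : y ≠ 0 := by
      intro hy
      rw [hy, zero_smul, add_zero] at hxy
      rcases smul_eq_zero.1 hxy with hx | hx
      · exact hne hx hy
      · exact hb hx
    have hx : x ≠ 0 := by
      intro hx
      rw [hx, zero_smul, zero_add] at hxy
      rcases smul_eq_zero.1 hxy with h0 | h0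
      · exact hy h0
      · exact hn h0
    refine ⟨-(x / y), neg_ne_zero.2 (div_ne_zero hx hy), ?_⟩
    have h1 : y • nul N = -(x • b) := by
      rw [eq_neg_iff_add_eq_zero, add_comm]
      exact hxy
    have h2 : nul N = y⁻¹ • (y • nul N) := by
      rw [smul_smul, inv_mul_cancel₀ hy, one_smul]
    rw [h2, h1, smul_neg, smul_smul, neg_smul, div_eq_inv_mul]

/-- If the adjugate matrix is zero then there is a second null vector.
PROOF. Let `b j ≠ 0`. For every `i` the determinant of `N.updateRow j (Pi.single i 1)` is zero (`Matrix.adjugate_apply`), so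
there is a vector `c i ≠ 0` with `c i ᵥ* N.updateRow j (Pi.single i 1) = 0`. If `c i j = 0` for some `i` then `c i ᵥ* N = 0`, and `b`, `c i` are
linearly independent (`b j ≠ 0`, `c i ≠ 0`). Otherwise the vectors `- (c i) / (c i j)`, with the entry `j` replaced by zero, show that all unit
vectors are combinations of the rows of `N.updateRow j 0`: there is a matrix `S` with `S * N.updateRow j 0 = 1`, but
the determinant of `N.updateRow j 0` is zero, contradiction. -/
theorem exists_indep {N : Matrix (Fin m) (Fin m) K} (hN : N.adjugate = 0) {b : Fin m → K}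
    (hb : b ≠ 0) (h : b ᵥ* N = 0) :
    ∃ b', b' ᵥ* N = 0 ∧ ∀ x y : K, x • b + y • b' = 0 → x = 0 ∧ y = 0 := by
  obtain ⟨j, hj⟩ : ∃ j, b j ≠ 0 := by
    by_contra hc
    push Not at hc
    exact hb (funext hc)
  have hdet : ∀ i, (N.updateRow j (Pi.single i 1)).det = 0 := by
    intro i
    rw [← Matrix.adjugate_apply, hN, Matrix.zero_apply]
  choose c hc hcN using fun i => exists_null (hdet i)
  by_cases hz : ∃ i, c i j = 0
  · obtain ⟨i, hi⟩ := hz
    refine ⟨c i, ?_, ?_⟩
    · have h1 := upd_Lin N j (Pi.single i 1) (c i)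
      rw [hcN i, hi, zero_smul, add_zero] at h1
      rw [upd_self_Lin N j (c i), hi, zero_smul, add_zero, ← h1]
    · intro x y hxy
      have h1 := congrFun hxy j
      simp only [Pi.add_apply, Pi.smul_apply, smul_eq_mul, hi, mul_zero, add_zero,
        Pi.zero_apply] at h1
      have hx : x = 0 := (mul_eq_zero.1 h1).resolve_right hj
      refine ⟨hx, ?_⟩
      rw [hx, zero_smul, zero_add] at hxy
      exact (smul_eq_zero.1 hxy).resolve_right (hc i)
  · exfalso
    push Not at hz
    have hS : (Matrix.of fun i l => -(c i l) / c i j) * N.updateRow j 0 = 1 := by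
      ext i t
      have h1 := congrFun (upd_Lin N j (Pi.single i 1) (c i)) t
      rw [hcN i] at h1
      simp only [Matrix.vecMul, dotProduct, Pi.add_apply, Pi.smul_apply, smul_eq_mul,
        Pi.zero_apply] at h1
      have h2 : ((Matrix.of fun i l => -(c i l) / c i j) * N.updateRow j 0) i t =
          -(∑ l, c i l * N.updateRow j 0 l t) / c i j := by
        rw [Matrix.mul_apply, neg_div, Finset.sum_div, ← Finset.sum_neg_distrib]
        refine Finset.sum_congr rfl fun l _ => ?_
        rw [Matrix.of_apply]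
        ring
      have h3 : (∑ l, c i l * N.updateRow j 0 l t) = -(c i j * (Pi.single i 1 : Fin m → K) t) :=
        eq_neg_of_add_eq_zero_left h1.symm
      rw [h2, h3, neg_neg, mul_div_cancel_left₀ _ (hz i), Matrix.one_apply]
      by_cases hit : i = t
      · subst hit
        simp
      · rw [if_neg hit, Pi.single_eq_of_ne (Ne.symm hit)]
    have hd : (N.updateRow j 0).det = 0 :=
      Matrix.det_eq_zero_of_row_eq_zero j fun t => by simp
    have h4 := congrArg Matrix.det hS
    rw [Matrix.det_mul, hd, mul_zero, Matrix.det_one] at h4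
    exact zero_ne_one h4

end Field

end Pool.Agent.DTU
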