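import Pool.Agent.DTU.VEf

/-!
# Pairs of points of the hypersurface and the function `Ef`
-/

set_option autoImplicit false

noncomputable section

namespace Pool.Agent.DTU

open Matrix
open Pool.Agent.ZCyc Pool.Agent.Dess Pool.Agent.GT Pool.Agent.TInc
open Pool.Agent.HGF (fst snd vlo)
open Pool.Agent.GOC (vo po)
open scoped Classical

variable {k : Type} [Field k] [IsAlgClosed k] [CharZero k] {r m : ℕ} {X : Fam k r m}
  {R W : Type} [Field R] [AddCommGroup W] [Module R W] {χ : Fin m → k → R}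

/-- For a pair of points of `X` either all class functions are zero at this pair or all are given by `Ef`.
PROOF. If a coordinate `w i` or `w' i` is `0` or `∞` then all `E` are zero (`zero_left`, `zero_right` for `hE.fcls`). Otherwise `w i = some (ω i)`, `w' i = some (ω' i)`, `c i = ω i * ω' i ≠ 0`. Let
`b ≠ 0` be orthogonal to all `γ_i` (`on_iff`), so `ω_i ^ M_i (b · β_i) = b · α_i` (`ga_some`), and `∑ a_i γ'_i = 0`, `a ≠ 0` (`on_iff'`). If `b · α_i = 0` for one `i` then `b · β_i = 0` and the coordinate `w i`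
is arbitrary (`on_free`), all `E` are zero (`free_left`). If `a_i = 0` for one `i` then the coordinate `w' i` is arbitrary (`on_free'`, `free_right`). Otherwise let
`θ_i = a_i / (b · α_i) ≠ 0`; `b N = - ∑ θ_i (b · α_i) γ'_i = 0` (`vecMul_ga` with `q = θ`), so the determinant is zero (`det_of_null`) and `E z w z' w' = Eb` for `b` (`Eb_eq`; `c_i / ω_i = ω'_i`; `b · β_i ≠ 0`)
`= Ef` (`Ef_eq`). -/
theorem onT [CharZero R] (hM : ∀ i, 0 < X.M i) (hχ : HYG.Chars X.M χ)
    {z z' : Fin r → Option k} {w w' : Fin m → Option k} (h : On X z w) (h' : On X z' w') :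
    (∀ E : (Fin r → Option k) → (Fin m → Option k) → (Fin r → Option k) → (Fin m → Option k) → W,
      IsCls₂ X χ E → E z w z' w' = 0) ∨
    ∃ θ c : Fin m → k, (∀ i, θ i ≠ 0) ∧ (∀ i, c i ≠ 0) ∧ (X.Nm θ c z z').det = 0 ∧
      ∀ E : (Fin r → Option k) → (Fin m → Option k) → (Fin r → Option k) → (Fin m → Option k) → W,
        IsCls₂ X χ E → E z w z' w' = Ef X E θ (fun i => some (c i)) z z' := by
  by_cases hw : ∃ i, w i = none ∨ w i = some 0
  · obtain ⟨i, hi⟩ := hw
    exact Or.inl fun E hE => FCls.zero_left hχ (hE.fcls z z') hi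
  by_cases hw' : ∃ i, w' i = none ∨ w' i = some 0
  · obtain ⟨i, hi⟩ := hw'
    exact Or.inl fun E hE => FCls.zero_right hχ (hE.fcls z z') hi
  push Not at hw hw'
  have h1 : ∀ i, ∃ x : k, w i = some x ∧ x ≠ 0 := by
    intro i
    rcases hx : w i with _ | x
    · exact absurd hx (hw i).1
    · exact ⟨x, rfl, fun h0 => (hw i).2 (by rw [hx, h0])⟩
  have h2 : ∀ i, ∃ x : k, w' i = some x ∧ x ≠ 0 := by
    intro i
    rcases hx : w' i with _ | x
    · exact absurd hx (hw' i).1
    · exact ⟨x, rfl, fun h0 => (hw' i).2 (by rw [hx, h0])⟩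
  choose ω hω hω0 using h1
  choose ω' hω' hω'0 using h2
  have eω : w = fun i => some (ω i) := funext hω
  have eω' : w' = fun i => some (ω' i) := funext hω'
  subst eω eω'
  obtain ⟨b, hb, hbγ⟩ := on_iff.1 h
  obtain ⟨a, ha, haγ⟩ := on_iff'.1 h'
  have hbw : ∀ i, ω i ^ X.M i * (b ⬝ᵥ (X.col z).b i) = b ⬝ᵥ (X.col z).a i := by
    intro i
    have h3 := hbγ i
    rw [ga_some, dotProduct_sub, dotProduct_smul, smul_eq_mul, sub_eq_zero] at h3
    exact h3.symm
  by_cases hbα : ∃ i, b ⬝ᵥ (X.col z).a i = 0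
  · obtain ⟨i, hi⟩ := hbα
    have hi' : b ⬝ᵥ (X.col z).b i = 0 := by
      have h3 := hbw i
      rw [hi] at h3
      exact (mul_eq_zero.1 h3).resolve_left (pow_ne_zero _ (hω0 i))
    refine Or.inl fun E hE => ?_
    exact FCls.free_left hM hχ (hE.fcls z z')
      (fun y => on_free hb hi hi' (fun j _ => hbγ j) y) h'
  by_cases haz : ∃ i, a i = 0
  · obtain ⟨i, hi⟩ := haz
    refine Or.inl fun E hE => ?_
    exact FCls.free_right hM hχ (hE.fcls z z') h (fun y => on_free' ha hi haγ y)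
  push Not at hbα haz
  have hbβ : ∀ i, b ⬝ᵥ (X.col z).b i ≠ 0 := by
    intro i h3
    have h4 := hbw i
    rw [h3, mul_zero] at h4
    exact hbα i h4.symm
  right
  have hnull : b ᵥ* X.Nm (fun i => a i / (b ⬝ᵥ (X.col z).a i)) (fun i => ω i * ω' i) z z' = 0 := by
    unfold Fam.Nm
    rw [vecMul_ga hbw]
    have h3 : ∀ i, a i / (b ⬝ᵥ (X.col z).a i) * (b ⬝ᵥ (X.col z).a i) = a i := fun i =>
      div_mul_cancel₀ _ (hbα i)
    simp only [h3]
    rw [haγ, neg_zero]
  refine ⟨fun i => a i / (b ⬝ᵥ (X.col z).a i), fun i => ω i * ω' i,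
    fun i => div_ne_zero (haz i) (hbα i), fun i => mul_ne_zero (hω0 i) (hω'0 i),
    det_of_null hb hnull, fun E hE => ?_⟩
  rw [Ef_eq hM hχ hE (fun i => div_ne_zero (haz i) (hbα i))
    (fun i => mul_ne_zero (hω0 i) (hω'0 i)) hb hnull,
    Eb_eq hM hχ (hE.fcls z z') hω0 hbw hbβ]
  have h3 : (fun i => some (ω i * ω' i / ω i)) = fun i => some (ω' i) := by
    funext i
    rw [mul_div_cancel_left₀ _ (hω0 i)]
  rw [h3]

end Pool.Agent.DTU
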