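import Pool.Agent.DTU.Val

/-!
# Points with the same coordinates except one, independence of the coordinates with a trivial character
-/

set_option autoImplicit false

noncomputable section

namespace Pool.Agent.DTU

open Matrix
open Pool.Agent.ZCyc Pool.Agent.Dess Pool.Agent.GT Pool.Agent.TInc
open Pool.Agent.VFP (Om tt)
open Pool.Agent.HGF (fst snd vlo)
open Pool.Agent.GOC (vo po)
open scoped Classical

section

variable {k : Type} [Field k] {r m : ℕ} {X : Fam k r m} {K : Type} [Field K] [Algebra k K]

/-- the determinant -/
def Fam.val (X : Fam k r m) (z : Fin r → Option K) (w : Fin m → Option K) : K :=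
  (Matrix.of ((X.col z).ga X.M w)).det

private theorem ga_upd_Upd (C : Col K m) (M : Fin m → ℕ) (w : Fin m → Option K) (i : Fin m)
    (y : Option K) :
    Matrix.of (C.ga M (Function.update w i y)) =
      (Matrix.of (C.ga M w)).updateRow i ((snd y ^ M i) • C.a i + (fst y ^ M i) • (-C.b i)) := by
  ext j l
  rw [Matrix.of_apply]
  unfold Col.ga
  by_cases h : j = i
  · subst h
    rw [Matrix.updateRow_self, Function.update_self, Pi.add_apply, Pi.smul_apply, Pi.smul_apply,
      Pi.neg_apply, smul_eq_mul, smul_eq_mul]
    ring
  · rw [Matrix.updateRow_ne h, Matrix.of_apply, Function.update_of_ne h]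

/-- The determinant is a linear form in `fst (w i) ^ M i`, `snd (w i) ^ M i` with coefficients which
are the values for `w i = none` and `w i = some 0` (up to sign) (`fst none = 1`, `snd none = 0`, `fst (some 0) =
0`, `snd (some 0) = 1`, `0 ^ M i = 0`). The coordinate `w i` appears only in the row `i`: `ga M (update w i y)` is `updateRow` of the matrix; `Matrix.det_updateRow_add`, `Matrix.det_updateRow_smul`. -/
theorem val_upd {i : Fin m} (hM : 0 < X.M i) (z : Fin r → Option K) (w : Fin m → Option K)
    (y : Option K) :
    X.val z (Function.update w i y) =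
      snd y ^ X.M i * X.val z (Function.update w i (some 0)) +
        fst y ^ X.M i * X.val z (Function.update w i none) := by
  unfold Fam.val
  rw [ga_upd_Upd, ga_upd_Upd, ga_upd_Upd, HGF.fst_some, HGF.fst_none, HGF.snd_some, HGF.snd_none,
    zero_pow hM.ne', one_pow, zero_smul, zero_smul, add_zero, zero_add, one_smul, one_smul,
    Matrix.det_updateRow_add, Matrix.det_updateRow_smul, Matrix.det_updateRow_smul]

/-- (`IsAlgClosed.exists_pow_nat_eq`: if the coefficient of `fst y ^ M` is not zero solve for `y`,
otherwise take `y = none`) -/
theorem exists_upd [IsAlgClosed K] {i : Fin m} (hM : 0 < X.M i) (z : Fin r → Option K)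
    (w : Fin m → Option K) : ∃ y, On X z (Function.update w i y) := by
  by_cases hB : X.val z (Function.update w i none) = 0
  · exact ⟨none, hB⟩
  · obtain ⟨x, hx⟩ := IsAlgClosed.exists_pow_nat_eq
      (-X.val z (Function.update w i (some 0)) / X.val z (Function.update w i none)) hM
    refine ⟨some x, ?_⟩
    show X.val z (Function.update w i (some x)) = 0
    rw [val_upd hM, HGF.snd_some, HGF.fst_some, hx, one_pow, one_mul, div_mul_cancel₀ _ hB]
    ring

/-- if the two coefficients are not both zero then the coordinate is unique up to a root of unity (`GOY.upd_unique`) -/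
theorem upd_unique [IsAlgClosed k] {i : Fin m} (hM : 0 < X.M i) {z : Fin r → Option k}
    {w : Fin m → Option k} {y y' : Option k} (h : On X z (Function.update w i y))
    (h' : On X z (Function.update w i y'))
    (h0 : X.val z (Function.update w i (some 0)) ≠ 0 ∨
      X.val z (Function.update w i none) ≠ 0) :
    ∃ u : k, u ^ X.M i = 1 ∧ y' = y.map fun x => u * x := by
  have e1 : X.val z (Function.update w i y) = 0 := h
  have e2 : X.val z (Function.update w i y') = 0 := h'
  rw [val_upd hM] at e1 e2
  by_cases hb : X.val z (Function.update w i none) = 0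
  · have ha : X.val z (Function.update w i (some 0)) ≠ 0 := by
      rcases h0 with h1 | h1
      · exact h1
      · exact absurd hb h1
    have hn : ∀ x : Option k, snd x ^ X.M i * X.val z (Function.update w i (some 0)) +
        fst x ^ X.M i * X.val z (Function.update w i none) = 0 → x = none := by
      intro x hx
      rw [hb, mul_zero, add_zero] at hx
      cases x with
      | none => rfl
      | some t =>
        rw [HGF.snd_some, one_pow, one_mul] at hx
        exact absurd hx ha
    refine ⟨1, one_pow _, ?_⟩
    rw [hn _ e1, hn _ e2]
    rfl
  · have hsm : ∀ x : Option k, snd x ^ X.M i * X.val z (Function.update w i (some 0)) +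
        fst x ^ X.M i * X.val z (Function.update w i none) = 0 →
        ∃ u, x = some u ∧ u ^ X.M i * X.val z (Function.update w i none) =
          -X.val z (Function.update w i (some 0)) := by
      intro x hx
      cases x with
      | none =>
        rw [HGF.snd_none, HGF.fst_none, zero_pow hM.ne', zero_mul, one_pow, one_mul,
          zero_add] at hx
        exact absurd hx hb
      | some u =>
        refine ⟨u, rfl, ?_⟩
        rw [HGF.snd_some, HGF.fst_some, one_pow, one_mul] at hx
        linear_combination hx
    obtain ⟨a, hy', h1⟩ := hsm _ e1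
    obtain ⟨b, hz', h2⟩ := hsm _ e2
    have h3 : a ^ X.M i = b ^ X.M i := mul_right_cancel₀ hb (h1.trans h2.symm)
    by_cases hy0 : a = 0
    · have hz1 : b = 0 := by
        rw [hy0, zero_pow hM.ne'] at h3
        exact (pow_eq_zero_iff hM.ne').1 h3.symm
      refine ⟨1, one_pow _, ?_⟩
      rw [hy', hz', hy0, hz1, Option.map_some, mul_zero]
    · refine ⟨b / a, ?_, ?_⟩
      · rw [div_pow, h3, div_self]
        rw [← h3]
        exact pow_ne_zero _ hy0
      · rw [hy', hz', Option.map_some, div_mul_cancel₀ _ hy0]

end

variable {k : Type} [Field k] [IsAlgClosed k] [CharZero k] {r m : ℕ} {X : Fam k r m}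
  {R W : Type} [Field R] [AddCommGroup W] [Module R W] {χ : Fin m → k → R}
  {E : (Fin r → Option k) → (Fin m → Option k) → W}

private lemma tt_ne_Upd : tt k ≠ 0 := by
  intro h0
  obtain ⟨v', hv'⟩ := HYG.exists_place_tt (k := k) 1
  rw [h0] at hv'
  have h1 : v'.At (0 : Om k) 0 := Place.at_zero_iff.2 v'.vanishes_zero
  exact one_ne_zero (hv'.unique h1)

/-- the inverse of an element with the value zero -/
private lemma inv_none_Upd {v : Place k (Om k)} {f : Om k} (hv : v.At f 0) (hf : f ≠ 0) :
    vlo v (some f⁻¹) = none := by
  rw [HGF.vlo_some, HYG.vl_none_om]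
  rcases (v.vanishes_iff_or _).1 (Place.at_zero_iff.1 hv) with h1 | h1
  · exact absurd h1 hf
  · exact h1

omit [IsAlgClosed k] [CharZero k] in
private lemma map_upd_Upd (w : Fin m → Option k) (i : Fin m) (y : Option k) :
    (fun l => (Function.update w i y l).map (algebraMap k (Om k))) =
      Function.update (fun l => (w l).map (algebraMap k (Om k))) i
        (y.map (algebraMap k (Om k))) := by
  funext l
  by_cases hl : l = i
  · subst hl
    rw [Function.update_self, Function.update_self]
  · rw [Function.update_of_ne hl, Function.update_of_ne hl]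

omit [IsAlgClosed k] [CharZero k] in
private lemma cst_upd_Upd {w : Fin m → Option k} {i : Fin m} (v : Place k (Om k))
    (y : Option (Om k)) :
    (fun l => vlo v (Function.update (fun l => (w l).map (algebraMap k (Om k))) i y l)) =
      Function.update w i (vlo v y) := by
  funext l
  by_cases hl : l = i
  · subst hl
    rw [Function.update_self, Function.update_self]
  · rw [Function.update_of_ne hl, Function.update_of_ne hl]
    exact HGF.vlo_const v _

/-- FREE LINE. If both coefficients of the equation in the coordinate `i` are zero, then the coordinate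
`i` is arbitrary and `E` does not depend on it: `bridge₁` for the path `some tt` between two finite
values, and for `some (tt⁻¹)` between infinity and `1` (`GOY.free`). -/
theorem free [CharZero R] (hE : IsCls₁ X χ E) {i : Fin m} (hM : 0 < X.M i) {z : Fin r → Option k}
    {P : Fin m → Option k} (h0 : X.val z (Function.update P i (some 0)) = 0)
    (h1 : X.val z (Function.update P i none) = 0) (x y : Option k) :
    E z (Function.update P i x) = E z (Function.update P i y) := by
  have hall : ∀ y : Option (Om k), On X (fun l => (z l).map (algebraMap k (Om k)))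
      (Function.update (fun l => (P l).map (algebraMap k (Om k))) i y) := by
    intro y
    have e0 : On X (fun l => (z l).map (algebraMap k (Om k)))
        (fun l => (Function.update P i (some 0) l).map (algebraMap k (Om k))) :=
      (onX_cst (X := X)).2 h0
    have e1 : On X (fun l => (z l).map (algebraMap k (Om k)))
        (fun l => (Function.update P i none l).map (algebraMap k (Om k))) :=
      (onX_cst (X := X)).2 h1
    rw [map_upd_Upd, Option.map_some, map_zero] at e0
    rw [map_upd_Upd, Option.map_none] at e1
    have e0' : X.val (fun l => (z l).map (algebraMap k (Om k)))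
        (Function.update (fun l => (P l).map (algebraMap k (Om k))) i (some 0)) = 0 := e0
    have e1' : X.val (fun l => (z l).map (algebraMap k (Om k)))
        (Function.update (fun l => (P l).map (algebraMap k (Om k))) i none) = 0 := e1
    show X.val (fun l => (z l).map (algebraMap k (Om k)))
        (Function.update (fun l => (P l).map (algebraMap k (Om k))) i y) = 0
    rw [val_upd hM, e0', e1', mul_zero, mul_zero, add_zero]
  obtain ⟨e, he⟩ : ∃ e : Option k → W, ∀ y, e y = E z (Function.update P i y) :=
    ⟨_, fun _ => rfl⟩
  have hcz : ∀ v : Place k (Om k),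
      (fun l => vlo v ((z l).map (algebraMap k (Om k)))) = z := fun v =>
    funext fun l => HGF.vlo_const v _
  have hpath : ∀ (y : Option (Om k)) (c₀ c₁ : k) (z₀ z₁ : Option k),
      (∀ v : Place k (Om k), v.At (tt k) c₀ → vlo v y = z₀) →
      (∀ v : Place k (Om k), v.At (tt k) c₁ → vlo v y = z₁) → e z₀ = e z₁ := by
    intro y c₀ c₁ z₀ z₁ h0 h1
    refine bridge₁ hE (hall y) (c₀ := c₀) (c₁ := c₁) (fun v hv => ?_) (fun v hv => ?_)
    · rw [hcz, cst_upd_Upd, h0 v hv, he]
    · rw [hcz, cst_upd_Upd, h1 v hv, he]
  have hfin : ∀ c c' : k, e (some c) = e (some c') := fun c c' =>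
    hpath (some (tt k)) c c' _ _ (fun v hv => HGF.vlo_at hv) (fun v hv => HGF.vlo_at hv)
  have hinf : e none = e (some 1) :=
    hpath (some (tt k)⁻¹) 0 1 _ _ (fun v hv => inv_none_Upd hv tt_ne_Upd)
      (fun v hv => HGF.vlo_at (by
        have h1 := hv.inv one_ne_zero
        rwa [inv_one] at h1))
  have hz : ∀ y, e y = e (some 1) := by
    intro y
    cases y with
    | none => exact hinf
    | some c => exact hfin c 1
  rw [← he, ← he, hz x, hz y]

/-- Two points which differ only in the coordinate `i`, whose character is trivial, have the same
value: `upd_unique` or `free` (`GOY.coord_eq`). -/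
theorem coord_eq [CharZero R] (hE : IsCls₁ X χ E) {i : Fin m} (hM : 0 < X.M i)
    (hi : ∀ u, u ^ X.M i = 1 → χ i u = 1) {z : Fin r → Option k} {P : Fin m → Option k}
    {y : Option k} (hP : On X z P) (hy : On X z (Function.update P i y)) :
    E z (Function.update P i y) = E z P := by
  by_cases hab : X.val z (Function.update P i (some 0)) ≠ 0 ∨
      X.val z (Function.update P i none) ≠ 0
  · have hP' : On X z (Function.update P i (P i)) := by rwa [Function.update_eq_self]
    obtain ⟨u, hu, hw⟩ := upd_unique hM hy hP' hab
    have h1 : HYG.rot i u (Function.update P i y) = P := by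
      unfold HYG.rot
      rw [Function.update_self, Function.update_idem, ← hw, Function.update_eq_self]
    have h2 := hE.rot z (Function.update P i y) i u hu
    rw [h1, hi u hu, one_smul] at h2
    exact h2.symm
  · push Not at hab
    have h1 := free hE hM hab.1 hab.2 y (P i)
    rwa [Function.update_eq_self] at h1

end Pool.Agent.DTU
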