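import Pool.Agent.DTU.Val
import Pool.Agent.DTU.FRank

/-!
# The function `Ef` and the values of class functions
-/

set_option autoImplicit false

noncomputable section

namespace Pool.Agent.DTU

open Matrix
open Pool.Agent.ZCyc Pool.Agent.Dess Pool.Agent.GT Pool.Agent.TInc
open Pool.Agent.HGF (fst snd vlo)
open Pool.Agent.GOC (vo po)
open scoped Classical

variable {k : Type} [Field k] [IsAlgClosed k] [CharZero k] {r m : ℕ} {X : Fam k r m}
  {R W : Type} [Field R] [AddCommGroup W] [Module R W] {χ : Fin m → k → R}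
  {E : (Fin r → Option k) → (Fin m → Option k) → (Fin r → Option k) → (Fin m → Option k) → W}

/-- a coordinate of `c` is `0` or `∞` (`if_neg`) -/
theorem Ef_bad {θ : Fin m → k} {c : Fin m → Option k} {z z' : Fin r → Option k} {i : Fin m}
    (h : c i = none ∨ c i = some 0) : Ef X E θ c z z' = 0 := by
  unfold Ef
  rw [if_neg]
  rintro ⟨h1, _⟩
  rcases h with h | h
  · exact (h1 i).1 h
  · exact (h1 i).2 h

/-- `Ef` is the value `Eb` for every left null vector. (If the adjugate is zero both sides are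
zero: `rank_zero`. Otherwise `nul_unique`, `Eb_smul`; `fst (some (c i)) = c i`.) -/
theorem Ef_eq [CharZero R] (hM : ∀ i, 0 < X.M i) (hχ : HYG.Chars X.M χ) (hE : IsCls₂ X χ E)
    {θ c : Fin m → k} (hθ : ∀ i, θ i ≠ 0) (hc : ∀ i, c i ≠ 0) {z z' : Fin r → Option k}
    {b : Fin m → k} (hb : b ≠ 0) (h : b ᵥ* X.Nm θ c z z' = 0) :
    Ef X E θ (fun i => some (c i)) z z' =
      Eb (X.col z) X.M (fun w w' => E z w z' w') c b := by
  unfold Ef
  change (if (∀ i, (some (c i) : Option k) ≠ none ∧ (some (c i) : Option k) ≠ some 0) ∧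
      (X.Nm θ c z z').adjugate ≠ 0 then
    Eb (X.col z) X.M (fun w w' => E z w z' w') c (nul (X.Nm θ c z z')) else 0) =
      Eb (X.col z) X.M (fun w w' => E z w z' w') c b
  by_cases hN : (X.Nm θ c z z').adjugate = 0
  · rw [if_neg (fun h1 => h1.2 hN)]
    exact (rank_zero hM hχ (hE.fcls z z') hc hθ hb h hN).symm
  · rw [if_pos ⟨fun i => ⟨Option.some_ne_none _, fun h1 => hc i (Option.some.inj h1)⟩, hN⟩]
    obtain ⟨r, hr, h1⟩ := nul_unique hN hb h
    rw [h1, Eb_smul hr]

/-- THE VALUES. Let `z`, `z'` be points over `K`, `w_i`, `w'_i` in `K`, `w_i ≠ 0`, and `b ≠ 0` a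
vector over `K` with `w_i ^ M_i (b · β_i) = b · α_i` and `b N = 0`, where `N` is formed with `c_i
= w_i w'_i`, and `b · α_i ≠ 0` for one `i`. Then the value of `E` at the values of the two points
is the value of `Ef` at the values of `c`, `z` and `z'`. PROOF. If a product `w_i w'_i` has the
value `0` or `∞` then both sides are zero (`vlo_bad` for `hE.fcls`, `Ef_bad`). Otherwise they have
the values `c₁ i ≠ 0` (`GOY.val_cases`). Take `lam`, `lam'` from `exists_lam`, `r`, `b₁` from
`exists_lim`. The point `w'` lies on the fibre (`on_right`). `vlo_Eb` with `D = X.col z`, `C =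
X.col (vlo v ∘ z)`: the left side is `Eb` for `b₁`. By `null_lim` (`p i = θ i * (w i * w' i) ^ M
i` has the value `θ i * c₁ i ^ M i`) `b₁ N₁ = 0`, and `Ef_eq`. -/
theorem vlo_Ef [CharZero R] (hM : ∀ i, 0 < X.M i) (hχ : HYG.Chars X.M χ) (hE : IsCls₂ X χ E)
    {θ : Fin m → k} (hθ : ∀ i, θ i ≠ 0) {K : Type} [Field K] [Algebra k K] [HasRes k K]
    {z z' : Fin r → Option K} {w w' b : Fin m → K} (hw : ∀ i, w i ≠ 0) (hb : b ≠ 0)
    (h : ∀ i, w i ^ X.M i * (b ⬝ᵥ (X.col z).b i) = b ⬝ᵥ (X.col z).a i) {i : Fin m}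
    (hi : b ⬝ᵥ (X.col z).a i ≠ 0)
    (hN : b ᵥ* X.Nm (fun i => algebraMap k K (θ i)) (fun i => w i * w' i) z z' = 0)
    (v : Place k K) :
    E (fun j => vlo v (z j)) (fun i => vlo v (some (w i))) (fun j => vlo v (z' j))
        (fun i => vlo v (some (w' i))) =
      Ef X E θ (fun i => vlo v (some (w i * w' i))) (fun j => vlo v (z j))
        fun j => vlo v (z' j) := by
  have hF := hE.fcls (fun j => vlo v (z j)) (fun j => vlo v (z' j))
  by_cases hbad : ∃ i, vlo v (some (w i * w' i)) = none ∨ vlo v (some (w i * w' i)) = some 0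
  · obtain ⟨j, hj⟩ := hbad
    rw [Ef_bad hj]
    exact vlo_bad hχ hF hj
  · push Not at hbad
    have h2 : ∀ i, ∃ ω : k, ω ≠ 0 ∧ v.At (w i * w' i) ω := by
      intro i
      rcases GOY.val_cases v (w i * w' i) with h2 | h2
      · exact h2
      · rcases h2 with h2 | h2
        · exact absurd h2 (hbad i).1
        · exact absurd h2 (hbad i).2
    choose c₁ hc₁ hv using h2
    obtain ⟨lam, hl⟩ := exists_lam X v z
    obtain ⟨lam', hl'⟩ := exists_lam X v z'
    obtain ⟨ρ, b₁, _, hb₁, hbv⟩ := exists_lim hl hb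
    have hθK : algebraMap k K (θ i) ≠ 0 := fun h1 =>
      hθ i ((map_eq_zero_iff _ (algebraMap k K).injective).1 h1)
    have hw' : (X.col z').On X.M (fun i => some (w' i)) :=
      on_right (q := fun i => algebraMap k K (θ i)) h hN (mul_ne_zero hθK hi)
    have key := vlo_Eb hM hχ hF hl hl' hb₁ hbv hw h hw' hc₁ hv
    have hq : ∀ i, v.At (algebraMap k K (θ i)) (θ i) := fun i => Place.at_const (v := v) (θ i)
    have hnull := null_lim hl hl' (fun i => (hq i).mul ((hv i).pow (X.M i))) hq hbv hN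
    have e1 : (fun i => vlo v (some (w i * w' i))) = fun i => some (c₁ i) := by
      funext i
      exact HGF.vlo_at (hv i)
    rw [e1, Ef_eq hM hχ hE hθ hc₁ hb₁ hnull]
    exact key

end Pool.Agent.DTU
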