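import Pool.Agent.DTU.EvL
import Pool.Agent.DTU.FOne

/-!
# Points of the hypersurface and their values
-/

set_option autoImplicit false

noncomputable section

namespace Pool.Agent.DTU

open Matrix
open Pool.Agent.ZCyc Pool.Agent.Dess Pool.Agent.GT Pool.Agent.TInc
open Pool.Agent.VFP (Om tt)
open Pool.Agent.HGF (fst snd vlo)
open Pool.Agent.GOC (vo po)
open scoped Classical

variable {k : Type} [Field k] {r m : ℕ} {X : Fam k r m}

section

variable {K : Type} [Field K] [Algebra k K]

/-- (`on_hom`, `col_map`) -/
theorem onX_map {K' : Type} [Field K'] [Algebra k K'] (φ : K →ₐ[k] K') {z : Fin r → Option K}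
    {w : Fin m → Option K} : On X (fun j => (z j).map φ) (fun i => (w i).map φ) ↔ On X z w :=
  on_hom φ (fun i l => (col_map X φ z i l).1) (fun i l => (col_map X φ z i l).2)

/-- constant points (`onX_map` for `φ = Algebra.ofId k K`) -/
theorem onX_cst {z : Fin r → Option k} {w : Fin m → Option k} :
    On X (fun j => (z j).map (algebraMap k K)) (fun i => (w i).map (algebraMap k K)) ↔ On X z w :=
  onX_map (Algebra.ofId k K)

private theorem fst_mul_Val (u : k) (x : Option k) :
    fst (x.map fun w => u * w) = (if x ≠ none then u else 1) * fst x := by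
  cases x with
  | none => simp
  | some f => rw [if_pos (by simp), Option.map_some, HGF.fst_some, HGF.fst_some]

private theorem snd_mul_Val (u : k) (x : Option k) : snd (x.map fun w => u * w) = snd x := by
  cases x with
  | none => rfl
  | some f => rw [Option.map_some, HGF.snd_some, HGF.snd_some]

/-- (`on_rot`) -/
theorem onX_rot {z : Fin r → Option k} {w : Fin m → Option k} (h : On X z w) {i : Fin m} {u : k}
    (hu : u ^ X.M i = 1) : On X z (HYG.rot i u w) := by
  have h1 : ∀ j : Fin m, fst (HYG.rot i u w j) ^ X.M j = fst (w j) ^ X.M j := by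
    intro j
    unfold HYG.rot
    by_cases hj : j = i
    · subst hj
      rw [Function.update_self, fst_mul_Val, mul_pow]
      split_ifs
      · rw [hu, one_mul]
      · rw [one_pow, one_mul]
    · rw [Function.update_of_ne hj]
  have h2 : ∀ j : Fin m, snd (HYG.rot i u w j) = snd (w j) := by
    intro j
    unfold HYG.rot
    by_cases hj : j = i
    · subst hj
      rw [Function.update_self, snd_mul_Val]
    · rw [Function.update_of_ne hj]
  have h3 : (X.col z).ga X.M (HYG.rot i u w) = (X.col z).ga X.M w := by
    funext j l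
    unfold Col.ga
    rw [h1, h2]
  unfold On Col.On at h ⊢
  rw [h3]
  exact h

/-- (`exists_lam`, `on_vlo`) -/
theorem onX_vlo [HasRes k K] (v : Place k K) {z : Fin r → Option K} {w : Fin m → Option K}
    (h : On X z w) : On X (fun j => vlo v (z j)) (fun i => vlo v (w i)) := by
  obtain ⟨lam, hl⟩ := exists_lam X v z
  exact on_vlo hl h

end

variable [IsAlgClosed k] [CharZero k] {R W : Type} [Field R] [AddCommGroup W] [Module R W]
  {χ : Fin m → k → R}
  {E : (Fin r → Option k) → (Fin m → Option k) → (Fin r → Option k) → (Fin m → Option k) → W}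

/-- a class function of two points of two fixed fibres (`col_cst`, `HGF.vlo_const`) -/
theorem IsCls₂.fcls (hE : IsCls₂ X χ E) (z z' : Fin r → Option k) :
    FCls (X.col z) (X.col z') X.M χ fun w w' => E z w z' w' := by
  refine ⟨?_, ?_, ?_⟩
  · intro K _ _ hK w w' f hf h h'
    rw [← col_cst X z] at h
    rw [← col_cst X z'] at h'
    have h1 := hE.cf K hK (fun i => (z i).map (algebraMap k K)) w
      (fun i => (z' i).map (algebraMap k K)) w' f hf h h'
    simpa only [HGF.vlo_const] using h1
  · intro w w' i u hu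
    exact hE.left z w z' w' i u hu
  · intro w w' i u hu
    exact hE.right z w z' w' i u hu

/-- the function with the points exchanged -/
theorem IsCls₂.til (hE : IsCls₂ X χ E) : IsCls₂ X χ (til E) := by
  refine ⟨?_, ?_, ?_⟩
  · intro K _ _ hK z w z' w' f hf h h'
    exact hE.cf K hK z' w' z w f hf h' h
  · intro z w z' w' i u hu
    exact hE.right z' w' z w i u hu
  · intro z w z' w' i u hu
    exact hE.left z' w' z w i u hu

theorem til_til : til (til E) = E := rfl

/-- the second point fixed (`onX_cst`, `HGF.vlo_const`) -/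
theorem IsCls₂.left₁ (hE : IsCls₂ X χ E) {z' : Fin r → Option k} {w' : Fin m → Option k}
    (h : On X z' w') : IsCls₁ X χ fun z w => E z w z' w' := by
  constructor
  · intro K _ _ hK z w f hf hw
    have h1 := hE.cf K hK z w (fun i => (z' i).map (algebraMap k K))
      (fun i => (w' i).map (algebraMap k K)) f hf hw (onX_cst.mpr h)
    simpa only [HGF.vlo_const] using h1
  · intro z w i u hu
    exact hE.left z w z' w' i u hu

omit [IsAlgClosed k] [CharZero k] in
private theorem vlo_below_Val {n : ℕ} {K : IntermediateField k (Om k)}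
    {w : Fin n → Option (Om k)} {w' : Fin n → Option K} (hw : ∀ i, (w' i).map K.val = w i)
    {V : Place k (Om k)} {c : Place k K}
    (hV : V.ring.comap (K.val : K →+* Om k) = c.ring) :
    (fun i => vlo V (w i)) = fun i => vlo c (w' i) := by
  funext i
  rw [← hw, HGF.vlo_alg hV]

/-- the field of definition of finitely many points of the projective line -/
private theorem exists_def_Val {z : Fin r → Option (Om k)} {w : Fin m → Option (Om k)}
    (h : On X z w) :
    ∃ (K : IntermediateField k (Om k)) (a : Fin r → Option K) (b : Fin m → Option K),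
      IsCurve k K ∧ tt k ∈ K ∧ On X a b ∧ (∀ i, (a i).map K.val = z i) ∧
      ∀ i, (b i).map K.val = w i := by
  let Γ' : Finset (Om k) := (Finset.univ.biUnion fun i => (z i).toFinset) ∪
    Finset.univ.biUnion fun i => (w i).toFinset
  obtain ⟨K, hK, hΓ, htt⟩ := ARS.exists_fld Γ'
  have hz : ∀ (i : Fin r) (f : Om k), f ∈ (z i).toFinset → f ∈ (Γ' : Set (Om k)) := by
    intro i f hf
    refine Finset.mem_coe.2 (Finset.mem_union_left _ ?_)
    exact Finset.mem_biUnion.2 ⟨i, Finset.mem_univ _, hf⟩
  have hw : ∀ (i : Fin m) (f : Om k), f ∈ (w i).toFinset → f ∈ (Γ' : Set (Om k)) := by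
    intro i f hf
    refine Finset.mem_coe.2 (Finset.mem_union_right _ ?_)
    exact Finset.mem_biUnion.2 ⟨i, Finset.mem_univ _, hf⟩
  have h1 : ∀ i, ∃ x' : Option K, x'.map K.val = z i := fun i =>
    ARS.lift_opt _ fun f hf => hΓ (hz i f (Option.mem_toFinset.2 hf))
  have h2 : ∀ i, ∃ x' : Option K, x'.map K.val = w i := fun i =>
    ARS.lift_opt _ fun f hf => hΓ (hw i f (Option.mem_toFinset.2 hf))
  choose a ha using h1
  choose b hb using h2
  refine ⟨K, a, b, hK, htt, ?_, ha, hb⟩
  rw [← onX_map (X := X) K.val]
  have e1 : (fun i => (a i).map K.val) = z := funext ha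
  have e2 : (fun i => (b i).map K.val) = w := funext hb
  rw [e1, e2]
  exact h

/-- comparison of two values of the parameter (`GOY.bridge₁`) -/
theorem bridge₁ [CharZero R] {E : (Fin r → Option k) → (Fin m → Option k) → W}
    (hE : IsCls₁ X χ E) {z : Fin r → Option (Om k)} {w : Fin m → Option (Om k)}
    (hw : On X z w) {c₀ c₁ : k} {C₀ C₁ : W}
    (h₀ : ∀ v : Place k (Om k), v.At (tt k) c₀ →
      E (fun i => vlo v (z i)) (fun i => vlo v (w i)) = C₀)
    (h₁ : ∀ v : Place k (Om k), v.At (tt k) c₁ →
      E (fun i => vlo v (z i)) (fun i => vlo v (w i)) = C₁) : C₀ = C₁ := by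
  obtain ⟨K, a, b, hK, htt, hon, ha, hb⟩ := exists_def_Val hw
  have hW : ∀ (n : ℕ) (x : W), n ≠ 0 → n • x = 0 → x = 0 := by
    intro n x hn hx
    rw [← Nat.cast_smul_eq_nsmul R] at hx
    exact (smul_eq_zero.1 hx).resolve_left (Nat.cast_ne_zero.2 hn)
  refine ARS.bridge_core hW hK htt (fun v => E (fun i => vlo v (z i)) fun i => vlo v (w i))
    (fun v => E (fun i => vlo v (a i)) fun i => vlo v (b i)) (fun V c hV => ?_)
    (fun f hf => hE.cf K hK a b f hf hon) h₀ h₁
  rw [vlo_below_Val ha hV, vlo_below_Val hb hV]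

end Pool.Agent.DTU
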